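import Pool.Agent.Lib_helper50.A55.Par
/-!
# MP_a55cb8: block C1, elementary programs (helper53)
-/

open Matrix Finset

namespace A55

/-- step of the binary logarithm -/
def C1_stepL (n : ℕ) (_ : ℕ) (st : ℕ × ℕ) : ℕ × ℕ :=
  if n < 2 * st.2 then st else (st.1 + 1, 2 * st.2)

theorem C1_iterL (n : ℕ) (hn : n ≠ 0) (j : ℕ) :
    iterV (C1_stepL n) (0, 1) j = (min j n.log2, 2 ^ min j n.log2) := by
  induction j with
  | zero => simp
  | succ j ih =>
    rw [iterV_succ, ih]
    unfold C1_stepL
    simp only
    rcases Nat.lt_or_ge j n.log2 with h | h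
    · rw [min_eq_left h.le, min_eq_left (show j + 1 ≤ n.log2 by omega)]
      have h1 : 2 ^ (j + 1) ≤ n := (Nat.le_log2 hn).1 h
      rw [if_neg (by rw [pow_succ] at h1; omega)]
      rw [pow_succ, mul_comm]
    · rw [min_eq_right h, min_eq_right (show n.log2 ≤ j + 1 by omega)]
      have h1 : ¬ 2 ^ (n.log2 + 1) ≤ n := fun h2 => by
        have := (Nat.le_log2 hn).2 h2
        omega
      rw [if_pos (by rw [pow_succ] at h1; omega)]

theorem C1_log2_le (n : ℕ) (hn : n ≠ 0) : n.log2 ≤ n := by
  have h1 : 2 ^ n.log2 ≤ n := (Nat.le_log2 hn).1 le_rfl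
  exact (Nat.lt_two_pow_self).le.trans h1

theorem log2_oc : OC .nat .nat (fun _ => True) Nat.log2 (fun n => n) := by
  have hB : OC (.prod .nat (.prod .nat (.prod .nat .nat))) (.prod .nat .nat) (fun _ => True)
      (fun p => C1_stepL p.1 p.2.1 p.2.2) (fun _ => 0) := by
    unfold C1_stepL
    refine OC.ifN (OC.fst OC.id) (OC.nmul (OC.nlit 2) (OC.snd (OC.snd (OC.snd OC.id))))
      (OC.snd (OC.snd OC.id)) (OC.pair (OC.nadd (OC.fst (OC.snd (OC.snd OC.id))) (OC.nlit 1))
        (OC.nmul (OC.nlit 2) (OC.snd (OC.snd (OC.snd OC.id)))))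
  have h := OC.iter0 (s := .nat) (t := .prod .nat .nat) (V := fun _ => True) (w := fun n => n)
    (N := fun n => n) (A := fun _ => ((0, 1) : ℕ × ℕ)) (B := C1_stepL) OC.id
    (OC.pair (OC.nlit 0) (OC.nlit 1)) hB 1 (fun x _ => by omega)
  refine (OC.fst h).congr fun n _ => ?_
  rcases Nat.eq_zero_or_pos n with rfl | hn
  · rfl
  · rw [C1_iterL n (by omega), min_eq_right (C1_log2_le n (by omega))]

theorem half_oc : OC .nat .nat (fun _ => True) (fun n => n / 2) (fun n => n) := by
  have hB : OC (.prod .nat (.prod .nat .nat)) .nat (fun _ => True)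
      (fun p => if p.2.1 + 1 = 2 * (p.2.2 + 1) then p.2.2 + 1 else p.2.2) (fun _ => 0) :=
    OC.ifEq (OC.nadd (OC.fst (OC.snd OC.id)) (OC.nlit 1))
      (OC.nmul (OC.nlit 2) (OC.nadd (OC.snd (OC.snd OC.id)) (OC.nlit 1)))
      (OC.nadd (OC.snd (OC.snd OC.id)) (OC.nlit 1)) (OC.snd (OC.snd OC.id))
  have h := OC.iter0 (s := .nat) (t := .nat) (V := fun _ => True) (w := fun n => n)
    (N := fun n => n) (A := fun _ => (0 : ℕ))
    (B := fun _ i st => if i + 1 = 2 * (st + 1) then st + 1 else st) OC.id
    (OC.nlit 0) hB 1 (fun x _ => by omega)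
  refine h.congr fun n _ => ?_
  have key : ∀ j : ℕ, iterV (fun i st => if i + 1 = 2 * (st + 1) then st + 1 else st) 0 j =
      j / 2 := by
    intro j
    induction j with
    | zero => rfl
    | succ j ih =>
      rw [iterV_succ, ih]
      split_ifs with h1 <;> omega
  exact key n

theorem npow_oc : OC (.prod .nat .nat) .nat (fun _ => True) (fun x => x.1 ^ x.2)
    (fun x => x.2) := by
  have hB : OC (.prod (.prod .nat .nat) (.prod .nat .nat)) .nat (fun _ => True)
      (fun p => p.2.2 * p.1.1) (fun _ => 0) :=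
    OC.nmul (OC.snd (OC.snd OC.id)) (OC.fst (OC.fst OC.id))
  have h := OC.iter0 (s := .prod .nat .nat) (t := .nat) (V := fun _ => True) (w := fun x => x.2)
    (N := fun x => x.2) (A := fun _ => (1 : ℕ)) (B := fun x _ st => st * x.1) (OC.snd OC.id)
    (OC.nlit 1) hB 1 (fun x _ => by omega)
  refine h.congr fun x _ => ?_
  have key : ∀ j : ℕ, iterV (fun _ st => st * x.1) 1 j = x.1 ^ j := by
    intro j
    induction j with
    | zero => rfl
    | succ j ih => rw [iterV_succ, ih, pow_succ]
  exact key x.2

theorem rpow_oc : OC (.prod .real .nat) .real (fun _ => True) (fun x => x.1 ^ x.2)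
    (fun x => x.2) := by
  have hB : OC (.prod (.prod .real .nat) (.prod .nat .real)) .real (fun _ => True)
      (fun p => p.2.2 * p.1.1) (fun _ => 0) :=
    OC.mul (OC.snd (OC.snd OC.id)) (OC.fst (OC.fst OC.id))
  have h := OC.iter0 (s := .prod .real .nat) (t := .real) (V := fun _ => True)
    (w := fun x => x.2)
    (N := fun x => x.2) (A := fun _ => (1 : ℝ)) (B := fun x _ st => st * x.1) (OC.snd OC.id)
    OC.r1 hB 1 (fun x _ => by omega)
  refine h.congr fun x _ => ?_
  have key : ∀ j : ℕ, iterV (fun _ st => st * x.1) 1 j = x.1 ^ j := by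
    intro j
    induction j with
    | zero => simp
    | succ j ih => rw [iterV_succ, ih, pow_succ]
  exact key x.2

theorem C1_getD {α : Type} (L : List α) (a d : α) :
    Function.update (fun i => L.getD i d) L.length a = fun i => (L ++ [a]).getD i d := by
  funext i
  rcases lt_trichotomy i L.length with h | h | h
  · rw [Function.update_of_ne h.ne, List.getD_append _ _ _ _ h]
  · subst h
    rw [Function.update_self]
    simp
  · rw [Function.update_of_ne h.ne', List.getD_eq_default _ _ h.le,
      List.getD_eq_default _ _ (by simp; omega)]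

/-- arrays given by lists of functions -/
theorem listN_oc {s : Ty} {V : s.den → Prop} {w : s.den → ℕ} (L : List (s.den → ℕ))
    (h : ∀ F ∈ L, OC s .nat V F w) :
    OC s NArr V (fun x i => (L.map fun F => F x).getD i 0) w := by
  induction L using List.reverseRecOn with
  | nil =>
    refine (OC.dflt (.arr .nat)).congr fun x _ => ?_
    funext i
    simp
    rfl
  | append_singleton L F ih =>
    have h1 := ih fun G hG => h G (List.mem_append_left _ hG)
    have h2 := h F (by simp)
    refine (OC.upd h1 (OC.nlit L.length) h2).congr fun x _ => ?_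
    have h3 := C1_getD (L.map fun F => F x) (F x) 0
    rw [List.length_map] at h3
    rw [List.map_append, List.map_singleton]
    exact h3

theorem listR_oc {s : Ty} {V : s.den → Prop} {w : s.den → ℕ} (L : List (s.den → ℝ))
    (h : ∀ F ∈ L, OC s .real V F w) :
    OC s VecT V (fun x i => (L.map fun F => F x).getD i 0) w := by
  induction L using List.reverseRecOn with
  | nil =>
    refine (OC.dflt (.arr .real)).congr fun x _ => ?_
    funext i
    simp
    rfl
  | append_singleton L F ih =>
    have h1 := ih fun G hG => h G (List.mem_append_left _ hG)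
    have h2 := h F (by simp)
    refine (OC.upd h1 (OC.nlit L.length) h2).congr fun x _ => ?_
    have h3 := C1_getD (L.map fun F => F x) (F x) 0
    rw [List.length_map] at h3
    rw [List.map_append, List.map_singleton]
    exact h3

end A55
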