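import Pool.Agent.Lib_helper50.A55.Par
import Pool.Agent.Lib_helper50.A55.B.C1
/-!
# MP_a55cb8, block C2: the cost of the parameters
-/

open Finset

namespace A55

/-! ## the input as natural numbers -/

def C2_n (x : InT.den) : ℕ := x.1.1
def C2_k (x : InT.den) : ℕ := x.1.2
def C2_N (x : InT.den) : ℕ := x.2.1
def C2_a (x : InT.den) : ℕ := x.2.2.1
def C2_q (x : InT.den) : ℕ := x.2.2.2

section

variable (c : Cst) (x : InT.den)

theorem C2_wPar : wPar c x = C2_n x + (C2_k x + 1) * pl c x ^ (c.cB + 40) + C2_q x := rfl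
theorem C2_pb1 : pb1 c x = Nat.log2 (16 * (C2_k x + 1) * pl c x ^ 6) + 1 := rfl
theorem C2_pb2 : pb2 c x = Nat.log2 (16 * (pm1 c x + 1) * pl c x ^ 6) + 1 := rfl
theorem C2_pb3 : pb3 c x = Nat.log2 (16 * (pkk c x + 1) * pl c x ^ 6) + 1 := rfl
theorem C2_pm1e : pm1 c x = pl c x * 2 ^ pb1 c x := rfl
theorem C2_pm2e : pm2 c x = pl c x * 2 ^ pb2 c x := rfl
theorem C2_pk3e : pk3 c x = pl c x * 2 ^ pb3 c x := rfl
theorem C2_pkk : pkk c x = C2_k x + pm1 c x := rfl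

/-! ## bounds of the values -/

theorem C2_pl (hc : 2 ≤ c.c1) : 2 ≤ pl c x := by
  unfold pl
  omega

theorem C2_pos (hc : 2 ≤ c.c1) (j : ℕ) : 1 ≤ pl c x ^ j :=
  Nat.one_le_pow _ _ (by have := C2_pl c x hc; omega)

theorem C2_mono (hc : 2 ≤ c.c1) {i j : ℕ} (h : i ≤ j) : pl c x ^ i ≤ pl c x ^ j :=
  Nat.pow_le_pow_right (by have := C2_pl c x hc; omega) h

/-- the main term of the weight -/
theorem C2_w (hc : 2 ≤ c.c1) {j : ℕ} (hj : j ≤ c.cB + 40) :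
    (C2_k x + 1) * pl c x ^ j ≤ wPar c x := by
  rw [C2_wPar]
  have h1 : (C2_k x + 1) * pl c x ^ j ≤ (C2_k x + 1) * pl c x ^ (c.cB + 40) :=
    Nat.mul_le_mul_left _ (C2_mono c x hc hj)
  omega

theorem C2_w1 (hc : 2 ≤ c.c1) {j : ℕ} (hj : j ≤ c.cB + 40) : pl c x ^ j ≤ wPar c x := by
  refine le_trans ?_ (C2_w c x hc hj)
  exact Nat.le_mul_of_pos_left _ (by omega)

theorem C2_lw (hc : 2 ≤ c.c1) : pl c x ≤ wPar c x := by
  simpa using C2_w1 c x hc (j := 1) (by omega)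

theorem C2_nw : C2_n x ≤ wPar c x := by
  rw [C2_wPar]
  omega

theorem C2_qw : C2_q x ≤ wPar c x := by
  rw [C2_wPar]
  omega

theorem C2_two_log {v : ℕ} (hv : v ≠ 0) : 2 ^ (Nat.log2 v + 1) ≤ 2 * v := by
  rw [pow_succ, mul_comm]
  exact Nat.mul_le_mul_left 2 (Nat.log2_self_le hv)

theorem C2_log_le (v : ℕ) : Nat.log2 v ≤ v := by
  rcases Nat.eq_zero_or_pos v with rfl | hv
  · simp
  · have h1 := Nat.log2_self_le (n := v) (by omega)
    have h2 : Nat.log2 v < 2 ^ Nat.log2 v := Nat.lt_two_pow_self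
    omega

theorem C2_one (hc : 2 ≤ c.c1) (j : ℕ) : 1 ≤ (C2_k x + 1) * pl c x ^ j :=
  Nat.mul_pos (by omega) (C2_pos c x hc j)

theorem C2_pm1 (hc : 2 ≤ c.c1) : pm1 c x ≤ 32 * ((C2_k x + 1) * pl c x ^ 7) := by
  rw [C2_pm1e, C2_pb1]
  have h1 : 16 * (C2_k x + 1) * pl c x ^ 6 ≠ 0 := by
    have := C2_pos c x hc 6
    positivity
  have h2 := C2_two_log h1
  calc pl c x * 2 ^ (Nat.log2 (16 * (C2_k x + 1) * pl c x ^ 6) + 1)
      ≤ pl c x * (2 * (16 * (C2_k x + 1) * pl c x ^ 6)) := Nat.mul_le_mul_left _ h2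
    _ = _ := by ring

theorem C2_arg2 (hc : 2 ≤ c.c1) :
    16 * (pm1 c x + 1) * pl c x ^ 6 ≤ 528 * ((C2_k x + 1) * pl c x ^ 13) := by
  have h1 := C2_pm1 c x hc
  have h2 := C2_one c x hc 7
  have h3 : pm1 c x + 1 ≤ 33 * ((C2_k x + 1) * pl c x ^ 7) := by omega
  calc 16 * (pm1 c x + 1) * pl c x ^ 6
      ≤ 16 * (33 * ((C2_k x + 1) * pl c x ^ 7)) * pl c x ^ 6 := by
        gcongr
    _ = _ := by ring

theorem C2_pm2 (hc : 2 ≤ c.c1) : pm2 c x ≤ 1056 * ((C2_k x + 1) * pl c x ^ 14) := by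
  rw [C2_pm2e, C2_pb2]
  have h1 : 16 * (pm1 c x + 1) * pl c x ^ 6 ≠ 0 := by
    have := C2_pos c x hc 6
    positivity
  have h2 := C2_two_log h1
  have h3 := C2_arg2 c x hc
  calc pl c x * 2 ^ (Nat.log2 (16 * (pm1 c x + 1) * pl c x ^ 6) + 1)
      ≤ pl c x * (2 * (528 * ((C2_k x + 1) * pl c x ^ 13))) :=
        Nat.mul_le_mul_left _ (h2.trans (Nat.mul_le_mul_left 2 h3))
    _ = _ := by ring

theorem C2_arg3 (hc : 2 ≤ c.c1) :
    16 * (pkk c x + 1) * pl c x ^ 6 ≤ 528 * ((C2_k x + 1) * pl c x ^ 13) := by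
  have h1 := C2_pm1 c x hc
  have h2 : C2_k x + 1 ≤ (C2_k x + 1) * pl c x ^ 7 :=
    Nat.le_mul_of_pos_right _ (C2_pos c x hc 7)
  have h3 : pkk c x + 1 ≤ 33 * ((C2_k x + 1) * pl c x ^ 7) := by
    rw [C2_pkk]
    omega
  calc 16 * (pkk c x + 1) * pl c x ^ 6
      ≤ 16 * (33 * ((C2_k x + 1) * pl c x ^ 7)) * pl c x ^ 6 := by
        gcongr
    _ = _ := by ring

theorem C2_pk3 (hc : 2 ≤ c.c1) : pk3 c x ≤ 1056 * ((C2_k x + 1) * pl c x ^ 14) := by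
  rw [C2_pk3e, C2_pb3]
  have h1 : 16 * (pkk c x + 1) * pl c x ^ 6 ≠ 0 := by
    have := C2_pos c x hc 6
    positivity
  have h2 := C2_two_log h1
  have h3 := C2_arg3 c x hc
  calc pl c x * 2 ^ (Nat.log2 (16 * (pkk c x + 1) * pl c x ^ 6) + 1)
      ≤ pl c x * (2 * (528 * ((C2_k x + 1) * pl c x ^ 13))) :=
        Nat.mul_le_mul_left _ (h2.trans (Nat.mul_le_mul_left 2 h3))
    _ = _ := by ring

end

/-! ## programs -/

section

variable (c : Cst)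

theorem C2_log {F : InT.den → ℕ} (hF : OC InT .nat (fun _ => True) F (wPar c)) (K : ℕ)
    (hK : ∀ x, F x ≤ K * (wPar c x + 1)) :
    OC InT .nat (fun _ => True) (fun x => Nat.log2 (F x)) (wPar c) :=
  OC.comp log2_oc hF (fun _ _ => trivial) K fun x _ => hK x

theorem C2_npow {B F : InT.den → ℕ} (hB : OC InT .nat (fun _ => True) B (wPar c))
    (hF : OC InT .nat (fun _ => True) F (wPar c)) (K : ℕ)
    (hK : ∀ x, F x ≤ K * (wPar c x + 1)) :
    OC InT .nat (fun _ => True) (fun x => B x ^ F x) (wPar c) :=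
  OC.comp (F := fun x => (B x, F x)) npow_oc (OC.pair hB hF) (fun _ _ => trivial) K
    fun x _ => hK x

theorem C2_n_oc : OC InT .nat (fun _ => True) C2_n (wPar c) := OC.fst (OC.fst OC.id)
theorem C2_k_oc : OC InT .nat (fun _ => True) C2_k (wPar c) := OC.snd (OC.fst OC.id)
theorem C2_N_oc : OC InT .nat (fun _ => True) C2_N (wPar c) := OC.fst (OC.snd OC.id)
theorem C2_a_oc : OC InT .nat (fun _ => True) C2_a (wPar c) := OC.fst (OC.snd (OC.snd OC.id))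
theorem C2_q_oc : OC InT .nat (fun _ => True) C2_q (wPar c) := OC.snd (OC.snd (OC.snd OC.id))

theorem C2_pl_oc : OC InT .nat (fun _ => True) (pl c) (wPar c) :=
  OC.nadd (C2_log c (C2_n_oc c) 1 fun x => (C2_nw c x).trans (by omega)) (OC.nlit _)

theorem C2_loglog_oc (hc : 2 ≤ c.c1) :
    OC InT .nat (fun _ => True) (fun x => Nat.log2 (pl c x)) (wPar c) :=
  C2_log c (C2_pl_oc c) 1 fun x => by have := C2_lw c x hc; omega

theorem C2_tau_oc (hc : 2 ≤ c.c1) : OC InT .nat (fun _ => True) (ptau c) (wPar c) :=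
  OC.nmul (OC.nlit _) (C2_loglog_oc c hc)

theorem C2_tau_le (hc : 2 ≤ c.c1) (x : InT.den) : ptau c x ≤ c.ct * (wPar c x + 1) := by
  unfold ptau
  have h1 := C2_log_le (pl c x)
  have h2 := C2_lw c x hc
  exact Nat.mul_le_mul_left _ (by omega)

theorem C2_K_oc (hc : 2 ≤ c.c1) : OC InT .nat (fun _ => True) (pK c) (wPar c) :=
  C2_npow c (OC.nlit 4) (C2_tau_oc c hc) c.ct (C2_tau_le c hc)

theorem C2_2tau_oc (hc : 2 ≤ c.c1) :
    OC InT .nat (fun _ => True) (fun x => 2 ^ ptau c x) (wPar c) :=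
  C2_npow c (OC.nlit 2) (C2_tau_oc c hc) c.ct (C2_tau_le c hc)

theorem C2_pb1_oc (hc : 2 ≤ c.c1) : OC InT .nat (fun _ => True) (pb1 c) (wPar c) :=
  OC.nadd (C2_log c (F := fun x => 16 * (C2_k x + 1) * pl c x ^ 6)
    (OC.nmul (OC.nmul (OC.nlit 16) (OC.nadd (C2_k_oc c) (OC.nlit 1)))
    ((C2_pl_oc c).npow 6)) 16 fun x => by
      have h := C2_w c x hc (j := 6) (by omega)
      rw [mul_assoc]
      exact Nat.mul_le_mul_left _ (by omega)) (OC.nlit 1)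

theorem C2_pb1_le (hc : 2 ≤ c.c1) (x : InT.den) : pb1 c x ≤ 16 * (wPar c x + 1) := by
  rw [C2_pb1]
  have h := C2_w c x hc (j := 6) (by omega)
  have h1 := C2_log_le (16 * (C2_k x + 1) * pl c x ^ 6)
  rw [mul_assoc] at h1 ⊢
  omega

theorem C2_pm1_oc (hc : 2 ≤ c.c1) : OC InT .nat (fun _ => True) (pm1 c) (wPar c) :=
  OC.nmul (C2_pl_oc c) (C2_npow c (OC.nlit 2) (C2_pb1_oc c hc) 16 (C2_pb1_le c hc))

theorem C2_pb2_oc (hc : 2 ≤ c.c1) : OC InT .nat (fun _ => True) (pb2 c) (wPar c) :=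
  OC.nadd (C2_log c (OC.nmul (OC.nmul (OC.nlit 16) (OC.nadd (C2_pm1_oc c hc) (OC.nlit 1)))
    ((C2_pl_oc c).npow 6)) 528 fun x => by
      have h := C2_w c x hc (j := 13) (by omega)
      have h1 := C2_arg2 c x hc
      omega) (OC.nlit 1)

theorem C2_pb2_le (hc : 2 ≤ c.c1) (x : InT.den) : pb2 c x ≤ 528 * (wPar c x + 1) := by
  rw [C2_pb2]
  have h := C2_w c x hc (j := 13) (by omega)
  have h1 := C2_arg2 c x hc
  have h2 := C2_log_le (16 * (pm1 c x + 1) * pl c x ^ 6)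
  omega

theorem C2_pm2_oc (hc : 2 ≤ c.c1) : OC InT .nat (fun _ => True) (pm2 c) (wPar c) :=
  OC.nmul (C2_pl_oc c) (C2_npow c (OC.nlit 2) (C2_pb2_oc c hc) 528 (C2_pb2_le c hc))

theorem C2_pkk_oc (hc : 2 ≤ c.c1) : OC InT .nat (fun _ => True) (pkk c) (wPar c) :=
  OC.nadd (C2_k_oc c) (C2_pm1_oc c hc)

theorem C2_pb3_oc (hc : 2 ≤ c.c1) : OC InT .nat (fun _ => True) (pb3 c) (wPar c) :=
  OC.nadd (C2_log c (OC.nmul (OC.nmul (OC.nlit 16) (OC.nadd (C2_pkk_oc c hc) (OC.nlit 1)))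
    ((C2_pl_oc c).npow 6)) 528 fun x => by
      have h := C2_w c x hc (j := 13) (by omega)
      have h1 := C2_arg3 c x hc
      omega) (OC.nlit 1)

theorem C2_pb3_le (hc : 2 ≤ c.c1) (x : InT.den) : pb3 c x ≤ 528 * (wPar c x + 1) := by
  rw [C2_pb3]
  have h := C2_w c x hc (j := 13) (by omega)
  have h1 := C2_arg3 c x hc
  have h2 := C2_log_le (16 * (pkk c x + 1) * pl c x ^ 6)
  omega

theorem C2_pk3_oc (hc : 2 ≤ c.c1) : OC InT .nat (fun _ => True) (pk3 c) (wPar c) :=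
  OC.nmul (C2_pl_oc c) (C2_npow c (OC.nlit 2) (C2_pb3_oc c hc) 528 (C2_pb3_le c hc))

theorem C2_Bd_oc : OC InT .nat (fun _ => True) (pBd c) (wPar c) := (C2_pl_oc c).npow c.cB

theorem C2_hcap_oc : OC InT .nat (fun _ => True) (phcap c) (wPar c) :=
  OC.nmul (C2_Bd_oc c) (OC.nadd (C2_k_oc c) (OC.nlit 1))

theorem C2_ps_oc (hc : 2 ≤ c.c1) : OC InT .nat (fun _ => True) (ps c) (wPar c) :=
  OC.nadd (C2_log c (OC.nadd (OC.nadd (C2_hcap_oc c) (C2_pm2_oc c hc)) (C2_pk3_oc c hc)) 2113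
    fun x => by
      have h := C2_w c x hc (j := 14) (by omega)
      have h1 := C2_pm2 c x hc
      have h2 := C2_pk3 c x hc
      have h3 : phcap c x = (C2_k x + 1) * pl c x ^ c.cB := mul_comm _ _
      have h4 := C2_w c x hc (j := c.cB) (by omega)
      omega) (OC.nlit 1)

theorem C2_pM_oc : OC InT .nat (fun _ => True) (pM c) (wPar c) := (C2_pl_oc c).npow 6

theorem C2_pt_oc : OC InT .nat (fun _ => True) (pt c) (wPar c) :=
  OC.nadd (OC.nmul (OC.nlit 2) ((C2_pl_oc c).npow 5)) (OC.nlit 2)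

theorem C2_deg1_oc : OC InT .nat (fun _ => True) (pdeg1 c) (wPar c) :=
  OC.nmul (C2_pl_oc c) (C2_pt_oc c)

theorem C2_degK_oc (hc : 2 ≤ c.c1) : OC InT .nat (fun _ => True) (pdegK c) (wPar c) :=
  OC.nmul (OC.nmul (C2_pl_oc c) (C2_2tau_oc c hc)) (C2_pt_oc c)

theorem C2_mout_oc (hc : 2 ≤ c.c1) : OC InT .nat (fun _ => True) (pmout c) (wPar c) :=
  OC.nmul (OC.nmul (OC.nmul (OC.nmul (OC.nlit 3) (C2_pl_oc c)) (C2_2tau_oc c hc)) (C2_a_oc c))
    (OC.nadd (OC.nadd (OC.nadd (C2_q_oc c) ((C2_pl_oc c).npow 3)) (C2_pl_oc c)) (OC.nlit 1))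

/-- input `(l, (K, (A, B)))` -/
theorem C2_count : OC (.prod .nat (.prod .nat (.prod .nat .nat))) .nat (fun _ => True)
    (fun u => ∑ b ∈ range u.1, if u.2.1 ^ (3 * b) * u.2.2.1 < u.2.2.2 then 1 else 0)
    (fun u => u.1 ^ 2) := by
  have h1 : OC (.prod (.prod .nat (.prod .nat (.prod .nat .nat))) (.prod .nat .nat)) .nat
      (fun p => True ∧ p.2.1 < p.1.1 ∧ p.2.2 = iterV (fun i (acc : ℕ) =>
        acc + if p.1.2.1 ^ (3 * i) * p.1.2.2.1 < p.1.2.2.2 then 1 else 0) 0 p.2.1)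
      (fun p => p.2.2 + if p.1.2.1 ^ (3 * p.2.1) * p.1.2.2.1 < p.1.2.2.2 then 1 else 0)
      (fun p => 3 * p.2.1) := by
    refine OC.nadd (OC.snd (OC.snd OC.id)) (OC.ifN (OC.nmul ?_ ?_) ?_ (OC.nlit 1) (OC.nlit 0))
    · exact OC.comp (s := .prod (.prod .nat (.prod .nat (.prod .nat .nat))) (.prod .nat .nat))
        (F := fun p => (p.1.2.1, 3 * p.2.1)) npow_oc
        (OC.pair (OC.fst (OC.snd (OC.fst OC.id))) (OC.nmul (OC.nlit 3) (OC.fst (OC.snd OC.id))))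
        (fun _ _ => trivial) 1 (fun p _ => by
          show 3 * p.2.1 ≤ 1 * (3 * p.2.1 + 1)
          rw [one_mul]
          exact Nat.le_succ _)
    · exact OC.fst (OC.snd (OC.snd (OC.fst OC.id)))
    · exact OC.snd (OC.snd (OC.snd (OC.fst OC.id)))
  refine (OC.iter (s := .prod .nat (.prod .nat (.prod .nat .nat))) (t := .nat)
    (N := fun u => u.1) (A := fun _ => (0 : ℕ))
    (B := fun u i (acc : ℕ) => acc + if u.2.1 ^ (3 * i) * u.2.2.1 < u.2.2.2 then 1 else 0)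
    (OC.fst OC.id) (OC.nlit 0) h1 4 fun u _ => ?_).congr fun u _ => ?_
  · have h2 : ∀ m : ℕ, ∑ j ∈ range m, (3 * j + 1) ≤ 4 * (m ^ 2 + 1) := by
      intro m
      have h3 : ∑ j ∈ range m, (3 * j + 1) ≤ ∑ j ∈ range m, (3 * m + 1) :=
        sum_le_sum fun j hj => by have := mem_range.1 hj; omega
      rw [sum_const, card_range, smul_eq_mul] at h3
      refine h3.trans ?_
      nlinarith
    exact h2 u.1
  · have : ∀ m, iterV (fun i (acc : ℕ) =>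
        acc + if u.2.1 ^ (3 * i) * u.2.2.1 < u.2.2.2 then 1 else 0) 0 m =
        ∑ b ∈ range m, if u.2.1 ^ (3 * b) * u.2.2.1 < u.2.2.2 then 1 else 0 := by
      intro m
      induction m with
      | zero => simp
      | succ m ih => rw [iterV_succ, ih, sum_range_succ]
    exact this _

theorem C2_bb_oc (hc : 2 ≤ c.c1) : OC InT .nat (fun _ => True) (pbb c) (wPar c) :=
  OC.comp (F := fun x => (pl c x, (pK c x, ((C2_a x * C2_k x) ^ 2, C2_N x ^ 2)))) C2_count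
    (OC.pair (C2_pl_oc c) (OC.pair (C2_K_oc c hc)
      (OC.pair ((OC.nmul (C2_a_oc c) (C2_k_oc c)).npow 2) ((C2_N_oc c).npow 2))))
    (fun _ _ => trivial) 1 fun x _ => by
      have h := C2_w1 c x hc (j := 2) (by omega)
      show pl c x ^ 2 ≤ 1 * (wPar c x + 1)
      omega

theorem C2_ph_oc (hc : 2 ≤ c.c1) : OC InT .nat (fun _ => True) (ph c) (wPar c) :=
  OC.nsub (OC.nmul (C2_tau_oc c hc) (C2_bb_oc c hc)) (OC.nmul (OC.nlit _) (C2_loglog_oc c hc))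

theorem C2_W_oc : OC InT .nat (fun _ => True) (pW c) (wPar c) :=
  OC.nmul (C2_n_oc c) ((C2_pl_oc c).npow 8)

end

theorem parN_oc (c : Cst) (hc : 2 ≤ c.c1) : OC InT NArr (fun _ => True) (parN c) (wPar c) := by
  have h := listN_oc (s := InT) (V := fun _ => True) (w := wPar c)
    [C2_n, C2_k, C2_N, C2_a, C2_q, pl c, pb1 c, pm1 c, pb2 c, pm2 c, pb3 c, pk3 c, ps c, pM c,
      pK c, (fun x => pl c x ^ 3), pdeg1 c, pdegK c, (fun x => pl c x ^ 3), pmout c, pBd c, pbb c,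
      ph c, pW c, phcap c] (by
    simp only [List.forall_mem_cons]
    exact ⟨C2_n_oc c, C2_k_oc c, C2_N_oc c, C2_a_oc c, C2_q_oc c, C2_pl_oc c, C2_pb1_oc c hc,
      C2_pm1_oc c hc, C2_pb2_oc c hc, C2_pm2_oc c hc, C2_pb3_oc c hc, C2_pk3_oc c hc,
      C2_ps_oc c hc, C2_pM_oc c, C2_K_oc c hc, (C2_pl_oc c).npow 3, C2_deg1_oc c,
      C2_degK_oc c hc, (C2_pl_oc c).npow 3, C2_mout_oc c hc, C2_Bd_oc c, C2_bb_oc c hc,
      C2_ph_oc c hc, C2_W_oc c, C2_hcap_oc c, fun F hF => absurd hF (List.not_mem_nil)⟩)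
  exact h

theorem parQ_oc (c : Cst) (hc : 2 ≤ c.c1) : OC InT VecT (fun _ => True) (parQ c) (wPar c) := by
  have hl := (C2_pl_oc c).cast
  have hK := (C2_K_oc c hc).cast
  have ha := (C2_a_oc c).cast
  have h2 : OC InT .real (fun _ => True)
      (fun x => (2 : ℝ) ^ (C2_q x + pl c x ^ 3)) (wPar c) :=
    OC.comp (F := fun x => ((2 : ℝ), C2_q x + pl c x ^ 3)) rpow_oc
      (OC.pair (OC.rofNat 2) (OC.nadd (C2_q_oc c) ((C2_pl_oc c).npow 3)))
      (fun _ _ => trivial) 2 fun x _ => by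
        have h := C2_w1 c x hc (j := 3) (by omega)
        have h1 := C2_qw c x
        show C2_q x + pl c x ^ 3 ≤ 2 * (wPar c x + 1)
        omega
  have h := listR_oc (s := InT) (V := fun _ => True) (w := wPar c)
    [(fun x => (pl c x : ℝ) ^ 100), (fun x => (4 * (pl c x : ℝ) ^ 30)⁻¹),
      (fun x => (pl c x : ℝ)⁻¹), (fun x => ((pl c x : ℝ) * (pK c x : ℝ))⁻¹),
      (fun x => (pl c x : ℝ)),
      (fun x => (4 * (pl c x : ℝ) * (pK c x : ℝ) * (C2_a x : ℝ) ^ 2)⁻¹),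
      (fun x => ((2 : ℝ) ^ (C2_q x + pl c x ^ 3) * (C2_a x : ℝ))⁻¹ ^ 2)] (by
    simp only [List.forall_mem_cons]
    exact ⟨hl.rpow 100, OC.inv (OC.mul (OC.rofNat 4) (hl.rpow 30)), OC.inv hl,
      OC.inv (OC.mul hl hK), hl,
      OC.inv (OC.mul (OC.mul (OC.mul (OC.rofNat 4) hl) hK) (ha.rpow 2)),
      (OC.inv (OC.mul h2 ha)).rpow 2, fun F hF => absurd hF (List.not_mem_nil)⟩)
  exact h

end A55
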