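import Pool.Agent.Lib_helper50.A55.Par
/-!
# MP_a55cb8: block C5, the elimination operator (helper67)
-/

open Matrix Finset

namespace A55

section

variable {mm : ℕ → ℕ} (Φ : Lib mm)

/-! ### lists -/

theorem C5_SkOK {n J m : ℕ} {x : CooT.den} (h : SkOK n J m x) : CooOK m n x := by
  intro e he
  rw [h.1] at he
  have hn : 0 < n := by
    rcases Nat.eq_zero_or_pos n with h0 | h0
    · subst h0; simp at he
    · exact h0
  have h1 : e / n < J := by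
    rw [Nat.div_lt_iff_lt_mul hn]
    exact he
  have h2 : e % n < n := Nat.mod_lt _ hn
  have h3 : e / n * n + e % n = e := Nat.div_add_mod' e n
  have h4 := h.2 (e / n) h1 (e % n) h2
  rw [h3] at h4
  exact ⟨h4.2, by rw [h4.1]; exact h2⟩

theorem C5_CooT {a c : ℕ} {x : CooT.den} (h : CooOK a c x) : CooOK c a (cooT x) :=
  fun e he => ⟨(h e he).2, (h e he).1⟩

theorem C5_cooA (x : CooT.den) (i j : ℕ) : cooA (cooT x) i j = cooA x j i := by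
  unfold cooA cooT
  refine sum_congr rfl fun e _ => ?_
  simp only [and_comm]

theorem C5_len {a c : ℕ} {x : CooT.den} (h : CooOK a c x) :
    @Eq ℕ x.1 (∑ i ∈ range a, rowCnt x i) := by
  have h1 := card_eq_sum_card_fiberwise (s := range x.1) (t := range a) (f := x.2.1)
    (fun e he => by
      have := (h e (mem_range.1 (mem_coe.1 he))).1
      exact mem_coe.2 (mem_range.2 this))
  rw [card_range] at h1
  exact h1

theorem C5_lenU (n l m : ℕ) (A0 T0 : CooT.den) (hA : CooOK n n A0) (hT : SkOK n l m T0) :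
    @LE.le ℕ _ (Φ.mkU ((n, (l, m)), (A0, T0))).1 (l * A0.1) := by
  obtain ⟨h1, -, h3⟩ := Φ.mkU_eq n l m A0 T0 hA hT
  rw [C5_len h1, C5_len hA, mul_sum]
  exact sum_le_sum fun i hi => (h3 i (mem_range.1 hi)).trans (min_le_left _ _)

/-! ### program -/

theorem C5_w1 (l a n u : ℕ) : (l + 1) * (a + 1) + n ≤ 1 * ((u + n + (l + 1) ^ 2 * (a + 1)) + 1) := by
  have h1 : (l + 1) * (a + 1) ≤ (l + 1) ^ 2 * (a + 1) :=
    Nat.mul_le_mul_right _ (by nlinarith)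
  omega

theorem C5_w2 (l a n u b : ℕ) (hb : b ≤ l * a) :
    u + n + (l + 1) * (b + 1) ≤ 1 * ((u + n + (l + 1) ^ 2 * (a + 1)) + 1) := by
  have h0 : b + 1 ≤ (l + 1) * (a + 1) := by nlinarith
  have h1 : (l + 1) * (b + 1) ≤ (l + 1) * ((l + 1) * (a + 1)) := Nat.mul_le_mul_left _ h0
  have h2 : (l + 1) * ((l + 1) * (a + 1)) = (l + 1) ^ 2 * (a + 1) := by ring
  omega

/-- input `((n, (l, s)), ((m1, m2), (A0, (T0, S0))))` -/
theorem elimE_oc : OC (.prod (.prod .nat (.prod .nat .nat))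
      (.prod (.prod .nat .nat) (.prod CooT (.prod CooT CooT)))) OpT
    (fun x => x.2.1.1 ≤ 2 ^ x.1.2.2 ∧ x.2.1.2 ≤ 2 ^ x.1.2.2 ∧ CooOK x.1.1 x.1.1 x.2.2.1 ∧
      SkOK x.1.1 x.1.2.1 x.2.1.1 x.2.2.2.1 ∧ SkOK x.1.1 x.1.2.1 x.2.1.2 x.2.2.2.2)
    (fun x => elimE Φ x.1.1 x.1.2.1 x.1.2.2 x.2.1.1 x.2.1.2 x.2.2.1 x.2.2.2.1 x.2.2.2.2)
    (fun x => (x.1.2.2 + 1) * mm (2 ^ x.1.2.2) + x.1.1 +
      (x.1.2.1 + 1) ^ 2 * (x.2.2.1.1 + 1)) := by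
  set S : Ty := (.prod (.prod .nat (.prod .nat .nat))
      (.prod (.prod .nat .nat) (.prod CooT (.prod CooT CooT)))) with hS
  set V : S.den → Prop := (fun x => x.2.1.1 ≤ 2 ^ x.1.2.2 ∧ x.2.1.2 ≤ 2 ^ x.1.2.2 ∧
      CooOK x.1.1 x.1.1 x.2.2.1 ∧
      SkOK x.1.1 x.1.2.1 x.2.1.1 x.2.2.2.1 ∧ SkOK x.1.1 x.1.2.1 x.2.1.2 x.2.2.2.2) with hV
  set w : S.den → ℕ := (fun x => (x.1.2.2 + 1) * mm (2 ^ x.1.2.2) + x.1.1 +
      (x.1.2.1 + 1) ^ 2 * (x.2.2.1.1 + 1)) with hw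
  have hn : OC S .nat V (fun x => x.1.1) w := OC.fst (OC.fst OC.id)
  have hl : OC S .nat V (fun x => x.1.2.1) w := OC.fst (OC.snd (OC.fst OC.id))
  have hs : OC S .nat V (fun x => x.1.2.2) w := OC.snd (OC.snd (OC.fst OC.id))
  have hm1 : OC S .nat V (fun x => x.2.1.1) w := OC.fst (OC.fst (OC.snd OC.id))
  have hm2 : OC S .nat V (fun x => x.2.1.2) w := OC.snd (OC.fst (OC.snd OC.id))
  have hA : OC S CooT V (fun x => x.2.2.1) w := OC.fst (OC.snd (OC.snd OC.id))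
  have hT : OC S CooT V (fun x => x.2.2.2.1) w := OC.fst (OC.snd (OC.snd (OC.snd OC.id)))
  have hS0 : OC S CooT V (fun x => x.2.2.2.2) w := OC.snd (OC.snd (OC.snd (OC.snd OC.id)))
  have cT : ∀ {F : S.den → CooT.den}, OC S CooT V F w → OC S CooT V (fun x => cooT (F x)) w :=
    fun h => OC.pair h.fst (OC.pair h.snd.snd.fst (OC.pair h.snd.fst h.snd.snd.snd))
  have hU : OC S CooT V (fun x => Φ.mkU ((x.1.1, (x.1.2.1, x.2.1.1)), (x.2.2.1, x.2.2.2.1))) w :=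
    OC.comp Φ.mkU_oc (F := fun x : S.den => ((x.1.1, (x.1.2.1, x.2.1.1)), (x.2.2.1, x.2.2.2.1)))
      (OC.pair (OC.pair hn (OC.pair hl hm1)) (OC.pair hA hT)) (fun _ _ => trivial) 1
      (fun x _ => C5_w1 _ _ _ _)
  have hU2 : OC S CooT V (fun x => Φ.mkU ((x.1.1, (x.1.2.1, x.2.1.2)),
      (cooT x.2.2.1, x.2.2.2.2))) w :=
    OC.comp Φ.mkU_oc
      (F := fun x : S.den => ((x.1.1, (x.1.2.1, x.2.1.2)), (cooT x.2.2.1, x.2.2.2.2)))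
      (OC.pair (OC.pair hn (OC.pair hl hm2)) (OC.pair (cT hA) hS0)) (fun _ _ => trivial) 1
      (fun x _ => C5_w1 _ _ _ _)
  have hG : OC S MatT V (fun x => Φ.gamma ((x.1.1, (x.1.2.2, x.1.2.1)), ((x.2.1.1, x.2.1.2),
      (Φ.mkU ((x.1.1, (x.1.2.1, x.2.1.1)), (x.2.2.1, x.2.2.2.1)), x.2.2.2.2)))) w :=
    OC.comp Φ.gamma_oc
      (F := fun x : S.den => ((x.1.1, (x.1.2.2, x.1.2.1)), ((x.2.1.1, x.2.1.2),
        (Φ.mkU ((x.1.1, (x.1.2.1, x.2.1.1)), (x.2.2.1, x.2.2.2.1)), x.2.2.2.2))))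
      (OC.pair (OC.pair hn (OC.pair hs hl)) (OC.pair (OC.pair hm1 hm2) (OC.pair hU hS0)))
      (fun x hx => ⟨hx.1, hx.2.1⟩) 1
      (fun x hx => C5_w2 _ _ _ _ _ (C5_lenU Φ _ _ _ _ _ hx.2.2.1 hx.2.2.2.1))
  exact OC.pair (OC.pair hn hn) (OC.pair (OC.pair hm1 hm2) (OC.pair (OC.pair hA hU)
    (OC.pair (cT hU2) hG)))

/-! ### values -/

theorem elimE_ok (n l s m1 m2 : ℕ) (A0 T0 S0 : CooT.den) (hA : CooOK n n A0)
    (hT : SkOK n l m1 T0) (hS : SkOK n l m2 S0) :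
    OpOK (elimE Φ n l s m1 m2 A0 T0 S0) ∧ (elimE Φ n l s m1 m2 A0 T0 S0).1 = (n, n) ∧
    (elimE Φ n l s m1 m2 A0 T0 S0).2.1 = (m1, m2) ∧
    (elimE Φ n l s m1 m2 A0 T0 S0).2.2.1.1 = A0 ∧
    (∀ i < n, rowCnt (elimE Φ n l s m1 m2 A0 T0 S0).2.2.1.2 i ≤ min (l * rowCnt A0 i) m1) ∧
    (∀ i < n, colCnt (elimE Φ n l s m1 m2 A0 T0 S0).2.2.2.1 i ≤ min (l * colCnt A0 i) m2) := by
  obtain ⟨a1, -, a3⟩ := Φ.mkU_eq n l m1 A0 T0 hA hT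
  obtain ⟨b1, -, b3⟩ := Φ.mkU_eq n l m2 (cooT A0) S0 (C5_CooT hA) hS
  exact ⟨⟨hA, a1, C5_CooT b1⟩, rfl, rfl, rfl, a3, b3⟩

theorem C5_U (n l m : ℕ) (A0 T0 : CooT.den) (hA : CooOK n n A0) (hT : SkOK n l m T0) :
    toM n m (cooA (Φ.mkU ((n, (l, m)), (A0, T0)))) =
      toM n n (cooA A0) * (toM m n (cooA T0))ᵀ := by
  obtain ⟨-, h2, -⟩ := Φ.mkU_eq n l m A0 T0 hA hT
  ext i p
  rw [Matrix.mul_apply]
  have h := h2 i i.2 p p.2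
  rw [Finset.sum_range] at h
  exact h

theorem C5_toM (a c : ℕ) (x : CooT.den) :
    toM a c (cooA (cooT x)) = (toM c a (cooA x))ᵀ := by
  ext i j
  exact C5_cooA x i j

/-- the matrix of an operator -/
theorem C5_opA (n m1 m2 : ℕ) (A0 U W : CooT.den) (G : MatT.den) :
    toM n n (opA ((n, n), ((m1, m2), ((A0, U), (W, G))))) =
      toM n n (cooA A0) - toM n m1 (cooA U) * toM m1 m2 G * toM m2 n (cooA W) := by
  ext i j
  rw [Matrix.sub_apply, Matrix.mul_assoc, Matrix.mul_apply]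
  simp only [Matrix.mul_apply, Finset.mul_sum]
  show cooA A0 i j - ∑ p ∈ range m1, ∑ r ∈ range m2,
    cooA U i p * G p r * cooA W r j = _
  rw [Finset.sum_range]
  simp only [Finset.sum_range, mul_assoc]
  rfl

/-- the matrix of the elimination operator -/
theorem elimE_val (n l s m1 m2 : ℕ) (A0 T0 S0 : CooT.den) (hA : CooOK n n A0)
    (hT : SkOK n l m1 T0) (hS : SkOK n l m2 S0) (h1 : m1 ≤ 2 ^ s) (h2 : m2 ≤ 2 ^ s) :
    ∃ Hm : Matrix (Fin m1) (Fin m1) ℝ, ∀ (A : Matrix (Fin n) (Fin n) ℝ)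
      (U : Matrix (Fin n) (Fin m1) ℝ) (Sm : Matrix (Fin m2) (Fin n) ℝ)
      (Z : Matrix (Fin m2) (Fin m1) ℝ),
      A = toM n n (cooA A0) → U = A * (toM m1 n (cooA T0))ᵀ → Sm = toM m2 n (cooA S0) →
      Z = Sm * U → Hmᵀ = Hm ∧ (Zᵀ * Z) * Hm * (Zᵀ * Z) = Zᵀ * Z ∧
      toM m1 m2 (elimE Φ n l s m1 m2 A0 T0 S0).2.2.2.2 = Hm * Zᵀ ∧
      toM n m1 (cooA (elimE Φ n l s m1 m2 A0 T0 S0).2.2.1.2) = U ∧
      toM m2 n (cooA (elimE Φ n l s m1 m2 A0 T0 S0).2.2.2.1) = Sm * A ∧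
      toM n n (opA (elimE Φ n l s m1 m2 A0 T0 S0)) = A - U * (Hm * Zᵀ) * (Sm * A) := by
  obtain ⟨a1, -, -⟩ := Φ.mkU_eq n l m1 A0 T0 hA hT
  obtain ⟨Hm, hHm⟩ := Φ.gamma_eq n s l m1 m2 (Φ.mkU ((n, (l, m1)), (A0, T0))) S0 h1 h2 a1 hS
  refine ⟨Hm, fun A U Sm Z eA eU eS eZ => ?_⟩
  have e1 : toM n m1 (cooA (Φ.mkU ((n, (l, m1)), (A0, T0)))) = U := by
    rw [C5_U Φ n l m1 A0 T0 hA hT, eU, eA]
  have e2 : toM m2 n (cooA (cooT (Φ.mkU ((n, (l, m2)), (cooT A0, S0))))) = Sm * A := by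
    rw [C5_toM, C5_U Φ n l m2 (cooT A0) S0 (C5_CooT hA) hS, C5_toM, Matrix.transpose_mul,
      Matrix.transpose_transpose, Matrix.transpose_transpose, eS, eA]
  obtain ⟨g1, g2, g3⟩ := hHm Z (by rw [eZ, eS, e1])
  refine ⟨g1, g2, g3, e1, e2, ?_⟩
  have e3 : elimE Φ n l s m1 m2 A0 T0 S0 =
      ((n, n), ((m1, m2), ((A0, Φ.mkU ((n, (l, m1)), (A0, T0))),
        (cooT (Φ.mkU ((n, (l, m2)), (cooT A0, S0))),
    Φ.gamma ((n, (s, l)), ((m1, m2), (Φ.mkU ((n, (l, m1)), (A0, T0)), S0))))))) := rfl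
  rw [e3, C5_opA, e1, e2, g3, eA]

end

end A55
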