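import Pool.Agent.Lib_helper50.A55.Par
import Pool.Agent.Lib_helper50.A55.B.C1
/-!
# MP_a55cb8: block C3, the chain data (helper53)
-/

open Matrix Finset

namespace A55




/-- the input type -/
abbrev C3_S : Ty := .prod (.prod GT .nat) (.prod (.prod (.arr OpT) (.arr OpT)) (.prod OpT BaseT))

section

variable {V : (Ty.prod C3_S .nat).den → Prop} {w : (Ty.prod C3_S .nat).den → ℕ}

theorem C3_P (i : ℕ) : OC (.prod C3_S .nat) .nat V (fun p => gP p.1.1.1 i) w :=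
  OC.get (OC.fst (OC.fst (OC.fst (OC.fst (OC.fst OC.id))))) (OC.nlit i)

theorem C3_Q (i : ℕ) : OC (.prod C3_S .nat) .real V (fun p => gQ p.1.1.1 i) w :=
  OC.get (OC.fst (OC.snd (OC.fst (OC.fst (OC.fst (OC.fst OC.id)))))) (OC.nlit i)

theorem C3_L {F : (Ty.prod C3_S .nat).den → ℕ} (h : OC (.prod C3_S .nat) .nat V F w) :
    OC (.prod C3_S .nat) .real V (fun p => gLam p.1.1.1 (F p)) w :=
  OC.get (OC.snd (OC.snd (OC.fst (OC.fst (OC.fst (OC.fst OC.id)))))) h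

theorem C3_j : OC (.prod C3_S .nat) .nat V (fun p => p.1.1.2) w :=
  OC.snd (OC.fst (OC.fst OC.id))

theorem C3_r : OC (.prod C3_S .nat) .nat V (fun p => p.2) w := OC.snd OC.id

theorem C3_lev : OC (.prod C3_S .nat) .nat V (fun p => lev0 p.1.1.1 p.1.1.2) w :=
  OC.nsub C3_j (C3_P 21)

theorem C3_top : OC (.prod C3_S .nat) .nat V (fun p => topIx p.1.1.1 p.1.1.2) w :=
  OC.nadd (OC.nmul (OC.nlit 2) (OC.nsub C3_j C3_lev)) (OC.nlit 2)

end

theorem C3_half {V : (Ty.prod C3_S .nat).den → Prop} :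
    OC (.prod C3_S .nat) .nat V (fun p => p.2 / 2) (fun p => p.2) :=
  OC.comp half_oc C3_r (fun _ _ => trivial) 1 (fun p _ => by omega)

theorem C3_half1 {V : (Ty.prod C3_S .nat).den → Prop} :
    OC (.prod C3_S .nat) .nat V (fun p => (p.2 + 1) / 2) (fun p => p.2) :=
  OC.comp half_oc (F := fun p : (Ty.prod C3_S .nat).den => p.2 + 1)
    (OC.nadd C3_r (OC.nlit 1)) (fun _ _ => trivial) 1 (fun p _ => by omega)

theorem C3_N {V : C3_S.den → Prop} {w : C3_S.den → ℕ} :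
    OC C3_S .nat V (fun x => topIx x.1.1 x.1.2 + 3) w :=
  OC.nadd (OC.nadd (OC.nmul (OC.nlit 2) (OC.nsub (OC.snd (OC.fst OC.id))
    (OC.nsub (OC.snd (OC.fst OC.id)) (OC.get (OC.fst (OC.fst (OC.fst (OC.fst OC.id))))
      (OC.nlit 21))))) (OC.nlit 2)) (OC.nlit 3)

theorem C3_sum (x : C3_S.den) : ∑ r ∈ range (topIx x.1.1 x.1.2 + 3), (r + 1) ≤
    5 * ((x.1.2 + 4) ^ 2 + 1) := by
  have h1 : topIx x.1.1 x.1.2 + 3 ≤ 2 * x.1.2 + 5 := by
    simp only [topIx, lev0]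
    omega
  calc ∑ r ∈ range (topIx x.1.1 x.1.2 + 3), (r + 1)
      ≤ ∑ r ∈ range (topIx x.1.1 x.1.2 + 3), (2 * x.1.2 + 5) := by
        refine sum_le_sum fun r hr => ?_
        have := mem_range.1 hr
        omega
    _ = (topIx x.1.1 x.1.2 + 3) * (2 * x.1.2 + 5) := by
        rw [sum_const, card_range, smul_eq_mul]
    _ ≤ (2 * x.1.2 + 5) * (2 * x.1.2 + 5) := Nat.mul_le_mul_right _ h1
    _ ≤ 5 * ((x.1.2 + 4) ^ 2 + 1) := by nlinarith

theorem C3_tab {t : Ty} {F : C3_S.den → ℕ → t.den}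
    (hF : OC (.prod C3_S .nat) t (fun _ => True) (fun p => F p.1 p.2) (fun p => p.2)) :
    OC C3_S (.arr t) (fun _ => True) (fun x => tabV t (topIx x.1.1 x.1.2 + 3) (F x))
      (fun x => (x.1.2 + 4) ^ 2) :=
  OC.tab C3_N (hF.weaken fun _ _ => trivial) 5 fun x _ => C3_sum x

theorem asm_oc : OC (.prod (.prod GT .nat) (.prod (.prod (.arr OpT) (.arr OpT)) (.prod OpT BaseT)))
    ChT (fun _ => True) (fun x => asm x.1.1 x.1.2 x.2.1.1 x.2.1.2 x.2.2.1 x.2.2.2)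
    (fun x => (x.1.2 + 4) ^ 2) := by
  have hlt : ∀ {V : (Ty.prod C3_S .nat).den → Prop}, OC (.prod C3_S .nat) .nat V
      (fun p => topIx p.1.1.1 p.1.1.2 - 1) (fun p => p.2) := OC.nsub C3_top (OC.nlit 1)
  have t1 := C3_tab (t := FOpT) (F := fun x r =>
      if r < topIx x.1.1 x.1.2 - 1 then
        (if r = 2 * (r / 2) then (0, x.2.1.1 (lev0 x.1.1 x.1.2 + r / 2))
          else (1, x.2.1.2 (lev0 x.1.1 x.1.2 + (r + 1) / 2)))
      else if r = topIx x.1.1 x.1.2 - 1 then (1, x.2.2.1)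
      else if r = topIx x.1.1 x.1.2 + 1 then (1, gE x.1.1) else (0, gE x.1.1))
    (OC.ifN C3_r hlt
      (OC.ifEq C3_r (OC.nmul (OC.nlit 2) C3_half)
        (OC.pair (OC.nlit 0) (OC.get (OC.fst (OC.fst (OC.snd (OC.fst OC.id))))
          (OC.nadd C3_lev C3_half)))
        (OC.pair (OC.nlit 1) (OC.get (OC.snd (OC.fst (OC.snd (OC.fst OC.id))))
          (OC.nadd C3_lev C3_half1))))
      (OC.ifEq C3_r hlt (OC.pair (OC.nlit 1) (OC.fst (OC.snd (OC.snd (OC.fst OC.id)))))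
        (OC.ifEq C3_r (OC.nadd C3_top (OC.nlit 1))
          (OC.pair (OC.nlit 1) (OC.fst (OC.fst (OC.snd (OC.fst (OC.fst (OC.fst OC.id)))))))
          (OC.pair (OC.nlit 0) (OC.fst (OC.fst (OC.snd (OC.fst (OC.fst (OC.fst OC.id))))))))))
  have t2 := C3_tab (t := .real) (F := fun x r =>
        if topIx x.1.1 x.1.2 < r then gLam x.1.1 (x.1.2 + 1)
        else if r < topIx x.1.1 x.1.2 - 1 then gLam x.1.1 (lev0 x.1.1 x.1.2 + r / 2)
          else gLam x.1.1 x.1.2)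
    (OC.ifN C3_top C3_r (C3_L (OC.nadd C3_j (OC.nlit 1)))
      (OC.ifN C3_r hlt (C3_L (OC.nadd C3_lev C3_half)) (C3_L C3_j)))
  have t3 := C3_tab (t := .real) (F := fun x r =>
        if r = 0 then gQ x.1.1 2
        else if r = topIx x.1.1 x.1.2 + 1 then gQ x.1.1 3
        else if r < topIx x.1.1 x.1.2 - 1 then (if r = 2 * (r / 2) then gQ x.1.1 3 else gQ x.1.1 2)
        else gQ x.1.1 2)
    (OC.ifEq C3_r (OC.nlit 0) (C3_Q 2) (OC.ifEq C3_r (OC.nadd C3_top (OC.nlit 1)) (C3_Q 3)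
      (OC.ifN C3_r hlt (OC.ifEq C3_r (OC.nmul (OC.nlit 2) C3_half) (C3_Q 3) (C3_Q 2)) (C3_Q 2))))
  have t4 := C3_tab (t := .nat) (F := fun x r =>
        if r = 0 then gP x.1.1 16
        else if r = topIx x.1.1 x.1.2 + 1 then gP x.1.1 17
        else if r < topIx x.1.1 x.1.2 - 1 then
          (if r = 2 * (r / 2) then gP x.1.1 17 else gP x.1.1 16)
        else gP x.1.1 16)
    (OC.ifEq C3_r (OC.nlit 0) (C3_P 16) (OC.ifEq C3_r (OC.nadd C3_top (OC.nlit 1)) (C3_P 17)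
      (OC.ifN C3_r hlt (OC.ifEq C3_r (OC.nmul (OC.nlit 2) C3_half) (C3_P 17) (C3_P 16))
        (C3_P 16))))
  have t5 : OC C3_S .real (fun _ => True) (fun x => gQ x.1.1 4) (fun x => (x.1.2 + 4) ^ 2) :=
    OC.get (OC.fst (OC.snd (OC.fst (OC.fst (OC.fst OC.id))))) (OC.nlit 4)
  have t6 : OC C3_S BaseT (fun _ => True) (fun x => x.2.2.2) (fun x => (x.1.2 + 4) ^ 2) :=
    OC.snd (OC.snd (OC.snd OC.id))
  exact OC.pair t1 (OC.pair (OC.pair t2 t3) (OC.pair t4 (OC.pair t5 t6)))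

end A55
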