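import Pool.Agent.Lib_helper50.A55.Par
import Pool.Agent.Lib_helper50.A55.B.C3
import Pool.Agent.Lib_helper50.A55.B.C4
import Pool.Agent.Lib_helper50.A55.B.C6
import Pool.Agent.Lib_helper50.A55.Inv
/-! # MP_a55cb8, block C8 : the cost of step 0 -/

open Matrix Finset

namespace A55

/-! ## statements of C3, C4, C5 (copies) -/

section

variable {mm : ℕ → ℕ} (Φ : Lib mm)

end

/-! ## C8 -/

theorem C8_sdFull_oc {s : Ty} {V : s.den → Prop} {w : s.den → ℕ} {N : s.den → ℕ}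
    (hN : OC s .nat V N w) (h : ∀ x, V x → N x ≤ w x) :
    OC s SDT V (fun x => sdFull (N x)) w := by
  have h1 : OC s NArr V (fun x => tabV .nat (N x) (fun i => i + 1)) w :=
    OC.tab0 (t := .nat) (F := fun _ i => i + 1) hN (OC.nadd (OC.snd OC.id) (OC.nlit 1)) 1 fun x hx => by
      have := h x hx
      omega
  have h2 : OC s VecT V (fun x => tabV .real (N x) (fun _ => 1)) w :=
    OC.tab0 (t := .real) (F := fun _ _ => (1 : ℝ)) hN OC.r1 1 fun x hx => by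
      have := h x hx
      omega
  have h3 : OC s NArr V (fun x => tabV .nat (N x) (fun _ => 1)) w :=
    OC.tab0 (t := .nat) (F := fun _ _ => (1 : ℕ)) hN (OC.nlit 1) 1 fun x hx => by
      have := h x hx
      omega
  exact OC.pair hN (OC.pair h1 (OC.pair h2 h3))

theorem C8_cooT_oc {s : Ty} {V : s.den → Prop} {w : s.den → ℕ} {F : s.den → CooT.den}
    (hF : OC s CooT V F w) : OC s CooT V (fun x => cooT (F x)) w :=
  OC.pair (OC.fst hF) (OC.pair (OC.fst (OC.snd (OC.snd hF))) (OC.pair (OC.fst (OC.snd hF))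
    (OC.snd (OC.snd (OC.snd hF)))))

theorem C8_le1 {a b : ℕ} (h : a ≤ b) : a ≤ 1 * (b + 1) := by omega

theorem C8_opSize' (a b c d e f : ℕ) : c + d + e ≤ a + b + c + d + e + f := by omega

theorem C8_opSize (E : OpT.den) : E.2.2.1.1.1 + E.2.2.1.2.1 + E.2.2.2.1.1 ≤ opSize E :=
  C8_opSize' _ _ _ _ _ _

/-- the input of step 0 -/
abbrev C8T : Ty := .prod GT (.prod .nat (.prod StT NArr))

section

variable {mm : ℕ → ℕ} (Φ : Lib mm)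

theorem C8_par {g : GT.den} (h : ∃ c x0, g.1.1 = parN c x0) :
    1 ≤ gP g 14 ∧ gP g 24 ≤ 2 ^ gP g 12 ∧ gP g 11 ≤ 2 ^ gP g 12 := by
  obtain ⟨c, x0, hg⟩ := h
  have e14 : gP g 14 = pK c x0 := by rw [gP, hg]; rfl
  have e24 : gP g 24 = phcap c x0 := by rw [gP, hg]; rfl
  have e12 : gP g 12 = ps c x0 := by rw [gP, hg]; rfl
  have e11 : gP g 11 = pk3 c x0 := by rw [gP, hg]; rfl
  have h1 : phcap c x0 + pm2 c x0 + pk3 c x0 < 2 ^ ps c x0 := by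
    rw [ps]
    exact Nat.lt_log2_self
  refine ⟨?_, ?_, ?_⟩
  · rw [e14, pK]
    exact Nat.one_le_pow _ _ (by norm_num)
  · rw [e24, e12]
    omega
  · rw [e11, e12]
    omega

theorem C8_top (g : GT.den) (j : ℕ) (st : StT.den) (w : ℕ → ℕ) :
    (theta Φ g j st w).1 (topIx g j) = (0, gE g) := by
  unfold theta asm
  dsimp only
  rw [tabV_lt (by omega)]
  have h1 : ¬ topIx g j < topIx g j - 1 := by omega
  have h2 : ¬ topIx g j = topIx g j - 1 := by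
    have : 2 ≤ topIx g j := by unfold topIx; omega
    omega
  have h3 : ¬ topIx g j = topIx g j + 1 := by omega
  rw [if_neg h1, if_neg h2, if_neg h3]

theorem C8_chk (g : GT.den) (j : ℕ) (st : StT.den) :
    (0 < chk (g, (j, st)) ↔ Chk g j st) ∧ (chk (g, (j, st)) = 1 ↔ Chk g j st) := by
  unfold chk
  by_cases h : Chk g j st
  · simp [h]
  · simp [h]

theorem C8_om (g : GT.den) (j : ℕ) (st : StT.den) (w : ℕ → ℕ) :
    (omOf Φ g j st w).1 = gP g 5 * opC (st.2.2.1.1 (lev0 g j)) :=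
  (Φ.sk_eq (opC (st.2.2.1.1 (lev0 g j))) (gP g 5) (gP g 10) w).1.1

open Classical in
theorem C8_w0 {g : GT.den} {j : ℕ} {st : StT.den} (w : ℕ → ℕ) (h : st.1.1 = 0)
    (h2 : Chk g j st) : w0 Φ g j st w = (j + 4) ^ 2 + gP g 20 * (gP g 1 ^ 2 + gP g 2 + 1) +
      ((gP g 5 + 1) * (opC (st.2.2.1.1 (lev0 g j)) + 1) * (gP g 10 + 1) + 2 ^ gP g 10 +
      (gP g 18 + 1) * (mm (2 ^ gP g 12) + (gP g 11 + 1) *
        (opRest (st.2.2.1.1 (lev0 g j)) (st.2.1.1 (lev0 g j)).2.2.2 (st.2.1.2 (lev0 g j)).2.2.2 +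
          gP g 24 + 1) + opSize (st.2.2.1.1 (lev0 g j))) + (gP g 12 + 1) * mm (2 ^ gP g 12) +
      (gP g 11 + 1) * (gP g 5 * opC (st.2.2.1.1 (lev0 g j)) + 1) + opSize (gE g) +
      (gP g 19 + 1) * (chCost Φ.C (theta Φ g j st w) (topIx g j) + opSize (gE g) + 1) +
      gP g 0 + g.2.1.2.1.1 + g.2.1.2.2.1) := by
  rw [w0, if_pos h, if_pos h2]

theorem C8_sum (a b c d e f h i k l m n : ℕ) :
    a ≤ a + b + (c + d + e + f + h + i + k + l + m + n) ∧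
    c + d ≤ a + b + (c + d + e + f + h + i + k + l + m + n) ∧
    e + f + h ≤ a + b + (c + d + e + f + h + i + k + l + m + n) ∧
    i ≤ a + b + (c + d + e + f + h + i + k + l + m + n) ∧
    k ≤ a + b + (c + d + e + f + h + i + k + l + m + n) ∧
    l ≤ a + b + (c + d + e + f + h + i + k + l + m + n) ∧
    i + m + n ≤ a + b + (c + d + e + f + h + i + k + l + m + n) ∧
    i + l ≤ a + b + (c + d + e + f + h + i + k + l + m + n) := by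
  omega

/-- the bounds that are used -/
theorem C8_bd {g : GT.den} {j : ℕ} {st : StT.den} (w : ℕ → ℕ) (h : st.1.1 = 0)
    (h2 : Chk g j st) :
    (j + 4) ^ 2 ≤ w0 Φ g j st w ∧
    (gP g 5 + 1) * (opC (st.2.2.1.1 (lev0 g j)) + 1) * (gP g 10 + 1) + 2 ^ gP g 10 ≤
      w0 Φ g j st w ∧
    (gP g 18 + 1) * (mm (2 ^ gP g 12) + (gP g 11 + 1) *
        (opRest (st.2.2.1.1 (lev0 g j)) (st.2.1.1 (lev0 g j)).2.2.2 (st.2.1.2 (lev0 g j)).2.2.2 +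
          gP g 24 + 1) + opSize (st.2.2.1.1 (lev0 g j))) + (gP g 12 + 1) * mm (2 ^ gP g 12) +
      (gP g 11 + 1) * (gP g 5 * opC (st.2.2.1.1 (lev0 g j)) + 1) ≤ w0 Φ g j st w ∧
    opSize (gE g) ≤ w0 Φ g j st w ∧
    (gP g 19 + 1) * (chCost Φ.C (theta Φ g j st w) (topIx g j) + opSize (gE g) + 1) ≤
      w0 Φ g j st w ∧
    gP g 0 ≤ w0 Φ g j st w ∧
    opSize (gE g) + g.2.1.2.1.1 + g.2.1.2.2.1 ≤ w0 Φ g j st w ∧
    opSize (gE g) + gP g 0 ≤ w0 Φ g j st w := by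
  rw [C8_w0 Φ w h h2]
  exact C8_sum _ _ _ _ _ _ _ _ _ _ _ _


/-! ### the pieces, for an abstract domain and an abstract weight -/

section pieces

variable {V : C8T.den → Prop} {W : C8T.den → ℕ}

theorem C8_P (i : ℕ) : OC C8T .nat V (fun x => gP x.1 i) W :=
  OC.get (OC.fst (OC.fst (OC.fst OC.id))) (OC.nlit i)

theorem C8_Q (i : ℕ) : OC C8T .real V (fun x => gQ x.1 i) W :=
  OC.get (OC.fst (OC.snd (OC.fst (OC.fst OC.id)))) (OC.nlit i)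

theorem C8_E : OC C8T OpT V (fun x => gE x.1) W := OC.fst (OC.fst (OC.snd (OC.fst OC.id)))

theorem C8_lev : OC C8T .nat V (fun x => lev0 x.1 x.2.1) W :=
  OC.nsub (OC.fst (OC.snd OC.id)) (C8_P 21)

theorem C8_topI : OC C8T .nat V (fun x => topIx x.1 x.2.1) W :=
  OC.nadd (OC.nmul (OC.nlit 2) (OC.nsub (OC.fst (OC.snd OC.id)) C8_lev)) (OC.nlit 2)

theorem C8_D : OC C8T OpT V (fun x => x.2.2.1.2.2.1.1 (lev0 x.1 x.2.1)) W :=
  OC.get (OC.fst (OC.fst (OC.snd (OC.snd (OC.fst (OC.snd (OC.snd OC.id))))))) C8_lev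

theorem C8_om_oc (h : ∀ x, V x → (gP x.1 5 + 1) * (opC (x.2.2.1.2.2.1.1 (lev0 x.1 x.2.1)) + 1) *
      (gP x.1 10 + 1) + 2 ^ gP x.1 10 ≤ W x) :
    OC C8T CooT V (fun x => omOf Φ x.1 x.2.1 x.2.2.1 x.2.2.2) W := by
  have hsk : OC C8T CooT V (fun x => Φ.sk (opC (x.2.2.1.2.2.1.1 (lev0 x.1 x.2.1)),
      (gP x.1 5, (gP x.1 10, x.2.2.2)))) W :=
    OC.comp (F := fun x : C8T.den => (opC (x.2.2.1.2.2.1.1 (lev0 x.1 x.2.1)),
      (gP x.1 5, (gP x.1 10, x.2.2.2)))) Φ.sk_oc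
      (OC.pair (OC.snd (OC.fst C8_D)) (OC.pair (C8_P 5) (OC.pair (C8_P 10)
        (OC.snd (OC.snd (OC.snd OC.id))))))
      (fun _ _ => trivial) 1 (fun x hx => by exact C8_le1 (h x hx))
  exact C8_cooT_oc hsk

theorem C8_base_oc (hom : OC C8T CooT V (fun x => omOf Φ x.1 x.2.1 x.2.2.1 x.2.2.2) W)
    (hp : ∀ x, V x → ∃ c x0, x.1.1.1 = parN c x0) (hc : ∀ x, V x → Chk x.1 x.2.1 x.2.2.1)
    (h : ∀ x, V x → (gP x.1 18 + 1) * (mm (2 ^ gP x.1 12) + (gP x.1 11 + 1) *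
        (opRest (x.2.2.1.2.2.1.1 (lev0 x.1 x.2.1)) (x.2.2.1.2.1.1 (lev0 x.1 x.2.1)).2.2.2
          (x.2.2.1.2.1.2 (lev0 x.1 x.2.1)).2.2.2 +
          gP x.1 24 + 1) + opSize (x.2.2.1.2.2.1.1 (lev0 x.1 x.2.1))) +
        (gP x.1 12 + 1) * mm (2 ^ gP x.1 12) +
      (gP x.1 11 + 1) * (gP x.1 5 * opC (x.2.2.1.2.2.1.1 (lev0 x.1 x.2.1)) + 1) ≤ W x) :
    OC C8T BaseT V (fun x => baseOf Φ x.1 x.2.1 x.2.2.1 x.2.2.2) W := by
  have hlam : OC C8T .real V (fun x => gLam x.1 (lev0 x.1 x.2.1)) W :=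
    OC.get (OC.snd (OC.snd (OC.fst (OC.fst OC.id)))) C8_lev
  have hfr : OC C8T NArr V (fun x => (x.2.2.1.2.1.1 (lev0 x.1 x.2.1)).2.2.2) W :=
    OC.snd (OC.snd (OC.snd (OC.get (OC.fst (OC.fst (OC.snd (OC.fst (OC.snd (OC.snd OC.id))))))
      C8_lev)))
  have hfc : OC C8T NArr V (fun x => (x.2.2.1.2.1.2 (lev0 x.1 x.2.1)).2.2.2) W :=
    OC.snd (OC.snd (OC.snd (OC.get (OC.snd (OC.fst (OC.snd (OC.fst (OC.snd (OC.snd OC.id))))))
      C8_lev)))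
  have key : OC C8T BaseT V (fun x => Φ.base (((gP x.1 24, gP x.1 12), (gP x.1 11, gP x.1 18)),
      (gLam x.1 (lev0 x.1 x.2.1), ((x.2.2.1.2.2.1.1 (lev0 x.1 x.2.1),
        ((x.2.2.1.2.1.1 (lev0 x.1 x.2.1)).2.2.2, (x.2.2.1.2.1.2 (lev0 x.1 x.2.1)).2.2.2)),
        omOf Φ x.1 x.2.1 x.2.2.1 x.2.2.2)))) W := by
    refine OC.comp (F := fun x : C8T.den => (((gP x.1 24, gP x.1 12), (gP x.1 11, gP x.1 18)),
      (gLam x.1 (lev0 x.1 x.2.1), ((x.2.2.1.2.2.1.1 (lev0 x.1 x.2.1),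
        ((x.2.2.1.2.1.1 (lev0 x.1 x.2.1)).2.2.2, (x.2.2.1.2.1.2 (lev0 x.1 x.2.1)).2.2.2)),
        omOf Φ x.1 x.2.1 x.2.2.1 x.2.2.2)))) Φ.base_oc
      (OC.pair (OC.pair (OC.pair (C8_P 24) (C8_P 12)) (OC.pair (C8_P 11) (C8_P 18)))
        (OC.pair hlam (OC.pair (OC.pair C8_D (OC.pair hfr hfc)) hom))) ?_ 1 ?_
    · intro x hx
      have hpp := C8_par (hp x hx)
      exact ⟨(hc x hx).2.2.1, hpp.2.1, hpp.2.2⟩
    · intro x hx
      have h1 := h x hx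
      rw [← C8_om Φ x.1 x.2.1 x.2.2.1 x.2.2.2] at h1
      exact C8_le1 h1
  exact key

theorem C8_theta_oc (hb : OC C8T BaseT V (fun x => baseOf Φ x.1 x.2.1 x.2.2.1 x.2.2.2) W)
    (h1 : ∀ x, V x → gP x.1 0 ≤ W x) (h2 : ∀ x, V x → opSize (gE x.1) ≤ W x)
    (h3 : ∀ x, V x → (x.2.1 + 4) ^ 2 ≤ W x) :
    OC C8T ChT V (fun x => theta Φ x.1 x.2.1 x.2.2.1 x.2.2.2) W := by
  have hfull : OC C8T SDT V (fun x => sdFull (gP x.1 0)) W := C8_sdFull_oc (C8_P 0) h1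
  have hS : OC C8T SDT V (fun x => x.2.2.1.2.1.1 x.2.1) W :=
    OC.get (OC.fst (OC.fst (OC.snd (OC.fst (OC.snd (OC.snd OC.id)))))) (OC.fst (OC.snd OC.id))
  have hSE : OC C8T OpT V
      (fun x => Φ.mkOp (gE x.1, (x.2.2.1.2.1.1 x.2.1, sdFull (gP x.1 0)))) W :=
    OC.comp (F := fun x : C8T.den => (gE x.1, (x.2.2.1.2.1.1 x.2.1, sdFull (gP x.1 0))))
      Φ.mkOp_oc (OC.pair C8_E (OC.pair hS hfull)) (fun _ _ => trivial) 1 (fun x hx => by exact C8_le1 (le_trans (C8_opSize _) (h2 x hx)))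
  have hDs : OC C8T (.arr OpT) V (fun x => x.2.2.1.2.2.1.1) W :=
    OC.fst (OC.fst (OC.snd (OC.snd (OC.fst (OC.snd (OC.snd OC.id))))))
  have hFs : OC C8T (.arr OpT) V (fun x => x.2.2.1.2.2.1.2) W :=
    OC.snd (OC.fst (OC.snd (OC.snd (OC.fst (OC.snd (OC.snd OC.id))))))
  have key : OC C8T ChT V (fun x => asm x.1 x.2.1 x.2.2.1.2.2.1.1 x.2.2.1.2.2.1.2
      (Φ.mkOp (gE x.1, (x.2.2.1.2.1.1 x.2.1, sdFull (gP x.1 0))))
      (baseOf Φ x.1 x.2.1 x.2.2.1 x.2.2.2)) W :=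
    OC.comp (F := fun x : C8T.den => ((x.1, x.2.1), ((x.2.2.1.2.2.1.1, x.2.2.1.2.2.1.2),
      (Φ.mkOp (gE x.1, (x.2.2.1.2.1.1 x.2.1, sdFull (gP x.1 0))),
        baseOf Φ x.1 x.2.1 x.2.2.1 x.2.2.2)))) asm_oc
      (OC.pair (OC.pair (OC.fst OC.id) (OC.fst (OC.snd OC.id)))
        (OC.pair (OC.pair hDs hFs) (OC.pair hSE hb)))
      (fun _ _ => trivial) 1 (fun x hx => by exact C8_le1 (h3 x hx))
  exact key

theorem C8_cand_oc {Θ : C8T.den → ChT.den} (hΘ : OC C8T ChT V Θ W)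
    (h : ∀ x, V x → (gP x.1 19 + 1) * (chCost Φ.C (Θ x) (topIx x.1 x.2.1) +
      opSize ((Θ x).1 (topIx x.1 x.2.1)).2) ≤ W x) :
    OC C8T VecT V (fun x => cand Φ x.1 x.2.1 (Θ x)) W := by
  have hout : OC (.prod (.prod .nat .nat) (.prod (.prod ChT .real) VecT)) VecT (fun _ => True)
      Φ.outer (fun x => (x.1.2 + 1) * (chCost Φ.C x.2.1.1 x.1.1 +
        opSize (x.2.1.1.1 x.1.1).2)) :=
    OC.of_Cp Φ.C Φ.outer_cp fun x _ => by
      rw [mul_assoc]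
      exact Nat.mul_le_mul_left _ (Nat.le_succ _)
  have key : OC C8T VecT V (fun x => Φ.outer ((topIx x.1 x.2.1, gP x.1 19),
      ((Θ x, gQ x.1 5), x.1.2.2.2))) W :=
    OC.comp (F := fun x : C8T.den => ((topIx x.1 x.2.1, gP x.1 19),
      ((Θ x, gQ x.1 5), x.1.2.2.2))) hout
      (OC.pair (OC.pair C8_topI (C8_P 19)) (OC.pair (OC.pair hΘ (C8_Q 5))
        (OC.snd (OC.snd (OC.snd (OC.fst OC.id)))))) (fun _ _ => trivial) 1 (fun x hx => by exact C8_le1 (h x hx))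
  exact key

theorem C8_resid_oc {v : C8T.den → VecT.den} (hv : OC C8T VecT V v W)
    (h1 : ∀ x, V x → gP x.1 0 ≤ W x) (h2 : ∀ x, V x → opSize (gE x.1) ≤ W x) :
    OC C8T VecT V (fun x => resid Φ x.1 (v x)) W := by
  have hmv : OC C8T VecT V (fun x => Φ.mv ((0, gE x.1), v x)) W :=
    OC.comp (F := fun x : C8T.den => ((0, gE x.1), v x)) Φ.mv_oc
      (OC.pair (OC.pair (OC.nlit 0) C8_E) hv) (fun _ _ => trivial) 1 (fun x hx => by exact C8_le1 (h2 x hx))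
  have key : OC C8T VecT V (fun x => Φ.lin (gP x.1 0, (((1 : ℝ), Φ.mv ((0, gE x.1), v x)),
      ((-1 : ℝ), x.1.2.2.2)))) W :=
    OC.comp (F := fun x : C8T.den => (gP x.1 0, (((1 : ℝ), Φ.mv ((0, gE x.1), v x)),
      ((-1 : ℝ), x.1.2.2.2)))) Φ.lin_oc
      (OC.pair (C8_P 0) (OC.pair (OC.pair OC.r1 hmv) (OC.pair (OC.neg OC.r1)
        (OC.snd (OC.snd (OC.snd (OC.fst OC.id)))))))
      (fun _ _ => trivial) 1 (fun x hx => by exact C8_le1 (h1 x hx))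
  exact key

theorem C8_dot_oc {v z : C8T.den → VecT.den} (hv : OC C8T VecT V v W) (hz : OC C8T VecT V z W)
    (h1 : ∀ x, V x → gP x.1 0 ≤ W x) :
    OC C8T .real V (fun x => Φ.dot (gP x.1 0, (v x, z x))) W :=
  OC.comp (F := fun x : C8T.den => (gP x.1 0, (v x, z x))) Φ.dot_oc
    (OC.pair (C8_P 0) (OC.pair hv hz)) (fun _ _ => trivial) 1 (fun x hx => by exact C8_le1 (h1 x hx))

theorem C8_X_oc {v : C8T.den → VecT.den} (hv : OC C8T VecT V v W)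
    (h : ∀ x, V x → opSize (gE x.1) + x.1.2.1.2.1.1 + x.1.2.1.2.2.1 ≤ W x) :
    OC C8T VecT V (fun x => elimX Φ (gE x.1) x.1.2.1.2.1 x.1.2.1.2.2 x.1.2.2.1 (v x)) W := by
  have h1 : OC C8T (.prod CooT CooT) V (fun x => (x.1.2.1.2.1, x.1.2.1.2.2)) W :=
    OC.pair (OC.fst (OC.snd (OC.fst (OC.snd (OC.fst OC.id)))))
      (OC.snd (OC.snd (OC.fst (OC.snd (OC.fst OC.id)))))
  have h2 : OC C8T VecT V (fun x => x.1.2.2.1) W := OC.fst (OC.snd (OC.snd (OC.fst OC.id)))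
  exact OC.comp (F := fun x : C8T.den => (gE x.1, ((x.1.2.1.2.1, x.1.2.1.2.2), (x.1.2.2.1,
      v x)))) (elimX_oc Φ) (OC.pair C8_E (OC.pair h1 (OC.pair h2 hv)))
      (fun _ _ => trivial) 1 (fun x hx => by exact C8_le1 (h x hx))

/-- the inner part of step 0 -/
theorem C8_inner {Θ : C8T.den → ChT.den} (hΘ : OC C8T ChT V Θ W)
    (h : ∀ x, V x → (gP x.1 19 + 1) * (chCost Φ.C (Θ x) (topIx x.1 x.2.1) +
      opSize ((Θ x).1 (topIx x.1 x.2.1)).2) ≤ W x)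
    (h1 : ∀ x, V x → gP x.1 0 ≤ W x) (h2 : ∀ x, V x → opSize (gE x.1) ≤ W x)
    (h3 : ∀ x, V x → opSize (gE x.1) + x.1.2.1.2.1.1 + x.1.2.1.2.2.1 ≤ W x) :
    OC C8T StT V (fun x =>
      if gQ x.1 6 * Φ.dot (gP x.1 0, (x.1.2.2.2, x.1.2.2.2)) <
          Φ.dot (gP x.1 0, (resid Φ x.1 (cand Φ x.1 x.2.1 (Θ x)),
            resid Φ x.1 (cand Φ x.1 x.2.1 (Θ x)))) then
        (x.2.2.1.1, (x.2.2.1.2.1, (x.2.2.1.2.2.1, Θ x)))
      else ((1, elimX Φ (gE x.1) x.1.2.1.2.1 x.1.2.1.2.2 x.1.2.2.1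
        (cand Φ x.1 x.2.1 (Θ x))), x.2.2.1.2)) W := by
  have hv := C8_cand_oc Φ hΘ h
  have hr := C8_resid_oc Φ hv h1 h2
  have hb : OC C8T VecT V (fun x => x.1.2.2.2) W := OC.snd (OC.snd (OC.snd (OC.fst OC.id)))
  have hd1 := C8_dot_oc Φ hb hb h1
  have hd2 := C8_dot_oc Φ hr hr h1
  have hst : OC C8T StT V (fun x => x.2.2.1) W := OC.fst (OC.snd (OC.snd OC.id))
  have hA : OC C8T StT V (fun x => (x.2.2.1.1, (x.2.2.1.2.1, (x.2.2.1.2.2.1, Θ x)))) W :=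
    OC.pair (OC.fst hst) (OC.pair (OC.fst (OC.snd hst)) (OC.pair (OC.fst (OC.snd (OC.snd hst)))
      hΘ))
  have hB : OC C8T StT V (fun x => ((1, elimX Φ (gE x.1) x.1.2.1.2.1 x.1.2.1.2.2 x.1.2.2.1
      (cand Φ x.1 x.2.1 (Θ x))), x.2.2.1.2)) W :=
    OC.pair (OC.pair (OC.nlit 1) (C8_X_oc Φ hv h3)) (OC.snd hst)
  refine (OC.ifLt (OC.mul (C8_Q 6) hd1) hd2 (hA.weaken fun x hx => hx.1)
    (hB.weaken fun x hx => hx.1)).congr fun x _ => ?_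
  split_ifs <;> rfl

end pieces

/-- input `(g, (j, (st, w)))` -/
theorem st0_oc : OC (.prod GT (.prod .nat (.prod StT NArr))) StT
    (fun x => ∃ c x0, x.1.1.1 = parN c x0) (fun x => st0 Φ x.1 x.2.1 x.2.2.1 x.2.2.2)
    (fun x => w0 Φ x.1 x.2.1 x.2.2.1 x.2.2.2) := by
  obtain ⟨V, hV⟩ : ∃ V : C8T.den → Prop, V = fun x => ∃ c x0, x.1.1.1 = parN c x0 := ⟨_, rfl⟩
  obtain ⟨W, hW⟩ : ∃ W : C8T.den → ℕ, W = fun x => w0 Φ x.1 x.2.1 x.2.2.1 x.2.2.2 := ⟨_, rfl⟩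
  have hp : ∀ x, V x → ∃ c x0, x.1.1.1 = parN c x0 := fun x hx => by rw [hV] at hx; exact hx
  have hWx : ∀ x, w0 Φ x.1 x.2.1 x.2.2.1 x.2.2.2 = W x := fun x => by rw [hW]
  show OC C8T StT _ _ _
  rw [← hV, ← hW]
  obtain ⟨V2, hV2⟩ : ∃ V2 : C8T.den → Prop, V2 = fun x => (V x ∧ x.2.2.1.1.1 < 1) ∧
    0 < chk (x.1, (x.2.1, x.2.2.1)) := ⟨_, rfl⟩
  have hz : ∀ x, V2 x → x.2.2.1.1.1 = 0 := fun x hx => by
    rw [hV2] at hx
    exact Nat.lt_one_iff.mp hx.1.2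
  have hc : ∀ x, V2 x → Chk x.1 x.2.1 x.2.2.1 := fun x hx => by
    rw [hV2] at hx
    exact (C8_chk _ _ _).1.mp hx.2
  have hp2 : ∀ x, V2 x → ∃ c x0, x.1.1.1 = parN c x0 := fun x hx => by
    rw [hV2] at hx
    exact hp x hx.1.1
  have bd : ∀ x, V2 x → _ := fun (x : C8T.den) (hx : V2 x) =>
    C8_bd Φ x.2.2.2 (hz x hx) (hc x hx)
  have b0 : ∀ x, V2 x → gP x.1 0 ≤ W x := fun x hx =>
    (bd x hx).2.2.2.2.2.1.trans_eq (hWx x)
  have b1 : ∀ x, V2 x → opSize (gE x.1) ≤ W x := fun x hx => (bd x hx).2.2.2.1.trans_eq (hWx x)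
  have hth : OC C8T ChT V2 (fun x => theta Φ x.1 x.2.1 x.2.2.1 x.2.2.2) W :=
    C8_theta_oc Φ (C8_base_oc Φ (C8_om_oc Φ fun x hx => (bd x hx).2.1.trans_eq (hWx x)) hp2 hc
      fun x hx => (bd x hx).2.2.1.trans_eq (hWx x)) b0 b1
      fun x hx => (bd x hx).1.trans_eq (hWx x)
  have hin := C8_inner Φ hth (fun x hx => by
    rw [C8_top]
    exact (Nat.mul_le_mul_left _ (Nat.le_succ _)).trans
      ((bd x hx).2.2.2.2.1.trans_eq (hWx x))) b0 b1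
    (fun x hx => (bd x hx).2.2.2.2.2.2.1.trans_eq (hWx x))
  rw [hV2] at hin
  have hC : OC C8T StT (fun x => (V x ∧ x.2.2.1.1.1 < 1) ∧ ¬ 0 < chk (x.1, (x.2.1, x.2.2.1)))
      (fun x => ((1, VecT.default), x.2.2.1.2)) W :=
    OC.pair (OC.pair (OC.nlit 1) (OC.dflt VecT)) (OC.snd (OC.fst (OC.snd (OC.snd OC.id))))
  have hchk : OC C8T .nat (fun x => V x ∧ x.2.2.1.1.1 < 1)
      (fun x => chk (x.1, (x.2.1, x.2.2.1))) W := by
    refine OC.comp (F := fun x : C8T.den => (x.1, (x.2.1, x.2.2.1))) chk_oc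
      (OC.pair (OC.fst OC.id) (OC.pair (OC.fst (OC.snd OC.id))
        (OC.fst (OC.snd (OC.snd OC.id))))) ?_ 1 ?_
    · intro x hx
      exact (C8_par (hp x hx.1)).1
    · intro x hx
      rw [← hWx x, w0, if_pos (Nat.lt_one_iff.mp hx.2)]
      refine C8_le1 (le_trans ?_ (Nat.le_add_right _ _))
      dsimp only
      refine Nat.add_le_add (Nat.pow_le_pow_left (by omega) 2)
        (Nat.mul_le_mul_left _ (Nat.le_succ _))
  have hmid := OC.ifN (OC.nlit 0) hchk hin hC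
  have hS1 : OC C8T StT (fun x => V x ∧ ¬ x.2.2.1.1.1 < 1) (fun x => x.2.2.1) W :=
    OC.fst (OC.snd (OC.snd OC.id))
  have hfin := OC.ifN (A := fun x : C8T.den => x.2.2.1.1.1) (B := fun _ => 1)
    (OC.fst (OC.fst (OC.fst (OC.snd (OC.snd OC.id))))) (OC.nlit 1) hmid hS1
  refine hfin.congr fun x hx => ?_
  unfold st0
  by_cases h1 : x.2.2.1.1.1 = 0
  · rw [if_pos (Nat.lt_one_iff.mpr h1), if_pos h1]
    by_cases h2 : Chk x.1 x.2.1 x.2.2.1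
    · rw [if_pos ((C8_chk _ _ _).1.mpr h2), if_pos ((C8_chk _ _ _).2.mpr h2)]
    · rw [if_neg (fun h => h2 ((C8_chk _ _ _).1.mp h)),
        if_neg (fun h => h2 ((C8_chk _ _ _).2.mp h))]
      rfl
  · rw [if_neg (fun h => h1 (Nat.lt_one_iff.mp h)), if_neg h1]

end

end A55
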