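import Pool.Agent.Lib_helper50.A55.Par
import Pool.Agent.Lib_helper50.A55.Inv
/-!
# MP_a55cb8: block C9, the program of step 1 of a stage (helper90)
-/

open Matrix Finset

namespace A55

section

variable {mm : ℕ → ℕ} (Φ : Lib mm)

/-! ### arithmetic -/

theorem C9_one (a b : ℕ) (h : a ≤ b) : a ≤ 1 * (b + 1) := by omega

theorem C9_ar1 (M n l b : ℕ) (h : (M + 1) * (n + 1) * (l + 1) ≤ b) :
    (M + 1) * (n + 1) ≤ b := by
  refine le_trans ?_ h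
  nlinarith [Nat.zero_le ((M + 1) * (n + 1) * l)]

theorem C9_ar2 (M n l b : ℕ) (h : (M + 1) * (n + 1) * (l + 1) ≤ b) :
    (n + 1) * (l + 1) ≤ b := by
  refine le_trans ?_ h
  nlinarith [Nat.zero_le (M * ((n + 1) * (l + 1)))]

theorem C9_ar3 (M n b : ℕ) (h : (M + 1) * (n + 1) ≤ b) : M * n ≤ 1 * (b + 1) := by
  nlinarith

theorem C9_ar4 (M n l b : ℕ) (h : (M + 1) * (n + 1) * (l + 1) ≤ b) :
    n * (2 * l) ≤ 2 * (b + 1) := by
  have := C9_ar2 M n l b h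
  nlinarith

theorem C9_ar5 (M n l b : ℕ) (h : (M + 1) * (n + 1) * (l + 1) ≤ b) : n ≤ b := by
  have := C9_ar2 M n l b h
  nlinarith [Nat.zero_le ((n + 1) * l)]

theorem C9_ar6 (M n l b : ℕ) (e : ℕ → ℕ) (he : ∀ i < n, e i ≤ l)
    (h : (M + 1) * (n + 1) * (l + 1) ≤ b) : ∑ i ∈ range n, (e i + 1) ≤ b := by
  have h2 := C9_ar2 M n l b h
  have h3 : ∑ i ∈ range n, (e i + 1) ≤ ∑ _i ∈ range n, (l + 1) :=
    sum_le_sum fun i hi => by have := he i (mem_range.1 hi); omega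
  rw [sum_const, card_range, smul_eq_mul] at h3
  nlinarith

theorem C9_ar7 (a b c d e f : ℕ) (x y z A t : ℕ) (h : t = A + x * (a + b + c + d + e + f) + y)
    (_hz : z = 0) : A ≤ t ∧ x * (a + b) ≤ t ∧ x * (c + d) ≤ t ∧ x * (e + f) ≤ t ∧ y ≤ t := by
  subst h
  refine ⟨?_, ?_, ?_, ?_, ?_⟩ <;>
    nlinarith [Nat.zero_le (x * a), Nat.zero_le (x * b), Nat.zero_le (x * c),
      Nat.zero_le (x * d), Nat.zero_le (x * e), Nat.zero_le (x * f)]

/-! ### small programs -/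

theorem C9_piece0 : OC (.prod NArr (.prod .nat .nat)) NArr (fun _ => True)
    (fun x => piece x.1 x.2.1 x.2.2) (fun x => x.2.2) :=
  OC.tab0 (F := fun (x : (Ty.prod NArr (.prod .nat .nat)).den) (t : ℕ) => x.1 (x.2.1 + t))
    (OC.snd (OC.snd OC.id))
    (OC.get (OC.fst (OC.fst OC.id)) (OC.nadd (OC.fst (OC.snd (OC.fst OC.id))) (OC.snd OC.id)))
    1 fun _ _ => C9_one _ _ (le_refl _)

theorem C9_wArr0 : OC (.prod .nat SDT) VecT (fun _ => True)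
    (fun x => wArr x.1 x.2) (fun x => x.1) := by
  have h : OC (.prod (.prod .nat SDT) .nat) .real (fun _ => True)
      (fun p => if p.1.2.2.1 p.2 = 0 then (0 : ℝ) else p.1.2.2.2.1 p.2) (fun _ => 0) :=
    OC.ifEq (OC.get (OC.fst (OC.snd (OC.snd (OC.fst OC.id)))) (OC.snd OC.id)) (OC.nlit 0)
      OC.r0 (OC.get (OC.fst (OC.snd (OC.snd (OC.snd (OC.fst OC.id))))) (OC.snd OC.id))
  have h2 := OC.tab0 (t := .real) (V := fun _ : (Ty.prod .nat SDT).den => True) (w := fun x => x.1)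
    (F := fun (x : (Ty.prod .nat SDT).den) (t : ℕ) => sdW x.2 t)
    (OC.fst OC.id) h 1 fun x _ => C9_one _ _ (le_refl _)
  exact h2

section

variable {s : Ty} {V : s.den → Prop} {w : s.den → ℕ}

theorem C9_gP {g : s.den → GT.den} (hg : OC s GT V g w) (i : ℕ) :
    OC s .nat V (fun x => gP (g x) i) w := OC.get hg.fst.fst (OC.nlit i)

theorem C9_gQ {g : s.den → GT.den} (hg : OC s GT V g w) (i : ℕ) :
    OC s .real V (fun x => gQ (g x) i) w := OC.get hg.fst.snd.fst (OC.nlit i)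

theorem C9_gLam {g : s.den → GT.den} {i : s.den → ℕ} (hg : OC s GT V g w)
    (hi : OC s .nat V i w) : OC s .real V (fun x => gLam (g x) (i x)) w :=
  OC.get hg.fst.snd.snd hi

theorem C9_top {g : s.den → GT.den} {j : s.den → ℕ} (hg : OC s GT V g w)
    (hj : OC s .nat V j w) : OC s .nat V (fun x => topIx (g x) (j x)) w :=
  OC.nadd (OC.nmul (OC.nlit 2) (OC.nsub hj (OC.nsub hj (C9_gP hg 21)))) (OC.nlit 2)

theorem C9_piece {a : s.den → NArr.den} {off len : s.den → ℕ} (ha : OC s NArr V a w)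
    (ho : OC s .nat V off w) (hl : OC s .nat V len w) (K : ℕ)
    (hb : ∀ x, V x → len x ≤ K * (w x + 1)) :
    OC s NArr V (fun x => piece (a x) (off x) (len x)) w :=
  OC.comp C9_piece0 (F := fun x => (a x, (off x, len x))) (OC.pair ha (OC.pair ho hl))
    (fun _ _ => trivial) K hb

theorem C9_wArr {n : s.den → ℕ} {a : s.den → SDT.den} (hn : OC s .nat V n w)
    (ha : OC s SDT V a w) (hb : ∀ x, V x → n x ≤ w x) :
    OC s VecT V (fun x => wArr (n x) (a x)) w :=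
  OC.comp C9_wArr0 (F := fun x => (n x, a x)) (OC.pair hn ha)
    (fun _ _ => trivial) 1 fun x hx => C9_one _ _ (hb x hx)

theorem C9_sgb {g : s.den → GT.den} {a : s.den → NArr.den} {off : s.den → ℕ}
    (hg : OC s GT V g w) (ha : OC s NArr V a w) (ho : OC s .nat V off w)
    (hb : ∀ x, V x → (gP (g x) 13 + 1) * (gP (g x) 0 + 1) ≤ w x) :
    OC s (.arr VecT) V (fun x => sgb Φ (g x) (a x) (off x)) w := by
  have h := OC.comp Φ.sgns_oc (F := fun x => ((gP (g x) 13, gP (g x) 0),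
      piece (a x) (off x) (gP (g x) 13 * gP (g x) 0)))
    (OC.pair (OC.pair (C9_gP hg 13) (C9_gP hg 0))
      (C9_piece ha ho (OC.nmul (C9_gP hg 13) (C9_gP hg 0)) 1
        fun x hx => C9_ar3 _ _ _ (hb x hx)))
    (fun _ _ => trivial) 1 fun x hx => C9_one _ _ (hb x hx)
  exact h

theorem C9_score {R M : s.den → ℕ} {Θ : s.den → ChT.den} {s1 s2 : s.den → (Ty.arr VecT).den}
    (hR : OC s .nat V R w) (hΘ : OC s ChT V Θ w) (hM : OC s .nat V M w)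
    (h1 : OC s (.arr VecT) V s1 w) (h2 : OC s (.arr VecT) V s2 w)
    (hb : ∀ x, V x → (M x + 1) * (chCost Φ.C (Θ x) (R x) + opSize ((Θ x).1 (R x)).2) ≤ w x) :
    OC s VecT V (fun x => Φ.score (R x, (Θ x, (M x, (s1 x, s2 x))))) w := by
  have h0 : OC (.prod .nat (.prod ChT (.prod .nat (.prod (.arr VecT) (.arr VecT))))) VecT
      (fun _ => True) Φ.score
      (fun x => (x.2.2.1 + 1) * (chCost Φ.C x.2.1 x.1 + opSize (x.2.1.1 x.1).2)) :=
    OC.of_Cp Φ.C Φ.score_cp fun x _ => by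
      rw [mul_assoc]
      exact Nat.mul_le_mul_left _ (Nat.le_succ _)
  exact OC.comp h0 (F := fun x => (R x, (Θ x, (M x, (s1 x, s2 x)))))
    (OC.pair hR (OC.pair hΘ (OC.pair hM (OC.pair h1 h2))))
    (fun _ _ => trivial) 1 fun x hx => C9_one _ _ (hb x hx)

theorem C9_clean {R M : s.den → ℕ} {Θ : s.den → ChT.den} {v : s.den → VecT.den}
    {s1 : s.den → (Ty.arr VecT).den}
    (hR : OC s .nat V R w) (hΘ : OC s ChT V Θ w) (hM : OC s .nat V M w)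
    (hv : OC s VecT V v w) (h1 : OC s (.arr VecT) V s1 w)
    (hb : ∀ x, V x → (M x + 1) * (chCost Φ.C (Θ x) (R x) + opSize ((Θ x).1 (R x)).2) ≤ w x) :
    OC s VecT V (fun x => Φ.clean (R x, (Θ x, (M x, (v x, s1 x))))) w := by
  have h0 : OC (.prod .nat (.prod ChT (.prod .nat (.prod VecT (.arr VecT))))) VecT
      (fun _ => True) Φ.clean
      (fun x => (x.2.2.1 + 1) * (chCost Φ.C x.2.1 x.1 + opSize (x.2.1.1 x.1).2)) :=
    OC.of_Cp Φ.C Φ.clean_cp fun x _ => by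
      rw [mul_assoc]
      exact Nat.mul_le_mul_left _ (Nat.le_succ _)
  exact OC.comp h0 (F := fun x => (R x, (Θ x, (M x, (v x, s1 x)))))
    (OC.pair hR (OC.pair hΘ (OC.pair hM (OC.pair hv h1))))
    (fun _ _ => trivial) 1 fun x hx => C9_one _ _ (hb x hx)

theorem C9_rates {n l : s.den → ℕ} {L : s.den → ℝ} {est : s.den → VecT.den}
    (hn : OC s .nat V n w) (hl : OC s .nat V l w) (hL : OC s .real V L w)
    (he : OC s VecT V est w) (hb : ∀ x, V x → (n x + 1) * (l x + 1) ≤ w x) :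
    OC s NArr V (fun x => Φ.rates ((n x, l x), (L x, est x))) w :=
  OC.comp Φ.rates_oc (F := fun x => ((n x, l x), (L x, est x)))
    (OC.pair (OC.pair hn hl) (OC.pair hL he))
    (fun _ _ => trivial) 1 fun x hx => C9_one _ _ (hb x hx)

theorem C9_bad {n : s.den → ℕ} {t : s.den → ℝ} {e : s.den → NArr.den} {est : s.den → VecT.den}
    (hn : OC s .nat V n w) (ht : OC s .real V t w) (he : OC s NArr V e w)
    (hs : OC s VecT V est w) (hb : ∀ x, V x → ∑ i ∈ range (n x), (e x i + 1) ≤ w x) :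
    OC s NArr V (fun x => Φ.bad ((n x, t x), (e x, est x))) w :=
  OC.comp Φ.bad_oc (F := fun x => ((n x, t x), (e x, est x)))
    (OC.pair (OC.pair hn ht) (OC.pair he hs))
    (fun _ _ => trivial) 1 fun x hx => C9_one _ _ (hb x hx)

theorem C9_smp {n B h : s.den → ℕ} {e b a : s.den → NArr.den}
    (hn : OC s .nat V n w) (hB : OC s .nat V B w) (hh : OC s .nat V h w)
    (he : OC s NArr V e w) (hb' : OC s NArr V b w) (ha : OC s NArr V a w)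
    (hb : ∀ x, V x → ∑ i ∈ range (n x), (e x i + 1) ≤ w x) :
    OC s SDT V (fun x => Φ.smp ((n x, (B x, h x)), (e x, (b x, a x)))) w :=
  OC.comp Φ.smp_oc (F := fun x => ((n x, (B x, h x)), (e x, (b x, a x))))
    (OC.pair (OC.pair hn (OC.pair hB hh)) (OC.pair he (OC.pair hb' ha)))
    (fun _ _ => trivial) 1 fun x hx => C9_one _ _ (hb x hx)

theorem C9_ar8 {w' : ℕ} (a b c d e f : ℕ) (h : a + b + c + d + e + f ≤ w') : c + d + e ≤ w' := by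
  omega

theorem C9_mkOp {E : s.den → OpT.den} {S T : s.den → SDT.den}
    (hE : OC s OpT V E w) (hS : OC s SDT V S w) (hT : OC s SDT V T w)
    (hb : ∀ x, V x → opSize (E x) ≤ w x) :
    OC s OpT V (fun x => Φ.mkOp (E x, (S x, T x))) w :=
  OC.comp Φ.mkOp_oc (F := fun x => (E x, (S x, T x)))
    (OC.pair hE (OC.pair hS hT))
    (fun _ _ => trivial) 1 fun x hx => C9_one _ _ (C9_ar8 _ _ _ _ _ _ (hb x hx))

/-! ### the samples -/

theorem C9_eOf {g : s.den → GT.den} {j : s.den → ℕ} {Θ : s.den → ChT.den}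
    {a : s.den → NArr.den} (hg : OC s GT V g w) (hj : OC s .nat V j w) (hΘ : OC s ChT V Θ w)
    (ha : OC s NArr V a w)
    (hb : ∀ x, V x → (gP (g x) 13 + 1) * (gP (g x) 0 + 1) * (gP (g x) 5 + 1) ≤ w x)
    (hc : ∀ x, V x → (gP (g x) 13 + 1) * (chCost Φ.C (Θ x) (topIx (g x) (j x) + 2) +
      opSize ((Θ x).1 (topIx (g x) (j x) + 2)).2) ≤ w x) :
    OC s NArr V (fun x => eOf Φ (g x) (j x) (Θ x) (a x)) w :=
  C9_rates Φ (C9_gP hg 0) (C9_gP hg 5) (C9_gQ hg 0)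
    (C9_score Φ (OC.nadd (C9_top hg hj) (OC.nlit 2)) hΘ (C9_gP hg 13)
      (C9_sgb Φ hg ha (OC.nmul (OC.nlit 0) (OC.nmul (C9_gP hg 13) (C9_gP hg 0)))
        fun x hx => C9_ar1 _ _ _ _ (hb x hx))
      (C9_sgb Φ hg ha (OC.nmul (OC.nlit 1) (OC.nmul (C9_gP hg 13) (C9_gP hg 0)))
        fun x hx => C9_ar1 _ _ _ _ (hb x hx)) hc)
    fun x hx => C9_ar2 _ _ _ _ (hb x hx)

theorem C9_fOf {g : s.den → GT.den} {j : s.den → ℕ} {Θ : s.den → ChT.den}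
    {a : s.den → NArr.den} (hg : OC s GT V g w) (hj : OC s .nat V j w) (hΘ : OC s ChT V Θ w)
    (ha : OC s NArr V a w)
    (hb : ∀ x, V x → (gP (g x) 13 + 1) * (gP (g x) 0 + 1) * (gP (g x) 5 + 1) ≤ w x)
    (hc : ∀ x, V x → (gP (g x) 13 + 1) * (chCost Φ.C (Θ x) (topIx (g x) (j x) + 1) +
      opSize ((Θ x).1 (topIx (g x) (j x) + 1)).2) ≤ w x) :
    OC s NArr V (fun x => fOf Φ (g x) (j x) (Θ x) (a x)) w :=
  C9_rates Φ (C9_gP hg 0) (C9_gP hg 5) (C9_gQ hg 0)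
    (C9_score Φ (OC.nadd (C9_top hg hj) (OC.nlit 1)) hΘ (C9_gP hg 13)
      (C9_sgb Φ hg ha (OC.nmul (OC.nlit 2) (OC.nmul (C9_gP hg 13) (C9_gP hg 0)))
        fun x hx => C9_ar1 _ _ _ _ (hb x hx))
      (C9_sgb Φ hg ha (OC.nmul (OC.nlit 3) (OC.nmul (C9_gP hg 13) (C9_gP hg 0)))
        fun x hx => C9_ar1 _ _ _ _ (hb x hx)) hc)
    fun x hx => C9_ar2 _ _ _ _ (hb x hx)

theorem C9_tOf {g : s.den → GT.den} {j : s.den → ℕ} {Θ : s.den → ChT.den}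
    {S : s.den → SDT.den} {f a : s.den → NArr.den}
    (hg : OC s GT V g w) (hj : OC s .nat V j w) (hΘ : OC s ChT V Θ w)
    (hS : OC s SDT V S w) (hf : OC s NArr V f w) (ha : OC s NArr V a w)
    (hfl : ∀ x, V x → ∀ i < gP (g x) 0, f x i ≤ gP (g x) 5)
    (hb : ∀ x, V x → (gP (g x) 13 + 1) * (gP (g x) 0 + 1) * (gP (g x) 5 + 1) ≤ w x)
    (hc : ∀ x, V x → (gP (g x) 13 + 1) * (chCost Φ.C (Θ x) (topIx (g x) (j x)) +
      opSize ((Θ x).1 (topIx (g x) (j x))).2) ≤ w x) :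
    OC s SDT V (fun x => tOf Φ (g x) (j x) (Θ x) (S x) (f x) (a x)) w :=
  C9_smp Φ (C9_gP hg 0) (OC.nmul (OC.nlit 2) (C9_gP hg 5)) (C9_gP hg 22) hf
    (C9_bad Φ (C9_gP hg 0) (OC.mul (C9_gQ hg 1) (C9_gLam hg hj)) hf
      (C9_clean Φ (C9_top hg hj) hΘ (C9_gP hg 13)
        (C9_wArr (C9_gP hg 0) hS fun x hx => C9_ar5 _ _ _ _ (hb x hx))
        (C9_sgb Φ hg ha (OC.nmul (OC.nlit 4) (OC.nmul (C9_gP hg 13) (C9_gP hg 0)))
          fun x hx => C9_ar1 _ _ _ _ (hb x hx)) hc)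
      fun x hx => C9_ar6 _ _ _ _ _ (hfl x hx) (hb x hx))
    (C9_piece ha (OC.nmul (OC.nlit 5) (OC.nmul (C9_gP hg 13) (C9_gP hg 0)))
      (OC.nmul (C9_gP hg 0) (OC.nmul (OC.nlit 2) (C9_gP hg 5))) 2
      fun x hx => C9_ar4 _ _ _ _ (hb x hx))
    fun x hx => C9_ar6 _ _ _ _ _ (hfl x hx) (hb x hx)

theorem C9_sOf {g : s.den → GT.den} {j : s.den → ℕ} {Θ : s.den → ChT.den}
    {T : s.den → SDT.den} {e a : s.den → NArr.den}
    (hg : OC s GT V g w) (hj : OC s .nat V j w) (hΘ : OC s ChT V Θ w)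
    (hT : OC s SDT V T w) (he : OC s NArr V e w) (ha : OC s NArr V a w)
    (hel : ∀ x, V x → ∀ i < gP (g x) 0, e x i ≤ gP (g x) 5)
    (hb : ∀ x, V x → (gP (g x) 13 + 1) * (gP (g x) 0 + 1) * (gP (g x) 5 + 1) ≤ w x)
    (hc : ∀ x, V x → (gP (g x) 13 + 1) * (chCost Φ.C (Θ x) (topIx (g x) (j x) + 1) +
      opSize ((Θ x).1 (topIx (g x) (j x) + 1)).2) ≤ w x) :
    OC s SDT V (fun x => sOf Φ (g x) (j x) (Θ x) (T x) (e x) (a x)) w :=
  C9_smp Φ (C9_gP hg 0) (OC.nmul (OC.nlit 2) (C9_gP hg 5)) (C9_gP hg 22) he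
    (C9_bad Φ (C9_gP hg 0)
      (OC.mul (C9_gQ hg 1) (C9_gLam hg (OC.nadd hj (OC.nlit 1)))) he
      (C9_clean Φ (OC.nadd (C9_top hg hj) (OC.nlit 1)) hΘ (C9_gP hg 13)
        (C9_wArr (C9_gP hg 0) hT fun x hx => C9_ar5 _ _ _ _ (hb x hx))
        (C9_sgb Φ hg ha
          (OC.nadd (OC.nmul (OC.nlit 5) (OC.nmul (C9_gP hg 13) (C9_gP hg 0)))
            (OC.nmul (C9_gP hg 0) (OC.nmul (OC.nlit 2) (C9_gP hg 5))))
          fun x hx => C9_ar1 _ _ _ _ (hb x hx)) hc)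
      fun x hx => C9_ar6 _ _ _ _ _ (hel x hx) (hb x hx))
    (C9_piece ha
      (OC.nadd (OC.nmul (OC.nlit 6) (OC.nmul (C9_gP hg 13) (C9_gP hg 0)))
        (OC.nmul (C9_gP hg 0) (OC.nmul (OC.nlit 2) (C9_gP hg 5))))
      (OC.nmul (C9_gP hg 0) (OC.nmul (OC.nlit 2) (C9_gP hg 5))) 2
      fun x hx => C9_ar4 _ _ _ _ (hb x hx))
    fun x hx => C9_ar6 _ _ _ _ _ (hel x hx) (hb x hx)

end

theorem C9_w1 (g : GT.den) (j : ℕ) (st : StT.den) (h : @LT.lt ℕ _ st.1.1 1) :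
    (gP g 13 + 1) * (gP g 0 + 1) * (gP g 5 + 1) ≤ w1 Φ g j st ∧
    (gP g 13 + 1) * (chCost Φ.C st.2.2.2 (topIx g j) + opSize (st.2.2.2.1 (topIx g j)).2) ≤
      w1 Φ g j st ∧
    (gP g 13 + 1) * (chCost Φ.C st.2.2.2 (topIx g j + 1) +
      opSize (st.2.2.2.1 (topIx g j + 1)).2) ≤ w1 Φ g j st ∧
    (gP g 13 + 1) * (chCost Φ.C st.2.2.2 (topIx g j + 2) +
      opSize (st.2.2.2.1 (topIx g j + 2)).2) ≤ w1 Φ g j st ∧
    opSize (gE g) ≤ w1 Φ g j st := by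
  have h0 : st.1.1 = 0 := Nat.lt_one_iff.1 h
  have h1 : w1 Φ g j st = _ := if_pos h0
  exact C9_ar7 _ _ _ _ _ _ _ _ 0 _ _ h1 rfl

theorem st1_oc : OC (.prod GT (.prod .nat (.prod StT NArr))) StT (fun _ => True)
    (fun x => st1 Φ x.1 x.2.1 x.2.2.1 x.2.2.2) (fun x => w1 Φ x.1 x.2.1 x.2.2.1) := by
  have hg : OC (.prod GT (.prod .nat (.prod StT NArr))) GT (fun x => True ∧ x.2.2.1.1.1 < 1)
    (fun x => x.1) (fun x => w1 Φ x.1 x.2.1 x.2.2.1) := OC.fst OC.id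
  have hj : OC (.prod GT (.prod .nat (.prod StT NArr))) .nat (fun x => True ∧ x.2.2.1.1.1 < 1)
    (fun x => x.2.1) (fun x => w1 Φ x.1 x.2.1 x.2.2.1) := OC.fst (OC.snd OC.id)
  have hst : OC (.prod GT (.prod .nat (.prod StT NArr))) StT (fun x => True ∧ x.2.2.1.1.1 < 1)
    (fun x => x.2.2.1) (fun x => w1 Φ x.1 x.2.1 x.2.2.1) := OC.fst (OC.snd (OC.snd OC.id))
  have ha : OC (.prod GT (.prod .nat (.prod StT NArr))) NArr (fun x => True ∧ x.2.2.1.1.1 < 1)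
    (fun x => x.2.2.2) (fun x => w1 Φ x.1 x.2.1 x.2.2.1) := OC.snd (OC.snd (OC.snd OC.id))
  have he := C9_eOf Φ hg hj hst.snd.snd.snd ha (fun x hx => (C9_w1 Φ _ _ _ hx.2).1)
    (fun x hx => (C9_w1 Φ _ _ _ hx.2).2.2.2.1)
  have hf := C9_fOf Φ hg hj hst.snd.snd.snd ha (fun x hx => (C9_w1 Φ _ _ _ hx.2).1)
    (fun x hx => (C9_w1 Φ _ _ _ hx.2).2.2.1)
  have hT := C9_tOf Φ hg hj hst.snd.snd.snd (OC.get hst.snd.fst.fst hj) hf ha
    (fun x hx i hi => (Φ.rates_eq _ _ _ _ i hi).1)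
    (fun x hx => (C9_w1 Φ _ _ _ hx.2).1) (fun x hx => (C9_w1 Φ _ _ _ hx.2).2.1)
  have hS := C9_sOf Φ hg hj hst.snd.snd.snd hT he ha
    (fun x hx i hi => (Φ.rates_eq _ _ _ _ i hi).1)
    (fun x hx => (C9_w1 Φ _ _ _ hx.2).1) (fun x hx => (C9_w1 Φ _ _ _ hx.2).2.2.1)
  have hj1 := OC.nadd hj (OC.nlit 1)
  have hE := hg.snd.fst.fst
  have hD := C9_mkOp Φ hE hS hT fun x hx => (C9_w1 Φ _ _ _ hx.2).2.2.2.2
  have hF := C9_mkOp Φ hE (OC.get hst.snd.fst.fst hj) hT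
    fun x hx => (C9_w1 Φ _ _ _ hx.2).2.2.2.2
  have hmain := OC.pair hst.fst (OC.pair
    (OC.pair (OC.upd hst.snd.fst.fst hj1 hS) (OC.upd hst.snd.fst.snd hj1 hT))
    (OC.pair (OC.pair (OC.upd hst.snd.snd.fst.fst hj1 hD) (OC.upd hst.snd.snd.fst.snd hj1 hF))
      hst.snd.snd.snd))
  refine (OC.ifN (V := fun _ => True) (OC.fst (OC.fst (OC.fst (OC.snd (OC.snd OC.id)))))
    (OC.nlit 1) hmain (OC.fst (OC.snd (OC.snd OC.id)))).congr fun x _ => ?_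
  unfold st1
  by_cases h : x.2.2.1.1.1 = 0
  · rw [if_pos h, if_pos (Nat.lt_one_iff.2 h)]
  · rw [if_neg h, if_neg (fun h' => h (Nat.lt_one_iff.1 h'))]

end

end A55
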