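import Pool.Agent.Lib_helper50.A55.Par
import Pool.Agent.Lib_helper50.A55.B.C1
import Pool.Agent.Lib_helper50.A55.B.C11
import Pool.Agent.Lib_helper50.A55.B.C2
import Pool.Agent.Lib_helper50.A55.B.C5
import Pool.Agent.Lib_helper50.A55.B.C6
import Pool.Agent.Lib_helper50.A55.B.C7
import Pool.Agent.Lib_helper50.A55.B.C8
import Pool.Agent.Lib_helper50.A55.B.C9
import Pool.Agent.Lib_helper50.A55.Inv
/-!
# MP_a55cb8: block C12 (helper73): the cost of the algorithm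
-/

open Matrix Finset

namespace A55

/-! ### statements of other blocks -/

section

variable {mm : ℕ → ℕ} (Φ : Lib mm)

/-! ### arithmetic -/

/-- `a ≤ L ^ E * W` -/
def C12_Le (L W E a : ℕ) : Prop := a ≤ L ^ E * W

theorem C12_Le.mono {L W E F a : ℕ} (hL : 1 ≤ L) (h : E ≤ F) (ha : C12_Le L W E a) :
    C12_Le L W F a :=
  le_trans ha (Nat.mul_le_mul_right _ (Nat.pow_le_pow_right hL h))

theorem C12_Le.mul {L W E F a p : ℕ} (hp : p ≤ L ^ F) (ha : C12_Le L W E a) :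
    C12_Le L W (F + E) (p * a) := by
  unfold C12_Le at *
  calc p * a ≤ L ^ F * (L ^ E * W) := Nat.mul_le_mul hp ha
    _ = L ^ (F + E) * W := by rw [pow_add]; ring

theorem C12_Le.of_le {L W E a b : ℕ} (h : a ≤ b) (hb : C12_Le L W E b) : C12_Le L W E a :=
  le_trans h hb

theorem C12_Le.add {L W E a b : ℕ} (hL : 2 ≤ L) (ha : C12_Le L W E a) (hb : C12_Le L W E b) :
    C12_Le L W (E + 1) (a + b) := by
  unfold C12_Le at *
  calc a + b ≤ L ^ E * W + L ^ E * W := Nat.add_le_add ha hb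
    _ = 2 * (L ^ E * W) := by ring
    _ ≤ L * (L ^ E * W) := Nat.mul_le_mul_right _ hL
    _ = L ^ (E + 1) * W := by rw [pow_succ]; ring

theorem C12_Le.base {L W a : ℕ} (h : a ≤ W) : C12_Le L W 0 a := by
  unfold C12_Le; simpa using h

/-- twelve terms -/
theorem C12_sum12 {L W E a b d e f g h i j k l m : ℕ} (hL : 12 ≤ L) (ha : C12_Le L W E a)
    (hb : C12_Le L W E b) (hd : C12_Le L W E d) (he : C12_Le L W E e) (hf : C12_Le L W E f)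
    (hg : C12_Le L W E g) (hh : C12_Le L W E h) (hi : C12_Le L W E i) (hj : C12_Le L W E j)
    (hk : C12_Le L W E k) (hl : C12_Le L W E l) (hm : C12_Le L W E m) :
    C12_Le L W (E + 1) (a + b + (d + e + f + g + h + i + j + k + l + m)) := by
  unfold C12_Le at *
  have h1 : 12 * (L ^ E * W) ≤ L * (L ^ E * W) := Nat.mul_le_mul_right _ hL
  have h2 : L ^ (E + 1) * W = L * (L ^ E * W) := by rw [pow_succ]; ring
  rw [h2]
  omega

theorem C12_log2_lt {m a : ℕ} (h : m < 2 ^ a) (ha : 1 ≤ a) : Nat.log2 m + 1 ≤ a := by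
  by_cases hm : m = 0
  · subst hm; simpa using ha
  · exact (Nat.log2_lt hm).2 h

theorem C12_two_pow_log2 {m : ℕ} (hm : 1 ≤ m) : 2 ^ (Nat.log2 m + 1) ≤ 2 * m := by
  have := Nat.log2_self_le (n := m) (by omega)
  rw [pow_succ]; omega

theorem C12_lt_two_pow {m : ℕ} : m < 2 ^ (Nat.log2 m + 1) := Nat.lt_log2_self

/-- the parameters (plain numbers) -/
theorem C12_par_arith (L k b1 m1 b2 m2 b3 k3 : ℕ) (hL : 1000 ≤ L) (hk : 1 ≤ k)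
    (hkL : k + 1 ≤ 2 ^ L) (hb1 : b1 = Nat.log2 (16 * (k + 1) * L ^ 6) + 1)
    (hm1 : m1 = L * 2 ^ b1) (hb2 : b2 = Nat.log2 (16 * (m1 + 1) * L ^ 6) + 1)
    (hm2 : m2 = L * 2 ^ b2) (hb3 : b3 = Nat.log2 (16 * (k + m1 + 1) * L ^ 6) + 1)
    (hk3 : k3 = L * 2 ^ b3) :
    m1 + 1 ≤ L ^ 10 * k ∧ m2 + 1 ≤ L ^ 19 * k ∧ k3 + 1 ≤ L ^ 19 * k ∧ 2 ^ b3 ≤ L ^ 19 * k ∧
      b3 + 1 ≤ L ^ 2 := by
  have hpos : ∀ i, 1 ≤ L ^ i := fun i => Nat.one_le_pow _ _ (by omega)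
  have hk1 : k + 1 ≤ L * k := by nlinarith
  -- m1
  have e1 : 2 ^ b1 ≤ 32 * ((k + 1) * L ^ 6) := by
    rw [hb1]
    refine (C12_two_pow_log2 ?_).trans ?_
    · have := hpos 6; nlinarith
    · exact le_of_eq (by ring)
  have e2 : m1 ≤ (k + 1) * L ^ 8 := by
    rw [hm1]
    calc L * 2 ^ b1 ≤ L * (32 * ((k + 1) * L ^ 6)) := Nat.mul_le_mul_left _ e1
      _ = 32 * ((k + 1) * L ^ 7) := by ring
      _ ≤ L * ((k + 1) * L ^ 7) := Nat.mul_le_mul_right _ (by omega)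
      _ = (k + 1) * L ^ 8 := by ring
  have e3 : k + m1 + 1 ≤ (k + 1) * L ^ 9 := by
    have h8 := hpos 8
    calc k + m1 + 1 ≤ (k + 1) * L ^ 8 + (k + 1) * L ^ 8 := by nlinarith
      _ = 2 * ((k + 1) * L ^ 8) := by ring
      _ ≤ L * ((k + 1) * L ^ 8) := Nat.mul_le_mul_right _ (by omega)
      _ = (k + 1) * L ^ 9 := by ring
  have e4 : m1 + 1 ≤ (k + 1) * L ^ 9 := by omega
  have e5 : ∀ a b, a + 1 ≤ (k + 1) * L ^ 9 → b = Nat.log2 (16 * (a + 1) * L ^ 6) + 1 →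
      2 ^ b ≤ (k + 1) * L ^ 16 ∧ b + 1 ≤ L ^ 2 := by
    intro a b ha hb
    have h6 := hpos 6
    have h1 : 16 * (a + 1) * L ^ 6 ≤ 16 * ((k + 1) * L ^ 15) := by
      calc 16 * (a + 1) * L ^ 6 ≤ 16 * ((k + 1) * L ^ 9) * L ^ 6 := by gcongr
        _ = 16 * ((k + 1) * L ^ 15) := by ring
    constructor
    · rw [hb]
      refine (C12_two_pow_log2 (by nlinarith)).trans ?_
      calc 2 * (16 * (a + 1) * L ^ 6) ≤ 2 * (16 * ((k + 1) * L ^ 15)) :=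
            Nat.mul_le_mul_left _ h1
        _ = 32 * ((k + 1) * L ^ 15) := by ring
        _ ≤ L * ((k + 1) * L ^ 15) := Nat.mul_le_mul_right _ (by omega)
        _ = (k + 1) * L ^ 16 := by ring
    · have h2 : 16 * (a + 1) * L ^ 6 < 2 ^ (16 * L + 5) := by
        refine lt_of_le_of_lt h1 ?_
        have h3 : L ^ 15 ≤ (2 ^ L) ^ 15 := Nat.pow_le_pow_left (Nat.lt_two_pow_self).le 15
        have h4 : (k + 1) * L ^ 15 ≤ 2 ^ L * (2 ^ L) ^ 15 := Nat.mul_le_mul hkL h3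
        have h5 : 2 ^ (16 * L + 5) = 32 * (2 ^ L * (2 ^ L) ^ 15) := by
          rw [← pow_mul, ← pow_add, pow_add]
          have : L + L * 15 = 16 * L := by ring
          rw [this]; ring
        have h6 : 1 ≤ 2 ^ L * (2 ^ L) ^ 15 := Nat.one_le_iff_ne_zero.2 (by positivity)
        rw [h5]
        omega
      have h3 := C12_log2_lt h2 (by omega)
      have h4 : b + 1 ≤ 16 * L + 6 := by omega
      nlinarith
  have f2 := e5 m1 b2 e4 hb2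
  have f3 := e5 (k + m1) b3 e3 hb3
  have e6 : ∀ b, 2 ^ b ≤ (k + 1) * L ^ 16 → L * 2 ^ b + 1 ≤ L ^ 19 * k := by
    intro b hb
    have h16 := hpos 17
    calc L * 2 ^ b + 1 ≤ L * ((k + 1) * L ^ 16) + (k + 1) * L ^ 17 := by
          refine Nat.add_le_add (Nat.mul_le_mul_left _ hb) ?_
          nlinarith
      _ = 2 * ((k + 1) * L ^ 17) := by ring
      _ ≤ L * (L * k * L ^ 17) := by
          refine Nat.mul_le_mul (by omega) (Nat.mul_le_mul_right _ hk1)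
      _ = L ^ 19 * k := by ring
  refine ⟨?_, ?_, ?_, ?_, f3.2⟩
  · calc m1 + 1 ≤ (k + 1) * L ^ 9 := e4
      _ ≤ (L * k) * L ^ 9 := Nat.mul_le_mul_right _ hk1
      _ = L ^ 10 * k := by ring
  · rw [hm2]; exact e6 b2 f2.1
  · rw [hk3]; exact e6 b3 f3.1
  · calc 2 ^ b3 ≤ (k + 1) * L ^ 16 := f3.1
      _ ≤ (L * k) * L ^ 16 := Nat.mul_le_mul_right _ hk1
      _ = L ^ 17 * k := by ring
      _ ≤ L ^ 19 * k := Nat.mul_le_mul_right _ (Nat.pow_le_pow_right (by omega) (by omega))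

/-- `ps` is polynomial in `L` -/
theorem C12_ps_arith (L k m2 k3 cB s : ℕ) (hL : 1000 ≤ L)
    (hkL : k + 1 ≤ 2 ^ L) (hm2 : m2 + 1 ≤ L ^ 19 * k) (hk3 : k3 + 1 ≤ L ^ 19 * k)
    (hs : s = Nat.log2 (L ^ cB * (k + 1) + m2 + k3) + 1) : s + 1 ≤ L ^ (cB + 24) := by
  have hpos : ∀ i, 1 ≤ L ^ i := fun i => Nat.one_le_pow _ _ (by omega)
  have h1 : L ^ cB * (k + 1) + m2 + k3 < 2 ^ (L * (cB + 22)) := by
    have h2 : L ^ cB * (k + 1) ≤ L ^ (cB + 19) * (k + 1) :=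
      Nat.mul_le_mul_right _ (Nat.pow_le_pow_right (by omega) (by omega))
    have h3 : L ^ 19 * k ≤ L ^ (cB + 19) * (k + 1) :=
      Nat.mul_le_mul (Nat.pow_le_pow_right (by omega) (by omega)) (by omega)
    have h4 : L ^ cB * (k + 1) + m2 + k3 < 3 * (L ^ (cB + 19) * (k + 1)) := by omega
    refine lt_of_lt_of_le h4 ?_
    have h5 : L ^ (cB + 20) ≤ (2 ^ L) ^ (cB + 20) := Nat.pow_le_pow_left (Nat.lt_two_pow_self).le _
    calc 3 * (L ^ (cB + 19) * (k + 1)) ≤ L * (L ^ (cB + 19) * (k + 1)) :=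
          Nat.mul_le_mul_right _ (by omega)
      _ = L ^ (cB + 20) * (k + 1) := by ring
      _ ≤ (2 ^ L) ^ (cB + 20) * 2 ^ L := Nat.mul_le_mul h5 hkL
      _ = 2 ^ (L * (cB + 21)) := by rw [← pow_mul, ← pow_add]; congr 1
      _ ≤ 2 ^ (L * (cB + 22)) := Nat.pow_le_pow_right (by omega)
          (Nat.mul_le_mul_left _ (by omega))
  have h2 := C12_log2_lt h1 (by nlinarith)
  have h3 : cB + 22 < L ^ (cB + 22) := Nat.lt_pow_self (by omega)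
  calc s + 1 ≤ L * (cB + 22) + 1 := by omega
    _ ≤ L * L ^ (cB + 22) := by nlinarith
    _ = L ^ (cB + 23) := by rw [pow_succ L (cB + 22)]; ring
    _ ≤ L ^ (cB + 24) := Nat.pow_le_pow_right (by omega) (by omega)

theorem C12_pl {c : Cst} {x : InT.den} (hc : 1000 ≤ c.c1) : 1000 ≤ pl c x :=
  hc.trans (Nat.le_add_left _ _)

theorem C12_n_le (n c1 : ℕ) (h : 1000 ≤ c1) : n ≤ 2 ^ (Nat.log2 n + c1) := by
  have h1 : n < 2 ^ (Nat.log2 n + 1) := C12_lt_two_pow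
  exact h1.le.trans (Nat.pow_le_pow_right (by omega) (by omega))

theorem C12_k_le {c : Cst} {x : InT.den} (hc : 1000 ≤ c.c1) (h : x.1.2 < x.1.1) :
    x.1.2 + 1 ≤ 2 ^ pl c x :=
  le_trans (Nat.succ_le_of_lt h) (C12_n_le x.1.1 c.c1 hc)

theorem C12_tau (L ct : ℕ) (hL : 1 ≤ L) : 2 ^ (ct * Nat.log2 L) ≤ L ^ ct := by
  rw [mul_comm, pow_mul]
  exact Nat.pow_le_pow_left (Nat.log2_self_le (by omega)) _

/-- degree of the outer iteration -/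
theorem C12_mout_arith (L T K q ct : ℕ) (hL : 1000 ≤ L) (hT : T ≤ L ^ ct) :
    3 * L * T * K * (q + L ^ 3 + L + 1) + 1 ≤ L ^ (ct + 6) * ((K + 1) * (q + 1)) := by
  have hpos : ∀ i, 1 ≤ L ^ i := fun i => Nat.one_le_pow _ _ (by omega)
  have h1 : q + L ^ 3 + L + 1 ≤ L ^ 4 * (q + 1) := by
    have h3 : L ≤ L ^ 3 := Nat.le_self_pow (by omega) L
    have h4 : L ^ 4 = L * L ^ 3 := by ring
    have h5 : 1000 * L ^ 3 ≤ L * L ^ 3 := Nat.mul_le_mul_right _ hL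
    have h6 := hpos 3
    rw [h4]
    nlinarith
  have h2 : 3 * L * T * K * (q + L ^ 3 + L + 1) ≤ 3 * L * L ^ ct * K * (L ^ 4 * (q + 1)) := by
    gcongr
  have h3 : 1 ≤ L ^ ct * L ^ 5 * ((K + 1) * (q + 1)) := by
    have := hpos ct
    have := hpos 5
    exact Nat.one_le_iff_ne_zero.2 (by positivity)
  calc 3 * L * T * K * (q + L ^ 3 + L + 1) + 1
      ≤ 3 * L * L ^ ct * K * (L ^ 4 * (q + 1)) + L ^ ct * L ^ 5 * ((K + 1) * (q + 1)) :=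
        Nat.add_le_add h2 h3
    _ = 3 * (L ^ ct * L ^ 5 * (K * (q + 1))) + L ^ ct * L ^ 5 * ((K + 1) * (q + 1)) := by ring
    _ ≤ 3 * (L ^ ct * L ^ 5 * ((K + 1) * (q + 1))) + L ^ ct * L ^ 5 * ((K + 1) * (q + 1)) := by
        gcongr; omega
    _ = 4 * (L ^ ct * L ^ 5 * ((K + 1) * (q + 1))) := by ring
    _ ≤ L * (L ^ ct * L ^ 5 * ((K + 1) * (q + 1))) := Nat.mul_le_mul_right _ (by omega)
    _ = L ^ (ct + 6) * ((K + 1) * (q + 1)) := by rw [pow_add]; ring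

/-- degrees of the links -/
theorem C12_deg_arith (L T ct : ℕ) (hL : 1000 ≤ L) (hT : T ≤ L ^ ct) :
    L * T * (2 * L ^ 5 + 2) + 2 ≤ L ^ (ct + 7) ∧ L * (2 * L ^ 5 + 2) + 2 ≤ L ^ 7 := by
  have hpos : ∀ i, 1 ≤ L ^ i := fun i => Nat.one_le_pow _ _ (by omega)
  have h5 := hpos 5
  have h0 := hpos ct
  have h6 : L ^ 6 = L * L ^ 5 := by ring
  have hb : L * (2 * L ^ 5 + 2) ≤ 4 * L ^ 6 := by rw [h6]; nlinarith
  have h1 : L * T * (2 * L ^ 5 + 2) ≤ L ^ ct * (4 * L ^ 6) := by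
    calc L * T * (2 * L ^ 5 + 2) = T * (L * (2 * L ^ 5 + 2)) := by ring
      _ ≤ L ^ ct * (4 * L ^ 6) := Nat.mul_le_mul hT hb
  have h7 : 1 ≤ L ^ ct * L ^ 6 := Nat.one_le_iff_ne_zero.2 (by positivity)
  constructor
  · calc L * T * (2 * L ^ 5 + 2) + 2 ≤ L ^ ct * (4 * L ^ 6) + 2 * (L ^ ct * L ^ 6) := by omega
      _ = 6 * (L ^ ct * L ^ 6) := by ring
      _ ≤ L * (L ^ ct * L ^ 6) := Nat.mul_le_mul_right _ (by omega)
      _ = L ^ (ct + 7) := by rw [pow_add]; ring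
  · have h8 : L ^ 7 = L * L ^ 6 := by ring
    have h9 := hpos 6
    rw [h8]
    nlinarith

/-! ### values of the parameters, sizes -/

theorem C12_size_arith (L n k N l2 l3 m1 m2 : ℕ) (hL : 1000 ≤ L) (hn : n ≤ N)
    (h2 : l2 ≤ L * N) (h3 : l3 ≤ L * N) (hm1 : m1 + 1 ≤ L ^ 10 * k)
    (hm2 : m2 + 1 ≤ L ^ 19 * k) :
    n + n + N + l2 + l3 + (m1 + 1) * (m2 + 1) ≤ L ^ 30 * (k ^ 2 + N) := by
  have hpos : ∀ i, 1 ≤ L ^ i := fun i => Nat.one_le_pow _ _ (by omega)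
  have h4 : (m1 + 1) * (m2 + 1) ≤ L ^ 29 * k ^ 2 :=
    (Nat.mul_le_mul hm1 hm2).trans (le_of_eq (by ring))
  have h5 : L ^ 29 * k ^ 2 ≤ L ^ 30 * k ^ 2 :=
    Nat.mul_le_mul_right _ (Nat.pow_le_pow_right (by omega) (by omega))
  have h6 : L * N ≤ L ^ 29 * N :=
    Nat.mul_le_mul_right _ (Nat.le_self_pow (by omega) L)
  have h7 : N ≤ L ^ 29 * N := Nat.le_mul_of_pos_left _ (hpos 29)
  have h8 : 5 * (L ^ 29 * N) ≤ L * (L ^ 29 * N) := Nat.mul_le_mul_right _ (by omega)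
  have h9 : L ^ 30 * (k ^ 2 + N) = L ^ 30 * k ^ 2 + L * (L ^ 29 * N) := by ring
  rw [h9]
  omega

theorem C12_rowlen (n a : ℕ) (M A0 : CooT.den) (l m1 : ℕ) (hM : CooOK n a M)
    (hA : CooOK n n A0) (h : ∀ i < n, rowCnt M i ≤ min (l * rowCnt A0 i) m1) :
    M.1 ≤ l * A0.1 := by
  have h1 : ∀ (y : CooT.den) (b : ℕ), CooOK n b y → y.1 = ∑ i ∈ range n, rowCnt y i := by
    intro y b hy
    have h := card_eq_sum_card_fiberwise (s := range y.1) (t := range n) (f := fun e => y.2.1 e)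
      (fun e he => by
        have := hy e (by simpa using he)
        simpa using this.1)
    rw [card_range] at h
    exact h
  rw [h1 M a hM, h1 A0 n hA, mul_sum]
  exact sum_le_sum fun i hi => (h i (mem_range.1 hi)).trans (min_le_left _ _)

theorem C12_collen (n a : ℕ) (M A0 : CooT.den) (l m1 : ℕ) (hM : CooOK a n M)
    (hA : CooOK n n A0) (h : ∀ i < n, colCnt M i ≤ min (l * colCnt A0 i) m1) :
    M.1 ≤ l * A0.1 := by
  have h1 : ∀ (y : CooT.den) (b : ℕ), CooOK b n y → y.1 = ∑ i ∈ range n, colCnt y i := by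
    intro y b hy
    have h := card_eq_sum_card_fiberwise (s := range y.1) (t := range n) (f := fun e => y.2.2.1 e)
      (fun e he => by
        have := hy e (by simpa using he)
        simpa using this.2)
    rw [card_range] at h
    exact h
  rw [h1 M a hM, h1 A0 n hA, mul_sum]
  exact sum_le_sum fun i hi => (h i (mem_range.1 hi)).trans (min_le_left _ _)

theorem C12_m12 {c : Cst} {x : InT.den} (hc : 1000 ≤ c.c1) (hk : 1 ≤ x.1.2)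
    (hkn : x.1.2 < x.1.1) :
    pm1 c x + 1 ≤ pl c x ^ 10 * x.1.2 ∧ pm2 c x + 1 ≤ pl c x ^ 19 * x.1.2 ∧
      pk3 c x + 1 ≤ pl c x ^ 19 * x.1.2 ∧ 2 ^ pb3 c x ≤ pl c x ^ 19 * x.1.2 ∧
      pb3 c x + 1 ≤ pl c x ^ 2 :=
  C12_par_arith (pl c x) x.1.2 (pb1 c x) (pm1 c x) (pb2 c x) (pm2 c x) (pb3 c x) (pk3 c x)
    (C12_pl hc) hk (C12_k_le hc hkn) rfl rfl rfl rfl rfl rfl

theorem C12_opSize {c : Cst} {x : InT.den} {A0 : CooT.den} {g : GT.den} (hc : 1000 ≤ c.c1)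
    (h : GOK c x A0 g) (hk : 1 ≤ x.1.2) (hkn : x.1.2 < x.1.1) (hnN : x.1.1 ≤ x.2.1) :
    opSize (gE g) ≤ pl c x ^ 30 * (x.1.2 ^ 2 + x.2.1) := by
  obtain ⟨e1, e2, -, -, -⟩ := C12_m12 hc hk hkn
  have hok := h.ok
  unfold OpOK at hok
  rw [h.dim, h.mid] at hok
  have hr := C12_rowlen x.1.1 (pm1 c x) (gE g).2.2.1.2 A0 (pl c x) (pm1 c x) hok.2.1 h.Aok h.row
  have hcl := C12_collen x.1.1 (pm2 c x) (gE g).2.2.2.1 A0 (pl c x) (pm2 c x) hok.2.2 h.Aok h.col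
  have h0 : opSize (gE g) = x.1.1 + x.1.1 + A0.1 + (gE g).2.2.1.2.1 + (gE g).2.2.2.1.1 +
      (pm1 c x + 1) * (pm2 c x + 1) := by
    unfold opSize
    rw [h.dim, h.mid, h.lst]
  rw [h0]
  rw [h.len] at hr hcl ⊢
  exact C12_size_arith (pl c x) x.1.1 x.1.2 x.2.1 _ _ _ _ (C12_pl hc) hnN hr hcl e1 e2

theorem C12_chk_arith (a K Bd s N : ℕ) (hK : 1 ≤ K) (h : a * K ≤ Bd * (s * K + N)) :
    a ≤ Bd * (s + (N / K + 1)) := by
  have h1 : N < (N / K + 1) * K := by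
    have := Nat.div_add_mod N K
    have h2 := Nat.mod_lt N (show 0 < K by omega)
    nlinarith
  have h3 : a * K ≤ Bd * (s + (N / K + 1)) * K := by
    calc a * K ≤ Bd * (s * K + N) := h
      _ ≤ Bd * (s * K + (N / K + 1) * K) := Nat.mul_le_mul_left _ (by omega)
      _ = Bd * (s + (N / K + 1)) * K := by ring
  exact Nat.le_of_mul_le_mul_right h3 (by omega)

theorem C12_pK_pos (c : Cst) (x : InT.den) : 1 ≤ pK c x := Nat.one_le_pow _ _ (by omega)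

/-! ### the final weight -/

theorem C12_small (L : ℕ) (hL : 1000 ≤ L) : L + 1 ≤ L ^ 2 ∧ L ^ 3 + 1 ≤ L ^ 4 := by
  constructor
  · nlinarith
  · have h3 : L ^ 4 = L * L ^ 3 := by ring
    have h4 : 1 ≤ L ^ 3 := Nat.one_le_pow _ _ (by omega)
    rw [h3]; nlinarith

theorem C12_oc (L oc rest h : ℕ) (hL : 1 ≤ L) (ho : oc ≤ rest) :
    L * oc + 1 ≤ L * (rest + h + 1) := by nlinarith

theorem C12_pq (p q r : ℕ) : r ≤ (p + 1) * (q + 1) * r := by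
  have : 1 ≤ (p + 1) * (q + 1) := Nat.one_le_iff_ne_zero.2 (by positivity)
  nlinarith

theorem C12_W (c : Cst) (x : InT.den) :
    mm (2 ^ ps c x) ≤ wAlg mm Φ.C c x ∧
    x.1.2 * (x.2.1 / pK c x ^ pbb c x + 1) ≤ wAlg mm Φ.C c x ∧
    (x.2.2.1 + 1) * (x.2.2.2 + 1) * (rho0 Φ.C c x ^ pbb c x * x.1.2 ^ 2 + x.2.1) ≤
      wAlg mm Φ.C c x ∧
    x.1.2 ^ 2 + x.2.1 ≤ rho0 Φ.C c x ^ pbb c x * x.1.2 ^ 2 + x.2.1 ∧
    x.1.2 ^ 2 + x.2.1 ≤ wAlg mm Φ.C c x := by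
  have h1 : ∀ a b d : ℕ, a ≤ a + b + d ∧ b ≤ a + b + d ∧ d ≤ a + b + d := fun a b d => by omega
  obtain ⟨a1, a2, a3⟩ := h1 (mm (2 ^ ps c x)) (x.1.2 * (x.2.1 / pK c x ^ pbb c x + 1))
    ((x.2.2.1 + 1) * (x.2.2.2 + 1) * (rho0 Φ.C c x ^ pbb c x * x.1.2 ^ 2 + x.2.1))
  have hr : 1 ≤ rho0 Φ.C c x ^ pbb c x := by
    have hC := Φ.C_pos
    refine Nat.one_le_pow _ _ ?_
    unfold rho0
    exact Nat.mul_pos (Nat.mul_pos (Nat.pow_pos hC) (Nat.succ_pos _)) (Nat.succ_pos _)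
  have a4 : x.1.2 ^ 2 + x.2.1 ≤ rho0 Φ.C c x ^ pbb c x * x.1.2 ^ 2 + x.2.1 :=
    Nat.add_le_add_right (Nat.le_mul_of_pos_left _ hr) _
  refine ⟨a1, a2, a3, a4, a4.trans ((C12_pq _ _ _).trans a3)⟩

/-! ### bounds for the weights of the initial part -/

theorem C12_e5 (L k a b : ℕ) (hL : 1000 ≤ L) (hk : 1 ≤ k) (hkL : k + 1 ≤ 2 ^ L)
    (ha : a + 1 ≤ (k + 1) * L ^ 10) (hb : b = Nat.log2 (16 * (a + 1) * L ^ 6) + 1) :
    2 ^ b ≤ L ^ 18 * k ∧ b + 1 ≤ L ^ 2 ∧ a ≤ 2 ^ b := by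
  have hpos : ∀ i, 1 ≤ L ^ i := fun i => Nat.one_le_pow _ _ (by omega)
  have h6 := hpos 6
  have hk1 : k + 1 ≤ 2 * k := by omega
  have h1 : 16 * (a + 1) * L ^ 6 ≤ 16 * ((k + 1) * L ^ 16) := by
    calc 16 * (a + 1) * L ^ 6 ≤ 16 * ((k + 1) * L ^ 10) * L ^ 6 := by gcongr
      _ = 16 * ((k + 1) * L ^ 16) := by ring
  refine ⟨?_, ?_, ?_⟩
  · rw [hb]
    refine (C12_two_pow_log2 (by nlinarith)).trans ?_
    calc 2 * (16 * (a + 1) * L ^ 6) ≤ 2 * (16 * ((k + 1) * L ^ 16)) :=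
          Nat.mul_le_mul_left _ h1
      _ = 32 * ((k + 1) * L ^ 16) := by ring
      _ ≤ 32 * ((2 * k) * L ^ 16) := by gcongr
      _ = 64 * (k * L ^ 16) := by ring
      _ ≤ L * (k * L ^ 16) := Nat.mul_le_mul_right _ (by omega)
      _ = L ^ 17 * k := by ring
      _ ≤ L ^ 18 * k := Nat.mul_le_mul_right _ (Nat.pow_le_pow_right (by omega) (by omega))
  · have h2 : 16 * (a + 1) * L ^ 6 < 2 ^ (17 * L + 5) := by
      refine lt_of_le_of_lt h1 ?_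
      have h3 : L ^ 16 ≤ (2 ^ L) ^ 16 := Nat.pow_le_pow_left (Nat.lt_two_pow_self).le 16
      have h4 : (k + 1) * L ^ 16 ≤ 2 ^ L * (2 ^ L) ^ 16 := Nat.mul_le_mul hkL h3
      have h5 : 2 ^ (17 * L + 5) = 32 * (2 ^ L * (2 ^ L) ^ 16) := by
        rw [← pow_mul, ← pow_add, pow_add]
        have : L + L * 16 = 17 * L := by ring
        rw [this]; ring
      have h6 : 1 ≤ 2 ^ L * (2 ^ L) ^ 16 := Nat.one_le_iff_ne_zero.2 (by positivity)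
      rw [h5]
      omega
    have h3 := C12_log2_lt h2 (by omega)
    have h4 : b + 1 ≤ 17 * L + 6 := by omega
    nlinarith
  · rw [hb]
    have h7 : 16 * (a + 1) * L ^ 6 < 2 ^ (Nat.log2 (16 * (a + 1) * L ^ 6) + 1) :=
      C12_lt_two_pow
    nlinarith

/-- the domain -/
def C12_V (c : Cst) (y : (Ty.prod InT (.prod CooT (.prod VecT NArr))).den) : Prop :=
  CooOK y.1.1.1 y.1.1.1 y.2.1 ∧ y.2.1.1 = y.1.2.1 ∧ rho0 Φ.C c y.1 ≤ pK c y.1 ∧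
    1 ≤ y.1.1.2 ∧ y.1.1.2 < y.1.1.1 ∧ y.1.1.1 ≤ y.1.2.1

/-- bounds for all weights -/
theorem C12_bds (c : Cst) (hc : 1000 ≤ c.c1)
    (y : (Ty.prod InT (.prod CooT (.prod VecT NArr))).den) (hy : C12_V Φ c y) :
    ∀ E, c.cB + 60 ≤ E → ∀ G, G = glob Φ c y.1 y.2.1 y.2.2.1 y.2.2.2 →
    (wPar c y.1 ≤ pl c y.1 ^ E * wAlg mm Φ.C c y.1 ∧
    pW c y.1 ≤ pl c y.1 ^ E * wAlg mm Φ.C c y.1 ∧
    (pl c y.1 + 1) * (y.1.1.1 + 1) * (pb1 c y.1 + 1) + 2 ^ pb1 c y.1 ≤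
      pl c y.1 ^ E * wAlg mm Φ.C c y.1 ∧
    (pl c y.1 + 1) * (y.1.1.1 + 1) * (pb2 c y.1 + 1) + 2 ^ pb2 c y.1 ≤
      pl c y.1 ^ E * wAlg mm Φ.C c y.1 ∧
    (ps c y.1 + 1) * mm (2 ^ ps c y.1) + y.1.1.1 + (pl c y.1 + 1) ^ 2 * (y.2.1.1 + 1) ≤
      pl c y.1 ^ E * wAlg mm Φ.C c y.1) ∧
    (pm1 c y.1 ≤ 2 ^ ps c y.1 ∧ pm2 c y.1 ≤ 2 ^ ps c y.1) ∧
    ((pM c y.1 + 1) * (y.1.1.1 + 1) ≤ pl c y.1 ^ E * wAlg mm Φ.C c y.1 ∧
    (pM c y.1 + 1) * (opSize (gE G) + 1) ≤ pl c y.1 ^ E * wAlg mm Φ.C c y.1 ∧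
    (pl c y.1 ^ 3 + 2) ^ 2 ≤ pl c y.1 ^ E * wAlg mm Φ.C c y.1 ∧
    opSize (gE G) + G.2.1.2.1.1 + G.2.1.2.2.1 ≤ pl c y.1 ^ E * wAlg mm Φ.C c y.1 ∧
    y.1.1.1 ≤ pl c y.1 ^ E * wAlg mm Φ.C c y.1) := by
  intro E hE G hG
  obtain ⟨v1, v2, v3, v4, v5, v6⟩ := hy
  have hg : GOK c y.1 y.2.1 G := by rw [hG]; exact glob_ok Φ c y.1 y.2.1 _ _ v1 v2
  obtain ⟨W1, W2, W3, W4, W5⟩ := C12_W Φ c y.1
  have hL : 1000 ≤ pl c y.1 := C12_pl hc
  have hN1 : 1 ≤ y.1.2.1 := le_trans v4 (le_trans (le_of_lt v5) v6)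
  have hNW : y.1.2.1 ≤ wAlg mm Φ.C c y.1 := (Nat.le_add_left _ _).trans W5
  have hW1 : 1 ≤ wAlg mm Φ.C c y.1 := le_trans hN1 hNW
  have hnW : y.1.1.1 ≤ wAlg mm Φ.C c y.1 := le_trans v6 hNW
  have hkW : y.1.1.2 ≤ wAlg mm Φ.C c y.1 := le_trans (le_of_lt v5) hnW
  obtain ⟨m1, m2, m3, m4, m5⟩ := C12_m12 hc v4 v5
  have hszE := C12_opSize hc hg v4 v5 v6
  have hsE : C12_Le (pl c y.1) (wAlg mm Φ.C c y.1) 30 (opSize (gE G)) :=
    hszE.trans (Nat.mul_le_mul_left _ W5)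
  have hT1 := hg.hT.1
  have hS1 := hg.hS.1
  have hq := C12_pq y.1.2.2.1 y.1.2.2.2 (rho0 Φ.C c y.1 ^ pbb c y.1 * y.1.1.2 ^ 2 + y.1.2.1)
  have hqW : y.1.2.2.2 ≤ wAlg mm Φ.C c y.1 := by
    have h2 : ∀ p q r : ℕ, 1 ≤ r → q ≤ (p + 1) * (q + 1) * r := by
      intro p q r hr
      have h3 : (p + 1) * (q + 1) * 1 ≤ (p + 1) * (q + 1) * r := Nat.mul_le_mul_left _ hr
      have h4 : q ≤ (p + 1) * (q + 1) * 1 := by nlinarith
      exact h4.trans h3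
    exact (h2 _ _ _ (le_trans hN1 (Nat.le_add_left _ _))).trans W3
  obtain ⟨a1, a2, a3⟩ := C12_e5 (pl c y.1) y.1.1.2 y.1.1.2 (pb1 c y.1) hL v4 (C12_k_le hc v5)
    (Nat.le_mul_of_pos_right _ (Nat.pow_pos (by omega))) rfl
  obtain ⟨b1, b2, b3⟩ := C12_e5 (pl c y.1) y.1.1.2 (pm1 c y.1) (pb2 c y.1) hL v4
    (C12_k_le hc v5) (m1.trans (by rw [mul_comm]; exact Nat.mul_le_mul_right _ (Nat.le_succ _)))
    rfl
  have hm12 : pm1 c y.1 ≤ pm2 c y.1 :=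
    b3.trans (Nat.le_mul_of_pos_left _ (by omega))
  have hm2s : pm2 c y.1 ≤ 2 ^ ps c y.1 := by
    have h1 : ∀ a b d : ℕ, b ≤ 2 ^ (Nat.log2 (a + b + d) + 1) := by
      intro a b d
      have := C12_lt_two_pow (m := a + b + d)
      omega
    exact h1 _ _ _
  have hps := C12_ps_arith (pl c y.1) y.1.1.2 (pm2 c y.1) (pk3 c y.1) c.cB (ps c y.1) hL
    (C12_k_le hc v5) m2 m3 rfl
  obtain ⟨hl1, hl3⟩ := C12_small (pl c y.1) hL
  have hn1 : C12_Le (pl c y.1) (wAlg mm Φ.C c y.1) 1 (y.1.1.1 + 1) :=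
    (C12_Le.base hnW).add (by omega) (C12_Le.base hW1)
  have hN2 : C12_Le (pl c y.1) (wAlg mm Φ.C c y.1) 1 (y.1.2.1 + 1) :=
    (C12_Le.base hNW).add (by omega) (C12_Le.base hW1)
  have hsk : ∀ b, 2 ^ b ≤ pl c y.1 ^ 18 * y.1.1.2 → b + 1 ≤ pl c y.1 ^ 2 →
      (pl c y.1 + 1) * (y.1.1.1 + 1) * (b + 1) + 2 ^ b ≤ pl c y.1 ^ E * wAlg mm Φ.C c y.1 := by
    intro b hb1 hb2
    have h1 : (pl c y.1 + 1) * (y.1.1.1 + 1) * (b + 1) =
        ((pl c y.1 + 1) * (b + 1)) * (y.1.1.1 + 1) := by ring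
    rw [h1]
    have h2 : C12_Le (pl c y.1) (wAlg mm Φ.C c y.1) (2 + 2 + 1)
        (((pl c y.1 + 1) * (b + 1)) * (y.1.1.1 + 1)) := by
      refine hn1.mul ?_
      rw [pow_add]
      exact Nat.mul_le_mul hl1 hb2
    have h3 : C12_Le (pl c y.1) (wAlg mm Φ.C c y.1) 18 (2 ^ b) :=
      hb1.trans (Nat.mul_le_mul_left _ hkW)
    exact ((h2.mono (F := 18) (by omega) (by omega)).add (by omega) h3).mono (by omega)
      (by omega)
  have hM1 : pM c y.1 + 1 ≤ pl c y.1 ^ 7 := by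
    have h1 : ∀ L : ℕ, 1000 ≤ L → L ^ 6 + 1 ≤ L ^ 7 := by
      intro L hL
      have h3 : L ^ 7 = L * L ^ 6 := by ring
      have h4 : 1 ≤ L ^ 6 := Nat.one_le_pow _ _ (by omega)
      rw [h3]; nlinarith
    exact h1 _ hL
  refine ⟨⟨?_, ?_, hsk _ a1 a2, hsk _ b1 b2, ?_⟩, ⟨hm12.trans hm2s, hm2s⟩, ?_, ?_, ?_, ?_, ?_⟩
  · have h1 : C12_Le (pl c y.1) (wAlg mm Φ.C c y.1) (c.cB + 40 + 1)
        ((y.1.1.2 + 1) * pl c y.1 ^ (c.cB + 40)) := by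
      rw [mul_comm]
      exact ((C12_Le.base hkW).add (by omega) (C12_Le.base hW1)).mul le_rfl
    have h2 : C12_Le (pl c y.1) (wAlg mm Φ.C c y.1) (c.cB + 41 + 1 + 1) (wPar c y.1) :=
      ((C12_Le.base hnW).mono (F := c.cB + 41) (by omega) (by omega)).add (by omega)
        (h1.mono (by omega) (by omega)) |>.add (by omega)
        ((C12_Le.base hqW).mono (by omega) (by omega))
    exact h2.mono (by omega) (by omega)
  · have h1 : C12_Le (pl c y.1) (wAlg mm Φ.C c y.1) (8 + 0) (pl c y.1 ^ 8 * y.1.1.1) :=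
      (C12_Le.base hnW).mul le_rfl
    rw [mul_comm] at h1
    exact h1.mono (by omega) (by omega)
  · rw [v2]
    have h1 : C12_Le (pl c y.1) (wAlg mm Φ.C c y.1) (c.cB + 24 + 0)
        ((ps c y.1 + 1) * mm (2 ^ ps c y.1)) := (C12_Le.base W1).mul hps
    have h2 : C12_Le (pl c y.1) (wAlg mm Φ.C c y.1) (4 + 1)
        ((pl c y.1 + 1) ^ 2 * (y.1.2.1 + 1)) := by
      refine hN2.mul ?_
      calc (pl c y.1 + 1) ^ 2 ≤ (pl c y.1 ^ 2) ^ 2 := Nat.pow_le_pow_left hl1 2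
        _ = pl c y.1 ^ 4 := by ring
    exact (((h1.mono (F := c.cB + 30) (by omega) (by omega)).add (by omega)
      ((C12_Le.base hnW).mono (by omega) (by omega))).add (by omega)
      (h2.mono (by omega) (by omega))).mono (by omega) (by omega)
  · exact (hn1.mul hM1).mono (by omega) (by omega)
  · exact ((hsE.add (by omega) ((C12_Le.base hW1).mono (by omega) (by omega))).mul hM1).mono
      (by omega) (by omega)
  · have h1 : ∀ L : ℕ, 1000 ≤ L → (L ^ 3 + 2) ^ 2 ≤ L ^ 8 := by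
      intro L hL
      have h3 : L ^ 4 = L * L ^ 3 := by ring
      have h4 : 1 ≤ L ^ 3 := Nat.one_le_pow _ _ (by omega)
      have h5 : L ^ 3 + 2 ≤ L ^ 4 := by rw [h3]; nlinarith
      calc (L ^ 3 + 2) ^ 2 ≤ (L ^ 4) ^ 2 := Nat.pow_le_pow_left h5 2
        _ = L ^ 8 := by ring
    have h2 : C12_Le (pl c y.1) (wAlg mm Φ.C c y.1) 8 ((pl c y.1 ^ 3 + 2) ^ 2) :=
      (h1 _ hL).trans (Nat.le_mul_of_pos_right _ hW1)
    exact h2.mono (by omega) (by omega)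
  · rw [hT1, hS1]
    have h1 : C12_Le (pl c y.1) (wAlg mm Φ.C c y.1) (1 + 0) (pl c y.1 * y.1.1.1) :=
      (C12_Le.base hnW).mul (by rw [pow_one])
    exact (((hsE.add (by omega) (h1.mono (by omega) (by omega))).add (by omega)
      (h1.mono (by omega) (by omega)))).mono (by omega) (by omega)
  · have h1 : C12_Le (pl c y.1) (wAlg mm Φ.C c y.1) 0 y.1.1.1 := C12_Le.base hnW
    exact h1.mono (by omega) (by omega)

/-! ### programs -/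

/-- windows -/
theorem C12_win : OC (.prod .nat (.prod NArr .nat)) NArr (fun _ => True)
    (fun z => win z.1 z.2.1 z.2.2) (fun z => z.1) := by
  refine OC.tab0 (s := .prod .nat (.prod NArr .nat)) (N := fun z => z.1)
    (F := fun z t => z.2.1 (z.2.2 * z.1 + t)) (OC.fst OC.id) ?_ 1 (fun z _ => ?_)
  · exact OC.get (A := fun q : (Ty.prod (.prod .nat (.prod NArr .nat)) .nat).den => q.1.2.1)
      (OC.fst (OC.snd (OC.fst OC.id)))
      (OC.nadd (OC.nmul (OC.snd (OC.snd (OC.fst OC.id))) (OC.fst (OC.fst OC.id)))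
        (OC.snd OC.id))
  · have h1 : ∀ a : ℕ, a ≤ 1 * (a + 1) := fun a => by omega
    exact h1 _

theorem C12_winc {s : Ty} {V : s.den → Prop} {w : s.den → ℕ} {Wf I : s.den → ℕ}
    {R : s.den → ℕ → ℕ} (hW : OC s .nat V Wf w) (hR : OC s NArr V R w) (hI : OC s .nat V I w)
    (K : ℕ) (hw : ∀ x, V x → Wf x ≤ K * (w x + 1)) :
    OC s NArr V (fun x => win (Wf x) (R x) (I x)) w :=
  OC.comp (s := s) (F := fun x => (Wf x, (R x, I x))) C12_win (OC.pair hW (OC.pair hR hI))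
    (fun _ _ => trivial) K hw

/-- the ridges -/
theorem C12_lamt : OC (.prod .nat (.prod .real .real)) VecT (fun _ => True)
    (fun z => tabV .real z.1 (fun i => z.2.1 * z.2.2 ^ i)) (fun z => z.1 ^ 2) := by
  refine OC.tab (s := .prod .nat (.prod .real .real)) (N := fun z => z.1)
    (F := fun z i => z.2.1 * z.2.2 ^ i) (w' := fun q => q.2) (OC.fst OC.id) ?_ 1 (fun z _ => ?_)
  · refine OC.mul (OC.fst (OC.snd (OC.fst OC.id))) ?_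
    refine OC.comp (s := .prod (.prod .nat (.prod .real .real)) .nat)
      (F := fun q => (q.1.2.2, q.2)) rpow_oc
      (OC.pair (OC.snd (OC.snd (OC.fst OC.id))) (OC.snd OC.id)) (fun _ _ => trivial) 1
      (fun q _ => ?_)
    have h1 : ∀ a : ℕ, a ≤ 1 * (a + 1) := fun a => by omega
    exact h1 _
  · have h1 : ∀ a : ℕ, ∑ j ∈ range a, (j + 1) ≤ 1 * (a ^ 2 + 1) := by
      intro a
      have h2 : ∑ j ∈ range a, (j + 1) ≤ ∑ _j ∈ range a, a :=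
        sum_le_sum fun j hj => mem_range.1 hj
      rw [sum_const, card_range, smul_eq_mul] at h2
      nlinarith
    exact h1 z.1

section glob

variable (c : Cst)

/-- input type of the algorithm -/
abbrev C12_S : Ty := .prod InT (.prod CooT (.prod VecT NArr))

/-- weight -/
def C12_w (E : ℕ) (y : C12_S.den) : ℕ := pl c y.1 ^ E * wAlg mm Φ.C c y.1

theorem C12_le1 {a b : ℕ} (h : a ≤ b) : a ≤ 1 * (b + 1) := by omega

theorem C12_pv (hc : 1000 ≤ c.c1) {E : ℕ} (hE : c.cB + 60 ≤ E) (i : ℕ) :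
    OC C12_S .nat (C12_V Φ c) (fun y => parN c y.1 i) (C12_w Φ c E) :=
  OC.get (s := C12_S) (t := .nat) (A := fun y => parN c y.1) (I := fun _ => i)
    (OC.comp (s := C12_S) (F := fun y => y.1) (parN_oc c (by omega)) (OC.fst OC.id)
      (fun _ _ => trivial) 1
      (fun y hy => C12_le1 (C12_bds Φ c hc y hy E hE _ rfl).1.1)) (OC.nlit i)

theorem C12_sk (hc : 1000 ≤ c.c1) {E : ℕ} (hE : c.cB + 60 ≤ E) (i : ℕ) (bb : InT.den → ℕ)
    (hb : OC C12_S .nat (C12_V Φ c) (fun y => bb y.1) (C12_w Φ c E))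
    (hw : ∀ y, C12_V Φ c y → (pl c y.1 + 1) * (y.1.1.1 + 1) * (bb y.1 + 1) + 2 ^ bb y.1 ≤
      pl c y.1 ^ E * wAlg mm Φ.C c y.1) :
    OC C12_S CooT (C12_V Φ c)
      (fun y => Φ.sk (y.1.1.1, (pl c y.1, (bb y.1, win (pW c y.1) y.2.2.2 i))))
      (C12_w Φ c E) := by
  refine OC.comp (s := C12_S)
    (F := fun y => (y.1.1.1, (pl c y.1, (bb y.1, win (pW c y.1) y.2.2.2 i)))) Φ.sk_oc
    (OC.pair (OC.fst (OC.fst (OC.fst OC.id))) (OC.pair (C12_pv Φ c hc hE 5) (OC.pair hb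
      (C12_winc (C12_pv Φ c hc hE 23) (OC.snd (OC.snd (OC.snd OC.id))) (OC.nlit i) 1
        (fun y hy => C12_le1 (C12_bds Φ c hc y hy E hE _ rfl).1.2.1)))))
    (fun _ _ => trivial) 1 (fun y hy => C12_le1 (hw y hy))

theorem C12_T0 (hc : 1000 ≤ c.c1) {E : ℕ} (hE : c.cB + 60 ≤ E) :
    OC C12_S CooT (C12_V Φ c)
      (fun y => (glob Φ c y.1 y.2.1 y.2.2.1 y.2.2.2).2.1.2.1) (C12_w Φ c E) :=
  C12_sk Φ c hc hE 0 (pb1 c) (C12_pv Φ c hc hE 6)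
    (fun y hy => (C12_bds Φ c hc y hy E hE _ rfl).1.2.2.1)

theorem C12_S0 (hc : 1000 ≤ c.c1) {E : ℕ} (hE : c.cB + 60 ≤ E) :
    OC C12_S CooT (C12_V Φ c)
      (fun y => (glob Φ c y.1 y.2.1 y.2.2.1 y.2.2.2).2.1.2.2) (C12_w Φ c E) :=
  C12_sk Φ c hc hE 1 (pb2 c) (C12_pv Φ c hc hE 8)
    (fun y hy => (C12_bds Φ c hc y hy E hE _ rfl).1.2.2.2.1)

theorem C12_E (hc : 1000 ≤ c.c1) {E : ℕ} (hE : c.cB + 60 ≤ E) :
    OC C12_S OpT (C12_V Φ c)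
      (fun y => gE (glob Φ c y.1 y.2.1 y.2.2.1 y.2.2.2)) (C12_w Φ c E) := by
  refine OC.comp (s := C12_S)
    (F := fun y => ((y.1.1.1, (pl c y.1, ps c y.1)), ((pm1 c y.1, pm2 c y.1), (y.2.1,
      ((glob Φ c y.1 y.2.1 y.2.2.1 y.2.2.2).2.1.2.1,
        (glob Φ c y.1 y.2.1 y.2.2.1 y.2.2.2).2.1.2.2))))) (elimE_oc Φ)
    (OC.pair (OC.pair (OC.fst (OC.fst (OC.fst OC.id))) (OC.pair (C12_pv Φ c hc hE 5)
      (C12_pv Φ c hc hE 12))) (OC.pair (OC.pair (C12_pv Φ c hc hE 7) (C12_pv Φ c hc hE 9))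
      (OC.pair (OC.fst (OC.snd OC.id)) (OC.pair (C12_T0 Φ c hc hE) (C12_S0 Φ c hc hE)))))
    (fun y hy => ?_) 1 (fun y hy => ?_)
  · have hb := (C12_bds Φ c hc y hy E hE _ rfl).2.1
    have hg := glob_ok Φ c y.1 y.2.1 y.2.2.1 y.2.2.2 hy.1 hy.2.1
    exact ⟨hb.1, hb.2, hy.1, hg.hT, hg.hS⟩
  · exact C12_le1 (C12_bds Φ c hc y hy E hE _ rfl).1.2.2.2.2

theorem C12_lam0 (hc : 1000 ≤ c.c1) {E : ℕ} (hE : c.cB + 60 ≤ E) :
    OC C12_S .real (C12_V Φ c)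
      (fun y => topLam Φ (pM c y.1) (gE (glob Φ c y.1 y.2.1 y.2.2.1 y.2.2.2))
        (Φ.sgns ((pM c y.1, y.1.1.1), win (pW c y.1) y.2.2.2 2))) (C12_w Φ c E) := by
  refine OC.comp (s := C12_S)
    (F := fun y => (pM c y.1, (gE (glob Φ c y.1 y.2.1 y.2.2.1 y.2.2.2),
      Φ.sgns ((pM c y.1, y.1.1.1), win (pW c y.1) y.2.2.2 2)))) (topLam_oc Φ)
    (OC.pair (C12_pv Φ c hc hE 13) (OC.pair (C12_E Φ c hc hE) ?_)) (fun _ _ => trivial) 1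
    (fun y hy => C12_le1 (C12_bds Φ c hc y hy E hE _ rfl).2.2.2.1)
  exact OC.comp (s := C12_S)
    (F := fun y => ((pM c y.1, y.1.1.1), win (pW c y.1) y.2.2.2 2)) Φ.sgns_oc
    (OC.pair (OC.pair (C12_pv Φ c hc hE 13) (OC.fst (OC.fst (OC.fst OC.id))))
      (C12_winc (C12_pv Φ c hc hE 23) (OC.snd (OC.snd (OC.snd OC.id))) (OC.nlit 2) 1
        (fun y hy => C12_le1 (C12_bds Φ c hc y hy E hE _ rfl).1.2.1)))
    (fun _ _ => trivial) 1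
    (fun y hy => C12_le1 (C12_bds Φ c hc y hy E hE _ rfl).2.2.1)

/-- the global data -/
theorem C12_glob (hc : 1000 ≤ c.c1) {E : ℕ} (hE : c.cB + 60 ≤ E) :
    OC C12_S GT (C12_V Φ c)
      (fun y => glob Φ c y.1 y.2.1 y.2.2.1 y.2.2.2) (C12_w Φ c E) := by
  have hP : OC C12_S NArr (C12_V Φ c) (fun y => parN c y.1) (C12_w Φ c E) :=
    OC.comp (s := C12_S) (F := fun y => y.1) (parN_oc c (by omega)) (OC.fst OC.id)
      (fun _ _ => trivial) 1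
      (fun y hy => C12_le1 (C12_bds Φ c hc y hy E hE _ rfl).1.1)
  have hQ : OC C12_S VecT (C12_V Φ c) (fun y => parQ c y.1) (C12_w Φ c E) :=
    OC.comp (s := C12_S) (F := fun y => y.1) (parQ_oc c (by omega)) (OC.fst OC.id)
      (fun _ _ => trivial) 1
      (fun y hy => C12_le1 (C12_bds Φ c hc y hy E hE _ rfl).1.1)
  have hlt : OC C12_S VecT (C12_V Φ c)
      (fun y => (glob Φ c y.1 y.2.1 y.2.2.1 y.2.2.2).1.2.2) (C12_w Φ c E) := by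
    refine OC.comp (s := C12_S)
      (F := fun y => (pl c y.1 ^ 3 + 2, (topLam Φ (pM c y.1)
        (gE (glob Φ c y.1 y.2.1 y.2.2.1 y.2.2.2))
        (Φ.sgns ((pM c y.1, y.1.1.1), win (pW c y.1) y.2.2.2 2)), ((pK c y.1 : ℕ) : ℝ)⁻¹)))
      C12_lamt
      (OC.pair (OC.nadd (OC.npow (C12_pv Φ c hc hE 5) 3) (OC.nlit 2))
        (OC.pair (C12_lam0 Φ c hc hE) (OC.inv (OC.cast (C12_pv Φ c hc hE 14)))))
      (fun _ _ => trivial) 1 (fun y hy => ?_)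
    exact C12_le1 (C12_bds Φ c hc y hy E hE _ rfl).2.2.2.2.1
  have hB : OC C12_S VecT (C12_V Φ c)
      (fun y => (glob Φ c y.1 y.2.1 y.2.2.1 y.2.2.2).2.2.2) (C12_w Φ c E) := by
    refine OC.comp (s := C12_S)
      (F := fun y => (gE (glob Φ c y.1 y.2.1 y.2.2.1 y.2.2.2),
        ((glob Φ c y.1 y.2.1 y.2.2.1 y.2.2.2).2.1.2.2, y.2.2.1))) (elimB_oc Φ)
      (OC.pair (C12_E Φ c hc hE) (OC.pair (C12_S0 Φ c hc hE)
        (OC.fst (OC.snd (OC.snd OC.id)))))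
      (fun _ _ => trivial) 1 (fun y hy => ?_)
    have hb := (C12_bds Φ c hc y hy E hE _ rfl).2.2.2.2.2.1
    have h1 : ∀ a b d e : ℕ, a + b + d ≤ e → a + d ≤ 1 * (e + 1) := fun a b d e h => by omega
    exact h1 _ _ _ _ hb
  exact OC.pair (OC.pair hP (OC.pair hQ hlt)) (OC.pair (OC.pair (C12_E Φ c hc hE)
    (OC.pair (C12_T0 Φ c hc hE) (C12_S0 Φ c hc hE))) (OC.pair
    (OC.fst (OC.snd (OC.snd OC.id))) hB))

/-- the invariants along the loop -/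
theorem C12_inv (g : GT.den) (r : ℕ → ℕ) (j : ℕ) :
    Inv0 Φ g j (iterV (stage Φ g r) (start Φ g) j) := by
  induction j with
  | zero => exact inv_start Φ g
  | succ j ih =>
    rw [iterV_succ]
    exact inv_st1 Φ g j _ _ (inv_st0 Φ g j _ _ ih)

/-- the context of the loop -/
abbrev C12_S2 : Ty := .prod C12_S GT

/-- its domain -/
def C12_V2 (p : C12_S2.den) : Prop :=
  C12_V Φ c p.1 ∧ p.2 = glob Φ c p.1.1 p.1.2.1 p.1.2.2.1 p.1.2.2.2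

theorem C12_start {E : ℕ} (hc : 1000 ≤ c.c1) (hE : c.cB + 60 ≤ E) :
    OC C12_S2 StT (C12_V2 Φ c) (fun p => start Φ p.2) (fun p => C12_w Φ c E p.1) := by
  have hop : OC C12_S2 (.arr OpT) (C12_V2 Φ c)
      (fun p => tabV OpT 1 (fun _ => Φ.mkOp (gE p.2, (sdEmpty, sdEmpty))))
      (fun p => C12_w Φ c E p.1) := by
    refine OC.tab (s := C12_S2) (N := fun _ => 1)
      (F := fun p _ => Φ.mkOp (gE p.2, (sdEmpty, sdEmpty))) (w' := fun q => C12_w Φ c E q.1.1)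
      (OC.nlit 1) ?_ 1 (fun p hp => ?_)
    · refine OC.comp (s := .prod C12_S2 .nat)
        (F := fun q => (gE q.1.2, (sdEmpty, sdEmpty))) Φ.mkOp_oc
        (OC.pair (OC.fst (OC.fst (OC.snd (OC.snd (OC.fst OC.id)))))
          (OC.pair (OC.dflt SDT) (OC.dflt SDT)))
        (fun _ _ => trivial) 1 (fun q hq => ?_)
      have hb := (C12_bds Φ c hc q.1.1 hq.1.1 E hE _ hq.1.2).2.2.2.2.2.1
      refine C12_le1 (le_trans ?_ hb)
      unfold opSize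
      have h1 : ∀ a b d e f h k l : ℕ, d + e + f ≤ a + b + d + e + f + h + k + l :=
        fun a b d e f h k l => by omega
      exact h1 _ _ _ _ _ _ _ _
    · have h1 : ∀ a : ℕ, ∑ _j ∈ range 1, (a + 1) ≤ 1 * (a + 1) := fun a => by
        rw [sum_range_one]; omega
      exact h1 _
  exact OC.pair (OC.pair (OC.nlit 0) (OC.dflt VecT))
    (OC.pair (OC.pair (OC.dflt (.arr SDT)) (OC.dflt (.arr SDT)))
      (OC.pair (OC.pair hop (OC.dflt (.arr OpT))) (OC.dflt ChT)))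

/-- the loop -/
theorem C12_loop (hc : 1000 ≤ c.c1) (hC2 : Φ.C ≤ c.c1) (hsq : ∀ m, (m + 1) ^ 2 ≤ mm m) :
    ∃ e, ∀ E, e ≤ E → OC C12_S2 StT (C12_V2 Φ c) (fun p => loop Φ p.2 p.1.2.2.2)
      (fun p => C12_w Φ c E p.1) := by
  obtain ⟨e0, he0⟩ := w0_le Φ c hc hC2
  obtain ⟨e1, he1⟩ := w1_le Φ c hc hC2
  refine ⟨c.cB + 60 + e0 + e1 + 8, fun E hE => ?_⟩
  obtain ⟨F, hF⟩ : ∃ F, E = F + 5 := ⟨E - 5, by omega⟩
  have hEF : c.cB + 60 ≤ F := by omega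
  have hL : ∀ x, 1000 ≤ pl c x := fun x => C12_pl hc
  have hpF : ∀ (x : InT.den) (e : ℕ), e ≤ F → ∀ a, a ≤ pl c x ^ e * wAlg mm Φ.C c x →
      a ≤ pl c x ^ F * wAlg mm Φ.C c x := by
    intro x e he a ha
    have := hL x
    exact C12_Le.mono (L := pl c x) (W := wAlg mm Φ.C c x) (by omega) he ha
  refine OC.iter (s := C12_S2) (t := StT) (N := fun p => gP p.2 15 + 1)
    (A := fun p => start Φ p.2) (B := fun p j st => stage Φ p.2 p.1.2.2.2 j st)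
    (w' := fun q => C12_w Φ c F q.1.1)
    (OC.nadd (OC.get (OC.fst (OC.fst (OC.snd OC.id))) (OC.nlit 15)) (OC.nlit 1))
    (C12_start Φ c hc (by omega)) ?_ 1 (fun p hp => ?_)
  · -- the body
    obtain ⟨SB, hSB⟩ : ∃ SB : Ty, SB = .prod C12_S2 (.prod .nat StT) := ⟨_, rfl⟩
    have hwin : ∀ i : ℕ, OC (.prod C12_S2 (.prod .nat StT)) NArr
        (fun q => C12_V2 Φ c q.1 ∧ q.2.1 < gP q.1.2 15 + 1 ∧ q.2.2 =
          iterV (stage Φ q.1.2 q.1.1.2.2.2) (start Φ q.1.2) q.2.1)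
        (fun q => win (gP q.1.2 23) q.1.1.2.2.2 (2 * q.2.1 + i))
        (fun q => C12_w Φ c F q.1.1) := by
      intro i
      refine C12_winc (s := .prod C12_S2 (.prod .nat StT))
        (OC.get (OC.fst (OC.fst (OC.snd (OC.fst OC.id)))) (OC.nlit 23))
        (OC.snd (OC.snd (OC.snd (OC.fst (OC.fst OC.id)))))
        (OC.nadd (OC.nmul (OC.nlit 2) (OC.fst (OC.snd OC.id))) (OC.nlit i)) 1
        (fun q hq => ?_)
      have hb := (C12_bds Φ c hc q.1.1 hq.1.1 F hEF _ rfl).1.2.1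
      have h1 : gP q.1.2 23 = pW c q.1.1.1 := by rw [hq.1.2]; rfl
      rw [h1]
      exact C12_le1 hb
    have h0 : OC (.prod C12_S2 (.prod .nat StT)) StT
        (fun q => C12_V2 Φ c q.1 ∧ q.2.1 < gP q.1.2 15 + 1 ∧ q.2.2 =
          iterV (stage Φ q.1.2 q.1.1.2.2.2) (start Φ q.1.2) q.2.1)
        (fun q => st0 Φ q.1.2 q.2.1 q.2.2 (win (gP q.1.2 23) q.1.1.2.2.2 (2 * q.2.1 + 3)))
        (fun q => C12_w Φ c F q.1.1) := by
      refine OC.comp (s := .prod C12_S2 (.prod .nat StT))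
        (F := fun q => (q.1.2, (q.2.1, (q.2.2,
          win (gP q.1.2 23) q.1.1.2.2.2 (2 * q.2.1 + 3))))) (st0_oc Φ)
        (OC.pair (OC.snd (OC.fst OC.id)) (OC.pair (OC.fst (OC.snd OC.id))
          (OC.pair (OC.snd (OC.snd OC.id)) (hwin 3)))) (fun q hq => ?_) 1 (fun q hq => ?_)
      · exact ⟨c, q.1.1.1, by rw [hq.1.2]; rfl⟩
      · obtain ⟨⟨⟨v1, v2, v3, v4, v5, v6⟩, hg⟩, hj, hst⟩ := hq
        have hgok : GOK c q.1.1.1 q.1.1.2.1 q.1.2 := by rw [hg]; exact glob_ok Φ c _ _ _ _ v1 v2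
        have h15 : gP q.1.2 15 = pl c q.1.1.1 ^ 3 := by rw [hg]; rfl
        rw [h15] at hj
        refine C12_le1 (hpF _ e0 (by omega) _ ?_)
        refine he0 q.1.1.1 q.1.1.2.1 q.1.2 q.2.1 q.2.2 _ hgok ?_ v3 v4 v5 v6
          (Nat.le_of_lt_succ hj) hsq
        rw [hst]
        exact C12_inv Φ _ _ _
    refine OC.comp (s := .prod C12_S2 (.prod .nat StT))
      (F := fun q => (q.1.2, (q.2.1,
        (st0 Φ q.1.2 q.2.1 q.2.2 (win (gP q.1.2 23) q.1.1.2.2.2 (2 * q.2.1 + 3)),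
          win (gP q.1.2 23) q.1.1.2.2.2 (2 * q.2.1 + 4))))) (st1_oc Φ)
      (OC.pair (OC.snd (OC.fst OC.id)) (OC.pair (OC.fst (OC.snd OC.id))
        (OC.pair h0 (hwin 4)))) (fun _ _ => trivial) 1 (fun q hq => ?_)
    obtain ⟨⟨⟨v1, v2, v3, v4, v5, v6⟩, hg⟩, hj, hst⟩ := hq
    have hgok : GOK c q.1.1.1 q.1.1.2.1 q.1.2 := by rw [hg]; exact glob_ok Φ c _ _ _ _ v1 v2
    have h15 : gP q.1.2 15 = pl c q.1.1.1 ^ 3 := by rw [hg]; rfl
    rw [h15] at hj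
    refine C12_le1 (hpF _ e1 (by omega) _ ?_)
    refine he1 q.1.1.1 q.1.1.2.1 q.1.2 q.2.1 _ hgok (inv_st0 Φ _ _ _ _ ?_) v3 v4 v5 v6
      (Nat.le_of_lt_succ hj) hsq
    rw [hst]
    exact C12_inv Φ _ _ _
  · have h15 : gP p.2 15 = pl c p.1.1 ^ 3 := by rw [hp.2]; rfl
    have hW : 1 ≤ C12_w Φ c F p.1 := by
      obtain ⟨⟨v1, v2, v3, v4, v5, v6⟩, hg⟩ := hp
      have h1 := (C12_bds Φ c hc p.1 ⟨v1, v2, v3, v4, v5, v6⟩ F hEF _ rfl).2.2.2.2.2.2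
      exact le_trans v4 (le_trans (le_of_lt v5) h1)
    have h2 : ∀ L A : ℕ, 1000 ≤ L → 1 ≤ A → ∑ _j ∈ range (L ^ 3 + 1), (A + 1) ≤
        1 * (L ^ 5 * A + 1) := by
      intro L A hL hA
      rw [sum_const, card_range, smul_eq_mul]
      have h3 : L ^ 5 = L * (L * L ^ 3) := by ring
      have h4 : 1 ≤ L ^ 3 := Nat.one_le_pow _ _ (by omega)
      have h5 : 1000 * L ^ 3 ≤ L * L ^ 3 := Nat.mul_le_mul_right _ hL
      have h6 : 4 * L ^ 3 ≤ L ^ 5 := by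
        rw [h3]
        nlinarith
      calc (L ^ 3 + 1) * (A + 1) ≤ (L ^ 3 + L ^ 3) * (A + A) :=
            Nat.mul_le_mul (by omega) (by omega)
        _ = 4 * L ^ 3 * A := by ring
        _ ≤ L ^ 5 * A := Nat.mul_le_mul_right _ h6
        _ ≤ 1 * (L ^ 5 * A + 1) := by omega
    have h3 := h2 (pl c p.1.1) (C12_w Φ c F p.1) (hL _) hW
    have h4 : C12_w Φ c E p.1 = pl c p.1.1 ^ 5 * C12_w Φ c F p.1 := by
      unfold C12_w
      rw [hF, pow_add]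
      ring
    show ∑ _j ∈ range (gP p.2 15 + 1), (C12_w Φ c F p.1 + 1) ≤ 1 * (C12_w Φ c E p.1 + 1)
    rw [h15, h4]
    exact h3

end glob

theorem C12_algC (c : Cst) (y : C12_S.den) : algC Φ c y.1 y.2.1 y.2.2.1 y.2.2.2 =
    if 0 < Φ.dot (y.1.1.1, ((glob Φ c y.1 y.2.1 y.2.2.1 y.2.2.2).2.2.2,
        (glob Φ c y.1 y.2.1 y.2.2.1 y.2.2.2).2.2.2)) then
      (loop Φ (glob Φ c y.1 y.2.1 y.2.2.1 y.2.2.2) y.2.2.2).1.2
    else elimX Φ (gE (glob Φ c y.1 y.2.1 y.2.2.1 y.2.2.2))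
        (glob Φ c y.1 y.2.1 y.2.2.1 y.2.2.2).2.1.2.1
        (glob Φ c y.1 y.2.1 y.2.2.1 y.2.2.2).2.1.2.2 y.2.2.1 VecT.default := rfl

theorem C12_hloop (c : Cst) {E : ℕ} (hg : OC C12_S GT (C12_V Φ c)
      (fun y => glob Φ c y.1 y.2.1 y.2.2.1 y.2.2.2) (C12_w Φ c E))
    (he : OC C12_S2 StT (C12_V2 Φ c) (fun p => loop Φ p.2 p.1.2.2.2)
      (fun p => C12_w Φ c E p.1)) :
    OC C12_S VecT (C12_V Φ c)
      (fun y => (loop Φ (glob Φ c y.1 y.2.1 y.2.2.1 y.2.2.2) y.2.2.2).1.2) (C12_w Φ c E) := by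
  have hp : OC C12_S C12_S2 (C12_V Φ c)
      (fun y => (y, glob Φ c y.1 y.2.1 y.2.2.1 y.2.2.2)) (C12_w Φ c E) := OC.pair OC.id hg
  have hw : ∀ y, C12_V Φ c y → C12_w Φ c E y ≤ 1 * (C12_w Φ c E y + 1) :=
    fun y _ => C12_le1 le_rfl
  have hv : ∀ y, C12_V Φ c y → C12_V2 Φ c (y, glob Φ c y.1 y.2.1 y.2.2.1 y.2.2.2) :=
    fun y hy => ⟨hy, rfl⟩
  have h1 := OC.comp (s := C12_S) (u := C12_S2) (t := StT)
      (F := fun y => (y, glob Φ c y.1 y.2.1 y.2.2.1 y.2.2.2)) he hp hv 1 hw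
  exact OC.snd (OC.fst h1)

theorem C12_hX (c : Cst) (hc : 1000 ≤ c.c1) {E : ℕ} (hcE : c.cB + 60 ≤ E) :
    OC C12_S VecT (C12_V Φ c)
      (fun y => elimX Φ (gE (glob Φ c y.1 y.2.1 y.2.2.1 y.2.2.2))
        (glob Φ c y.1 y.2.1 y.2.2.1 y.2.2.2).2.1.2.1
        (glob Φ c y.1 y.2.1 y.2.2.1 y.2.2.2).2.1.2.2 y.2.2.1 VecT.default) (C12_w Φ c E) := by
    refine OC.comp (s := C12_S)
      (F := fun y => (gE (glob Φ c y.1 y.2.1 y.2.2.1 y.2.2.2),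
        (((glob Φ c y.1 y.2.1 y.2.2.1 y.2.2.2).2.1.2.1,
          (glob Φ c y.1 y.2.1 y.2.2.1 y.2.2.2).2.1.2.2), (y.2.2.1, VecT.default)))) (elimX_oc Φ)
      (OC.pair (C12_E Φ c hc hcE) (OC.pair (OC.pair (C12_T0 Φ c hc hcE) (C12_S0 Φ c hc hcE))
        (OC.pair (OC.fst (OC.snd (OC.snd OC.id))) (OC.dflt VecT)))) (fun _ _ => trivial) 1
      (fun y hy => ?_)
    exact C12_le1 (C12_bds Φ c hc y hy E hcE _ rfl).2.2.2.2.2.1

theorem C12_hdot (c : Cst) (hc : 1000 ≤ c.c1) {E : ℕ} (hcE : c.cB + 60 ≤ E)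
    (hg : OC C12_S GT (C12_V Φ c)
      (fun y => glob Φ c y.1 y.2.1 y.2.2.1 y.2.2.2) (C12_w Φ c E)) :
    OC C12_S .real (C12_V Φ c)
      (fun y => Φ.dot (y.1.1.1, ((glob Φ c y.1 y.2.1 y.2.2.1 y.2.2.2).2.2.2,
        (glob Φ c y.1 y.2.1 y.2.2.1 y.2.2.2).2.2.2))) (C12_w Φ c E) := by
    refine OC.comp (s := C12_S)
      (F := fun y => (y.1.1.1, ((glob Φ c y.1 y.2.1 y.2.2.1 y.2.2.2).2.2.2,
        (glob Φ c y.1 y.2.1 y.2.2.1 y.2.2.2).2.2.2))) Φ.dot_oc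
      (OC.pair (OC.fst (OC.fst (OC.fst OC.id))) (OC.pair (OC.snd (OC.snd (OC.snd hg)))
        (OC.snd (OC.snd (OC.snd hg))))) (fun _ _ => trivial) 1 (fun y hy => ?_)
    exact C12_le1 (C12_bds Φ c hc y hy E hcE _ rfl).2.2.2.2.2.2

/-- THE COST OF THE ALGORITHM, on every run; input `(x, (A0, (b, r)))` -/
theorem alg_oc (c : Cst) (hc : 1000 ≤ c.c1) (hC2 : Φ.C ≤ c.c1) (hsq : ∀ m, (m + 1) ^ 2 ≤ mm m) :
    ∃ e, OC (.prod InT (.prod CooT (.prod VecT NArr))) VecT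
      (fun y => CooOK y.1.1.1 y.1.1.1 y.2.1 ∧ y.2.1.1 = y.1.2.1 ∧ rho0 Φ.C c y.1 ≤ pK c y.1 ∧
        1 ≤ y.1.1.2 ∧ y.1.1.2 < y.1.1.1 ∧ y.1.1.1 ≤ y.1.2.1)
      (fun y => algC Φ c y.1 y.2.1 y.2.2.1 y.2.2.2)
      (fun y => pl c y.1 ^ e * wAlg mm Φ.C c y.1) := by
  obtain ⟨e, he⟩ := C12_loop Φ c hc hC2 hsq
  obtain ⟨E, hE⟩ : ∃ E, E = e + c.cB + 60 := ⟨_, rfl⟩
  have hcE : c.cB + 60 ≤ E := by omega
  refine ⟨E, ?_⟩
  have hg := C12_glob Φ c hc hcE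
  have hloop := C12_hloop Φ c hg (he E (by omega))
  have hX := C12_hX Φ c hc hcE
  have hdot := C12_hdot Φ c hc hcE hg
  have hfin := (OC.ifLt (OC.r0 (s := C12_S)) hdot (hloop.weaken fun _ h => h.1)
    (hX.weaken fun _ h => h.1))
  exact hfin.congr fun y _ => (C12_algC Φ c y).symm

end

end A55
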