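import Pool.Agent.Lib_helper50.A55.Prog
/-!
# MP_a55cb8: appending entries to sparse lists (helper67; used by the blocks P4, P5)
-/

open Matrix Finset

namespace A55

/-- append an entry -/
def cPush (x : CooT.den) (r c : ℕ) (v : ℝ) : CooT.den :=
  (x.1 + 1, (Function.update x.2.1 x.1 r,
    (Function.update x.2.2.1 x.1 c, Function.update x.2.2.2 x.1 v)))

/-- sum of a function over the entries -/
def cSum {M : Type*} [AddCommMonoid M] (g : ℕ → ℕ → ℝ → M) (x : CooT.den) : M :=
  ∑ e ∈ range x.1, g (x.2.1 e) (x.2.2.1 e) (x.2.2.2 e)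

section

variable {M : Type*} [AddCommMonoid M]

theorem cSum_push (g : ℕ → ℕ → ℝ → M) (x : CooT.den) (r c : ℕ) (v : ℝ) :
    cSum g (cPush x r c v) = cSum g x + g r c v := by
  unfold cSum cPush
  rw [sum_range_succ]
  simp only [Function.update_self]
  congr 1
  refine sum_congr rfl fun e he => ?_
  have h : e ≠ x.1 := (mem_range.1 he).ne
  rw [Function.update_of_ne h, Function.update_of_ne h, Function.update_of_ne h]

theorem cSum_default (g : ℕ → ℕ → ℝ → M) : cSum g (CooT.default) = 0 := by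
  unfold cSum
  show ∑ e ∈ range 0, _ = _
  simp

theorem cSum_iter (g : ℕ → ℕ → ℝ → M) (B : ℕ → CooT.den → CooT.den) (h : ℕ → M)
    (hB : ∀ j x, cSum g (B j x) = cSum g x + h j) (a : CooT.den) (N : ℕ) :
    cSum g (iterV B a N) = cSum g a + ∑ j ∈ range N, h j := by
  induction N with
  | zero => simp
  | succ N ih => rw [iterV_succ, hB, ih, sum_range_succ, add_assoc]

end

theorem cooA_eq_cSum (x : CooT.den) (i j : ℕ) :
    cooA x i j = cSum (fun r c v => if r = i ∧ c = j then v else 0) x := rfl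

theorem rowCnt_eq_cSum (x : CooT.den) (i : ℕ) :
    rowCnt x i = cSum (fun r _ _ => if r = i then 1 else 0) x := by
  unfold rowCnt cSum
  rw [card_filter]

theorem colCnt_eq_cSum (x : CooT.den) (j : ℕ) :
    colCnt x j = cSum (fun _ c _ => if c = j then 1 else 0) x := by
  unfold colCnt cSum
  rw [card_filter]

theorem forall_of_cSum (x : CooT.den) (P : ℕ → ℕ → Prop) [∀ r c, Decidable (P r c)]
    (h : cSum (fun r c _ => if P r c then 0 else 1) x = 0) :
    ∀ e < x.1, P (x.2.1 e) (x.2.2.1 e) := by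
  intro e he
  unfold cSum at h
  rw [sum_eq_zero_iff] at h
  have h1 := h e (mem_range.2 he)
  by_contra hc
  simp only [if_neg hc] at h1
  exact one_ne_zero h1

/-! ## programs -/

variable {s : Ty} {V : s.den → Prop} {w : s.den → ℕ}

theorem OC.push {X : s.den → CooT.den} {R C : s.den → ℕ} {v : s.den → ℝ}
    (hX : OC s CooT V X w) (hR : OC s .nat V R w) (hC : OC s .nat V C w)
    (hv : OC s .real V v w) :
    OC s CooT V (fun x => cPush (X x) (R x) (C x) (v x)) w :=
  OC.pair (OC.nadd (OC.fst hX) (OC.nlit 1))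
    (OC.pair (OC.upd (OC.fst (OC.snd hX)) (OC.fst hX) hR)
      (OC.pair (OC.upd (OC.fst (OC.snd (OC.snd hX))) (OC.fst hX) hC)
        (OC.upd (OC.snd (OC.snd (OC.snd hX))) (OC.fst hX) hv)))

end A55
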