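import Pool.Agent.Lib_helper50.A55.Defs
/-!
# MP_a55cb8: block D1a (forms), helper37
-/

open Matrix Finset

namespace A55

section forms

variable {m n a b c : Type*} [Fintype m] [Fintype n] [Fintype a] [Fintype b] [Fintype c]
  [DecidableEq m] [DecidableEq n] [DecidableEq a] [DecidableEq b] [DecidableEq c]

omit [DecidableEq n] in
theorem sq_nonneg' (x : n → ℝ) : 0 ≤ sq x := Finset.sum_nonneg fun i _ => sq_nonneg (x i)

omit [DecidableEq n] in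
theorem sq_eq_dot (x : n → ℝ) : sq x = x ⬝ᵥ x :=
  Finset.sum_congr rfl fun i _ => pow_two (x i)

omit [DecidableEq n] in
theorem sq_eq_zero_iff (x : n → ℝ) : sq x = 0 ↔ x = 0 := by
  rw [sq_eq_dot, dotProduct_self_eq_zero]

omit [DecidableEq n] in
theorem sq_smul (r : ℝ) (x : n → ℝ) : sq (r • x) = r ^ 2 * sq x := by
  unfold sq
  rw [Finset.mul_sum]
  refine Finset.sum_congr rfl fun i _ => ?_
  rw [Pi.smul_apply, smul_eq_mul, mul_pow]

omit [DecidableEq n] in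
theorem sq_add_le (x y : n → ℝ) : sq (x + y) ≤ 2 * sq x + 2 * sq y := by
  unfold sq
  rw [Finset.mul_sum, Finset.mul_sum, ← Finset.sum_add_distrib]
  refine Finset.sum_le_sum fun i _ => ?_
  rw [Pi.add_apply]
  nlinarith [sq_nonneg (x i - y i)]

lemma D1a_real {t : ℝ} (ht : 0 < t) (u v : ℝ) :
    (u + v) ^ 2 ≤ (1 + t) * u ^ 2 + (1 + t⁻¹) * v ^ 2 := by
  have h1 : t * t⁻¹ = 1 := mul_inv_cancel₀ ht.ne'
  have h2 : (1 + t) * u ^ 2 + (1 + t⁻¹) * v ^ 2 - (u + v) ^ 2 = t * (u - t⁻¹ * v) ^ 2 := by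
    have h3 : t * (u - t⁻¹ * v) ^ 2 =
        t * u ^ 2 - 2 * (t * t⁻¹) * (u * v) + (t * t⁻¹) * (t⁻¹ * v ^ 2) := by ring
    rw [h3, h1]
    ring
  have h4 : 0 ≤ t * (u - t⁻¹ * v) ^ 2 := mul_nonneg ht.le (sq_nonneg _)
  linarith

omit [DecidableEq n] in
theorem sq_add_le_eps (x y : n → ℝ) {t : ℝ} (ht : 0 < t) :
    sq (x + y) ≤ (1 + t) * sq x + (1 + t⁻¹) * sq y := by
  unfold sq
  rw [Finset.mul_sum, Finset.mul_sum, ← Finset.sum_add_distrib]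
  exact Finset.sum_le_sum fun i _ => D1a_real ht (x i) (y i)

omit [DecidableEq n] in
theorem dot_sq_le (x y : n → ℝ) : (x ⬝ᵥ y) ^ 2 ≤ sq x * sq y :=
  Finset.sum_mul_sq_le_sq_mul_sq Finset.univ x y

omit [DecidableEq m] [DecidableEq n] in
lemma D1a_dot (M : Matrix m n ℝ) (x : n → ℝ) (y : m → ℝ) : y ⬝ᵥ (M *ᵥ x) = (Mᵀ *ᵥ y) ⬝ᵥ x := by
  rw [Matrix.dotProduct_mulVec, Matrix.mulVec_transpose]

omit [DecidableEq m] [DecidableEq n] in
theorem sq_mulVec (M : Matrix m n ℝ) (x : n → ℝ) : sq (M *ᵥ x) = qf (Mᵀ * M) x := by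
  rw [sq_eq_dot, qf, ← Matrix.mulVec_mulVec, D1a_dot, dotProduct_comm]

omit [DecidableEq m] in
theorem qf_gram (A : Matrix m n ℝ) (l : ℝ) (x : n → ℝ) :
    qf (gram A l) x = sq (A *ᵥ x) + l * sq x := by
  rw [sq_mulVec, sq_eq_dot x]
  unfold qf gram
  rw [Matrix.add_mulVec, dotProduct_add, Matrix.smul_mulVec, Matrix.one_mulVec, dotProduct_smul,
    smul_eq_mul]

omit [DecidableEq m] [DecidableEq n] in
/-- the norm of the transpose -/
theorem sq_transpose_le {M : Matrix m n ℝ} {C : ℝ} (hC : 0 ≤ C)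
    (h : ∀ x, sq (M *ᵥ x) ≤ C * sq x) (y : m → ℝ) : sq (Mᵀ *ᵥ y) ≤ C * sq y := by
  set z := Mᵀ *ᵥ y with hz
  have h1 : sq z = y ⬝ᵥ (M *ᵥ z) := by rw [D1a_dot, sq_eq_dot]
  have h2 : sq z ^ 2 ≤ sq y * (C * sq z) := by
    calc sq z ^ 2 = (y ⬝ᵥ (M *ᵥ z)) ^ 2 := by rw [← h1]
      _ ≤ sq y * sq (M *ᵥ z) := dot_sq_le _ _
      _ ≤ sq y * (C * sq z) := mul_le_mul_of_nonneg_left (h z) (sq_nonneg' y)
  rcases (sq_nonneg' z).eq_or_lt with h0 | h0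
  · rw [← h0]
    exact mul_nonneg hC (sq_nonneg' y)
  · refine le_of_mul_le_mul_right ?_ h0
    calc sq z * sq z = sq z ^ 2 := (pow_two _).symm
      _ ≤ sq y * (C * sq z) := h2
      _ = C * sq y * sq z := by ring

end forms

end A55
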