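import Pool.Agent.Lib_helper50.A55.Defs
import Pool.Agent.Lib_helper50.A55.B.D1a
import Pool.Agent.Lib_helper50.A55.B.D1b
/-! MP_a55cb8, block D6: Woodbury. -/

open Matrix Finset

namespace A55

section forms

variable {m n a b c : Type*} [Fintype m] [Fintype n] [Fintype a] [Fintype b] [Fintype c]
  [DecidableEq m] [DecidableEq n] [DecidableEq a] [DecidableEq b] [DecidableEq c]

/-! ## D6: Woodbury -/

omit [DecidableEq n] in
theorem D6_qf_smul (r : ℝ) (M : Matrix n n ℝ) (x : n → ℝ) : qf (r • M) x = r * qf M x := by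
  rw [qf, smul_mulVec, dotProduct_smul, smul_eq_mul, qf]

omit [DecidableEq n] in
theorem D6_qf_sub (M N : Matrix n n ℝ) (x : n → ℝ) : qf (M - N) x = qf M x - qf N x := by
  rw [qf, sub_mulVec, dotProduct_sub, qf, qf]

theorem D6_qf_one (x : n → ℝ) : qf (1 : Matrix n n ℝ) x = sq x := by
  rw [qf, one_mulVec, sq_eq_dot]

omit [DecidableEq m] [DecidableEq n] in
theorem D6_qf_conj (X : Matrix m n ℝ) (Q : Matrix n n ℝ) (y : m → ℝ) :
    qf (X * Q * Xᵀ) y = qf Q (Xᵀ *ᵥ y) := by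
  rw [qf, qf, ← mulVec_mulVec, ← mulVec_mulVec, dotProduct_mulVec, ← mulVec_transpose]

theorem D6_woodbury (X : Matrix m n ℝ) {l : ℝ} (hl : 0 < l) :
    X * (gram X l)⁻¹ * Xᵀ = 1 - l • (gram Xᵀ l)⁻¹ := by
  rw [push X hl, Matrix.mul_assoc]
  have h1 : X * Xᵀ = gram Xᵀ l - l • (1 : Matrix m m ℝ) := by
    rw [gram, transpose_transpose, add_sub_cancel_right]
  rw [h1, Matrix.mul_sub, gram_inv_mul Xᵀ hl, Matrix.mul_smul, Matrix.mul_one]

theorem wood_sol {X : Matrix m n ℝ} {Q : Matrix n n ℝ} {l d Ω : ℝ} (hl : 0 < l) (hd : 0 ≤ d)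
    (hΩ : 0 ≤ Ω) (hX : ∀ x, sq (X *ᵥ x) ≤ Ω * l * sq x) (h : IsSol (gram X l) Q d) :
    IsSol (gram Xᵀ l) (wood X l Q) (d * (1 + Ω)) := by
  refine ⟨?_, fun y => ?_⟩
  · rw [wood, transpose_smul, transpose_sub, transpose_one, transpose_mul, transpose_mul,
      transpose_transpose, h.1, Matrix.mul_assoc]
  · -- the quadratic forms
    have e1 : qf (wood X l Q) y = l⁻¹ * (sq y - qf Q (Xᵀ *ᵥ y)) := by
      rw [wood, D6_qf_smul, D6_qf_sub, D6_qf_one, D6_qf_conj]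
    have e2 : qf (gram X l)⁻¹ (Xᵀ *ᵥ y) = sq y - l * qf (gram Xᵀ l)⁻¹ y := by
      rw [← D6_qf_conj, D6_woodbury X hl, D6_qf_sub, D6_qf_one, D6_qf_smul]
    have h1 := h.2 (Xᵀ *ᵥ y)
    have h2 := qf_inv_nonneg Xᵀ hl y
    have hXt := sq_transpose_le (M := X) (C := Ω * l) (by positivity) hX
    -- the lower bound of the inverse
    have hc : 0 < (1 + Ω) * l := by positivity
    have h3 : sq y ≤ (1 + Ω) * l * qf (gram Xᵀ l)⁻¹ y := by
      have hP : ((((1 + Ω) * l) • (1 : Matrix m m ℝ))).PosDef :=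
        Matrix.PosDef.one.smul hc
      have h4 := inv_anti hP (gram_posDef Xᵀ hl) one_pos (fun x => by
        rw [one_mul, qf_gram, D6_qf_smul, D6_qf_one]
        have := hXt x
        nlinarith [sq_nonneg' x]) y
      rw [one_mul] at h4
      have h5 : ((((1 + Ω) * l) • (1 : Matrix m m ℝ)))⁻¹ =
          ((1 + Ω) * l)⁻¹ • (1 : Matrix m m ℝ) := by
        refine Matrix.inv_eq_right_inv ?_
        rw [Matrix.smul_mul, Matrix.mul_smul, Matrix.mul_one, smul_smul, mul_inv_cancel₀ hc.ne',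
          one_smul]
      rw [h5, D6_qf_smul, D6_qf_one, inv_mul_le_iff₀ hc] at h4
      exact h4
    have e3 : qf (wood X l Q) y - qf (gram Xᵀ l)⁻¹ y =
        l⁻¹ * (qf (gram X l)⁻¹ (Xᵀ *ᵥ y) - qf Q (Xᵀ *ᵥ y)) := by
      rw [e1, e2]
      field_simp
      ring
    rw [e3, abs_mul, abs_of_pos (inv_pos.2 hl), abs_sub_comm, inv_mul_le_iff₀ hl]
    calc |qf Q (Xᵀ *ᵥ y) - qf (gram X l)⁻¹ (Xᵀ *ᵥ y)|
        ≤ d * qf (gram X l)⁻¹ (Xᵀ *ᵥ y) := h1
      _ ≤ d * ((1 + Ω) * l * qf (gram Xᵀ l)⁻¹ y) := by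
          refine mul_le_mul_of_nonneg_left ?_ hd
          rw [e2]
          nlinarith [mul_nonneg hl.le h2]
      _ = l * (d * (1 + Ω) * qf (gram Xᵀ l)⁻¹ y) := by ring

end forms

end A55
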