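import Pool.Agent.Lib_helper50.A55.Defs
import Pool.Agent.Lib_helper50.A55.B.D10
import Pool.Agent.Lib_helper50.A55.B.D1a
import Pool.Agent.Lib_helper50.A55.B.D1b
import Pool.Agent.Lib_helper50.A55.B.D6
import Pool.Agent.Lib_helper50.A55.B.D7a
/-!
# MP_a55cb8, block D11 (helper13)
-/

open Matrix Finset

namespace A55

section forms

variable {m n a b c : Type*} [Fintype m] [Fintype n] [Fintype a] [Fintype b] [Fintype c]
  [DecidableEq m] [DecidableEq n] [DecidableEq a] [DecidableEq b] [DecidableEq c]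

/- other blocks, used here -/
end forms

/- D11_BEGIN -/

/-! ## D11: the chain theorem -/

theorem chain_sol (Θ : Chain) (R t : ℕ) (d Ω : ℝ) (hd : 0 < d) (hdΩ : d * (1 + Ω) ≤ 1 / 2)
    (hΩ0 : 0 ≤ Ω) (ht : 2 * (1 / 2) ^ t ≤ d) (hlam : ∀ r ≤ R, 0 < Θ.lam r)
    (h0 : IsSol (gram (Θ.X 0) (Θ.lam 0)) Θ.g0 d)
    (hΩ : ∀ r < R, ∀ x, sq (Θ.X r *ᵥ x) ≤ Ω * Θ.lam r * sq x)
    (hal : ∀ r < R, 0 < Θ.al (r + 1) ∧ Θ.al (r + 1) < Θ.be)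
    (hrel : ∀ r < R, ∀ y : Fin (Θ.d (r + 1)) → ℝ,
      2 * Θ.al (r + 1) * (sq ((Θ.X r)ᵀ *ᵥ y) + Θ.lam r * sq y) ≤
          sq (Θ.X (r + 1) *ᵥ y) + Θ.lam (r + 1) * sq y ∧
        3 / 2 * (sq (Θ.X (r + 1) *ᵥ y) + Θ.lam (r + 1) * sq y) ≤
          Θ.be * (sq ((Θ.X r)ᵀ *ᵥ y) + Θ.lam r * sq y))
    (hdeg : ∀ r < R, ∃ s : ℕ, 1 ≤ s ∧ Θ.be ≤ (s : ℝ) ^ 2 * Θ.al (r + 1) ∧
      s * t ≤ Θ.deg (r + 1)) :
    ∀ r ≤ R, IsSol (gram (Θ.X r) (Θ.lam r)) (Θ.g r) d := by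
  intro r
  induction r with
  | zero =>
    intro _
    exact h0
  | succ r ih =>
    intro hr
    have hrR : r < R := hr
    have hsol := ih hrR.le
    have hlr : 0 < Θ.lam r := hlam r hrR.le
    have hlr1 : 0 < Θ.lam (r + 1) := hlam (r + 1) hr
    have hw := wood_sol hlr hd.le hΩ0 (hΩ r hrR) hsol
    obtain ⟨ha1, ha2⟩ := hal r hrR
    have hM : (gram (Θ.X (r + 1)) (Θ.lam (r + 1))).PosDef := gram_posDef _ hlr1
    have hN : (gram (Θ.X r)ᵀ (Θ.lam r)).PosDef := gram_posDef _ hlr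
    have hpre : IsPre (gram (Θ.X (r + 1)) (Θ.lam (r + 1))) (wood (Θ.X r) (Θ.lam r) (Θ.g r))
        (Θ.al (r + 1)) Θ.be := by
      refine IsSol.transfer hM hN hdΩ ha1 (ha1.trans ha2) hw ?_
      intro y
      rw [qf_gram, qf_gram]
      exact hrel r hrR y
    obtain ⟨s, hs1, hs2, hs3⟩ := hdeg r hrR
    have hc := cheb_sol hM ha1 ha2 hpre s t (Θ.deg (r + 1)) hs1 hs2 hs3
    refine ⟨hc.1, fun x => (hc.2 x).trans ?_⟩
    exact mul_le_mul_of_nonneg_right ht (qf_inv_nonneg _ hlr1 x)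

end A55
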