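import Pool.Agent.Lib_helper50.A55.Defs
import Pool.Agent.Lib_helper50.A55.B.D1a
import Pool.Agent.Lib_helper50.A55.B.D1b
/-!
# MP_a55cb8: block D2 (validity and noise), helper45
-/

open Matrix Finset

namespace A55

section forms

variable {m n a b c : Type*} [Fintype m] [Fintype n] [Fintype a] [Fintype b] [Fintype c]
  [DecidableEq m] [DecidableEq n] [DecidableEq a] [DecidableEq b] [DecidableEq c]

/-! copied statements of D1a, D1b -/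
/-! ## D2: consequences of validity -/

/-- energy identity: `u = W y` gives `|A u|² + l |u|² = u · y` -/
theorem D2_energy (A : Matrix m n ℝ) {l : ℝ} (hl : 0 < l) (y : n → ℝ) :
    sq (A *ᵥ ((gram A l)⁻¹ *ᵥ y)) + l * sq ((gram A l)⁻¹ *ᵥ y) = ((gram A l)⁻¹ *ᵥ y) ⬝ᵥ y := by
  rw [← qf_gram, qf, Matrix.mulVec_mulVec, gram_mul_inv A hl, Matrix.one_mulVec]

theorem Valid.mono {S : Matrix a m ℝ} {A : Matrix m n ℝ} {l l' : ℝ} (h : Valid S A l)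
    (hl : l ≤ l') : Valid S A l' := by
  intro x
  refine (h x).trans ?_
  have := mul_le_mul_of_nonneg_right hl (sq_nonneg' x)
  linarith

theorem Valid.zero (A : Matrix m n ℝ) {l : ℝ} (h : ∀ x, sq (A *ᵥ x) ≤ l / 3 * sq x) :
    Valid (0 : Matrix a m ℝ) A l := by
  intro x
  have h1 := h x
  have h2 := sq_nonneg' (A *ᵥ x)
  have h3 : sq ((0 : Matrix a m ℝ) *ᵥ (A *ᵥ x)) = 0 := by
    rw [Matrix.zero_mulVec]; simp [sq]
  rw [h3, zero_sub, abs_neg, abs_of_nonneg h2]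
  linarith

theorem Valid.one (A : Matrix m n ℝ) {l : ℝ} (hl : 0 ≤ l) : Valid (1 : Matrix m m ℝ) A l := by
  intro x
  rw [Matrix.one_mulVec, sub_self, abs_zero]
  have h1 := sq_nonneg' (A *ᵥ x)
  have h2 := mul_nonneg hl (sq_nonneg' x)
  linarith

theorem D2_pi {S : Matrix a m ℝ} {A : Matrix m n ℝ} {l : ℝ} (h : Valid S A l) (hl : 0 < l)
    (z : m → ℝ) : sq ((S * (A * (gram A l)⁻¹ * Aᵀ)) *ᵥ z) ≤ 5 / 4 * sq z := by
  have e1 : (S * (A * (gram A l)⁻¹ * Aᵀ)) *ᵥ z = S *ᵥ (A *ᵥ ((gram A l)⁻¹ *ᵥ (Aᵀ *ᵥ z))) := by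
    simp only [Matrix.mulVec_mulVec, Matrix.mul_assoc]
  rw [e1]
  have hE := D2_energy A hl (Aᵀ *ᵥ z)
  obtain ⟨u, hu⟩ : ∃ u, u = (gram A l)⁻¹ *ᵥ (Aᵀ *ᵥ z) := ⟨_, rfl⟩
  rw [← hu] at hE ⊢
  have e2 : u ⬝ᵥ (Aᵀ *ᵥ z) = (A *ᵥ u) ⬝ᵥ z := by
    rw [Matrix.dotProduct_mulVec, Matrix.vecMul_transpose]
  rw [e2] at hE
  have hv := (abs_le.1 (h u)).2
  have hcs := dot_sq_le (A *ᵥ u) z
  have h1 := sq_nonneg' (A *ᵥ u)
  have h2 := mul_nonneg hl.le (sq_nonneg' u)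
  have h3 := sq_nonneg' z
  have key : sq (A *ᵥ u) + l * sq u ≤ sq z := by
    by_contra hc
    push Not at hc
    rw [← hE] at hcs
    nlinarith
  linarith

theorem Valid.pi {S : Matrix a m ℝ} {A : Matrix m n ℝ} {l : ℝ} (h : Valid S A l) (hl : 0 < l)
    (x : a → ℝ) : sq ((A * (gram A l)⁻¹ * Aᵀ) *ᵥ (Sᵀ *ᵥ x)) ≤ 5 / 4 * sq x := by
  have e : (S * (A * (gram A l)⁻¹ * Aᵀ))ᵀ *ᵥ x = (A * (gram A l)⁻¹ * Aᵀ) *ᵥ (Sᵀ *ᵥ x) := by
    rw [Matrix.mulVec_mulVec]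
    simp only [Matrix.transpose_mul, Matrix.transpose_transpose, gram_inv_transpose,
      Matrix.mul_assoc]
  rw [← e]
  exact sq_transpose_le (by norm_num) (D2_pi h hl) x

theorem Valid.noise {S : Matrix a m ℝ} {A : Matrix m n ℝ} {l : ℝ} (h : Valid S A l)
    (hl : 0 < l) (x : n → ℝ) : sq (S *ᵥ (noiseM A l *ᵥ x)) ≤ l * sq x := by
  have e1 : noiseM A l *ᵥ x = A *ᵥ ((gram A l)⁻¹ *ᵥ (l • x)) := by
    rw [noiseM, Matrix.smul_mulVec, Matrix.mulVec_smul, Matrix.mulVec_smul, Matrix.mulVec_mulVec]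
  have hE := D2_energy A hl (l • x)
  rw [e1]
  obtain ⟨u, hu⟩ : ∃ u, u = (gram A l)⁻¹ *ᵥ (l • x) := ⟨_, rfl⟩
  rw [← hu] at hE ⊢
  rw [dotProduct_smul, smul_eq_mul] at hE
  have hv := (abs_le.1 (h u)).2
  have hcs := dot_sq_le u x
  have h1 := sq_nonneg' (A *ᵥ u)
  have h2 := sq_nonneg' u
  have h3 := sq_nonneg' x
  have hb := mul_nonneg hl.le h2
  have hc := mul_nonneg hl.le h3
  have key : (sq (A *ᵥ u) + l * sq u) ^ 2 ≤ (l * sq u) * (l * sq x) := by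
    rw [hE]
    have := mul_le_mul_of_nonneg_left hcs (sq_nonneg l)
    nlinarith
  have key2 : sq (A *ᵥ u) + 1 / 4 * (sq (A *ᵥ u) + l * sq u) ≤ l * sq x := by
    by_contra hcon
    push Not at hcon
    obtain ⟨p, hp⟩ : ∃ p, p = sq (A *ᵥ u) := ⟨_, rfl⟩
    obtain ⟨q, hq⟩ : ∃ q, q = l * sq u := ⟨_, rfl⟩
    obtain ⟨r, hr⟩ : ∃ r, r = l * sq x := ⟨_, rfl⟩
    rw [← hp, ← hq, ← hr] at key hcon
    rw [← hp] at h1
    rw [← hq] at hb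
    rw [← hr] at hc
    have k1 : q * r ≤ q * (p + 1 / 4 * (p + q)) := mul_le_mul_of_nonneg_left hcon.le hb
    have k2 : p ^ 2 + 3 / 4 * (p * q) + 3 / 4 * q ^ 2 ≤ 0 := by nlinarith
    have k3 := mul_nonneg h1 hb
    have k4 : p = 0 := by nlinarith [sq_nonneg p, sq_nonneg q]
    have k5 : q = 0 := by nlinarith [sq_nonneg p, sq_nonneg q]
    rw [k4, k5] at hcon
    linarith
  linarith

theorem noise_one_right {S : Matrix a m ℝ} {A : Matrix m n ℝ} {l : ℝ} (h : Valid S A l)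
    (hl : 0 < l) : Noise S A (1 : Matrix n n ℝ) l 1 := by
  intro x
  have e : ((1 : Matrix n n ℝ))ᵀ *ᵥ ((noiseM A l)ᵀ *ᵥ (Sᵀ *ᵥ x)) = (S * noiseM A l)ᵀ *ᵥ x := by
    rw [Matrix.transpose_one, Matrix.one_mulVec, Matrix.mulVec_mulVec, Matrix.transpose_mul]
  rw [e, one_mul]
  refine sq_transpose_le hl.le (fun z => ?_) x
  rw [← Matrix.mulVec_mulVec]
  exact h.noise hl z

theorem noise_symm {S : Matrix a m ℝ} {A : Matrix m n ℝ} {T : Matrix n c ℝ} {l C : ℝ}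
    (hl : 0 < l) (hC : 0 ≤ C) (h : Noise S A T l C) : Noise Tᵀ Aᵀ Sᵀ l C := by
  intro x
  have e : Sᵀᵀ *ᵥ ((noiseM Aᵀ l)ᵀ *ᵥ (Tᵀᵀ *ᵥ x)) = (Tᵀ * (noiseM A l)ᵀ * Sᵀ)ᵀ *ᵥ x := by
    rw [← noiseM_transpose A hl]
    simp only [Matrix.transpose_mul, Matrix.transpose_transpose, Matrix.mulVec_mulVec,
      Matrix.mul_assoc]
  rw [e]
  refine sq_transpose_le (mul_nonneg hC hl.le) (fun z => ?_) x
  have := h z
  simp only [Matrix.mulVec_mulVec] at this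
  rw [Matrix.mul_assoc]
  exact this

theorem noise_zero_left (A : Matrix m n ℝ) (T : Matrix n c ℝ) {l C : ℝ} (hl : 0 ≤ l)
    (hC : 0 ≤ C) : Noise (0 : Matrix a m ℝ) A T l C := by
  intro x
  have e : sq (Tᵀ *ᵥ ((noiseM A l)ᵀ *ᵥ ((0 : Matrix a m ℝ)ᵀ *ᵥ x))) = 0 := by
    rw [Matrix.transpose_zero, Matrix.zero_mulVec, Matrix.mulVec_zero, Matrix.mulVec_zero]
    simp [sq]
  rw [e]
  exact mul_nonneg (mul_nonneg hC hl) (sq_nonneg' x)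

end forms

end A55
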