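import Pool.Agent.Lib_helper50.A55.Defs
import Pool.Agent.Lib_helper50.A55.B.D1a
import Pool.Agent.Lib_helper50.A55.B.D1b
import Pool.Agent.Lib_helper50.A55.B.D2
/-!
# MP_a55cb8: block D4 (noise at a larger ridge), helper77
-/

open Matrix Finset

namespace A55

section forms

variable {m n a b c : Type*} [Fintype m] [Fintype n] [Fintype a] [Fintype b] [Fintype c]
  [DecidableEq m] [DecidableEq n] [DecidableEq a] [DecidableEq b] [DecidableEq c]

/-! BEGIN COPY (statements of D1a, D1b, D2) -/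
/-! END COPY -/

/-- the resolvent identity `G_μ = G_l + (1 - l/μ) Π_l G_μ` -/
theorem D4_res (A : Matrix m n ℝ) {l l' : ℝ} (hl : 0 < l) (hl' : l ≤ l') :
    noiseM A l' = noiseM A l
      + (1 - l / l') • (A * (gram A l)⁻¹ * Aᵀ * noiseM A l') := by
  have hlp : 0 < l' := hl.trans_le hl'
  set W := (gram A l)⁻¹ with hW
  set W' := (gram A l')⁻¹ with hW'
  have e1 : W * gram A l = 1 := gram_inv_mul A hl
  have e2 : gram A l' * W' = 1 := gram_mul_inv A hlp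
  have e3 : gram A l' = gram A l + (l' - l) • (1 : Matrix n n ℝ) := by
    unfold gram
    rw [sub_smul, add_assoc, add_sub_cancel]
  have e4 : (l' - l) • (W * W') = W - W' := by
    have h1 : W * gram A l' * W' = W := by rw [Matrix.mul_assoc, e2, Matrix.mul_one]
    rw [e3, Matrix.mul_add, e1, Matrix.mul_smul, Matrix.mul_one, Matrix.add_mul, Matrix.one_mul,
      Matrix.smul_mul] at h1
    rw [eq_sub_iff_add_eq, add_comm]
    exact h1
  have e5 : Aᵀ * A = gram A l' - l' • (1 : Matrix n n ℝ) := by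
    unfold gram
    rw [add_sub_cancel_right]
  have e6 : A * W * Aᵀ * noiseM A l' = l' • (A * W - l' • (A * (W * W'))) := by
    rw [noiseM, ← hW', Matrix.mul_smul]
    congr 1
    calc A * W * Aᵀ * (A * W') = A * W * (Aᵀ * A) * W' := by simp only [Matrix.mul_assoc]
      _ = A * W * (gram A l' * W') - l' • (A * (W * W')) := by
          rw [e5, Matrix.mul_sub, Matrix.mul_smul, Matrix.mul_one, Matrix.sub_mul,
            Matrix.smul_mul]
          simp only [Matrix.mul_assoc]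
      _ = _ := by rw [e2, Matrix.mul_one]
  have e7 : (1 - l / l') * l' = l' - l := by field_simp
  have e8 : (l' - l) • (A * (W * W')) = A * W - A * W' := by
    rw [← Matrix.mul_smul, e4, Matrix.mul_sub]
  rw [e6, smul_smul, e7, smul_sub, smul_smul, mul_comm (l' - l) l', ← smul_smul, e8, noiseM,
    noiseM, ← hW, ← hW']
  module

theorem noise_up {S : Matrix a m ℝ} {A : Matrix m n ℝ} {T : Matrix n c ℝ} {l l' C : ℝ}
    (hl : 0 < l) (hl' : l ≤ l') (hC : 1 ≤ C) (hS : Valid S A l) (hT : Valid Tᵀ Aᵀ l)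
    (hN : Noise S A T l C) : Noise S A T l' (2 * C + 3) := by
  intro x
  have hlp : 0 < l' := hl.trans_le hl'
  have hP : (A * (gram A l)⁻¹ * Aᵀ)ᵀ = A * (gram A l)⁻¹ * Aᵀ := by
    rw [Matrix.transpose_mul, Matrix.transpose_mul, Matrix.transpose_transpose,
      gram_inv_transpose, Matrix.mul_assoc]
  have h1 : (noiseM A l')ᵀ = (noiseM A l)ᵀ
      + (1 - l / l') • ((noiseM A l')ᵀ * (A * (gram A l)⁻¹ * Aᵀ)) := by
    conv_lhs => rw [D4_res A hl hl']
    rw [Matrix.transpose_add, Matrix.transpose_smul, Matrix.transpose_mul, hP]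
  have h2 : Tᵀ *ᵥ ((noiseM A l')ᵀ *ᵥ (Sᵀ *ᵥ x)) = Tᵀ *ᵥ ((noiseM A l)ᵀ *ᵥ (Sᵀ *ᵥ x))
      + (1 - l / l') • (Tᵀ *ᵥ ((noiseM A l')ᵀ *ᵥ ((A * (gram A l)⁻¹ * Aᵀ) *ᵥ (Sᵀ *ᵥ x)))) := by
    conv_lhs => rw [h1]
    rw [Matrix.add_mulVec, Matrix.mulVec_add, Matrix.smul_mulVec, Matrix.mulVec_smul,
      Matrix.mulVec_mulVec (Sᵀ *ᵥ x) (noiseM A l')ᵀ]
  have h3 := hN x
  have h4 := Valid.pi hS hl x
  have h5 := (hT.mono hl').noise hlp ((A * (gram A l)⁻¹ * Aᵀ) *ᵥ (Sᵀ *ᵥ x))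
  rw [← noiseM_transpose A hlp] at h5
  have hq : 0 ≤ l / l' := by positivity
  have hq1 : l / l' ≤ 1 := (div_le_one hlp).2 hl'
  rw [h2]
  refine (sq_add_le _ _).trans ?_
  rw [sq_smul]
  have hx := sq_nonneg' x
  have hy := sq_nonneg' (Tᵀ *ᵥ ((noiseM A l')ᵀ *ᵥ ((A * (gram A l)⁻¹ * Aᵀ) *ᵥ (Sᵀ *ᵥ x))))
  set u := sq (Tᵀ *ᵥ ((noiseM A l')ᵀ *ᵥ ((A * (gram A l)⁻¹ * Aᵀ) *ᵥ (Sᵀ *ᵥ x)))) with hu
  have h6 : (1 - l / l') ^ 2 * u ≤ u := by
    have : (1 - l / l') ^ 2 ≤ 1 := by nlinarith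
    nlinarith
  have h7 : u ≤ l' * (5 / 4 * sq x) := h5.trans (mul_le_mul_of_nonneg_left h4 hlp.le)
  have h8 : C * l * sq x ≤ C * l' * sq x := by
    apply mul_le_mul_of_nonneg_right _ hx
    exact mul_le_mul_of_nonneg_left hl' (by linarith)
  have h9 : 0 ≤ l' * sq x := by positivity
  nlinarith

end forms

end A55
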