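import Pool.Agent.Lib_helper50.A55.Defs
import Pool.Agent.Lib_helper50.A55.B.D1a
import Pool.Agent.Lib_helper50.A55.B.D1b
import Pool.Agent.Lib_helper50.A55.B.D2
/-!
# MP_a55cb8: block D5 (heads), helper5

The statements of D1 and D2 used here are copied on top.
-/

open Matrix Finset

namespace A55

section forms

variable {m n a b c : Type*} [Fintype m] [Fintype n] [Fintype a] [Fintype b] [Fintype c]
  [DecidableEq m] [DecidableEq n] [DecidableEq a] [DecidableEq b] [DecidableEq c]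

/-! ### statements of other blocks (D1, D2) -/

/-! ### D5 -/

theorem D5_dot (N : Matrix c n ℝ) (v : n → ℝ) (x : c → ℝ) :
    (N *ᵥ v) ⬝ᵥ x = v ⬝ᵥ (Nᵀ *ᵥ x) := by
  rw [Matrix.mulVec_transpose, dotProduct_comm, Matrix.dotProduct_mulVec,
    dotProduct_comm]

/-- the orthogonality condition of an image -/
theorem D5_map (N : Matrix c n ℝ) (V : Submodule ℝ (n → ℝ)) (x : c → ℝ)
    (h : ∀ w ∈ V.map N.mulVecLin, w ⬝ᵥ x = 0) (v : n → ℝ) (hv : v ∈ V) :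
    v ⬝ᵥ (Nᵀ *ᵥ x) = 0 := by
  rw [← D5_dot]
  exact h _ (Submodule.mem_map.mpr ⟨v, hv, by rw [Matrix.mulVecLin_apply]⟩)

theorem Head.mono {M : Matrix m n ℝ} {k k' : ℕ} {t t' : ℝ} (h : Head M k t) (hk : k ≤ k')
    (ht : t ≤ t') : Head M k' t' := by
  obtain ⟨V, hV, hx⟩ := h
  exact ⟨V, hV.trans hk, fun x h0 => (hx x h0).trans
    (mul_le_mul_of_nonneg_right ht (sq_nonneg' x))⟩

theorem Head.transpose {M : Matrix m n ℝ} {k : ℕ} {t : ℝ} (ht : 0 ≤ t) (h : Head M k t) :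
    Head Mᵀ k t := by
  obtain ⟨V, hV, hx⟩ := h
  refine ⟨V.map M.mulVecLin, (Submodule.finrank_map_le _ _).trans hV, fun y h0 => ?_⟩
  have h1 := hx (Mᵀ *ᵥ y) (fun v hv => D5_map M V y h0 v hv)
  have h2 : sq (Mᵀ *ᵥ y) = (M *ᵥ (Mᵀ *ᵥ y)) ⬝ᵥ y := by
    rw [D5_dot, sq_eq_dot]
  have h3 := dot_sq_le (M *ᵥ (Mᵀ *ᵥ y)) y
  rw [← h2] at h3
  have h4 := sq_nonneg' (Mᵀ *ᵥ y)
  have h5 := sq_nonneg' y
  rcases h4.eq_or_lt with h6 | h6
  · rw [← h6]; exact mul_nonneg ht h5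
  · have h7 : sq (Mᵀ *ᵥ y) ^ 2 ≤ (t * sq y) * sq (Mᵀ *ᵥ y) := by
      calc sq (Mᵀ *ᵥ y) ^ 2 ≤ _ := h3
        _ ≤ (t * sq (Mᵀ *ᵥ y)) * sq y := mul_le_mul_of_nonneg_right h1 h5
        _ = (t * sq y) * sq (Mᵀ *ᵥ y) := by ring
    rw [pow_two] at h7
    exact le_of_mul_le_mul_right h7 h6

theorem Head.sample {S : Matrix a m ℝ} {A : Matrix m n ℝ} {T : Matrix n c ℝ} {l C : ℝ} {k : ℕ}
    (hl : 0 < l) (hC : 1 ≤ C) (hA : Head A k l) (hS : Valid S A l) (hT : Valid Tᵀ Aᵀ l)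
    (hN : Noise S A T l C) : Head (S * A * T) k ((4 + 2 * C) * l) := by
  obtain ⟨V, hV, hx⟩ := hA
  set P : Matrix n n ℝ := Aᵀ * (gram Aᵀ l)⁻¹ * Aᵀᵀ with hP
  refine ⟨V.map ((P * T)ᵀ).mulVecLin, (Submodule.finrank_map_le _ _).trans hV, fun x h0 => ?_⟩
  have hu : ∀ v ∈ V, v ⬝ᵥ (P *ᵥ (T *ᵥ x)) = 0 := by
    intro v hv
    have := D5_map (P * T)ᵀ V x h0 v hv
    rwa [Matrix.transpose_transpose, ← Matrix.mulVec_mulVec] at this
  set u : n → ℝ := P *ᵥ (T *ᵥ x) with hudef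
  -- the size of `u`
  have h1 : sq u ≤ 5 / 4 * sq x := by
    have := Valid.pi hT hl x
    rwa [Matrix.transpose_transpose T] at this
  have h2 : sq (A *ᵥ u) ≤ l * sq u := hx u hu
  have h3 : sq (S *ᵥ (A *ᵥ u)) ≤ 5 / 4 * sq (A *ᵥ u) + l / 4 * sq u := by
    have := (abs_le.mp (hS u)).2
    linarith
  -- the noise part
  have h4 : sq ((S * noiseM A l * T) *ᵥ x) ≤ C * l * sq x := by
    have hM : ∀ y, sq ((Tᵀ * (noiseM A l)ᵀ * Sᵀ) *ᵥ y) ≤ C * l * sq y := by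
      intro y
      have := hN y
      rwa [Matrix.mulVec_mulVec, Matrix.mulVec_mulVec] at this
    have := sq_transpose_le (mul_nonneg (by linarith) hl.le) hM x
    rwa [show (Tᵀ * (noiseM A l)ᵀ * Sᵀ)ᵀ = S * noiseM A l * T by
      rw [Matrix.transpose_mul, Matrix.transpose_mul, Matrix.transpose_transpose,
        Matrix.transpose_transpose, Matrix.transpose_transpose, Matrix.mul_assoc]] at this
  -- the splitting
  have h5 : A = A * P + noiseM A l := by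
    have h6 : (gram A l)⁻¹ * Aᵀ = Aᵀ * (gram Aᵀ l)⁻¹ := by
      have := push Aᵀ hl
      rw [Matrix.transpose_transpose] at this
      exact this.symm
    have h7 := split_noise A hl
    rw [Matrix.mul_assoc A, h6] at h7
    rw [hP, Matrix.transpose_transpose, ← Matrix.mul_assoc]
    exact h7
  have h8 : (S * A * T) *ᵥ x = S *ᵥ (A *ᵥ u) + (S * noiseM A l * T) *ᵥ x := by
    have h9 : S * A * T = S * A * P * T + S * noiseM A l * T := by
      conv_lhs => rw [h5]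
      rw [Matrix.mul_add, Matrix.add_mul, Matrix.mul_assoc S A P]
    rw [h9, Matrix.add_mulVec]
    congr 1
    rw [hudef, Matrix.mulVec_mulVec, Matrix.mulVec_mulVec, Matrix.mulVec_mulVec]
  rw [h8]
  have h10 := sq_add_le (S *ᵥ (A *ᵥ u)) ((S * noiseM A l * T) *ᵥ x)
  have h11 : l * sq u ≤ l * (5 / 4 * sq x) := mul_le_mul_of_nonneg_left h1 hl.le
  have h12 : 0 ≤ l * sq x := mul_nonneg hl.le (sq_nonneg' x)
  nlinarith [h10, h11, h12, h2, h3, h4]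

end forms

end A55
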