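import Pool.Agent.Lib_helper50.A55.FDefs
/-!
# MP_a55cb8, block F1a: the weight of the algorithm in numbers (helper89)
-/

open Matrix Finset

namespace A55

/-- counting a decreasing predicate -/
theorem f1a_count (P : ℕ → Prop) [DecidablePred P] (hP : ∀ i, P (i + 1) → P i) (L : ℕ) :
    ((∑ i ∈ range L, if P i then 1 else 0) = L ∧ ∀ i < L, P i) ∨
    ((∑ i ∈ range L, if P i then 1 else 0) < L ∧
      ¬ P (∑ i ∈ range L, if P i then 1 else 0) ∧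
      ((∑ i ∈ range L, if P i then 1 else 0) = 0 ∨
        P ((∑ i ∈ range L, if P i then 1 else 0) - 1))) := by
  have mono : ∀ i j, i ≤ j → P j → P i := by
    intro i j hij
    induction hij with
    | refl => exact id
    | step _ ih => exact fun h => ih (hP _ h)
  induction L with
  | zero =>
    left
    simp
  | succ L ih =>
    rw [sum_range_succ]
    rcases ih with ⟨h1, h2⟩ | ⟨h1, h2, h3⟩
    · rw [h1]
      by_cases h : P L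
      · left
        rw [if_pos h]
        refine ⟨rfl, fun i hi => ?_⟩
        rcases Nat.lt_succ_iff_lt_or_eq.1 hi with h' | h'
        · exact h2 i h'
        · exact h' ▸ h
      · right
        rw [if_neg h, add_zero]
        refine ⟨Nat.lt_succ_self _, h, ?_⟩
        rcases Nat.eq_zero_or_pos L with h0 | h0
        · exact Or.inl h0
        · exact Or.inr (h2 _ (by omega))
    · right
      have h : ¬ P L := fun h => h2 (mono _ _ h1.le h)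
      rw [if_neg h, add_zero]
      exact ⟨h1.trans (Nat.lt_succ_self _), h2, h3⟩

section nat

variable {c : Cst} (x : InT.den)

theorem f1a_l (hc : Big c) : 10 ^ 6 ≤ pl c x := hc.c1.trans (Nat.le_add_left _ _)

theorem f1a_log (hc : Big c) : 1 ≤ Nat.log2 (pl c x) := by
  have h := f1a_l x hc
  exact (Nat.le_log2 (by omega)).2 (by omega)

theorem f1a_pow_le (hc : Big c) : pl c x ^ c.ct ≤ pK c x := by
  have h := f1a_l x hc
  have h1 := f1a_log x hc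
  have h2 : pl c x ≤ 4 ^ Nat.log2 (pl c x) := by
    refine (Nat.lt_log2_self (n := pl c x)).le.trans ?_
    rw [show (4 : ℕ) = 2 ^ 2 by norm_num, ← pow_mul]
    exact Nat.pow_le_pow_right (by norm_num) (by omega)
  unfold pK ptau
  calc pl c x ^ c.ct ≤ (4 ^ Nat.log2 (pl c x)) ^ c.ct := Nat.pow_le_pow_left h2 _
    _ = 4 ^ (c.ct * Nat.log2 (pl c x)) := by rw [← pow_mul, Nat.mul_comm]

theorem f1a_K_le (hc : Big c) : pK c x ≤ pl c x ^ (2 * c.ct) := by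
  have h := f1a_l x hc
  have h2 : 2 ^ Nat.log2 (pl c x) ≤ pl c x := Nat.log2_self_le (by omega)
  unfold pK ptau
  calc 4 ^ (c.ct * Nat.log2 (pl c x)) = (2 ^ Nat.log2 (pl c x)) ^ (2 * c.ct) := by
        rw [show (4 : ℕ) = 2 ^ 2 by norm_num, ← pow_mul, ← pow_mul]
        congr 1
        ring
    _ ≤ _ := Nat.pow_le_pow_left h2 _

/-- `ρ₀ ≤ l^15 2^τ` -/
theorem f1a_rho (hc : Big c) {C : ℕ} (hC : C ≤ c.c1) :
    rho0 C c x ≤ pl c x ^ 15 * 2 ^ ptau c x := by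
  have h := f1a_l x hc
  have hCl : C ≤ pl c x := hC.trans (Nat.le_add_left _ _)
  unfold rho0 pdegK pdeg1 pt
  set l := pl c x with hl
  set S := 2 ^ ptau c x with hS
  have hS1 : 1 ≤ S := Nat.one_le_two_pow
  have h5 : 1 ≤ l ^ 5 := Nat.one_le_pow _ _ (by omega)
  have h6 : 1 ≤ l ^ 6 := Nat.one_le_pow _ _ (by omega)
  have a1 : l * (2 * l ^ 5 + 2) + 2 ≤ 6 * l ^ 6 := by
    have : l * (2 * l ^ 5 + 2) ≤ l * (4 * l ^ 5) := Nat.mul_le_mul_left _ (by omega)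
    have e : l * (4 * l ^ 5) = 4 * l ^ 6 := by ring
    omega
  have a2 : l * S * (2 * l ^ 5 + 2) + 2 ≤ 6 * l ^ 6 * S := by
    have : l * S * (2 * l ^ 5 + 2) ≤ l * S * (4 * l ^ 5) := Nat.mul_le_mul_left _ (by omega)
    have e : l * S * (4 * l ^ 5) = 4 * (l ^ 6 * S) := by ring
    have e2 : 6 * l ^ 6 * S = 6 * (l ^ 6 * S) := by ring
    have h7 : 1 ≤ l ^ 6 * S := Nat.mul_le_mul h6 hS1
    omega
  calc C ^ 2 * (l * S * (2 * l ^ 5 + 2) + 2) * (l * (2 * l ^ 5 + 2) + 2)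
      ≤ l ^ 2 * (6 * l ^ 6 * S) * (6 * l ^ 6) :=
        Nat.mul_le_mul (Nat.mul_le_mul (Nat.pow_le_pow_left hCl _) a2) a1
    _ = 36 * (l ^ 14 * S) := by ring
    _ ≤ l * (l ^ 14 * S) := Nat.mul_le_mul_right _ (by omega)
    _ = l ^ 15 * S := by ring

theorem f1a_K_sq : pK c x = 2 ^ ptau c x * 2 ^ ptau c x := by
  unfold pK
  rw [show (4 : ℕ) = 2 * 2 by norm_num, mul_pow]

theorem f1a_rho_le (hc : Big c) {C : ℕ} (hC : C ≤ c.c1) (ht : 30 ≤ c.ct) :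
    rho0 C c x ≤ pK c x := by
  have h := f1a_l x hc
  refine (f1a_rho x hc hC).trans ?_
  rw [f1a_K_sq]
  refine Nat.mul_le_mul_right _ ?_
  have h1 := f1a_pow_le x hc
  rw [f1a_K_sq] at h1
  have h2 : pl c x ^ 15 * pl c x ^ 15 ≤ 2 ^ ptau c x * 2 ^ ptau c x := by
    refine le_trans ?_ h1
    rw [← pow_add]
    exact Nat.pow_le_pow_right (by omega) (by omega)
  exact Nat.mul_self_le_mul_self_iff.1 h2

theorem f1a_bb (hc : Big c) (hN : x.2.1 ≤ x.1.1 ^ 2) (h1 : 1 ≤ x.2.2.1 * x.1.2) :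
    x.2.1 ^ 2 ≤ pK c x ^ (3 * pbb c x) * (x.2.2.1 * x.1.2) ^ 2 ∧
      (pbb c x = 0 ∨ pK c x ^ (3 * (pbb c x - 1)) * (x.2.2.1 * x.1.2) ^ 2 < x.2.1 ^ 2) := by
  have hK1 : 1 ≤ pK c x := Nat.one_le_pow _ _ (by norm_num)
  have hmono : ∀ i, pK c x ^ (3 * (i + 1)) * (x.2.2.1 * x.1.2) ^ 2 < x.2.1 ^ 2 →
      pK c x ^ (3 * i) * (x.2.2.1 * x.1.2) ^ 2 < x.2.1 ^ 2 := by
    intro i hi
    refine lt_of_le_of_lt ?_ hi
    exact Nat.mul_le_mul_right _ (Nat.pow_le_pow_right hK1 (by omega))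
  rcases f1a_count (fun i => pK c x ^ (3 * i) * (x.2.2.1 * x.1.2) ^ 2 < x.2.1 ^ 2) hmono
    (pl c x) with ⟨-, h⟩ | ⟨-, h2, h3⟩
  · exfalso
    have hl := f1a_l x hc
    have h4 := h (pl c x - 1) (by omega)
    refine absurd h4 (not_lt.2 ?_)
    have h5 : x.2.1 ^ 2 ≤ 4 ^ (2 * (Nat.log2 x.1.1 + 1)) := by
      calc x.2.1 ^ 2 ≤ (x.1.1 ^ 2) ^ 2 := Nat.pow_le_pow_left hN _
        _ ≤ ((2 ^ (Nat.log2 x.1.1 + 1)) ^ 2) ^ 2 :=
          Nat.pow_le_pow_left (Nat.pow_le_pow_left (Nat.lt_log2_self (n := x.1.1)).le _) _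
        _ = 4 ^ (2 * (Nat.log2 x.1.1 + 1)) := by
          rw [show (4 : ℕ) = 2 ^ 2 by norm_num, ← pow_mul, ← pow_mul, ← pow_mul]
          congr 1
          ring
    refine h5.trans ?_
    have ht : 1 ≤ ptau c x := by
      unfold ptau
      exact Nat.mul_le_mul (show 1 ≤ c.ct by have := hc.ct; omega) (f1a_log x hc)
    have h6 : 4 ^ (2 * (Nat.log2 x.1.1 + 1)) ≤ pK c x ^ (3 * (pl c x - 1)) := by
      unfold pK
      rw [← pow_mul]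
      refine Nat.pow_le_pow_right (by norm_num) ?_
      have h7 : Nat.log2 x.1.1 + 1 ≤ pl c x - 1 := by
        have := hc.c1
        unfold pl
        omega
      calc 2 * (Nat.log2 x.1.1 + 1) ≤ 1 * (3 * (pl c x - 1)) := by omega
        _ ≤ _ := Nat.mul_le_mul_right _ ht
    calc 4 ^ (2 * (Nat.log2 x.1.1 + 1)) ≤ pK c x ^ (3 * (pl c x - 1)) * 1 := by
          rw [mul_one]
          exact h6
      _ ≤ _ := Nat.mul_le_mul_left _ (Nat.one_le_pow _ _ h1)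
  · exact ⟨not_lt.1 h2, h3⟩

/-- the sizes of the multiplications -/
theorem f1a_ps (hc : Big c) (hk : 1 ≤ x.1.2) :
    2 ^ ps c x + 1 ≤ x.1.2 * pl c x ^ (c.cB + 1) := by
  have h := f1a_l x hc
  have hcB := hc.cB
  set l := pl c x with hl
  have hlog : ∀ y : ℕ, 1 ≤ y → 2 ^ (Nat.log2 y + 1) ≤ 2 * y := by
    intro y hy
    rw [pow_succ, Nat.mul_comm]
    exact Nat.mul_le_mul_left _ (Nat.log2_self_le (by omega))
  have hl7 : 1 ≤ l ^ 7 := Nat.one_le_pow _ _ (by omega)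
  have m1 : pm1 c x ≤ 32 * ((x.1.2 + 1) * l ^ 7) := by
    unfold pm1 pb1
    rw [← hl]
    calc l * 2 ^ (Nat.log2 (16 * (x.1.2 + 1) * l ^ 6) + 1)
        ≤ l * (2 * (16 * (x.1.2 + 1) * l ^ 6)) :=
          Nat.mul_le_mul_left _ (hlog _ (Nat.mul_le_mul (Nat.mul_le_mul (by norm_num)
            (by omega) : 1 * 1 ≤ _) (Nat.one_le_pow _ _ (by omega))))
      _ = _ := by ring
  have m0 : x.1.2 + 1 ≤ (x.1.2 + 1) * l ^ 7 := Nat.le_mul_of_pos_right _ hl7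
  have gen : ∀ y : ℕ, 1 ≤ y → y ≤ 33 * ((x.1.2 + 1) * l ^ 7) →
      l * 2 ^ (Nat.log2 (16 * y * l ^ 6) + 1) ≤ 1056 * ((x.1.2 + 1) * l ^ 14) := by
    intro y hy hy2
    calc l * 2 ^ (Nat.log2 (16 * y * l ^ 6) + 1)
        ≤ l * (2 * (16 * y * l ^ 6)) :=
          Nat.mul_le_mul_left _ (hlog _ (Nat.mul_le_mul (Nat.mul_le_mul (by norm_num)
            hy : 1 * 1 ≤ _) (Nat.one_le_pow _ _ (by omega))))
      _ = 32 * l ^ 7 * y := by ring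
      _ ≤ 32 * l ^ 7 * (33 * ((x.1.2 + 1) * l ^ 7)) := Nat.mul_le_mul_left _ hy2
      _ = _ := by ring
  have g1 : ∀ n a A : ℕ, a ≤ 32 * A → n + 1 ≤ A → ∀ z, z ≤ a + n + 1 → z ≤ 33 * A := by
    intro n a A h1 h2 z h3
    omega
  have m2 : pm2 c x ≤ 1056 * ((x.1.2 + 1) * l ^ 14) := by
    unfold pm2 pb2
    rw [← hl]
    exact gen _ (by omega) (g1 x.1.2 _ _ m1 m0 _ (by omega))
  have m3 : pk3 c x ≤ 1056 * ((x.1.2 + 1) * l ^ 14) := by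
    unfold pk3 pb3 pkk
    rw [← hl]
    exact gen _ (by omega) (g1 x.1.2 _ _ m1 m0 _ (by omega))
  have hB1 : 1 ≤ l ^ c.cB := Nat.one_le_pow _ _ (by omega)
  have m4 : phcap c x = (x.1.2 + 1) * l ^ c.cB := by
    unfold phcap pBd
    rw [← hl]
    ring
  have m5 : 1056 * ((x.1.2 + 1) * l ^ 14) ≤ (x.1.2 + 1) * l ^ c.cB := by
    calc 1056 * ((x.1.2 + 1) * l ^ 14) = (x.1.2 + 1) * (1056 * l ^ 14) := by ring
      _ ≤ (x.1.2 + 1) * (l * l ^ 14) :=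
        Nat.mul_le_mul_left _ (Nat.mul_le_mul_right _ (by omega))
      _ = (x.1.2 + 1) * l ^ 15 := by ring
      _ ≤ _ := Nat.mul_le_mul_left _ (Nat.pow_le_pow_right (by omega) (by omega))
  have m6 : 1 ≤ (x.1.2 + 1) * l ^ c.cB := Nat.mul_le_mul (Nat.succ_le_succ (Nat.zero_le _) : 1 ≤ x.1.2 + 1) hB1
  unfold ps
  have g2 : ∀ a b d D B : ℕ, a = B → b ≤ 1056 * D → d ≤ 1056 * D → 1056 * D ≤ B → 1 ≤ B →
      1 ≤ a + b + d ∧ 2 * (a + b + d) ≤ 2 * (3 * B) := by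
    intro a b d D B h1 h2 h3 h4 h5
    omega
  have g3 := g2 _ _ _ _ _ m4 m2 m3 m5 m6
  have m7 : 2 ^ (Nat.log2 (phcap c x + pm2 c x + pk3 c x) + 1) ≤
      2 * (3 * ((x.1.2 + 1) * l ^ c.cB)) :=
    (hlog _ g3.1).trans g3.2
  calc 2 ^ (Nat.log2 (phcap c x + pm2 c x + pk3 c x) + 1) + 1
      ≤ 2 * (3 * ((x.1.2 + 1) * l ^ c.cB)) + (x.1.2 + 1) * l ^ c.cB := Nat.add_le_add m7 m6
    _ = 7 * (x.1.2 + 1) * l ^ c.cB := by ring
    _ ≤ 7 * (2 * x.1.2) * l ^ c.cB := by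
      have g4 : ∀ k : ℕ, 1 ≤ k → k + 1 ≤ 2 * k := fun k h => by omega
      exact Nat.mul_le_mul_right _ (Nat.mul_le_mul_left _ (g4 _ hk))
    _ = 14 * (x.1.2 * l ^ c.cB) := by ring
    _ ≤ l * (x.1.2 * l ^ c.cB) := Nat.mul_le_mul_right _ (by omega)
    _ = _ := by ring

end nat

/-! ## real inequalities -/

/-- the three inequalities for `X = κ^(2/3-φ) k^(5/3-φ) N^(1/3+φ)` -/
theorem f1a_real {φ κ k N K ρ : ℝ} {b : ℕ} (hφ : 0 < φ) (hφ6 : φ ≤ 1 / 6) (hκ : 1 ≤ κ)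
    (hκk : κ ≤ k) (hN : κ * k ≤ N) (hK : 1 ≤ K) (hρ0 : 0 ≤ ρ)
    (hρ : ρ ≤ K ^ (1 / 2 + 3 * φ / 2)) (h1 : N ^ 2 ≤ (K ^ b) ^ 3 * (κ * k) ^ 2)
    (h2 : b = 0 ∨ (K ^ (b - 1)) ^ 3 * (κ * k) ^ 2 < N ^ 2) :
    k * (N / K ^ b) ≤ κ ^ (2 / 3 - φ) * k ^ (5 / 3 - φ) * N ^ (1 / 3 + φ) ∧
    κ * (ρ ^ b * k ^ 2) ≤ K * (κ ^ (2 / 3 - φ) * k ^ (5 / 3 - φ) * N ^ (1 / 3 + φ)) ∧
    κ ^ (2 / 3 - φ) * k ^ (5 / 3 - φ) * N ^ (1 / 3 + φ) ≤ κ * N + k ^ (3 : ℝ) := by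
  have hκ0 : 0 < κ := by linarith
  have hk0 : 0 < k := by linarith
  have hκk0 : 0 < κ * k := mul_pos hκ0 hk0
  have hN0 : 0 < N := by linarith
  have hK0 : 0 < K := by linarith
  obtain ⟨R, hR⟩ : ∃ R, N = R * (κ * k) := ⟨N / (κ * k), by field_simp⟩
  have hR1 : 1 ≤ R := by
    rw [hR] at hN
    nlinarith
  have hR0 : 0 < R := by linarith
  have hB0 : 0 < K ^ b := pow_pos hK0 b
  -- `R^(2/3) ≤ K^b ≤ K R^(2/3)`
  have b1 : R ^ (2 / 3 : ℝ) ≤ K ^ b := by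
    have e : R ^ 2 ≤ (K ^ b) ^ 3 := by
      have : (R * (κ * k)) ^ 2 ≤ (K ^ b) ^ 3 * (κ * k) ^ 2 := hR ▸ h1
      rw [mul_pow] at this
      exact le_of_mul_le_mul_right this (by positivity)
    have := Real.rpow_le_rpow (by positivity) e (by norm_num : (0 : ℝ) ≤ 1 / 3)
    rw [← Real.rpow_natCast, ← Real.rpow_natCast (K ^ b) 3, ← Real.rpow_mul hR0.le,
      ← Real.rpow_mul hB0.le] at this
    norm_num at this
    exact this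
  have hR23 : 1 ≤ R ^ (2 / 3 : ℝ) := Real.one_le_rpow hR1 (by norm_num)
  have b2 : K ^ b ≤ K * R ^ (2 / 3 : ℝ) := by
    rcases Nat.eq_zero_or_pos b with hb | hb
    · rw [hb, pow_zero]
      nlinarith
    · have h3 : (K ^ (b - 1)) ^ 3 * (κ * k) ^ 2 < N ^ 2 := h2.resolve_left (by omega)
      have hB1 : 0 < K ^ (b - 1) := pow_pos hK0 _
      have e : (K ^ (b - 1)) ^ 3 ≤ R ^ 2 := by
        have h4 : (K ^ (b - 1)) ^ 3 * (κ * k) ^ 2 < R ^ 2 * (κ * k) ^ 2 := by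
          rw [← mul_pow R, ← hR]
          exact h3
        exact (lt_of_mul_lt_mul_right h4 (by positivity)).le
      have := Real.rpow_le_rpow (by positivity) e (by norm_num : (0 : ℝ) ≤ 1 / 3)
      rw [← Real.rpow_natCast, ← Real.rpow_natCast R 2, ← Real.rpow_mul hR0.le,
        ← Real.rpow_mul hB1.le] at this
      norm_num at this
      calc K ^ b = K * K ^ (b - 1) := by
            rw [← pow_succ']
            congr 1
            omega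
        _ ≤ _ := mul_le_mul_of_nonneg_left this hK0.le
  -- the form of `X`
  have hX : κ ^ (2 / 3 - φ) * k ^ (5 / 3 - φ) * N ^ (1 / 3 + φ) =
      κ * k ^ 2 * R ^ (1 / 3 + φ) := by
    rw [hR, Real.mul_rpow hR0.le hκk0.le, Real.mul_rpow hκ0.le hk0.le]
    have e1 : κ ^ (2 / 3 - φ) * κ ^ (1 / 3 + φ) = κ := by
      rw [← Real.rpow_add hκ0]
      norm_num
    have e2 : k ^ (5 / 3 - φ) * k ^ (1 / 3 + φ) = k ^ 2 := by
      rw [← Real.rpow_add hk0, ← Real.rpow_natCast]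
      norm_num
    calc κ ^ (2 / 3 - φ) * k ^ (5 / 3 - φ) * (R ^ (1 / 3 + φ) * (κ ^ (1 / 3 + φ) *
          k ^ (1 / 3 + φ))) = (κ ^ (2 / 3 - φ) * κ ^ (1 / 3 + φ)) *
            (k ^ (5 / 3 - φ) * k ^ (1 / 3 + φ)) * R ^ (1 / 3 + φ) := by ring
      _ = _ := by rw [e1, e2]
  refine ⟨?_, ?_, ?_⟩
  · rw [hX]
    have e3 : R / R ^ (2 / 3 : ℝ) = R ^ (1 / 3 : ℝ) := by
      rw [div_eq_iff (by positivity), ← Real.rpow_add hR0]
      norm_num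
    calc k * (N / K ^ b) ≤ k * (N / R ^ (2 / 3 : ℝ)) := by gcongr
      _ = κ * k ^ 2 * (R / R ^ (2 / 3 : ℝ)) := by rw [hR]; ring
      _ = κ * k ^ 2 * R ^ (1 / 3 : ℝ) := by rw [e3]
      _ ≤ _ := by
        refine mul_le_mul_of_nonneg_left ?_ (by positivity)
        exact Real.rpow_le_rpow_of_exponent_le hR1 (by linarith)
  · rw [hX]
    have e4 : ρ ^ b ≤ (K ^ b) ^ (1 / 2 + 3 * φ / 2) := by
      calc ρ ^ b ≤ (K ^ (1 / 2 + 3 * φ / 2)) ^ b := pow_le_pow_left₀ hρ0 hρ b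
        _ = _ := by
          rw [← Real.rpow_natCast, ← Real.rpow_mul hK0.le, ← Real.rpow_natCast K b,
            ← Real.rpow_mul hK0.le, mul_comm]
    have e5 : (K ^ b) ^ (1 / 2 + 3 * φ / 2) ≤ K * R ^ (1 / 3 + φ) := by
      calc (K ^ b) ^ (1 / 2 + 3 * φ / 2) ≤ (K * R ^ (2 / 3 : ℝ)) ^ (1 / 2 + 3 * φ / 2) :=
            Real.rpow_le_rpow hB0.le b2 (by positivity)
        _ = K ^ (1 / 2 + 3 * φ / 2) * R ^ (1 / 3 + φ) := by
          rw [Real.mul_rpow hK0.le (by positivity), ← Real.rpow_mul hR0.le]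
          congr 2
          ring
        _ ≤ K ^ (1 : ℝ) * R ^ (1 / 3 + φ) := by
          refine mul_le_mul_of_nonneg_right ?_ (by positivity)
          exact Real.rpow_le_rpow_of_exponent_le hK (by linarith)
        _ = _ := by rw [Real.rpow_one]
    calc κ * (ρ ^ b * k ^ 2) ≤ κ * ((K * R ^ (1 / 3 + φ)) * k ^ 2) := by
          gcongr
          exact e4.trans e5
      _ = _ := by ring
  · have e6 : κ ^ (2 / 3 - φ) * k ^ (5 / 3 - φ) * N ^ (1 / 3 + φ) ≤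
        (κ * N) ^ (1 / 3 + φ) * (k ^ (3 : ℝ)) ^ (2 / 3 - φ) := by
      rw [Real.mul_rpow hκ0.le hN0.le, ← Real.rpow_mul hk0.le]
      have e7 : κ ^ (2 / 3 - φ) = κ ^ (1 / 3 + φ) * κ ^ (1 / 3 - 2 * φ) := by
        rw [← Real.rpow_add hκ0]
        congr 1
        ring
      have e8 : k ^ (3 * (2 / 3 - φ)) = k ^ (5 / 3 - φ) * k ^ (1 / 3 - 2 * φ) := by
        rw [← Real.rpow_add hk0]
        congr 1
        ring
      have e9 : κ ^ (1 / 3 - 2 * φ) ≤ k ^ (1 / 3 - 2 * φ) :=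
        Real.rpow_le_rpow hκ0.le hκk (by linarith)
      rw [e7, e8]
      calc κ ^ (1 / 3 + φ) * κ ^ (1 / 3 - 2 * φ) * k ^ (5 / 3 - φ) * N ^ (1 / 3 + φ)
          ≤ κ ^ (1 / 3 + φ) * k ^ (1 / 3 - 2 * φ) * k ^ (5 / 3 - φ) * N ^ (1 / 3 + φ) := by
            gcongr
        _ = _ := by ring
    have e10 := Real.geom_mean_le_arith_mean2_weighted (w₁ := 1 / 3 + φ) (w₂ := 2 / 3 - φ)
      (p₁ := κ * N) (p₂ := k ^ (3 : ℝ)) (by positivity) (by linarith) (by positivity)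
      (by positivity) (by ring)
    have h5 : 0 ≤ κ * N := by positivity
    have h6 : 0 ≤ k ^ (3 : ℝ) := by positivity
    nlinarith

/-- the final numeric inequality -/
theorem f1a_T {w φ : ℝ} (h2 : 2 ≤ w) (h3 : w ≤ 3) (hφ : 0 < φ) (hφ6 : φ ≤ 1 / 6)
    {κ k N q l K b ρ M c0 B t P : ℕ} (hl : 10 ^ 6 ≤ l) (hκ : 1 ≤ κ) (hκk : κ < k)
    (hN : κ * k ≤ N) (hK : 1 ≤ K) (hK2 : K ≤ l ^ (2 * t))
    (hρ : (ρ : ℝ) ≤ (K : ℝ) ^ (1 / 2 + 3 * φ / 2)) (hb1 : N ^ 2 ≤ K ^ (3 * b) * (κ * k) ^ 2)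
    (hb2 : b = 0 ∨ K ^ (3 * (b - 1)) * (κ * k) ^ 2 < N ^ 2)
    (hM : (M : ℝ) ≤ c0 * ((P : ℝ) + 1) ^ w) (hP : P + 1 ≤ k * l ^ (B + 1)) :
    ((M + k * (N / K ^ b + 1) + (κ + 1) * (q + 1) * (ρ ^ b * k ^ 2 + N) : ℕ) : ℝ) ≤
      (l : ℝ) ^ (c0 + 3 * (B + 1) + 2 * t + 1) * (q + 1) * bnd w φ κ k N := by
  have hκR : (1 : ℝ) ≤ κ := by exact_mod_cast hκ
  have hkR : (κ : ℝ) ≤ k := by exact_mod_cast hκk.le
  have hk1 : (1 : ℝ) ≤ k := hκR.trans hkR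
  have hNR : (κ : ℝ) * k ≤ N := by exact_mod_cast hN
  have hKR : (1 : ℝ) ≤ K := by exact_mod_cast hK
  have hlR : (10 : ℝ) ^ 6 ≤ l := by exact_mod_cast hl
  have hl1 : (1 : ℝ) ≤ l := by linarith
  have hl0 : (0 : ℝ) < l := by linarith
  have hK2R : (K : ℝ) ≤ (l : ℝ) ^ (2 * t) := by exact_mod_cast hK2
  have hN0 : (0 : ℝ) ≤ N := Nat.cast_nonneg N
  have hq0 : (0 : ℝ) ≤ q := Nat.cast_nonneg q
  have g1 : (N : ℝ) ^ 2 ≤ ((K : ℝ) ^ b) ^ 3 * ((κ : ℝ) * k) ^ 2 := by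
    have : (N : ℝ) ^ 2 ≤ (K : ℝ) ^ (3 * b) * ((κ : ℝ) * k) ^ 2 := by exact_mod_cast hb1
    rwa [Nat.mul_comm, pow_mul] at this
  have g2 : b = 0 ∨ ((K : ℝ) ^ (b - 1)) ^ 3 * ((κ : ℝ) * k) ^ 2 < (N : ℝ) ^ 2 := by
    refine hb2.imp_right fun h => ?_
    have : (K : ℝ) ^ (3 * (b - 1)) * ((κ : ℝ) * k) ^ 2 < (N : ℝ) ^ 2 := by exact_mod_cast h
    rwa [Nat.mul_comm, pow_mul] at this
  obtain ⟨x1, x2, x3⟩ := f1a_real hφ hφ6 hκR hkR hNR hKR (Nat.cast_nonneg ρ) hρ g1 g2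
  set X : ℝ := (κ : ℝ) ^ (2 / 3 - φ) * (k : ℝ) ^ (5 / 3 - φ) * (N : ℝ) ^ (1 / 3 + φ) with hX
  have hX0 : 0 ≤ X := by positivity
  have hk3 : 0 ≤ (k : ℝ) ^ (3 : ℝ) := by positivity
  have hmin : X ≤ κ * N + min ((k : ℝ) ^ (3 : ℝ)) X := by
    rcases le_total ((k : ℝ) ^ (3 : ℝ)) X with h | h
    · rw [min_eq_left h]
      exact x3
    · rw [min_eq_right h]
      have : 0 ≤ (κ : ℝ) * N := by positivity
      linarith
  have hmin0 : 0 ≤ min ((k : ℝ) ^ (3 : ℝ)) X := le_min hk3 hX0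
  have hkw : 1 ≤ (k : ℝ) ^ w := Real.one_le_rpow hk1 (by linarith)
  have hkw2 : (k : ℝ) ≤ (k : ℝ) ^ w := by
    calc (k : ℝ) = (k : ℝ) ^ (1 : ℝ) := (Real.rpow_one _).symm
      _ ≤ _ := Real.rpow_le_rpow_of_exponent_le hk1 (by linarith)
  have hκN : 0 ≤ (κ : ℝ) * N := by positivity
  have hbnd : bnd w φ κ k N = (k : ℝ) ^ w + κ * N + min ((k : ℝ) ^ (3 : ℝ)) X := rfl
  set Y : ℝ := bnd w φ κ k N with hY
  have hY0 : 0 ≤ Y := by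
    rw [hbnd]
    positivity
  -- the three terms
  have hE1 : (M : ℝ) ≤ (l : ℝ) ^ (c0 + 3 * (B + 1)) * Y := by
    have hPR : (P : ℝ) + 1 ≤ (k : ℝ) * (l : ℝ) ^ (B + 1) := by exact_mod_cast hP
    have hL1 : (1 : ℝ) ≤ (l : ℝ) ^ (B + 1) := one_le_pow₀ hl1
    have e1 : ((P : ℝ) + 1) ^ w ≤ (k : ℝ) ^ w * ((l : ℝ) ^ (B + 1)) ^ 3 := by
      calc ((P : ℝ) + 1) ^ w ≤ ((k : ℝ) * (l : ℝ) ^ (B + 1)) ^ w :=
            Real.rpow_le_rpow (by positivity) hPR (by linarith)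
        _ = (k : ℝ) ^ w * ((l : ℝ) ^ (B + 1)) ^ w := Real.mul_rpow (by positivity) (by positivity)
        _ ≤ (k : ℝ) ^ w * ((l : ℝ) ^ (B + 1)) ^ (3 : ℝ) := by
          refine mul_le_mul_of_nonneg_left ?_ (by positivity)
          exact Real.rpow_le_rpow_of_exponent_le hL1 h3
        _ = _ := by
          congr 1
          exact_mod_cast Real.rpow_natCast ((l : ℝ) ^ (B + 1)) 3
    have e2 : (c0 : ℝ) ≤ (l : ℝ) ^ c0 := by
      have : c0 ≤ l ^ c0 := (Nat.lt_pow_self (by omega)).le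
      exact_mod_cast this
    calc (M : ℝ) ≤ c0 * ((P : ℝ) + 1) ^ w := hM
      _ ≤ (l : ℝ) ^ c0 * ((k : ℝ) ^ w * ((l : ℝ) ^ (B + 1)) ^ 3) := by gcongr
      _ = (l : ℝ) ^ (c0 + 3 * (B + 1)) * (k : ℝ) ^ w := by ring
      _ ≤ _ := by
        refine mul_le_mul_of_nonneg_left ?_ (by positivity)
        rw [hbnd]
        linarith
  have hE2 : ((k * (N / K ^ b + 1) : ℕ) : ℝ) ≤ Y := by
    push_cast
    have e1 : ((N / K ^ b : ℕ) : ℝ) ≤ (N : ℝ) / (K : ℝ) ^ b := by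
      have := @Nat.cast_div_le ℝ _ _ _ N (K ^ b)
      rwa [Nat.cast_pow] at this
    calc (k : ℝ) * (((N / K ^ b : ℕ) : ℝ) + 1) ≤ k * ((N : ℝ) / (K : ℝ) ^ b + 1) := by gcongr
      _ = k * ((N : ℝ) / (K : ℝ) ^ b) + k := by ring
      _ ≤ X + (k : ℝ) ^ w := add_le_add x1 hkw2
      _ ≤ _ := by
        rw [hbnd]
        linarith
  have hE3 : (((κ + 1) * (q + 1) * (ρ ^ b * k ^ 2 + N) : ℕ) : ℝ) ≤
      4 * (l : ℝ) ^ (2 * t) * ((q + 1) * Y) := by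
    push_cast
    have e1 : (κ : ℝ) * ((ρ : ℝ) ^ b * (k : ℝ) ^ 2 + N) ≤ K * (2 * Y) := by
      calc (κ : ℝ) * ((ρ : ℝ) ^ b * (k : ℝ) ^ 2 + N) =
            κ * ((ρ : ℝ) ^ b * (k : ℝ) ^ 2) + 1 * (κ * N) := by ring
        _ ≤ K * X + K * (κ * N) := add_le_add x2 (mul_le_mul_of_nonneg_right hKR hκN)
        _ = K * (X + κ * N) := by ring
        _ ≤ _ := by
          refine mul_le_mul_of_nonneg_left ?_ (by linarith)
          rw [hbnd]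
          linarith
    have e0 : 0 ≤ (ρ : ℝ) ^ b * (k : ℝ) ^ 2 + N := by positivity
    calc ((κ : ℝ) + 1) * (q + 1) * ((ρ : ℝ) ^ b * (k : ℝ) ^ 2 + N)
        ≤ (2 * κ) * (q + 1) * ((ρ : ℝ) ^ b * (k : ℝ) ^ 2 + N) := by
          gcongr
          linarith
      _ = 2 * (q + 1) * (κ * ((ρ : ℝ) ^ b * (k : ℝ) ^ 2 + N)) := by ring
      _ ≤ 2 * (q + 1) * (K * (2 * Y)) := by gcongr
      _ = 4 * K * ((q + 1) * Y) := by ring
      _ ≤ _ := by gcongr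
  have hZ : 0 ≤ ((q : ℝ) + 1) * Y := by positivity
  have hYZ : Y ≤ ((q : ℝ) + 1) * Y := by nlinarith
  set E : ℝ := (l : ℝ) ^ (c0 + 3 * (B + 1) + 2 * t) with hE
  have hEa : (l : ℝ) ^ (c0 + 3 * (B + 1)) ≤ E := pow_le_pow_right₀ hl1 (by omega)
  have hEb : (l : ℝ) ^ (2 * t) ≤ E := pow_le_pow_right₀ hl1 (by omega)
  have hEc : 1 ≤ E := one_le_pow₀ hl1
  have q1 : (M : ℝ) ≤ E * ((q + 1) * Y) :=
    hE1.trans (mul_le_mul hEa hYZ hY0 (by linarith))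
  have q2 : ((k * (N / K ^ b + 1) : ℕ) : ℝ) ≤ E * ((q + 1) * Y) := by
    refine hE2.trans (hYZ.trans ?_)
    nlinarith
  have q3 : (((κ + 1) * (q + 1) * (ρ ^ b * k ^ 2 + N) : ℕ) : ℝ) ≤ 4 * (E * ((q + 1) * Y)) := by
    refine hE3.trans ?_
    rw [mul_assoc]
    exact mul_le_mul_of_nonneg_left (mul_le_mul_of_nonneg_right hEb hZ) (by norm_num)
  have q4 : 0 ≤ E * ((q + 1) * Y) := mul_nonneg (by linarith) hZ
  rw [Nat.cast_add, Nat.cast_add]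
  calc (M : ℝ) + ((k * (N / K ^ b + 1) : ℕ) : ℝ) +
        (((κ + 1) * (q + 1) * (ρ ^ b * k ^ 2 + N) : ℕ) : ℝ)
      ≤ 6 * (E * ((q + 1) * Y)) := by linarith
    _ ≤ l * (E * ((q + 1) * Y)) := mul_le_mul_of_nonneg_right (by linarith) q4
    _ = (l : ℝ) ^ (c0 + 3 * (B + 1) + 2 * t + 1) * (q + 1) * Y := by
      rw [hE, pow_succ _ (c0 + 3 * (B + 1) + 2 * t)]
      ring

/-- `ρ₀ ≤ K^(1/2+3φ/2)` -/
theorem f1a_rhoR {φ : ℝ} {l K S ρ ct : ℕ} (hl : 10 ^ 6 ≤ l) (hct : 1 ≤ ct)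
    (hφct : 10 ≤ φ * ct) (hK : K = S * S) (hlK : l ^ ct ≤ K) (hρ : ρ ≤ l ^ 15 * S) :
    (ρ : ℝ) ≤ (K : ℝ) ^ (1 / 2 + 3 * φ / 2) := by
  have hct0 : (0 : ℝ) < ct := by exact_mod_cast hct
  have hl0 : (0 : ℝ) < l := by
    have : 0 < l := by omega
    exact_mod_cast this
  have hK1 : 1 ≤ K := (Nat.one_le_pow _ _ (by omega)).trans hlK
  have hKR : (1 : ℝ) ≤ K := by exact_mod_cast hK1
  have hK0 : (0 : ℝ) < K := by linarith
  have hKS : (K : ℝ) = (S : ℝ) ^ (2 : ℝ) := by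
    rw [hK]
    push_cast
    rw [show (2 : ℝ) = ((2 : ℕ) : ℝ) by norm_num, Real.rpow_natCast]
    ring
  have e1 : (S : ℝ) = (K : ℝ) ^ (1 / 2 : ℝ) := by
    rw [hKS, ← Real.rpow_mul (Nat.cast_nonneg S)]
    norm_num
  have e2 : (l : ℝ) ^ 15 ≤ (K : ℝ) ^ (3 * φ / 2) := by
    have e3 : ((l : ℝ) ^ ct) ≤ K := by exact_mod_cast hlK
    calc (l : ℝ) ^ 15 = ((l : ℝ) ^ ct) ^ (15 / (ct : ℝ)) := by
          rw [← Real.rpow_natCast (l : ℝ) ct, ← Real.rpow_mul hl0.le, mul_div_cancel₀ _ hct0.ne',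
            show (15 : ℝ) = ((15 : ℕ) : ℝ) by norm_num, Real.rpow_natCast]
      _ ≤ (K : ℝ) ^ (15 / (ct : ℝ)) := Real.rpow_le_rpow (by positivity) e3 (by positivity)
      _ ≤ _ := by
        refine Real.rpow_le_rpow_of_exponent_le hKR ?_
        rw [div_le_iff₀ hct0]
        linarith
  have hρR : (ρ : ℝ) ≤ (l : ℝ) ^ 15 * S := by exact_mod_cast hρ
  calc (ρ : ℝ) ≤ (l : ℝ) ^ 15 * S := hρR
    _ ≤ (K : ℝ) ^ (3 * φ / 2) * (K : ℝ) ^ (1 / 2 : ℝ) := by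
      rw [← e1]
      exact mul_le_mul_of_nonneg_right e2 (Nat.cast_nonneg S)
    _ = _ := by
      rw [← Real.rpow_add hK0]
      congr 1
      ring

theorem wAlg_num (w φ : ℝ) (h2 : 2 ≤ w) (h3 : w ≤ 3) (hφ : 0 < φ) (hφ6 : φ ≤ 1 / 6) (C : ℕ) :
    ∃ ct0 : ℕ, ∀ c : Cst, Big c → ct0 ≤ c.ct → C ≤ c.c1 →
      (∀ x, rho0 C c x ≤ pK c x) ∧
      ∀ c0 : ℕ, ∃ e : ℕ, ∀ (mm : ℕ → ℕ) (x : InT.den), (∀ m, (mm m : ℝ) ≤ c0 * (m + 1 : ℝ) ^ w) →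
        1 ≤ x.2.2.1 → x.2.2.1 < x.1.2 → x.1.2 < x.1.1 → x.1.1 ≤ x.2.1 → x.2.1 ≤ x.1.1 ^ 2 →
        x.2.2.1 * x.1.2 ≤ x.2.1 →
        (wAlg mm C c x : ℝ) ≤ (pl c x : ℝ) ^ e * (x.2.2.2 + 1) * bnd w φ x.2.2.1 x.1.2 x.2.1 := by
  refine ⟨max 30 ⌈10 / φ⌉₊, fun c hc hct hC => ⟨fun x => f1a_rho_le x hc hC
    ((le_max_left _ _).trans hct), fun c0 => ⟨c0 + 3 * (c.cB + 1) + 2 * c.ct + 1, ?_⟩⟩⟩
  intro mm x hmm y1 y2 y3 y4 y5 y6
  have hct1 : 1 ≤ c.ct := le_trans (by norm_num) ((le_max_left _ _).trans hct)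
  have hφct : 10 ≤ φ * c.ct := by
    have h4 : (⌈10 / φ⌉₊ : ℝ) ≤ c.ct := by exact_mod_cast (le_max_right _ _).trans hct
    have h5 : 10 / φ ≤ c.ct := (Nat.le_ceil _).trans h4
    rw [div_le_iff₀ hφ] at h5
    linarith
  have hk1 : 1 ≤ x.1.2 := y1.trans y2.le
  obtain ⟨b1, b2⟩ := f1a_bb x hc y5 (Nat.mul_le_mul y1 hk1)
  exact f1a_T (κ := x.2.2.1) (k := x.1.2) (N := x.2.1) (q := x.2.2.2) (l := pl c x)
    (K := pK c x) (b := pbb c x) (ρ := rho0 C c x) (M := mm (2 ^ ps c x)) (B := c.cB) (t := c.ct)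
    (P := 2 ^ ps c x) h2 h3 hφ hφ6 (f1a_l x hc) y1 y2 y6 (Nat.one_le_pow _ _ (by norm_num))
    (f1a_K_le x hc) (f1a_rhoR (f1a_l x hc) hct1 hφct (f1a_K_sq x) (f1a_pow_le x hc)
      (f1a_rho x hc hC)) b1 b2 (hmm _) (f1a_ps x hc hk1)

end A55
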