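import Pool.Agent.Lib_helper50.A55.Defs
import Pool.Agent.Lib_helper50.A55.B.D1a
/-!
# MP_a55cb8: block F3, the elimination (helper92)
-/

open Matrix Finset

namespace A55

-- BEGIN COPY (D1)
section formsCopy

variable {m n a b c : Type*} [Fintype m] [Fintype n] [Fintype a] [Fintype b] [Fintype c]
  [DecidableEq m] [DecidableEq n] [DecidableEq a] [DecidableEq b] [DecidableEq c]

end formsCopy
-- END COPY

section F3gen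

variable {m n : Type*} [Fintype m] [Fintype n] [DecidableEq m] [DecidableEq n]

/-- `|x - y|² ≤ 2 |x|² + 2 |y|²` -/
theorem F3_sub_le (x y : n → ℝ) : sq (x - y) ≤ 2 * sq x + 2 * sq y := by
  have h1 := sq_add_le x (-y)
  have h2 : sq (-y) = sq y := by
    unfold sq
    refine Finset.sum_congr rfl fun i _ => ?_
    rw [Pi.neg_apply, neg_sq]
  rw [h2, ← sub_eq_add_neg] at h1
  exact h1

/-- the dot product with a transpose -/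
theorem F3_dot (M : Matrix m n ℝ) (x : n → ℝ) (y : m → ℝ) :
    (M *ᵥ x) ⬝ᵥ y = x ⬝ᵥ (Mᵀ *ᵥ y) := by
  rw [Matrix.mulVec_transpose, dotProduct_comm, Matrix.dotProduct_mulVec, dotProduct_comm]

/-- a symmetric generalized inverse gives `Z H Zᵀ Z = Z` -/
theorem F3_proj {Z : Matrix m n ℝ} {H : Matrix n n ℝ}
    (hg : (Zᵀ * Z) * H * (Zᵀ * Z) = Zᵀ * Z) : Z * (H * Zᵀ) * Z = Z := by
  have h1 : Zᵀ * (Z * (H * Zᵀ) * Z - Z) = 0 := by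
    rw [Matrix.mul_sub, sub_eq_zero]
    calc Zᵀ * (Z * (H * Zᵀ) * Z) = (Zᵀ * Z) * H * (Zᵀ * Z) := by
          simp only [Matrix.mul_assoc]
      _ = Zᵀ * Z := hg
  have h2 : Z * (H * Zᵀ) * Z - Z = Z * (H * (Zᵀ * Z) - 1) := by
    rw [Matrix.mul_sub, Matrix.mul_one]
    simp only [Matrix.mul_assoc]
  rw [← sub_eq_zero]
  ext i j
  have h3 : sq ((Z * (H * Zᵀ) * Z - Z) *ᵥ (Pi.single j 1)) = 0 := by
    rw [sq_eq_dot]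
    nth_rewrite 1 [h2]
    rw [← Matrix.mulVec_mulVec, F3_dot, Matrix.mulVec_mulVec, h1, Matrix.zero_mulVec,
      dotProduct_zero]
  have h5 := (sq_eq_zero_iff _).1 h3
  have h6 := congrFun h5 i
  rw [Matrix.mulVec_single_one] at h6
  exact h6

/-- the norm of `M` -/
theorem F3_norm {M : Matrix m n ℝ} {C : ℝ} (hC : 0 ≤ C)
    (h : ∀ y, sq (Mᵀ *ᵥ y) ≤ C * sq y) (x : n → ℝ) : sq (M *ᵥ x) ≤ C * sq x := by
  have h1 := sq_transpose_le (M := Mᵀ) hC h x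
  rwa [Matrix.transpose_transpose] at h1

/-- the orthogonal projection `Z H Zᵀ` -/
theorem F3_contr {Z : Matrix m n ℝ} {H : Matrix n n ℝ} (hH : Hᵀ = H)
    (hg : (Zᵀ * Z) * H * (Zᵀ * Z) = Zᵀ * Z) (x : m → ℝ) :
    sq ((Z * (H * Zᵀ)) *ᵥ x) ≤ sq x := by
  have h1 : (Z * (H * Zᵀ))ᵀ = Z * (H * Zᵀ) := by
    rw [Matrix.transpose_mul, Matrix.transpose_mul, Matrix.transpose_transpose, hH,
      Matrix.mul_assoc]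
  have h2 : (Z * (H * Zᵀ)) * (Z * (H * Zᵀ)) = Z * (H * Zᵀ) := by
    have h3 := F3_proj hg
    calc (Z * (H * Zᵀ)) * (Z * (H * Zᵀ)) = (Z * (H * Zᵀ) * Z) * (H * Zᵀ) := by
          simp only [Matrix.mul_assoc]
      _ = Z * (H * Zᵀ) := by rw [h3]
  obtain ⟨R, hR⟩ : ∃ R, R = Z * (H * Zᵀ) := ⟨_, rfl⟩
  rw [← hR] at h1 h2 ⊢
  have h4 : sq (R *ᵥ x) = x ⬝ᵥ (R *ᵥ x) := by
    rw [sq_eq_dot, F3_dot, h1, Matrix.mulVec_mulVec, h2]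
  have h5 := dot_sq_le x (R *ᵥ x)
  rw [← h4] at h5
  have h6 := sq_nonneg' (R *ᵥ x)
  rcases h6.eq_or_lt with h7 | h7
  · rw [← h7]
    exact sq_nonneg' x
  · nlinarith

end F3gen

section elim

variable {n k m1 m2 : ℕ} {A E P : Matrix (Fin n) (Fin n) ℝ} {T U : Matrix (Fin n) (Fin m1) ℝ}
  {S : Matrix (Fin m2) (Fin n) ℝ} {Z : Matrix (Fin m2) (Fin m1) ℝ}
  {Hm : Matrix (Fin m1) (Fin m1) ℝ} {V : Submodule ℝ (Fin n → ℝ)} {sg sn ΛT ΛS νT νS : ℝ}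

theorem elim0 (hU : U = A * T) (hP : P = U * (Hm * Zᵀ) * S) (hE : E = A - U * (Hm * Zᵀ) * (S * A))
    (xs b v : Fin n → ℝ) (hb : A *ᵥ xs = b) :
    A *ᵥ (v + T *ᵥ ((Hm * Zᵀ) *ᵥ (S *ᵥ (b - A *ᵥ v))) - xs) = E *ᵥ v - (b - P *ᵥ b) ∧
      b - P *ᵥ b = E *ᵥ xs := by
  have h1 : ∀ w : Fin n → ℝ, E *ᵥ w = A *ᵥ w - P *ᵥ (A *ᵥ w) := by
    intro w
    rw [hE, hP, Matrix.sub_mulVec, Matrix.mulVec_mulVec]
    simp only [Matrix.mul_assoc]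
  have h2 : ∀ w : Fin n → ℝ, A *ᵥ (T *ᵥ ((Hm * Zᵀ) *ᵥ (S *ᵥ w))) = P *ᵥ w := by
    intro w
    rw [hP, hU]
    simp only [Matrix.mulVec_mulVec, Matrix.mul_assoc]
  constructor
  · rw [Matrix.mulVec_sub, Matrix.mulVec_add, h2, hb, h1, Matrix.mulVec_sub]
    abel
  · rw [h1, hb]

/-- `P U = U` -/
theorem F3_PU (hZ : Z = S * U) (hg : (Zᵀ * Z) * Hm * (Zᵀ * Z) = Zᵀ * Z)
    (hS : ∀ y, sq (U *ᵥ y) ≤ ΛS * sq (S *ᵥ (U *ᵥ y))) (y : Fin m1 → ℝ) :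
    U *ᵥ ((Hm * Zᵀ) *ᵥ (S *ᵥ (U *ᵥ y))) = U *ᵥ y := by
  have h1 := F3_proj hg
  have h2 : S *ᵥ (U *ᵥ ((Hm * Zᵀ) *ᵥ (S *ᵥ (U *ᵥ y)) - y)) = 0 := by
    have h3 : S *ᵥ (U *ᵥ ((Hm * Zᵀ) *ᵥ (S *ᵥ (U *ᵥ y)))) = S *ᵥ (U *ᵥ y) := by
      calc S *ᵥ (U *ᵥ ((Hm * Zᵀ) *ᵥ (S *ᵥ (U *ᵥ y)))) = (S * U * (Hm * Zᵀ) * (S * U)) *ᵥ y := by
            simp only [Matrix.mulVec_mulVec, Matrix.mul_assoc]
        _ = S *ᵥ (U *ᵥ y) := by rw [← hZ, h1, hZ, Matrix.mulVec_mulVec]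
    rw [Matrix.mulVec_sub, Matrix.mulVec_sub, h3, sub_self]
  have h4 := hS ((Hm * Zᵀ) *ᵥ (S *ᵥ (U *ᵥ y)) - y)
  rw [h2, (sq_eq_zero_iff _).2 rfl, mul_zero] at h4
  have h5 := (sq_eq_zero_iff _).1 (le_antisymm h4 (sq_nonneg' _))
  rw [Matrix.mulVec_sub, sub_eq_zero] at h5
  exact h5

/-- the dual problem on `V` -/
theorem F3_dual (hΛT : 0 ≤ ΛT) (hT : ∀ v ∈ V, sq v ≤ ΛT * sq (Tᵀ *ᵥ v)) (v : Fin n → ℝ) :
    ∃ y : Fin m1 → ℝ, sq y ≤ ΛT * sq v ∧ ∀ u ∈ V, u ⬝ᵥ (v - T *ᵥ y) = 0 := by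
  let Φ : V →ₗ[ℝ] V →ₗ[ℝ] ℝ := LinearMap.mk₂ ℝ
    (fun u u' : V => (Tᵀ *ᵥ (u : Fin n → ℝ)) ⬝ᵥ (Tᵀ *ᵥ (u' : Fin n → ℝ)))
    (fun u1 u2 u' => by
      simp only [Submodule.coe_add, Matrix.mulVec_add, add_dotProduct])
    (fun r u u' => by
      simp only [Submodule.coe_smul, Matrix.mulVec_smul, smul_dotProduct])
    (fun u u1 u2 => by
      simp only [Submodule.coe_add, Matrix.mulVec_add, dotProduct_add])
    (fun r u u' => by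
      simp only [Submodule.coe_smul, Matrix.mulVec_smul, dotProduct_smul])
  have hΦ : ∀ u u' : V, Φ u u' = (Tᵀ *ᵥ (u : Fin n → ℝ)) ⬝ᵥ (Tᵀ *ᵥ (u' : Fin n → ℝ)) :=
    fun u u' => rfl
  have hinj : Function.Injective Φ := by
    rw [← LinearMap.ker_eq_bot, LinearMap.ker_eq_bot']
    intro u hu
    have h1 : Φ u u = 0 := by rw [hu, LinearMap.zero_apply]
    rw [hΦ, ← sq_eq_dot] at h1
    have h2 := hT u u.2
    rw [h1, mul_zero] at h2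
    have h3 := (sq_eq_zero_iff _).1 (le_antisymm h2 (sq_nonneg' _))
    exact Subtype.ext h3
  have hsurj : Function.Surjective Φ := by
    have h4 : Module.finrank ℝ V = Module.finrank ℝ (V →ₗ[ℝ] ℝ) :=
      (Subspace.dual_finrank_eq (K := ℝ) (V := V)).symm
    exact (LinearMap.injective_iff_surjective_of_finrank_eq_finrank h4).1 hinj
  let φ : V →ₗ[ℝ] ℝ :=
    { toFun := fun u => (u : Fin n → ℝ) ⬝ᵥ v
      map_add' := fun u u' => by simp only [Submodule.coe_add, add_dotProduct]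
      map_smul' := fun r u => by
        simp only [Submodule.coe_smul, smul_dotProduct, RingHom.id_apply] }
  obtain ⟨u0, hu0⟩ := hsurj φ
  have h5 : ∀ u : V, (Tᵀ *ᵥ (u0 : Fin n → ℝ)) ⬝ᵥ (Tᵀ *ᵥ (u : Fin n → ℝ)) =
      (u : Fin n → ℝ) ⬝ᵥ v := by
    intro u
    rw [← hΦ, hu0]
    rfl
  refine ⟨Tᵀ *ᵥ (u0 : Fin n → ℝ), ?_, fun u hu => ?_⟩
  · have h6 : sq (Tᵀ *ᵥ (u0 : Fin n → ℝ)) = (u0 : Fin n → ℝ) ⬝ᵥ v := by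
      rw [sq_eq_dot, h5]
    have h7 := dot_sq_le (u0 : Fin n → ℝ) v
    rw [← h6] at h7
    have h8 := hT _ u0.2
    have h9 := sq_nonneg' (Tᵀ *ᵥ (u0 : Fin n → ℝ))
    have h10 := sq_nonneg' v
    rcases h9.eq_or_lt with h11 | h11
    · rw [← h11]
      exact mul_nonneg hΛT h10
    · have h12 : sq (u0 : Fin n → ℝ) * sq v ≤
          ΛT * sq (Tᵀ *ᵥ (u0 : Fin n → ℝ)) * sq v := mul_le_mul_of_nonneg_right h8 h10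
      nlinarith
  · have h13 := h5 ⟨u, hu⟩
    rw [dotProduct_sub, ← h13]
    have h14 : (Tᵀ *ᵥ u) ⬝ᵥ (Tᵀ *ᵥ (u0 : Fin n → ℝ)) = u ⬝ᵥ (T *ᵥ (Tᵀ *ᵥ (u0 : Fin n → ℝ))) := by
      rw [F3_dot, Matrix.transpose_transpose]
    rw [← h14, dotProduct_comm, sub_self]

theorem elim1 (hU : U = A * T) (hZ : Z = S * U) (hE : E = A - U * (Hm * Zᵀ) * (S * A))
    (hH : Hmᵀ = Hm) (hg : (Zᵀ * Z) * Hm * (Zᵀ * Z) = Zᵀ * Z)
    (hV : ∀ v, (∀ u ∈ V, u ⬝ᵥ v = 0) → sq (A *ᵥ v) ≤ sg * sq v) (hsg : 0 ≤ sg)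
    (hΛT : 0 ≤ ΛT) (hT : ∀ v ∈ V, sq v ≤ ΛT * sq (Tᵀ *ᵥ v)) (hνT : ∀ v, sq (Tᵀ *ᵥ v) ≤ νT * sq v)
    (hΛS : 0 ≤ ΛS) (hS : ∀ y, sq (U *ᵥ y) ≤ ΛS * sq (S *ᵥ (U *ᵥ y)))
    (hνS : ∀ v, sq (S *ᵥ v) ≤ νS * sq v) (v : Fin n → ℝ) :
    sq (E *ᵥ v) ≤ (2 + 2 * ΛS * νS) * (2 + 2 * ΛT * νT) * sg * sq v := by
  obtain ⟨y, hy1, hy2⟩ := F3_dual hΛT hT v
  obtain ⟨w, hw⟩ : ∃ w, w = A *ᵥ (v - T *ᵥ y) := ⟨_, rfl⟩
  have h1 : ∀ w : Fin n → ℝ, E *ᵥ w = A *ᵥ w - U *ᵥ ((Hm * Zᵀ) *ᵥ (S *ᵥ (A *ᵥ w))) := by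
    intro w
    rw [hE, Matrix.sub_mulVec]
    simp only [Matrix.mulVec_mulVec, Matrix.mul_assoc]
  have h2 : A *ᵥ (T *ᵥ y) = U *ᵥ y := by rw [hU, Matrix.mulVec_mulVec]
  have h3 : E *ᵥ (T *ᵥ y) = 0 := by
    rw [h1, h2, F3_PU hZ hg hS, sub_self]
  have h4 : E *ᵥ v = w - U *ᵥ ((Hm * Zᵀ) *ᵥ (S *ᵥ w)) := by
    rw [hw, ← h1, Matrix.mulVec_sub, h3, sub_zero]
  have h5 : sq (U *ᵥ ((Hm * Zᵀ) *ᵥ (S *ᵥ w))) ≤ ΛS * νS * sq w := by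
    have h6 := hS ((Hm * Zᵀ) *ᵥ (S *ᵥ w))
    have h7 : S *ᵥ (U *ᵥ ((Hm * Zᵀ) *ᵥ (S *ᵥ w))) = (Z * (Hm * Zᵀ)) *ᵥ (S *ᵥ w) := by
      rw [hZ]
      simp only [Matrix.mulVec_mulVec, Matrix.mul_assoc]
    rw [h7] at h6
    have h8 := F3_contr hH hg (S *ᵥ w)
    have h9 := hνS w
    calc sq (U *ᵥ ((Hm * Zᵀ) *ᵥ (S *ᵥ w))) ≤ ΛS * sq ((Z * (Hm * Zᵀ)) *ᵥ (S *ᵥ w)) := h6
      _ ≤ ΛS * (νS * sq w) := mul_le_mul_of_nonneg_left (h8.trans h9) hΛS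
      _ = ΛS * νS * sq w := by ring
  have h6 : sq (E *ᵥ v) ≤ (2 + 2 * ΛS * νS) * sq w := by
    rw [h4]
    have := F3_sub_le w (U *ᵥ ((Hm * Zᵀ) *ᵥ (S *ᵥ w)))
    linarith
  have h7 : sq w ≤ sg * sq (v - T *ᵥ y) := by
    rw [hw]
    exact hV _ hy2
  have hv0 := sq_nonneg' v
  have hy0 := sq_nonneg' y
  by_cases hz : sq v = 0
  · have h8 : v = 0 := (sq_eq_zero_iff _).1 hz
    rw [h8, Matrix.mulVec_zero, (sq_eq_zero_iff (0 : Fin n → ℝ)).2 rfl, mul_zero]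
  have hvp : 0 < sq v := lt_of_le_of_ne hv0 (Ne.symm hz)
  have hνT0 : 0 ≤ νT := by
    have h8 := hνT v
    have h9 := sq_nonneg' (Tᵀ *ᵥ v)
    by_contra hcon
    rw [not_le] at hcon
    nlinarith
  have hνS0 : 0 ≤ νS := by
    have h8 := hνS v
    have h9 := sq_nonneg' (S *ᵥ v)
    by_contra hcon
    rw [not_le] at hcon
    nlinarith
  have h8 : sq (T *ᵥ y) ≤ νT * sq y := F3_norm hνT0 hνT y
  have h9 : sq (v - T *ᵥ y) ≤ (2 + 2 * ΛT * νT) * sq v := by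
    have h10 := F3_sub_le v (T *ᵥ y)
    have h11 : νT * sq y ≤ νT * (ΛT * sq v) := mul_le_mul_of_nonneg_left hy1 hνT0
    nlinarith
  have h10 : sq w ≤ sg * ((2 + 2 * ΛT * νT) * sq v) := h7.trans (mul_le_mul_of_nonneg_left h9 hsg)
  have h11 : 0 ≤ 2 + 2 * ΛS * νS := by
    have := mul_nonneg hΛS hνS0
    linarith
  calc sq (E *ᵥ v) ≤ (2 + 2 * ΛS * νS) * sq w := h6
    _ ≤ (2 + 2 * ΛS * νS) * (sg * ((2 + 2 * ΛT * νT) * sq v)) :=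
        mul_le_mul_of_nonneg_left h10 h11
    _ = (2 + 2 * ΛS * νS) * (2 + 2 * ΛT * νT) * sg * sq v := by ring

theorem elim2 (hU : U = A * T) (hZ : Z = S * U) (hE : E = A - U * (Hm * Zᵀ) * (S * A))
    (hH : Hmᵀ = Hm) (hg : (Zᵀ * Z) * Hm * (Zᵀ * Z) = Zᵀ * Z)
    (hS : ∀ y, sq (U *ᵥ y) ≤ ΛS * sq (S *ᵥ (U *ᵥ y))) (hsn : 0 ≤ sn)
    (hA : ∀ v, sn * sq v ≤ sq (A *ᵥ v)) (v : Fin n → ℝ)
    (hv : ∀ z, E *ᵥ z = 0 → z ⬝ᵥ v = 0) : sn * sq v ≤ sq (E *ᵥ v) := by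
  set y := (Hm * Zᵀ) *ᵥ (S *ᵥ (A *ᵥ v)) with hy
  have h1 : ∀ w : Fin n → ℝ, E *ᵥ w = A *ᵥ w - U *ᵥ ((Hm * Zᵀ) *ᵥ (S *ᵥ (A *ᵥ w))) := by
    intro w
    rw [hE, Matrix.sub_mulVec]
    simp only [Matrix.mulVec_mulVec, Matrix.mul_assoc]
  have h2 : A *ᵥ (T *ᵥ y) = U *ᵥ y := by rw [hU, Matrix.mulVec_mulVec]
  have h3 : E *ᵥ (T *ᵥ y) = 0 := by
    rw [h1, h2, F3_PU hZ hg hS, sub_self]
  have h4 : E *ᵥ v = A *ᵥ (v - T *ᵥ y) := by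
    rw [h1, Matrix.mulVec_sub, h2]
  have h5 := hv _ h3
  have h6 : sq v ≤ sq (v - T *ᵥ y) := by
    have h7 : sq (v - T *ᵥ y) = sq v + sq (T *ᵥ y) := by
      rw [sq_eq_dot, sq_eq_dot, sq_eq_dot, sub_dotProduct, dotProduct_sub, dotProduct_sub,
        dotProduct_comm v (T *ᵥ y), h5]
      ring
    have := sq_nonneg' (T *ᵥ y)
    linarith
  rw [h4]
  exact (mul_le_mul_of_nonneg_left h6 hsn).trans (hA _)

theorem elim3 (hE : E = A - U * (Hm * Zᵀ) * (S * A))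
    (hV : ∀ v, (∀ u ∈ V, u ⬝ᵥ v = 0) → sq (A *ᵥ v) ≤ sg * sq v)
    (hk : Module.finrank ℝ V ≤ k) : Head E (k + m1) sg := by
  obtain ⟨R, hR⟩ : ∃ R : Matrix (Fin m1) (Fin n) ℝ, R = (Hm * Zᵀ) * (S * A) := ⟨_, rfl⟩
  refine ⟨V ⊔ LinearMap.range Rᵀ.mulVecLin, ?_, fun x hx => ?_⟩
  · have h1 := Submodule.finrank_add_le_finrank_add_finrank V (LinearMap.range Rᵀ.mulVecLin)
    have h2 : Module.finrank ℝ (LinearMap.range Rᵀ.mulVecLin) ≤ m1 := by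
      have h3 := LinearMap.finrank_range_le Rᵀ.mulVecLin
      rwa [Module.finrank_fin_fun] at h3
    omega
  · have h1 : R *ᵥ x = 0 := by
      have h2 := hx (Rᵀ *ᵥ (R *ᵥ x))
        (Submodule.mem_sup_right (LinearMap.mem_range.2 ⟨R *ᵥ x, rfl⟩))
      rw [F3_dot, Matrix.transpose_transpose, ← sq_eq_dot] at h2
      exact (sq_eq_zero_iff _).1 h2
    have h2 : E *ᵥ x = A *ᵥ x := by
      have h3 : E = A - U * R := by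
        rw [hE, hR]
        simp only [Matrix.mul_assoc]
      rw [h3, Matrix.sub_mulVec, ← Matrix.mulVec_mulVec, h1, Matrix.mulVec_zero, sub_zero]
    rw [h2]
    exact hV x fun u hu => hx u (Submodule.mem_sup_left hu)

end elim

end A55
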