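import Pool.Agent.Lib_helper50.A55.FDefs
/-!
# MP_a55cb8: block F4, optimality of conjugate gradients (helper83)
-/

open Matrix Finset

namespace A55

theorem F4_sq {n : ℕ} (x : Fin n → ℝ) : sq x = x ⬝ᵥ x := by
  unfold sq dotProduct
  exact Finset.sum_congr rfl fun i _ => pow_two _

theorem F4_sq0 {n : ℕ} {x : Fin n → ℝ} : sq x = 0 ↔ x = 0 := by
  rw [F4_sq]
  exact dotProduct_self_eq_zero

theorem F4_sqz {n : ℕ} : sq (0 : Fin n → ℝ) = 0 := F4_sq0.2 rfl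

/-- abstract conjugate gradient sequences -/
structure F4_CG {n : ℕ} (A : Matrix (Fin n) (Fin n) ℝ) (xs : Fin n → ℝ)
    (x r p : ℕ → Fin n → ℝ) : Prop where
  x0 : x 0 = 0
  r0 : r 0 = A *ᵥ xs
  p0 : p 0 = Aᵀ *ᵥ (A *ᵥ xs)
  xS : ∀ m, x (m + 1) = x m + (sq (r m) / sq (p m)) • p m
  rS : ∀ m, r (m + 1) = r m - (sq (r m) / sq (p m)) • (A *ᵥ p m)
  pS : ∀ m, p (m + 1) = Aᵀ *ᵥ r (m + 1) + (sq (r (m + 1)) / sq (r m)) • p m

variable {n : ℕ} {A : Matrix (Fin n) (Fin n) ℝ} {xs : Fin n → ℝ} {x r p : ℕ → Fin n → ℝ}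

theorem F4_CG.res (h : F4_CG A xs x r p) : ∀ m, r m = A *ᵥ (xs - x m) := by
  intro m
  induction m with
  | zero => rw [h.r0, h.x0, sub_zero]
  | succ m ih =>
    rw [h.rS, h.xS, ih, ← sub_sub, mulVec_sub A (xs - x m), mulVec_smul]

theorem F4_CG.stop (h : F4_CG A xs x r p) {m : ℕ} (hm : r m = 0) : r (m + 1) = 0 := by
  rw [h.rS, hm, F4_sqz, zero_div, zero_smul, sub_zero]

theorem F4_CG.ne (h : F4_CG A xs x r p) {m : ℕ} (hm : r m ≠ 0) : ∀ i ≤ m, r i ≠ 0 := by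
  intro i hi h0
  apply hm
  induction m, hi using Nat.le_induction with
  | base => exact h0
  | succ m _ ih =>
    by_contra h1
    exact h1 (h.stop (by
      by_contra h2
      exact h2 (ih h2)))

theorem F4_adj (A : Matrix (Fin n) (Fin n) ℝ) (u v : Fin n → ℝ) :
    (Aᵀ *ᵥ u) ⬝ᵥ v = u ⬝ᵥ (A *ᵥ v) := by
  rw [dotProduct_mulVec, ← mulVec_transpose]

/-- `p_m ⬝ e_m = |r_m|²` -/
theorem F4_CG.pe (h : F4_CG A xs x r p) {m : ℕ} (h2 : ∀ i < m, p i ⬝ᵥ (xs - x m) = 0) :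
    p m ⬝ᵥ (xs - x m) = sq (r m) := by
  cases m with
  | zero => rw [h.p0, F4_adj, ← h.r0, h.res 0, F4_sq]
  | succ m =>
    rw [h.pS, add_dotProduct, smul_dotProduct, h2 m (Nat.lt_succ_self m), smul_zero, add_zero,
      F4_adj, ← h.res (m + 1), F4_sq]

theorem F4_CG.pne (h : F4_CG A xs x r p) {m : ℕ} (h2 : ∀ i < m, p i ⬝ᵥ (xs - x m) = 0)
    (hr : r m ≠ 0) : p m ≠ 0 := by
  intro h0
  have h1 := h.pe h2
  rw [h0, zero_dotProduct] at h1
  exact hr (F4_sq0.1 h1.symm)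

/-- `Aᵀ r_i` is orthogonal to everything orthogonal to the directions up to `i` -/
theorem F4_CG.Ar (h : F4_CG A xs x r p) {m : ℕ} {e : Fin n → ℝ} (he : ∀ i < m, p i ⬝ᵥ e = 0)
    {i : ℕ} (hi : i < m) : (Aᵀ *ᵥ r i) ⬝ᵥ e = 0 := by
  cases i with
  | zero => rw [h.r0, ← h.p0]; exact he 0 hi
  | succ i =>
    have h1 : Aᵀ *ᵥ r (i + 1) = p (i + 1) - (sq (r (i + 1)) / sq (r i)) • p i := by
      rw [h.pS]; abel
    rw [h1, sub_dotProduct, smul_dotProduct, he _ hi, he _ (by omega), smul_zero, sub_zero]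

/-- the orthogonality relations -/
theorem F4_CG.orth (h : F4_CG A xs x r p) : ∀ m, (∀ i ≤ m, r i ≠ 0) →
    (∀ i < m, p i ⬝ᵥ (xs - x m) = 0) ∧ (∀ i < m, p i ⬝ᵥ p m = 0) ∧ ∀ i ≤ m, p i ≠ 0 := by
  intro m
  induction m with
  | zero =>
    intro hr
    have h0 : ∀ i < 0, p i ⬝ᵥ (xs - x 0) = 0 := fun i hi => absurd hi (Nat.not_lt_zero i)
    refine ⟨h0, fun i hi => absurd hi (Nat.not_lt_zero i), fun i hi => ?_⟩
    obtain rfl : i = 0 := by omega
    exact h.pne h0 (hr 0 le_rfl)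
  | succ m ih =>
    intro hr
    obtain ⟨h2, h3, h5⟩ := ih fun i hi => hr i (by omega)
    have hrm : sq (r m) ≠ 0 := fun h0 => hr m (by omega) (F4_sq0.1 h0)
    have hpm : sq (p m) ≠ 0 := fun h0 => h5 m le_rfl (F4_sq0.1 h0)
    have h2' : ∀ i < m + 1, p i ⬝ᵥ (xs - x (m + 1)) = 0 := by
      intro i hi
      rw [h.xS, ← sub_sub, dotProduct_sub, dotProduct_smul]
      rcases Nat.lt_succ_iff_lt_or_eq.1 hi with h4 | h4
      · rw [h2 i h4, h3 i h4, smul_zero, sub_zero]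
      · rw [h4, h.pe h2, ← F4_sq, smul_eq_mul, div_mul_cancel₀ _ hpm, sub_self]
    -- residuals are orthogonal
    have h6 : ∀ i < m + 1, r i ⬝ᵥ r (m + 1) = 0 := by
      intro i hi
      rw [h.res (m + 1), ← F4_adj]
      exact h.Ar h2' hi
    refine ⟨h2', ?_, ?_⟩
    · intro i hi
      have hi5 : sq (p i) ≠ 0 := fun h0 => h5 i (by omega) (F4_sq0.1 h0)
      have hi4 : sq (r i) ≠ 0 := fun h0 => hr i (by omega) (F4_sq0.1 h0)
      have h7 : (sq (r i) / sq (p i)) * ((A *ᵥ p i) ⬝ᵥ r (m + 1)) =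
          r i ⬝ᵥ r (m + 1) - r (i + 1) ⬝ᵥ r (m + 1) := by
        rw [← smul_eq_mul, ← smul_dotProduct, ← sub_dotProduct]
        congr 1
        rw [h.rS i]; abel
      have h8 : p i ⬝ᵥ (Aᵀ *ᵥ r (m + 1)) = (A *ᵥ p i) ⬝ᵥ r (m + 1) := by
        rw [dotProduct_comm, F4_adj, dotProduct_comm]
      rw [h.pS, dotProduct_add, dotProduct_smul, h8]
      rw [h6 i hi, zero_sub] at h7
      have h9 : (A *ᵥ p i) ⬝ᵥ r (m + 1) = -(sq (p i) / sq (r i)) * (r (i + 1) ⬝ᵥ r (m + 1)) := by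
        field_simp at h7 ⊢
        linarith
      rw [h9]
      rcases Nat.lt_succ_iff_lt_or_eq.1 hi with h4 | h4
      · rw [h3 i h4, h6 (i + 1) (by omega), mul_zero, smul_zero, add_zero]
      · subst h4
        rw [← F4_sq, ← F4_sq, smul_eq_mul]
        field_simp
        ring
    · intro i hi
      rcases Nat.lt_or_ge i (m + 1) with h4 | h4
      · exact h5 i (by omega)
      · obtain rfl : i = m + 1 := by omega
        exact h.pne h2' (hr _ le_rfl)

/-- the span of the directions -/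
def F4_S (p : ℕ → Fin n → ℝ) (m : ℕ) : Submodule ℝ (Fin n → ℝ) :=
  Submodule.span ℝ {v | ∃ i < m, p i = v}

theorem F4_memS {p : ℕ → Fin n → ℝ} {i m : ℕ} (hi : i < m) : p i ∈ F4_S p m :=
  Submodule.subset_span ⟨i, hi, rfl⟩

theorem F4_monoS {p : ℕ → Fin n → ℝ} {m m' : ℕ} (hm : m ≤ m') : F4_S p m ≤ F4_S p m' :=
  Submodule.span_mono fun _ ⟨i, hi, h⟩ => ⟨i, lt_of_lt_of_le hi hm, h⟩

theorem F4_orthS {p : ℕ → Fin n → ℝ} {m : ℕ} {e v : Fin n → ℝ} (he : ∀ i < m, p i ⬝ᵥ e = 0)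
    (hv : v ∈ F4_S p m) : v ⬝ᵥ e = 0 := by
  induction hv using Submodule.span_induction with
  | mem v hv => obtain ⟨i, hi, rfl⟩ := hv; exact he i hi
  | zero => exact zero_dotProduct _
  | add u v _ _ hu hv => rw [add_dotProduct, hu, hv, add_zero]
  | smul a v _ hv => rw [smul_dotProduct, hv, smul_zero]

theorem F4_CG.xmem (h : F4_CG A xs x r p) : ∀ m, x m ∈ F4_S p m := by
  intro m
  induction m with
  | zero => rw [h.x0]; exact Submodule.zero_mem _
  | succ m ih =>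
    rw [h.xS]
    exact Submodule.add_mem _ (F4_monoS (Nat.le_succ m) ih)
      (Submodule.smul_mem _ _ (F4_memS (Nat.lt_succ_self m)))

theorem F4_CG.Armem (h : F4_CG A xs x r p) {i m : ℕ} (hi : i < m) :
    Aᵀ *ᵥ r i ∈ F4_S p m := by
  cases i with
  | zero => rw [h.r0, ← h.p0]; exact F4_memS hi
  | succ i =>
    have h1 : Aᵀ *ᵥ r (i + 1) = p (i + 1) - (sq (r (i + 1)) / sq (r i)) • p i := by
      rw [h.pS]; abel
    rw [h1]
    exact Submodule.sub_mem _ (F4_memS hi) (Submodule.smul_mem _ _ (F4_memS (by omega)))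

/-- `AᵀA` maps `S_m` into `S_(m+1)` before the break down -/
theorem F4_CG.mapS (h : F4_CG A xs x r p) {m : ℕ} (hr : ∀ i < m, r i ≠ 0)
    (hp : ∀ i < m, p i ≠ 0) {v : Fin n → ℝ} (hv : v ∈ F4_S p m) :
    (Aᵀ * A) *ᵥ v ∈ F4_S p (m + 1) := by
  induction hv using Submodule.span_induction with
  | mem v hv =>
    obtain ⟨i, hi, rfl⟩ := hv
    have h1 : sq (r i) ≠ 0 := fun h0 => hr i hi (F4_sq0.1 h0)
    have h2 : sq (p i) ≠ 0 := fun h0 => hp i hi (F4_sq0.1 h0)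
    have h3 : (Aᵀ * A) *ᵥ p i = (sq (p i) / sq (r i)) • (Aᵀ *ᵥ r i - Aᵀ *ᵥ r (i + 1)) := by
      rw [← mulVec_mulVec, ← mulVec_sub, h.rS, sub_sub_cancel, mulVec_smul, smul_smul]
      have h4 : sq (p i) / sq (r i) * (sq (r i) / sq (p i)) = 1 := by field_simp
      rw [h4, one_smul]
    rw [h3]
    exact Submodule.smul_mem _ _ (Submodule.sub_mem _ (h.Armem (by omega)) (h.Armem (by omega)))
  | zero => rw [mulVec_zero]; exact Submodule.zero_mem _
  | add u v _ _ hu hv => rw [mulVec_add]; exact Submodule.add_mem _ hu hv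
  | smul a v _ hv => rw [mulVec_smul]; exact Submodule.smul_mem _ _ hv

theorem F4_CG.pow (h : F4_CG A xs x r p) {m : ℕ} (hr : ∀ i < m, r i ≠ 0)
    (hp : ∀ i < m, p i ≠ 0) : ∀ j < m, ((Aᵀ * A) ^ (j + 1)) *ᵥ xs ∈ F4_S p (j + 1) := by
  intro j
  induction j with
  | zero =>
    intro hj
    rw [zero_add, pow_one, ← mulVec_mulVec, ← h.p0]
    exact F4_memS Nat.zero_lt_one
  | succ j ih =>
    intro hj
    rw [pow_succ' _ (j + 1), ← mulVec_mulVec]
    exact h.mapS (fun i hi => hr i (by omega)) (fun i hi => hp i (by omega)) (ih (by omega))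

/-- the Krylov part of a polynomial -/
theorem F4_CG.poly (h : F4_CG A xs x r p) {m : ℕ} (hr : ∀ i < m, r i ≠ 0)
    (hp : ∀ i < m, p i ≠ 0) (g : Polynomial ℝ) (hg : g = 0 ∨ g.natDegree < m) :
    (Polynomial.aeval (Aᵀ * A) (g * Polynomial.X)) *ᵥ xs ∈ F4_S p m := by
  rcases hg with hg | hg
  · rw [hg, zero_mul, map_zero, zero_mulVec]; exact Submodule.zero_mem _
  · rw [map_mul, Polynomial.aeval_X, Polynomial.aeval_eq_sum_range' hg, Finset.sum_mul,
      Matrix.sum_mulVec]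
    refine Submodule.sum_mem _ fun i hi => ?_
    rw [smul_mul_assoc, smul_mulVec, ← pow_succ]
    exact Submodule.smul_mem _ _
      (F4_monoS (by have := Finset.mem_range.1 hi; omega)
        (h.pow hr hp i (Finset.mem_range.1 hi)))

theorem F4_main (h : F4_CG A xs x r p) (hA : IsUnit A.det) (m : ℕ) (q : Polynomial ℝ)
    (hq : q.natDegree ≤ m) (h0 : q.eval 0 = 1) :
    sq (x m - xs) ≤ sq (Polynomial.aeval (Aᵀ * A) q *ᵥ xs) := by
  by_cases hr : r m = 0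
  · have h1 : A *ᵥ (xs - x m) = A *ᵥ 0 := by rw [← h.res m, hr, mulVec_zero]
    have h2 : xs - x m = 0 := Matrix.mulVec_injective_of_isUnit
      ((Matrix.isUnit_iff_isUnit_det A).2 hA) h1
    have h3 : x m - xs = 0 := by rw [← neg_sub, h2, neg_zero]
    rw [h3, F4_sqz]
    unfold sq
    positivity
  · have hr' := h.ne hr
    obtain ⟨h2, -, h5⟩ := h.orth m hr'
    have h6 : q = Polynomial.divX q * Polynomial.X + Polynomial.C 1 := by
      have h7 : q.coeff 0 = 1 := by rw [Polynomial.coeff_zero_eq_eval_zero, h0]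
      rw [← h7, Polynomial.divX_mul_X_add]
    have h8 : Polynomial.divX q = 0 ∨ (Polynomial.divX q).natDegree < m := by
      by_cases h9 : q.natDegree = 0
      · left
        rw [Polynomial.divX_eq_zero_iff]
        exact Polynomial.eq_C_of_natDegree_eq_zero h9
      · right
        rw [Polynomial.natDegree_divX_eq_natDegree_tsub_one]
        omega
    have h10 := h.poly (fun i hi => hr' i (by omega)) (fun i hi => h5 i (by omega)) _ h8
    set w := (Polynomial.aeval (Aᵀ * A) (Polynomial.divX q * Polynomial.X)) *ᵥ xs with hw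
    have h11 : Polynomial.aeval (Aᵀ * A) q *ᵥ xs = (xs - x m) + (w + x m) := by
      conv_lhs => rw [h6]
      rw [map_add, add_mulVec, ← hw, Polynomial.aeval_C, map_one, one_mulVec]
      abel
    have h12 : w + x m ∈ F4_S p m := Submodule.add_mem _ h10 (h.xmem m)
    have h13 : (w + x m) ⬝ᵥ (xs - x m) = 0 := F4_orthS h2 h12
    have h14 : sq (x m - xs) = sq (xs - x m) := by
      rw [F4_sq, F4_sq, ← neg_sub xs (x m), neg_dotProduct_neg]
    rw [h11, h14]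
    obtain ⟨u, hu⟩ : ∃ u, u = w + x m := ⟨_, rfl⟩
    rw [← hu] at h13 ⊢
    rw [F4_sq, F4_sq, add_dotProduct, dotProduct_add, dotProduct_add, h13,
      dotProduct_comm (xs - x m) u, h13]
    have h15 : 0 ≤ u ⬝ᵥ u := by
      rw [← F4_sq]; unfold sq; positivity
    linarith

theorem cg_opt {n : ℕ} (A : Matrix (Fin n) (Fin n) ℝ) (hA : IsUnit A.det) (xs : Fin n → ℝ)
    (m : ℕ) (p : Polynomial ℝ) (hp : p.natDegree ≤ m) (h0 : p.eval 0 = 1) :
    sq ((cgS A (A *ᵥ xs) m).1 - xs) ≤ sq (Polynomial.aeval (Aᵀ * A) p *ᵥ xs) := by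
  refine F4_main (A := A) (xs := xs) (x := fun m => (cgS A (A *ᵥ xs) m).1)
    (r := fun m => (cgS A (A *ᵥ xs) m).2.1) (p := fun m => (cgS A (A *ᵥ xs) m).2.2)
    ⟨rfl, rfl, rfl, fun m => rfl, fun m => rfl, fun m => rfl⟩ hA m p hp h0

end A55
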