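import Pool.Agent.Lib_helper50.A55.Prog
/-! Block P1 (project A55): linear combinations, dot products, sparse and dense products. -/

open Matrix Finset

namespace A55

theorem lin_prog : ∃ F : (Ty.prod .nat (.prod (.prod .real VecT) (.prod .real VecT))).den → VecT.den,
    OC _ VecT (fun _ => True) F (fun x => x.1) ∧
    ∀ n r x r' y, toV n (F (n, ((r, x), (r', y)))) = r • toV n x + r' • toV n y := by
  refine ⟨fun p => tabV .real p.1 (fun i => p.2.1.1 * p.2.1.2 i + p.2.2.1 * p.2.2.2 i), ?_, ?_⟩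
  · refine OC.tab0 (OC.fst OC.id) ?_ 1 (fun x _ => by omega)
    refine OC.add (OC.mul (OC.fst (OC.fst (OC.snd (OC.fst OC.id)))) ?_)
      (OC.mul (OC.fst (OC.snd (OC.snd (OC.fst OC.id)))) ?_)
    · exact OC.get (OC.snd (OC.fst (OC.snd (OC.fst OC.id)))) (OC.snd OC.id)
    · exact OC.get (OC.snd (OC.snd (OC.snd (OC.fst OC.id)))) (OC.snd OC.id)
  · intro n r x r' y
    funext i
    simp only [toV, tabV, i.2, if_true, Pi.add_apply, Pi.smul_apply, smul_eq_mul]

theorem dot_prog : ∃ F : (Ty.prod .nat (.prod VecT VecT)).den → ℝ,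
    OC _ .real (fun _ => True) F (fun x => x.1) ∧
    ∀ n x y, F (n, (x, y)) = toV n x ⬝ᵥ toV n y := by
  refine ⟨fun p => ∑ i ∈ range p.1, p.2.1 i * p.2.2 i, ?_, ?_⟩
  · refine OC.sum (w' := fun _ => 0) (OC.fst OC.id) ?_ 1 (fun x _ => by simp)
    refine OC.mul ?_ ?_
    · exact OC.get (OC.fst (OC.snd (OC.fst OC.id))) (OC.snd OC.id)
    · exact OC.get (OC.snd (OC.snd (OC.fst OC.id))) (OC.snd OC.id)
  · intro n x y
    simp only [dotProduct, toV]
    rw [Finset.sum_range]

/-- value of the accumulation loop -/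
theorem P1_iter (row col : ℕ → ℕ) (val v : ℕ → ℝ) (A : ℕ → ℝ) (m i : ℕ) :
    iterV (fun e acc => Function.update acc (row e) (acc (row e) + val e * v (col e))) A m i =
      A i + ∑ e ∈ range m, if row e = i then val e * v (col e) else 0 := by
  induction m with
  | zero => simp
  | succ m ih =>
    rw [iterV_succ, sum_range_succ]
    by_cases h : row m = i
    · subst h
      rw [Function.update_self, ih, if_pos rfl, add_assoc]
    · rw [Function.update_of_ne (Ne.symm h), ih, if_neg h, add_zero]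

/-- product of a sparse list (with `a` rows) with a vector -/
theorem mvCoo_prog : ∃ F : (Ty.prod .nat (.prod CooT VecT)).den → VecT.den,
    OC _ VecT (fun _ => True) F (fun x => x.1 + x.2.1.1) ∧
    ∀ a c x v, CooOK a c x → toV a (F (a, (x, v))) = toM a c (cooA x) *ᵥ toV c v := by
  refine ⟨fun p => iterV (fun e acc => Function.update acc (p.2.1.2.1 e)
      (acc (p.2.1.2.1 e) + p.2.1.2.2.2 e * p.2.2 (p.2.1.2.2.1 e)))
      (tabV .real p.1 (fun _ => (0 : ℝ))) p.2.1.1, ?_, ?_⟩
  · refine OC.iter0 (s := .prod .nat (.prod CooT VecT)) (t := VecT)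
      (N := fun p => p.2.1.1) (A := fun p => tabV .real p.1 (fun _ => (0 : ℝ)))
      (B := fun p e acc => Function.update acc (p.2.1.2.1 e)
      (acc (p.2.1.2.1 e) + p.2.1.2.2.2 e * p.2.2 (p.2.1.2.2.1 e)))
      (OC.fst (OC.fst (OC.snd OC.id))) ?_ ?_ 1 (fun x _ => by omega)
    · exact OC.tab0 (OC.fst OC.id) OC.r0 1 (fun x _ => by omega)
    · have hx : OC (.prod (.prod .nat (.prod CooT VecT)) (.prod .nat VecT)) CooT
          (fun p => True) (fun p => p.1.2.1) (fun _ => 0) :=
        OC.fst (OC.snd (OC.fst OC.id))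
      have he : OC (.prod (.prod .nat (.prod CooT VecT)) (.prod .nat VecT)) .nat
          (fun p => True) (fun p => p.2.1) (fun _ => 0) := OC.fst (OC.snd OC.id)
      have hacc : OC (.prod (.prod .nat (.prod CooT VecT)) (.prod .nat VecT)) VecT
          (fun p => True) (fun p => p.2.2) (fun _ => 0) := OC.snd (OC.snd OC.id)
      have hr : OC (.prod (.prod .nat (.prod CooT VecT)) (.prod .nat VecT)) .nat
          (fun p => True) (fun p => p.1.2.1.2.1 p.2.1) (fun _ => 0) :=
        OC.get (OC.fst (OC.snd hx)) he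
      have hc : OC (.prod (.prod .nat (.prod CooT VecT)) (.prod .nat VecT)) .nat
          (fun p => True) (fun p => p.1.2.1.2.2.1 p.2.1) (fun _ => 0) :=
        OC.get (OC.fst (OC.snd (OC.snd hx))) he
      have hv : OC (.prod (.prod .nat (.prod CooT VecT)) (.prod .nat VecT)) .real
          (fun p => True) (fun p => p.1.2.1.2.2.2 p.2.1) (fun _ => 0) :=
        OC.get (OC.snd (OC.snd (OC.snd hx))) he
      have hvv : OC (.prod (.prod .nat (.prod CooT VecT)) (.prod .nat VecT)) .real
          (fun p => True) (fun p => p.1.2.2 (p.1.2.1.2.2.1 p.2.1)) (fun _ => 0) :=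
        OC.get (OC.snd (OC.snd (OC.fst OC.id))) hc
      exact OC.upd hacc hr (OC.add (OC.get hacc hr) (OC.mul hv hvv))
  · intro a c x v hx
    funext i
    simp only [toV]
    rw [P1_iter]
    have h0 : tabV .real a (fun _ => (0 : ℝ)) (i : ℕ) = (0 : ℝ) := by
      rw [tabV_lt i.2]
    rw [h0, zero_add]
    simp only [mulVec, dotProduct, toM, cooA, toV]
    simp only [Finset.sum_mul]
    rw [Finset.sum_comm]
    refine Finset.sum_congr rfl fun e he => ?_
    have hc := (hx e (mem_range.1 he)).2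
    by_cases h : x.2.1 e = (i : ℕ)
    · rw [if_pos h, Finset.sum_eq_single (⟨x.2.2.1 e, hc⟩ : Fin c)]
      · rw [if_pos ⟨h, rfl⟩]
      · intro j _ hj
        rw [if_neg, zero_mul]
        rintro ⟨_, h2⟩
        exact hj (Fin.ext h2.symm)
      · intro h2
        exact absurd (Finset.mem_univ _) h2
    · rw [if_neg h]
      symm
      refine Finset.sum_eq_zero fun j _ => ?_
      rw [if_neg fun h2 => h h2.1, zero_mul]

theorem P1_cost (a c : ℕ) : ∑ _j ∈ range a, (c + 1) ≤ 1 * ((a + 1) * (c + 1) + 1) := by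
  rw [sum_const, card_range, smul_eq_mul]
  nlinarith

theorem mvDense_prog : ∃ F : (Ty.prod (.prod .nat .nat) (.prod MatT VecT)).den → VecT.den,
    OC _ VecT (fun _ => True) F (fun x => (x.1.1 + 1) * (x.1.2 + 1)) ∧
    ∀ a c X v, toV a (F ((a, c), (X, v))) = toM a c X *ᵥ toV c v := by
  refine ⟨fun p => tabV .real p.1.1 (fun i => ∑ j ∈ range p.1.2, p.2.1 i j * p.2.2 j), ?_, ?_⟩
  · refine OC.tab (w' := fun q => q.1.1.2) (OC.fst (OC.fst OC.id)) ?_ 1 (fun x _ => ?_)
    · refine OC.sum (w' := fun _ => 0) (OC.snd (OC.fst (OC.fst OC.id))) ?_ 1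
        (fun x _ => by simp)
      refine OC.mul ?_ ?_
      · exact OC.get (OC.get (OC.fst (OC.snd (OC.fst (OC.fst OC.id)))) (OC.snd (OC.fst OC.id)))
          (OC.snd OC.id)
      · exact OC.get (OC.snd (OC.snd (OC.fst (OC.fst OC.id)))) (OC.snd OC.id)
    · exact P1_cost x.1.1 x.1.2
  · intro a c X v
    funext i
    simp only [toV, tabV, i.2, if_true, mulVec, dotProduct, toM]
    rw [Finset.sum_range]

end A55
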