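import Pool.Agent.Lib_helper50.A55.B.P11
import Pool.Agent.Lib_helper50.A55.Alg
/-!
# MP_a55cb8: block P14 (helper85): products of operators with `k` columns
-/

open Matrix Finset

namespace A55

/-! ## numbering of the heavy indices -/

/-- `(n, (g, f))`: the flag of `i` is `g + f i` -/
abbrev P14_TN : Ty := .prod .nat (.prod .nat NArr)
abbrev P14_TS : Ty := .prod .nat (.prod NArr NArr)

/-- one step of the numbering -/
def P14_nstep (x : P14_TN.den) (i : ℕ) (st : P14_TS.den) : P14_TS.den :=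
  if 0 < x.2.1 + x.2.2 i then
    (st.1 + 1, (Function.update st.2.1 i st.1, Function.update st.2.2 st.1 i))
  else st

/-- the numbering: number of heavy indices, positions, inverse -/
def P14_num (x : P14_TN.den) : P14_TS.den :=
  iterV (P14_nstep x) ((0 : ℕ), ((Ty.arr .nat).default, (Ty.arr .nat).default)) x.1

theorem P14_ocnum : OC P14_TN P14_TS (fun _ => True) P14_num (fun x => x.1) := by
  refine OC.iter0 (s := P14_TN) (t := P14_TS) (N := fun x => x.1)
    (A := fun _ => ((0 : ℕ), ((Ty.arr .nat).default, (Ty.arr .nat).default)))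
    (B := P14_nstep) (OC.fst OC.id) (OC.pair (OC.nlit 0) (OC.pair (OC.dflt _) (OC.dflt _))) ?_ 1
    (fun x _ => by omega)
  have hst : ∀ V : (Ty.prod P14_TN (.prod .nat P14_TS)).den → Prop,
      OC (.prod P14_TN (.prod .nat P14_TS)) P14_TS V (fun p => p.2.2) (fun _ => 0) :=
    fun V => OC.snd (OC.snd OC.id)
  have hi : ∀ V : (Ty.prod P14_TN (.prod .nat P14_TS)).den → Prop,
      OC (.prod P14_TN (.prod .nat P14_TS)) .nat V (fun p => p.2.1) (fun _ => 0) :=
    fun V => OC.fst (OC.snd OC.id)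
  refine OC.ifN (OC.nlit 0) (OC.nadd (OC.fst (OC.snd (OC.fst OC.id)))
    (OC.get (OC.snd (OC.snd (OC.fst OC.id))) (hi _))) ?_ (hst _)
  exact OC.pair (OC.nadd (OC.fst (hst _)) (OC.nlit 1)) (OC.pair
    (OC.upd (OC.fst (OC.snd (hst _))) (hi _) (OC.fst (hst _)))
    (OC.upd (OC.snd (OC.snd (hst _))) (OC.fst (hst _)) (hi _)))

/-- the number of heavy indices below `i` -/
def P14_rank (g : ℕ) (f : ℕ → ℕ) (i : ℕ) : ℕ := ((range i).filter fun j => 0 < g + f j).card

theorem P14_rank_succ (g : ℕ) (f : ℕ → ℕ) (i : ℕ) :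
    P14_rank g f (i + 1) = P14_rank g f i + if 0 < g + f i then 1 else 0 := by
  unfold P14_rank
  rw [Finset.range_add_one, Finset.filter_insert]
  split_ifs with h
  · rw [Finset.card_insert_of_notMem (by simp)]
  · rfl

theorem P14_rank_mono (g : ℕ) (f : ℕ → ℕ) {i j : ℕ} (h : i ≤ j) :
    P14_rank g f i ≤ P14_rank g f j :=
  Finset.card_le_card (Finset.filter_subset_filter _ (Finset.range_mono h))

theorem P14_rank_lt (g : ℕ) (f : ℕ → ℕ) {i j : ℕ} (h : i < j) (hi : 0 < g + f i) :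
    P14_rank g f i < P14_rank g f j := by
  have h1 := P14_rank_succ g f i
  rw [if_pos hi] at h1
  have h2 := P14_rank_mono g f (show i + 1 ≤ j from h)
  omega

theorem P14_rank_inj (g : ℕ) (f : ℕ → ℕ) {i j : ℕ} (hi : 0 < g + f i) (hj : 0 < g + f j)
    (h : P14_rank g f i = P14_rank g f j) : i = j := by
  rcases lt_trichotomy i j with h1 | h1 | h1
  · have := P14_rank_lt g f h1 hi
    omega
  · exact h1
  · have := P14_rank_lt g f h1 hj
    omega

theorem P14_num_spec (x : P14_TN.den) (n : ℕ) :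
    (iterV (P14_nstep x) ((0 : ℕ), ((Ty.arr .nat).default, (Ty.arr .nat).default)) n).1 =
        P14_rank x.2.1 x.2.2 n ∧
      (∀ i < n, 0 < x.2.1 + x.2.2 i →
        (iterV (P14_nstep x) ((0 : ℕ), ((Ty.arr .nat).default, (Ty.arr .nat).default)) n).2.1 i =
          P14_rank x.2.1 x.2.2 i) ∧
      (∀ i < n, 0 < x.2.1 + x.2.2 i →
        (iterV (P14_nstep x) ((0 : ℕ), ((Ty.arr .nat).default, (Ty.arr .nat).default)) n).2.2
          (P14_rank x.2.1 x.2.2 i) = i) := by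
  induction n with
  | zero =>
    refine ⟨?_, fun i hi => absurd hi (Nat.not_lt_zero i), fun i hi => absurd hi (Nat.not_lt_zero i)⟩
    simp [P14_rank]
  | succ n ih =>
    obtain ⟨h1, h2, h3⟩ := ih
    rw [iterV_succ]
    set st := iterV (P14_nstep x) ((0 : ℕ), ((Ty.arr .nat).default, (Ty.arr .nat).default)) n
    unfold P14_nstep
    by_cases hn : 0 < x.2.1 + x.2.2 n
    · rw [if_pos hn]
      refine ⟨?_, ?_, ?_⟩
      · rw [P14_rank_succ, if_pos hn, h1]
      · intro i hi hf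
        by_cases hin : i = n
        · rw [hin]
          simp only [Function.update_self]
          exact h1
        · simp only [Function.update_of_ne hin]
          exact h2 i (by omega) hf
      · intro i hi hf
        by_cases hin : i = n
        · rw [hin, ← h1]
          simp only [Function.update_self]
        · have hlt : P14_rank x.2.1 x.2.2 i < P14_rank x.2.1 x.2.2 n :=
            P14_rank_lt _ _ (by omega) hf
          rw [← h1] at hlt
          simp only [Function.update_of_ne hlt.ne]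
          exact h3 i (by omega) hf
    · rw [if_neg hn]
      refine ⟨?_, ?_, ?_⟩
      · rw [P14_rank_succ, if_neg hn, h1]
        rfl
      · intro i hi hf
        have hin : i ≠ n := fun h => hn (h ▸ hf)
        exact h2 i (by omega) hf
      · intro i hi hf
        have hin : i ≠ n := fun h => hn (h ▸ hf)
        exact h3 i (by omega) hf

/-! ## the input -/

/-- `((h, k), ((a, c), (M, (((gr, fr), (gc, fc)), V))))` -/
abbrev P14_T : Ty := .prod (.prod .nat .nat) (.prod (.prod .nat .nat)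
  (.prod CooT (.prod (.prod (.prod .nat NArr) (.prod .nat NArr)) MatT)))

def P14_row (x : P14_T.den) (e : ℕ) : ℕ := x.2.2.1.2.1 e
def P14_col (x : P14_T.den) (e : ℕ) : ℕ := x.2.2.1.2.2.1 e
/-- flag of the entry `e` -/
def P14_fl (x : P14_T.den) (e : ℕ) : ℕ :=
  (x.2.2.2.1.1.1 + x.2.2.2.1.1.2 (P14_row x e)) * (x.2.2.2.1.2.1 + x.2.2.2.1.2.2 (P14_col x e))

section acc

variable {s : Ty} {V : s.den → Prop} {w : s.den → ℕ} {X : s.den → P14_T.den} {E : s.den → ℕ}

theorem P14_oc_h (hX : OC s P14_T V X w) : OC s .nat V (fun y => (X y).1.1) w :=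
  OC.fst (OC.fst hX)
theorem P14_oc_k (hX : OC s P14_T V X w) : OC s .nat V (fun y => (X y).1.2) w :=
  OC.snd (OC.fst hX)
theorem P14_oc_a (hX : OC s P14_T V X w) : OC s .nat V (fun y => (X y).2.1.1) w :=
  OC.fst (OC.fst (OC.snd hX))
theorem P14_oc_c (hX : OC s P14_T V X w) : OC s .nat V (fun y => (X y).2.1.2) w :=
  OC.snd (OC.fst (OC.snd hX))
theorem P14_oc_len (hX : OC s P14_T V X w) : OC s .nat V (fun y => (X y).2.2.1.1) w :=
  OC.fst (OC.fst (OC.snd (OC.snd hX)))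
theorem P14_oc_row (hX : OC s P14_T V X w) (hE : OC s .nat V E w) :
    OC s .nat V (fun y => P14_row (X y) (E y)) w :=
  OC.get (OC.fst (OC.snd (OC.fst (OC.snd (OC.snd hX))))) hE
theorem P14_oc_col (hX : OC s P14_T V X w) (hE : OC s .nat V E w) :
    OC s .nat V (fun y => P14_col (X y) (E y)) w :=
  OC.get (OC.fst (OC.snd (OC.snd (OC.fst (OC.snd (OC.snd hX)))))) hE
theorem P14_oc_val (hX : OC s P14_T V X w) (hE : OC s .nat V E w) :
    OC s .real V (fun y => (X y).2.2.1.2.2.2 (E y)) w :=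
  OC.get (OC.snd (OC.snd (OC.snd (OC.fst (OC.snd (OC.snd hX)))))) hE
theorem P14_oc_fr (hX : OC s P14_T V X w) (hE : OC s .nat V E w) :
    OC s .nat V (fun y => (X y).2.2.2.1.1.1 + (X y).2.2.2.1.1.2 (E y)) w :=
  OC.nadd (OC.fst (OC.fst (OC.fst (OC.snd (OC.snd (OC.snd hX))))))
    (OC.get (OC.snd (OC.fst (OC.fst (OC.snd (OC.snd (OC.snd hX)))))) hE)
theorem P14_oc_fc (hX : OC s P14_T V X w) (hE : OC s .nat V E w) :
    OC s .nat V (fun y => (X y).2.2.2.1.2.1 + (X y).2.2.2.1.2.2 (E y)) w :=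
  OC.nadd (OC.fst (OC.snd (OC.fst (OC.snd (OC.snd (OC.snd hX))))))
    (OC.get (OC.snd (OC.snd (OC.fst (OC.snd (OC.snd (OC.snd hX)))))) hE)
theorem P14_oc_fl (hX : OC s P14_T V X w) (hE : OC s .nat V E w) :
    OC s .nat V (fun y => P14_fl (X y) (E y)) w :=
  OC.nmul (P14_oc_fr hX (P14_oc_row hX hE)) (P14_oc_fc hX (P14_oc_col hX hE))
theorem P14_oc_V (hX : OC s P14_T V X w) : OC s MatT V (fun y => (X y).2.2.2.2) w :=
  OC.snd (OC.snd (OC.snd (OC.snd hX)))

end acc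

/-! ## the dense block -/

/-- one step -/
noncomputable def P14_dstep (y : (Ty.prod P14_T (.prod NArr NArr)).den) (e : ℕ) (D : MatT.den) :
    MatT.den :=
  if 0 < P14_fl y.1 e then
    Function.update D (y.2.1 (P14_row y.1 e)) (Function.update (D (y.2.1 (P14_row y.1 e)))
      (y.2.2 (P14_col y.1 e)) (D (y.2.1 (P14_row y.1 e)) (y.2.2 (P14_col y.1 e)) +
        y.1.2.2.1.2.2.2 e))
  else D

/-- zero matrix -/
noncomputable def P14_zero (n : ℕ) : MatT.den :=
  tabV VecT n fun _ => tabV .real n fun _ => (0 : ℝ)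

/-- the dense block; input `(x, (pr, qc))` -/
noncomputable def P14_dense (y : (Ty.prod P14_T (.prod NArr NArr)).den) : MatT.den :=
  iterV (P14_dstep y) (P14_zero y.1.1.1) y.1.2.2.1.1

/-- tables of tables -/
theorem P14_tab2 {s : Ty} {V : s.den → Prop} {w : s.den → ℕ} {N M : s.den → ℕ}
    {f : s.den → ℕ → ℕ → ℝ} (hN : OC s .nat V N (fun _ => 0)) (hM : OC s .nat V M (fun _ => 0))
    (hf : OC (.prod (.prod s .nat) .nat) .real (fun p => V p.1.1)
      (fun p => f p.1.1 p.1.2 p.2) (fun _ => 0)) (K : ℕ)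
    (hw : ∀ x, V x → N x * (M x + 1) ≤ K * (w x + 1)) :
    OC s MatT V (fun x => tabV VecT (N x) fun i => tabV .real (M x) fun l => f x i l) w := by
  refine OC.tab (w' := fun p => M p.1) (hN.le 0 fun _ _ => by simp) ?_ K ?_
  · refine OC.tab0 (t := .real) (N := fun p : (Ty.prod s .nat).den => M p.1)
      (F := fun p l => f p.1 p.2 l) ?_ ?_ 1 (fun p _ => by omega)
    · refine OC.comp (s := .prod s .nat) (F := fun p => p.1) hM (OC.fst OC.id)
        (fun p hp => hp.1) 0 (fun _ _ => by simp)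
    · exact hf.weaken fun p hp => hp.1
  · intro x hx
    simp only [sum_const, card_range, smul_eq_mul]
    exact hw x hx

theorem P14_ocdense : OC (.prod P14_T (.prod NArr NArr)) MatT (fun _ => True) P14_dense
    (fun y => y.1.1.1 * (y.1.1.1 + 1) + y.1.2.2.1.1) := by
  refine OC.iter0 (s := .prod P14_T (.prod NArr NArr)) (t := MatT)
    (N := fun y => y.1.2.2.1.1) (A := fun y => P14_zero y.1.1.1) (B := P14_dstep)
    (P14_oc_len (OC.fst OC.id)) ?_ ?_ 1 (fun x _ => by omega)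
  · exact P14_tab2 (P14_oc_h (OC.fst OC.id)) (P14_oc_h (OC.fst OC.id)) OC.r0 1
      fun x _ => by omega
  · have hX : ∀ V : (Ty.prod (.prod P14_T (.prod NArr NArr)) (.prod .nat MatT)).den → Prop,
        OC (.prod (.prod P14_T (.prod NArr NArr)) (.prod .nat MatT)) P14_T V (fun p => p.1.1)
          (fun _ => 0) := fun V => OC.fst (OC.fst OC.id)
    have hE : ∀ V : (Ty.prod (.prod P14_T (.prod NArr NArr)) (.prod .nat MatT)).den → Prop,
        OC (.prod (.prod P14_T (.prod NArr NArr)) (.prod .nat MatT)) .nat V (fun p => p.2.1)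
          (fun _ => 0) := fun V => OC.fst (OC.snd OC.id)
    have hD : ∀ V : (Ty.prod (.prod P14_T (.prod NArr NArr)) (.prod .nat MatT)).den → Prop,
        OC (.prod (.prod P14_T (.prod NArr NArr)) (.prod .nat MatT)) MatT V (fun p => p.2.2)
          (fun _ => 0) := fun V => OC.snd (OC.snd OC.id)
    have hp : ∀ V : (Ty.prod (.prod P14_T (.prod NArr NArr)) (.prod .nat MatT)).den → Prop,
        OC (.prod (.prod P14_T (.prod NArr NArr)) (.prod .nat MatT)) .nat V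
          (fun p => p.1.2.1 (P14_row p.1.1 p.2.1)) (fun _ => 0) := fun V =>
      OC.get (OC.fst (OC.snd (OC.fst OC.id))) (P14_oc_row (hX V) (hE V))
    have hq : ∀ V : (Ty.prod (.prod P14_T (.prod NArr NArr)) (.prod .nat MatT)).den → Prop,
        OC (.prod (.prod P14_T (.prod NArr NArr)) (.prod .nat MatT)) .nat V
          (fun p => p.1.2.2 (P14_col p.1.1 p.2.1)) (fun _ => 0) := fun V =>
      OC.get (OC.snd (OC.snd (OC.fst OC.id))) (P14_oc_col (hX V) (hE V))
    exact OC.ifN (OC.nlit 0) (P14_oc_fl (hX _) (hE _))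
      (OC.upd (hD _) (hp _) (OC.upd (OC.get (hD _) (hp _)) (hq _)
        (OC.add (OC.get (OC.get (hD _) (hp _)) (hq _)) (P14_oc_val (hX _) (hE _))))) (hD _)

theorem P14_zero_val (n i l : ℕ) : P14_zero n i l = 0 := by
  unfold P14_zero
  by_cases hi : i < n
  · rw [tabV_lt hi]
    by_cases hl : l < n
    · rw [tabV_lt hl]
    · rw [tabV_ge (not_lt.1 hl)]
      rfl
  · rw [tabV_ge (not_lt.1 hi)]
    rfl

theorem P14_dense_val (y : (Ty.prod P14_T (.prod NArr NArr)).den) (n p q : ℕ) :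
    iterV (P14_dstep y) (P14_zero y.1.1.1) n p q = ∑ e ∈ range n,
      if 0 < P14_fl y.1 e ∧ y.2.1 (P14_row y.1 e) = p ∧ y.2.2 (P14_col y.1 e) = q then
        y.1.2.2.1.2.2.2 e else 0 := by
  induction n with
  | zero =>
    rw [iterV_zero, Finset.sum_range_zero]
    exact P14_zero_val _ _ _
  | succ n ih =>
    rw [iterV_succ, Finset.sum_range_succ, ← ih]
    set D := iterV (P14_dstep y) (P14_zero y.1.1.1) n
    unfold P14_dstep
    by_cases h1 : 0 < P14_fl y.1 n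
    · rw [if_pos h1]
      by_cases h2 : y.2.1 (P14_row y.1 n) = p
      · rw [← h2, Function.update_self]
        by_cases h3 : y.2.2 (P14_col y.1 n) = q
        · rw [← h3, Function.update_self, if_pos ⟨h1, rfl, rfl⟩]
        · rw [Function.update_of_ne (Ne.symm h3), if_neg (fun h => h3 h.2.2), add_zero]
      · rw [Function.update_of_ne (Ne.symm h2), if_neg (fun h => h2 h.2.1), add_zero]
    · rw [if_neg h1, if_neg (fun h => h1 h.1), add_zero]

/-! ## the output -/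

/-- one step -/
noncomputable def P14_ostep (y : (Ty.prod P14_T (.prod NArr MatT)).den) (e : ℕ) (O : MatT.den) :
    MatT.den :=
  if 0 < P14_fl y.1 e then O
  else Function.update O (P14_row y.1 e) (tabV .real y.1.1.2 fun l =>
    O (P14_row y.1 e) l + y.1.2.2.1.2.2.2 e * y.1.2.2.2.2 (P14_col y.1 e) l)

/-- the rows of the heavy part -/
noncomputable def P14_init (y : (Ty.prod P14_T (.prod NArr MatT)).den) : MatT.den :=
  tabV VecT y.1.2.1.1 fun i => tabV .real y.1.1.2 fun l =>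
    if 0 < y.1.2.2.2.1.1.1 + y.1.2.2.2.1.1.2 i then y.2.2 (y.2.1 i) l else 0

/-- the output; input `(x, (pr, P))` -/
noncomputable def P14_out (y : (Ty.prod P14_T (.prod NArr MatT)).den) : MatT.den :=
  iterV (P14_ostep y) (P14_init y) y.1.2.2.1.1

/-- number of light entries -/
def P14_light (x : P14_T.den) : ℕ := ((range x.2.2.1.1).filter fun e => ¬ 0 < P14_fl x e).card

theorem P14_ocout : OC (.prod P14_T (.prod NArr MatT)) MatT (fun _ => True) P14_out
    (fun y => (y.1.1.2 + 1) * (y.1.2.1.1 + P14_light y.1) + y.1.2.2.1.1) := by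
  refine OC.iter (s := .prod P14_T (.prod NArr MatT)) (t := MatT)
    (w' := fun p => if 0 < P14_fl p.1.1 p.2.1 then 0 else p.1.1.1.2)
    (N := fun y => y.1.2.2.1.1) (A := P14_init) (B := P14_ostep)
    (P14_oc_len (OC.fst OC.id)) ?_ ?_ 1 ?_
  · have hX : ∀ V : (Ty.prod (.prod (.prod P14_T (.prod NArr MatT)) .nat) .nat).den → Prop,
        OC (.prod (.prod (.prod P14_T (.prod NArr MatT)) .nat) .nat) P14_T V (fun p => p.1.1.1)
          (fun _ => 0) := fun V => OC.fst (OC.fst (OC.fst OC.id))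
    have hi : ∀ V : (Ty.prod (.prod (.prod P14_T (.prod NArr MatT)) .nat) .nat).den → Prop,
        OC (.prod (.prod (.prod P14_T (.prod NArr MatT)) .nat) .nat) .nat V (fun p => p.1.2)
          (fun _ => 0) := fun V => OC.snd (OC.fst OC.id)
    refine P14_tab2 (P14_oc_a (OC.fst OC.id)) (P14_oc_k (OC.fst OC.id)) ?_ 1
      fun x _ => by nlinarith [Nat.zero_le ((x.1.1.2 + 1) * P14_light x.1)]
    exact OC.ifN (OC.nlit 0) (P14_oc_fr (hX _) (hi _))
      (OC.get (OC.get (OC.snd (OC.snd (OC.fst (OC.fst OC.id))))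
        (OC.get (OC.fst (OC.snd (OC.fst (OC.fst OC.id)))) (hi _))) (OC.snd OC.id)) OC.r0
  · have hX : ∀ (V : (Ty.prod (.prod P14_T (.prod NArr MatT)) (.prod .nat MatT)).den → Prop) w,
        OC (.prod (.prod P14_T (.prod NArr MatT)) (.prod .nat MatT)) P14_T V (fun p => p.1.1)
          w := fun V w => OC.fst (OC.fst OC.id)
    have hE : ∀ (V : (Ty.prod (.prod P14_T (.prod NArr MatT)) (.prod .nat MatT)).den → Prop) w,
        OC (.prod (.prod P14_T (.prod NArr MatT)) (.prod .nat MatT)) .nat V (fun p => p.2.1)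
          w := fun V w => OC.fst (OC.snd OC.id)
    have hO : ∀ (V : (Ty.prod (.prod P14_T (.prod NArr MatT)) (.prod .nat MatT)).den → Prop) w,
        OC (.prod (.prod P14_T (.prod NArr MatT)) (.prod .nat MatT)) MatT V (fun p => p.2.2)
          w := fun V w => OC.snd (OC.snd OC.id)
    refine OC.ifN (OC.nlit 0) (P14_oc_fl (hX _ _) (hE _ _)) (hO _ _)
      (OC.upd (hO _ _) (P14_oc_row (hX _ _) (hE _ _)) ?_)
    refine OC.tab0 (t := .real) (P14_oc_k (hX _ _)) ?_ 1 fun p hp => by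
      rw [if_neg hp.2]
      omega
    have hX' : ∀ (V : (Ty.prod (.prod (.prod P14_T (.prod NArr MatT)) (.prod .nat MatT))
        .nat).den → Prop) w, OC (.prod (.prod (.prod P14_T (.prod NArr MatT))
        (.prod .nat MatT)) .nat) P14_T V (fun p => p.1.1.1) w :=
      fun V w => OC.fst (OC.fst (OC.fst OC.id))
    have hE' : ∀ (V : (Ty.prod (.prod (.prod P14_T (.prod NArr MatT)) (.prod .nat MatT))
        .nat).den → Prop) w, OC (.prod (.prod (.prod P14_T (.prod NArr MatT))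
        (.prod .nat MatT)) .nat) .nat V (fun p => p.1.2.1) w :=
      fun V w => OC.fst (OC.snd (OC.fst OC.id))
    have hO' : ∀ (V : (Ty.prod (.prod (.prod P14_T (.prod NArr MatT)) (.prod .nat MatT))
        .nat).den → Prop) w, OC (.prod (.prod (.prod P14_T (.prod NArr MatT))
        (.prod .nat MatT)) .nat) MatT V (fun p => p.1.2.2) w :=
      fun V w => OC.snd (OC.snd (OC.fst OC.id))
    exact OC.add (OC.get (OC.get (hO' _ _) (P14_oc_row (hX' _ _) (hE' _ _))) (OC.snd OC.id))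
      (OC.mul (P14_oc_val (hX' _ _) (hE' _ _))
        (OC.get (OC.get (P14_oc_V (hX' _ _)) (P14_oc_col (hX' _ _) (hE' _ _))) (OC.snd OC.id)))
  · intro y _
    simp only
    have h1 : ∑ j ∈ range y.1.2.2.1.1, ((if 0 < P14_fl y.1 j then 0 else y.1.1.2) + 1) =
        y.1.1.2 * P14_light y.1 + y.1.2.2.1.1 := by
      rw [Finset.sum_add_distrib, Finset.sum_const, card_range, smul_eq_mul, mul_one]
      congr 1
      have h2 : ∀ j ∈ range y.1.2.2.1.1, (if 0 < P14_fl y.1 j then 0 else y.1.1.2) =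
          if ¬ 0 < P14_fl y.1 j then y.1.1.2 else 0 := by
        intro j _
        by_cases h : 0 < P14_fl y.1 j
        · rw [if_pos h, if_neg (fun h' => h' h)]
        · rw [if_neg h, if_pos h]
      rw [Finset.sum_congr rfl h2, ← Finset.sum_filter, Finset.sum_const, smul_eq_mul, mul_comm]
      rfl
    rw [h1]
    nlinarith [Nat.zero_le (y.1.1.2 * y.1.2.1.1)]

theorem P14_out_val (y : (Ty.prod P14_T (.prod NArr MatT)).den) (n i l : ℕ) (hl : l < y.1.1.2) :
    iterV (P14_ostep y) (P14_init y) n i l = P14_init y i l + ∑ e ∈ range n,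
      if ¬ 0 < P14_fl y.1 e ∧ P14_row y.1 e = i then
        y.1.2.2.1.2.2.2 e * y.1.2.2.2.2 (P14_col y.1 e) l else 0 := by
  induction n with
  | zero => rw [iterV_zero, Finset.sum_range_zero, add_zero]
  | succ n ih =>
    rw [iterV_succ, Finset.sum_range_succ, ← add_assoc, ← ih]
    set O := iterV (P14_ostep y) (P14_init y) n
    unfold P14_ostep
    by_cases h1 : 0 < P14_fl y.1 n
    · rw [if_pos h1, if_neg (fun h => h.1 h1), add_zero]
    · rw [if_neg h1]
      by_cases h2 : P14_row y.1 n = i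
      · rw [← h2, Function.update_self, if_pos ⟨h1, rfl⟩, tabV_lt hl]
      · rw [Function.update_of_ne (Ne.symm h2), if_neg (fun h => h2 h.2), add_zero]

/-! ## the product of a list with a dense matrix -/

/-- the heavy rows of `V`; input `(x, inv)` -/
noncomputable def P14_vh (y : (Ty.prod P14_T NArr).den) : MatT.den :=
  tabV VecT y.1.1.1 fun q => tabV .real y.1.1.2 fun l => y.1.2.2.2.2 (y.2 q) l

theorem P14_ocvh : OC (.prod P14_T NArr) MatT (fun _ => True) P14_vh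
    (fun y => y.1.1.1 * (y.1.1.2 + 1)) := by
  refine P14_tab2 (P14_oc_h (OC.fst OC.id)) (P14_oc_k (OC.fst OC.id)) ?_ 1
    fun x _ => by omega
  exact OC.get (OC.get (P14_oc_V (OC.fst (OC.fst (OC.fst OC.id))))
    (OC.get (OC.snd (OC.fst (OC.fst OC.id))) (OC.snd (OC.fst OC.id)))) (OC.snd OC.id)

/-- the type of `dmul` -/
abbrev P14_TD : Ty := .prod (.prod .nat (.prod .nat .nat)) (.prod MatT MatT)

/-- the product of a list with a dense matrix -/
noncomputable def P14_hMM (Fd : P14_TD.den → MatT.den) (x : P14_T.den) : MatT.den :=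
  letV (P14_num (x.2.1.1, x.2.2.2.1.1)) fun nr =>
    letV (P14_num (x.2.1.2, x.2.2.2.1.2)) fun nc =>
      letV (P14_dense (x, (nr.2.1, nc.2.1))) fun D =>
        letV (Fd ((x.1.1, (x.1.1, x.1.2)), (D, P14_vh (x, nc.2.2)))) fun P =>
          P14_out (x, (nr.2.1, P))

/-- the weight -/
def P14_W (mm : ℕ → ℕ) (x : P14_T.den) : ℕ :=
  mm (max x.1.1 x.1.2) + (x.1.2 + 1) * (x.2.1.1 + x.2.1.2 + P14_light x + x.1.1 + 1) +
    x.2.2.1.1

/-- composition with a smaller weight -/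
theorem P14_cp {s t u : Ty} {V : s.den → Prop} {w' : u.den → ℕ} {w : s.den → ℕ}
    {F : s.den → u.den} {G : u.den → t.den} (hG : OC u t (fun _ => True) G w')
    (hF : OC s u V F w) (hw : ∀ x, w' (F x) ≤ w x) : OC s t V (fun x => G (F x)) w :=
  OC.comp hG hF (fun _ _ => trivial) 1 fun x _ => by have := hw x; omega

theorem P14_ar1 (m k a c L h n : ℕ) : a ≤ m + (k + 1) * (a + c + L + h + 1) + n := by
  have h1 : a + c + L + h + 1 ≤ (k + 1) * (a + c + L + h + 1) :=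
    Nat.le_mul_of_pos_left _ (Nat.succ_pos k)
  omega

theorem P14_ar2 (m k a c L h n : ℕ) : c ≤ m + (k + 1) * (a + c + L + h + 1) + n := by
  have h1 : a + c + L + h + 1 ≤ (k + 1) * (a + c + L + h + 1) :=
    Nat.le_mul_of_pos_left _ (Nat.succ_pos k)
  omega

theorem P14_ar3 {m : ℕ} (k a c L : ℕ) {h : ℕ} (n : ℕ) (hm : (h + 1) ^ 2 ≤ m) :
    h * (h + 1) + n ≤ m + (k + 1) * (a + c + L + h + 1) + n := by
  have h1 : h * (h + 1) ≤ (h + 1) ^ 2 := by
    rw [pow_two]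
    exact Nat.mul_le_mul_right _ (Nat.le_succ h)
  omega

theorem P14_ar4 (m k a c L h n : ℕ) : h * (k + 1) ≤ m + (k + 1) * (a + c + L + h + 1) + n := by
  have h1 : h * (k + 1) ≤ (k + 1) * (a + c + L + h + 1) := by
    rw [Nat.mul_comm]
    exact Nat.mul_le_mul_left _ (by omega)
  omega

theorem P14_ar5 (m k a c L h n : ℕ) : m ≤ m + (k + 1) * (a + c + L + h + 1) + n := by
  omega

theorem P14_ar6 (m k a c L h n : ℕ) :
    (k + 1) * (a + L) + n ≤ m + (k + 1) * (a + c + L + h + 1) + n := by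
  have h1 : (k + 1) * (a + L) ≤ (k + 1) * (a + c + L + h + 1) :=
    Nat.mul_le_mul_left _ (by omega)
  omega

theorem P14_ar7 (n : ℕ) : n ≤ 1 * (n + 1) := by omega

theorem P14_ochMM (mm : ℕ → ℕ) (hmono : Monotone mm) (hsq : ∀ m, (m + 1) ^ 2 ≤ mm m)
    {Fd : P14_TD.den → MatT.den}
    (hFd : OC P14_TD MatT (fun _ => True) Fd (fun x => mm (max x.1.1 (max x.1.2.1 x.1.2.2)))) :
    OC P14_T MatT (fun _ => True) (P14_hMM Fd) (P14_W mm) := by
  refine OC.let_ (w' := fun p => P14_W mm p.1)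
    (P14_cp (F := fun x : P14_T.den => ((x.2.1.1, x.2.2.2.1.1) : P14_TN.den)) P14_ocnum
      (OC.pair (P14_oc_a OC.id) (OC.fst (OC.fst (OC.snd (OC.snd (OC.snd OC.id))))))
      fun x => P14_ar1 _ _ _ _ _ _ _) ?_ 1 (fun x _ => P14_ar7 _)
  refine OC.let_ (s := .prod P14_T P14_TS) (w' := fun p => P14_W mm p.1.1)
    (P14_cp (F := fun p : (Ty.prod P14_T P14_TS).den =>
      ((p.1.2.1.2, p.1.2.2.2.1.2) : P14_TN.den)) P14_ocnum
      (OC.pair (P14_oc_c (OC.fst OC.id))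
        (OC.snd (OC.fst (OC.snd (OC.snd (OC.snd (OC.fst OC.id)))))))
      fun p => P14_ar2 _ _ _ _ _ _ _) ?_ 1 (fun x _ => P14_ar7 _)
  refine OC.let_ (s := .prod (.prod P14_T P14_TS) P14_TS) (w' := fun p => P14_W mm p.1.1.1)
    (P14_cp (F := fun p : (Ty.prod (.prod P14_T P14_TS) P14_TS).den =>
      ((p.1.1, (p.1.2.2.1, p.2.2.1)) : (Ty.prod P14_T (.prod NArr NArr)).den)) P14_ocdense
      (OC.pair (OC.fst (OC.fst OC.id)) (OC.pair (OC.fst (OC.snd (OC.snd (OC.fst OC.id))))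
        (OC.fst (OC.snd (OC.snd OC.id)))))
      fun p => P14_ar3 _ _ _ _ _ ((hsq _).trans (hmono (le_max_left _ _)))) ?_ 1
    (fun x _ => P14_ar7 _)
  have c1 : ∀ V : (Ty.prod (.prod (.prod P14_T P14_TS) P14_TS) MatT).den → Prop,
      OC (.prod (.prod (.prod P14_T P14_TS) P14_TS) MatT) MatT V
      (fun p => P14_vh (p.1.1.1, p.1.2.2.2)) (fun p => P14_W mm p.1.1.1) := fun V =>
    P14_cp (F := fun p : (Ty.prod (.prod (.prod P14_T P14_TS) P14_TS) MatT).den =>
      ((p.1.1.1, p.1.2.2.2) : (Ty.prod P14_T NArr).den)) P14_ocvh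
      (OC.pair (OC.fst (OC.fst (OC.fst OC.id))) (OC.snd (OC.snd (OC.snd (OC.fst OC.id)))))
      fun p => P14_ar4 _ _ _ _ _ _ _
  refine OC.let_ (s := .prod (.prod (.prod P14_T P14_TS) P14_TS) MatT)
    (w' := fun p => P14_W mm p.1.1.1.1)
    (P14_cp (F := fun p : (Ty.prod (.prod (.prod P14_T P14_TS) P14_TS) MatT).den =>
      (((p.1.1.1.1.1, (p.1.1.1.1.1, p.1.1.1.1.2)), (p.2, P14_vh (p.1.1.1, p.1.2.2.2))) :
        P14_TD.den)) hFd
      (OC.pair (OC.pair (P14_oc_h (OC.fst (OC.fst (OC.fst OC.id))))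
        (OC.pair (P14_oc_h (OC.fst (OC.fst (OC.fst OC.id))))
          (P14_oc_k (OC.fst (OC.fst (OC.fst OC.id)))))) (OC.pair (OC.snd OC.id) (c1 _))) ?_)
    ?_ 1 (fun x _ => P14_ar7 _)
  · intro p
    have h1 : mm (max p.1.1.1.1.1 (max p.1.1.1.1.1 p.1.1.1.1.2)) ≤
        mm (max p.1.1.1.1.1 p.1.1.1.1.2) := hmono (max_le (le_max_left _ _) le_rfl)
    exact h1.trans (P14_ar5 _ _ _ _ _ _ _)
  exact P14_cp (F := fun p : (Ty.prod (.prod (.prod (.prod P14_T P14_TS) P14_TS) MatT)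
      MatT).den => ((p.1.1.1.1, (p.1.1.1.2.2.1, p.2)) : (Ty.prod P14_T (.prod NArr MatT)).den))
    P14_ocout (OC.pair (OC.fst (OC.fst (OC.fst (OC.fst OC.id))))
      (OC.pair (OC.fst (OC.snd (OC.snd (OC.fst (OC.fst (OC.fst OC.id)))))) (OC.snd OC.id)))
    fun p => P14_ar6 _ _ _ _ _ _ _

theorem P14_hMM_val {Fd : P14_TD.den → MatT.den}
    (hFd : ∀ a b c X Y, toM a c (Fd ((a, (b, c)), (X, Y))) = toM a b X * toM b c Y)
    (x : P14_T.den) (hM : CooOK x.2.1.1 x.2.1.2 x.2.2.1)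
    (hr : P14_rank x.2.2.2.1.1.1 x.2.2.2.1.1.2 x.2.1.1 ≤ x.1.1)
    (hc : P14_rank x.2.2.2.1.2.1 x.2.2.2.1.2.2 x.2.1.2 ≤ x.1.1) :
    toM x.2.1.1 x.1.2 (P14_hMM Fd x) =
      toM x.2.1.1 x.2.1.2 (cooA x.2.2.1) * toM x.2.1.2 x.1.2 x.2.2.2.2 := by
  set a := x.2.1.1 with ha
  set c := x.2.1.2 with hc'
  set nr := P14_num (a, x.2.2.2.1.1) with hnr
  set nc := P14_num (c, x.2.2.2.1.2) with hnc
  obtain ⟨-, r2, -⟩ := P14_num_spec (a, x.2.2.2.1.1) a
  obtain ⟨-, c2, c3⟩ := P14_num_spec (c, x.2.2.2.1.2) c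
  have r2' : ∀ i < a, 0 < x.2.2.2.1.1.1 + x.2.2.2.1.1.2 i →
      nr.2.1 i = P14_rank x.2.2.2.1.1.1 x.2.2.2.1.1.2 i := r2
  have c2' : ∀ i < c, 0 < x.2.2.2.1.2.1 + x.2.2.2.1.2.2 i →
      nc.2.1 i = P14_rank x.2.2.2.1.2.1 x.2.2.2.1.2.2 i := c2
  have c3' : ∀ i < c, 0 < x.2.2.2.1.2.1 + x.2.2.2.1.2.2 i →
      nc.2.2 (P14_rank x.2.2.2.1.2.1 x.2.2.2.1.2.2 i) = i := c3
  set D := P14_dense (x, (nr.2.1, nc.2.1)) with hD
  set P := Fd ((x.1.1, (x.1.1, x.1.2)), (D, P14_vh (x, nc.2.2))) with hP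
  have hF : P14_hMM Fd x = P14_out (x, (nr.2.1, P)) := rfl
  -- the heavy part
  have hPv : ∀ p < x.1.1, ∀ l < x.1.2, P p l = ∑ e ∈ range x.2.2.1.1,
      if 0 < P14_fl x e ∧ nr.2.1 (P14_row x e) = p then
        x.2.2.1.2.2.2 e * x.2.2.2.2 (P14_col x e) l else 0 := by
    intro p hp l hl
    have h1 := congrFun (congrFun (hFd x.1.1 x.1.1 x.1.2 D (P14_vh (x, nc.2.2))) ⟨p, hp⟩) ⟨l, hl⟩
    rw [← hP, Matrix.mul_apply] at h1
    have h2 : toM x.1.1 x.1.2 P ⟨p, hp⟩ ⟨l, hl⟩ = P p l := rfl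
    rw [← h2, h1]
    have h3 : ∀ q : Fin x.1.1, toM x.1.1 x.1.1 D ⟨p, hp⟩ q *
        toM x.1.1 x.1.2 (P14_vh (x, nc.2.2)) q ⟨l, hl⟩ = ∑ e ∈ range x.2.2.1.1,
        if 0 < P14_fl x e ∧ nr.2.1 (P14_row x e) = p ∧ nc.2.1 (P14_col x e) = q then
          x.2.2.1.2.2.2 e * x.2.2.2.2 (P14_col x e) l else 0 := by
      intro q
      have h4 : toM x.1.1 x.1.1 D ⟨p, hp⟩ q = ∑ e ∈ range x.2.2.1.1,
          if 0 < P14_fl x e ∧ nr.2.1 (P14_row x e) = p ∧ nc.2.1 (P14_col x e) = q then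
            x.2.2.1.2.2.2 e else 0 := P14_dense_val (x, (nr.2.1, nc.2.1)) x.2.2.1.1 p q
      have h5 : toM x.1.1 x.1.2 (P14_vh (x, nc.2.2)) q ⟨l, hl⟩ = x.2.2.2.2 (nc.2.2 q) l := by
        simp only [toM, P14_vh]
        rw [tabV_lt q.2, tabV_lt hl]
      rw [h4, h5, Finset.sum_mul]
      refine Finset.sum_congr rfl fun e he => ?_
      by_cases h6 : 0 < P14_fl x e ∧ nr.2.1 (P14_row x e) = p ∧ nc.2.1 (P14_col x e) = q
      · rw [if_pos h6, if_pos h6]
        have h7 : P14_col x e < c := (hM e (Finset.mem_range.1 he)).2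
        have h8 : 0 < x.2.2.2.1.2.1 + x.2.2.2.1.2.2 (P14_col x e) := by
          have := h6.1
          unfold P14_fl at this
          exact Nat.pos_of_mul_pos_left this
        have h9 : nc.2.2 q = P14_col x e := by
          rw [← h6.2.2, c2' _ h7 h8]
          exact c3' _ h7 h8
        rw [h9]
      · rw [if_neg h6, if_neg h6, zero_mul]
    rw [Finset.sum_congr rfl fun q _ => h3 q, Finset.sum_comm]
    refine Finset.sum_congr rfl fun e he => ?_
    by_cases h6 : 0 < P14_fl x e ∧ nr.2.1 (P14_row x e) = p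
    · rw [if_pos h6]
      have h7 : P14_col x e < c := (hM e (Finset.mem_range.1 he)).2
      have h8 : 0 < x.2.2.2.1.2.1 + x.2.2.2.1.2.2 (P14_col x e) := by
        have := h6.1
        unfold P14_fl at this
        exact Nat.pos_of_mul_pos_left this
      have h9 : nc.2.1 (P14_col x e) < x.1.1 := by
        rw [c2' _ h7 h8]
        exact lt_of_lt_of_le (P14_rank_lt _ _ h7 h8) hc
      rw [Finset.sum_eq_single (⟨nc.2.1 (P14_col x e), h9⟩ : Fin x.1.1)]
      · rw [if_pos ⟨h6.1, h6.2, rfl⟩]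
      · intro q _ hq
        rw [if_neg fun h => hq (Fin.ext h.2.2.symm)]
      · intro h
        exact absurd (Finset.mem_univ _) h
    · rw [if_neg h6]
      apply Finset.sum_eq_zero
      intro q _
      rw [if_neg fun h => h6 ⟨h.1, h.2.1⟩]
  ext i l
  have hi := i.2
  have hl := l.2
  have hout : toM a x.1.2 (P14_hMM Fd x) i l = P14_init (x, (nr.2.1, P)) i l +
      ∑ e ∈ range x.2.2.1.1, if ¬ 0 < P14_fl x e ∧ P14_row x e = i then
        x.2.2.1.2.2.2 e * x.2.2.2.2 (P14_col x e) l else 0 := by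
    rw [hF]
    exact P14_out_val (x, (nr.2.1, P)) x.2.2.1.1 i l hl
  have hinit : P14_init (x, (nr.2.1, P)) i l = ∑ e ∈ range x.2.2.1.1,
      if 0 < P14_fl x e ∧ P14_row x e = i then
        x.2.2.1.2.2.2 e * x.2.2.2.2 (P14_col x e) l else 0 := by
    simp only [P14_init]
    rw [tabV_lt hi, tabV_lt hl]
    by_cases hf : 0 < x.2.2.2.1.1.1 + x.2.2.2.1.1.2 i
    · rw [if_pos hf, r2' i hi hf, hPv _ (lt_of_lt_of_le (P14_rank_lt _ _ hi hf) hr) l hl]
      refine Finset.sum_congr rfl fun e he => ?_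
      have h7 : P14_row x e < a := (hM e (Finset.mem_range.1 he)).1
      by_cases h1 : 0 < P14_fl x e
      · have h8 : 0 < x.2.2.2.1.1.1 + x.2.2.2.1.1.2 (P14_row x e) := by
          have := h1
          unfold P14_fl at this
          exact Nat.pos_of_mul_pos_right this
        rw [r2' _ h7 h8]
        by_cases h2 : P14_row x e = i
        · rw [h2, if_pos ⟨h1, rfl⟩, if_pos ⟨h1, rfl⟩]
        · rw [if_neg fun h => h2 (P14_rank_inj _ _ h8 hf h.2), if_neg fun h => h2 h.2]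
      · rw [if_neg fun h => h1 h.1, if_neg fun h => h1 h.1]
    · rw [if_neg hf]
      symm
      apply Finset.sum_eq_zero
      intro e _
      rw [if_neg]
      rintro ⟨h1, h2⟩
      apply hf
      unfold P14_fl at h1
      rw [h2] at h1
      exact Nat.pos_of_mul_pos_right h1
  rw [hout, hinit, ← Finset.sum_add_distrib, Matrix.mul_apply]
  simp only [toM, cooA, Finset.sum_mul]
  rw [Finset.sum_comm]
  refine Finset.sum_congr rfl fun e he => ?_
  have h7 : P14_col x e < c := (hM e (Finset.mem_range.1 he)).2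
  have h8 : (if 0 < P14_fl x e ∧ P14_row x e = i then
      x.2.2.1.2.2.2 e * x.2.2.2.2 (P14_col x e) l else 0) +
      (if ¬ 0 < P14_fl x e ∧ P14_row x e = i then
        x.2.2.1.2.2.2 e * x.2.2.2.2 (P14_col x e) l else 0) =
      if P14_row x e = i then x.2.2.1.2.2.2 e * x.2.2.2.2 (P14_col x e) l else 0 := by
    by_cases h1 : 0 < P14_fl x e <;> by_cases h2 : P14_row x e = i <;> simp [h1, h2]
  rw [h8]
  symm
  by_cases h2 : P14_row x e = i
  · rw [if_pos h2, Finset.sum_eq_single (⟨P14_col x e, h7⟩ : Fin c)]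
    · rw [if_pos ⟨h2, rfl⟩]
    · intro j _ hj
      rw [if_neg fun h => hj (Fin.ext h.2.symm), zero_mul]
    · intro h
      exact absurd (Finset.mem_univ _) h
  · rw [if_neg h2]
    apply Finset.sum_eq_zero
    intro j _
    rw [if_neg fun h => h2 h.1, zero_mul]

/-! ## operators -/

/-- the input type -/
abbrev P14_S : Ty := .prod (.prod .nat .nat) (.prod (.prod OpT (.prod NArr NArr)) MatT)

/-- zero array -/
def P14_z : NArr.den := (Ty.arr .nat).default

def P14_i1 (x : P14_S.den) : P14_T.den :=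
  (x.1, (x.2.1.1.1, (x.2.1.1.2.2.1.1, ((((0 : ℕ), x.2.1.2.1), ((0 : ℕ), x.2.1.2.2)), x.2.2))))
def P14_i2 (x : P14_S.den) : P14_T.den :=
  (x.1, ((x.2.1.1.2.1.2, x.2.1.1.1.2), (x.2.1.1.2.2.2.1,
    ((((1 : ℕ), P14_z), ((0 : ℕ), x.2.1.2.2)), x.2.2))))
def P14_i3 (y : (Ty.prod P14_S MatT).den) : P14_T.den :=
  (y.1.1, ((y.1.2.1.1.1.1, y.1.2.1.1.2.1.1), (y.1.2.1.1.2.2.1.2,
    ((((0 : ℕ), y.1.2.1.2.1), ((1 : ℕ), P14_z)), y.2))))
def P14_i4 (y : (Ty.prod P14_S MatT).den) : P14_TD.den :=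
  ((y.1.2.1.1.2.1.1, (y.1.2.1.1.2.1.2, y.1.1.2)), (y.1.2.1.1.2.2.2.2, y.2))

/-- difference of two matrices -/
noncomputable def P14_sub (y : (Ty.prod P14_S (.prod MatT MatT)).den) : MatT.den :=
  tabV VecT y.1.2.1.1.1.1 fun i => tabV .real y.1.1.2 fun l => y.2.1 i l - y.2.2 i l

noncomputable def P14_F (Fd : P14_TD.den → MatT.den) (x : P14_S.den) : MatT.den :=
  P14_sub (x, (P14_hMM Fd (P14_i1 x),
    P14_hMM Fd (P14_i3 (x, Fd (P14_i4 (x, P14_hMM Fd (P14_i2 x)))))))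

/-- the weight -/
def P14_w (mm : ℕ → ℕ) (x : P14_S.den) : ℕ :=
  mm (max x.1.1 x.1.2) + (x.1.2 + 1) * (opRest x.2.1.1 x.2.1.2.1 x.2.1.2.2 + x.1.1 + 1) +
    opSize x.2.1.1

theorem P14_light1 (x : P14_S.den) : P14_light (P14_i1 x) =
    ((range x.2.1.1.2.2.1.1.1).filter fun e => x.2.1.2.1 (x.2.1.1.2.2.1.1.2.1 e) = 0 ∨
      x.2.1.2.2 (x.2.1.1.2.2.1.1.2.2.1 e) = 0).card := by
  unfold P14_light
  congr 1
  refine Finset.filter_congr fun e _ => ?_
  have h : P14_fl (P14_i1 x) e = (0 + x.2.1.2.1 (x.2.1.1.2.2.1.1.2.1 e)) *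
      (0 + x.2.1.2.2 (x.2.1.1.2.2.1.1.2.2.1 e)) := rfl
  rw [h, zero_add, zero_add, Nat.not_lt, Nat.le_zero]
  exact Nat.mul_eq_zero

theorem P14_light2 (x : P14_S.den) : P14_light (P14_i2 x) =
    ((range x.2.1.1.2.2.2.1.1).filter fun e => x.2.1.2.2 (x.2.1.1.2.2.2.1.2.2.1 e) = 0).card := by
  unfold P14_light
  congr 1
  refine Finset.filter_congr fun e _ => ?_
  have h : P14_fl (P14_i2 x) e = (1 + 0) *
      (0 + x.2.1.2.2 (x.2.1.1.2.2.2.1.2.2.1 e)) := rfl
  rw [h, zero_add, add_zero, one_mul, Nat.not_lt, Nat.le_zero]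

theorem P14_light3 (y : (Ty.prod P14_S MatT).den) : P14_light (P14_i3 y) =
    ((range y.1.2.1.1.2.2.1.2.1).filter fun e =>
      y.1.2.1.2.1 (y.1.2.1.1.2.2.1.2.2.1 e) = 0).card := by
  unfold P14_light
  congr 1
  refine Finset.filter_congr fun e _ => ?_
  have h : P14_fl (P14_i3 y) e = (0 + y.1.2.1.2.1 (y.1.2.1.1.2.2.1.2.2.1 e)) * (1 + 0) := rfl
  rw [h, zero_add, add_zero, mul_one, Nat.not_lt, Nat.le_zero]

/-- arithmetic -/
theorem P14_br {m k a c L h n R S : ℕ} (ha : a + c + L ≤ R + h) (hn : n ≤ S) :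
    m + (k + 1) * (a + c + L + h + 1) + n ≤ 2 * (m + (k + 1) * (R + h + 1) + S + 1) := by
  have h1 : (k + 1) * (a + c + L + h + 1) ≤ (k + 1) * (2 * (R + h + 1)) :=
    Nat.mul_le_mul_left _ (by omega)
  have h2 : (k + 1) * (2 * (R + h + 1)) = 2 * ((k + 1) * (R + h + 1)) := by ring
  omega

theorem P14_s1' (a b c d e f : ℕ) : c ≤ a + b + c + d + e + f := by omega
theorem P14_s2' (a b c d e f : ℕ) : e ≤ a + b + c + d + e + f := by omega
theorem P14_s3' (a b c d e f : ℕ) : d ≤ a + b + c + d + e + f := by omega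
theorem P14_q1' (a b c d e h : ℕ) : a + b + c ≤ a + b + c + d + e + h := by omega
theorem P14_q2' (a b c d e : ℕ) {h m : ℕ} (hm : m ≤ h) :
    m + b + e ≤ a + b + c + d + e + h := by omega
theorem P14_q3' (a b c d e : ℕ) {h m : ℕ} (hm : m ≤ h) :
    a + m + d ≤ a + b + c + d + e + h := by omega

theorem P14_s1 (x : OpT.den) : x.2.2.1.1.1 ≤ opSize x := P14_s1' _ _ _ _ _ _
theorem P14_s2 (x : OpT.den) : x.2.2.2.1.1 ≤ opSize x := P14_s2' _ _ _ _ _ _
theorem P14_s3 (x : OpT.den) : x.2.2.1.2.1 ≤ opSize x := P14_s3' _ _ _ _ _ _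

theorem P14_q1 (x : P14_S.den) : opR x.2.1.1 + opC x.2.1.1 + P14_light (P14_i1 x) ≤
    opRest x.2.1.1 x.2.1.2.1 x.2.1.2.2 + x.1.1 := by
  rw [P14_light1]
  exact P14_q1' _ _ _ _ _ _

theorem P14_q2 (x : P14_S.den) (hx : x.2.1.1.2.1.2 ≤ x.1.1) :
    x.2.1.1.2.1.2 + opC x.2.1.1 + P14_light (P14_i2 x) ≤
    opRest x.2.1.1 x.2.1.2.1 x.2.1.2.2 + x.1.1 := by
  rw [P14_light2]
  exact P14_q2' _ _ _ _ _ hx

theorem P14_q3 (y : (Ty.prod P14_S MatT).den) (hx : y.1.2.1.1.2.1.1 ≤ y.1.1.1) :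
    opR y.1.2.1.1 + y.1.2.1.1.2.1.1 + P14_light (P14_i3 y) ≤
    opRest y.1.2.1.1 y.1.2.1.2.1 y.1.2.1.2.2 + y.1.1.1 := by
  rw [P14_light3]
  exact P14_q3' _ _ _ _ _ hx

theorem P14_ar8 {A B m : ℕ} (h : A ≤ B) : A ≤ 1 * (B + m + 1) := by omega

/-- ranks -/
theorem P14_rank0 {f : ℕ → ℕ} {n h : ℕ} (hh : ((range n).filter fun p => f p ≠ 0).card ≤ h) :
    P14_rank 0 f n ≤ h := by
  refine le_trans (le_of_eq ?_) hh
  unfold P14_rank
  congr 1
  refine Finset.filter_congr fun p _ => ?_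
  rw [zero_add, Nat.pos_iff_ne_zero]

theorem P14_rank1 {f : ℕ → ℕ} {n h : ℕ} (hh : n ≤ h) : P14_rank 1 f n ≤ h := by
  refine le_trans ?_ hh
  unfold P14_rank
  refine (Finset.card_filter_le _ _).trans ?_
  rw [card_range]

theorem P14_sub_val (y : (Ty.prod P14_S (.prod MatT MatT)).den) :
    toM y.1.2.1.1.1.1 y.1.1.2 (P14_sub y) =
      toM y.1.2.1.1.1.1 y.1.1.2 y.2.1 - toM y.1.2.1.1.1.1 y.1.1.2 y.2.2 := by
  ext i l
  simp only [toM, P14_sub, Matrix.sub_apply]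
  rw [tabV_lt i.2, tabV_lt l.2]

theorem P14_opA (x : OpT.den) : toM (opR x) (opC x) (opA x) =
    toM (opR x) (opC x) (cooA x.2.2.1.1) - toM (opR x) x.2.1.1 (cooA x.2.2.1.2) *
      (toM x.2.1.1 x.2.1.2 x.2.2.2.2 * toM x.2.1.2 (opC x) (cooA x.2.2.2.1)) := by
  ext i j
  simp only [Matrix.sub_apply, Matrix.mul_apply, toM, opA]
  congr 1
  rw [Finset.sum_range]
  refine Finset.sum_congr rfl fun p _ => ?_
  rw [Finset.sum_range, Finset.mul_sum]
  refine Finset.sum_congr rfl fun r _ => ?_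
  ring

section dense

variable (Mul : Tm MatT) (mm : ℕ → ℕ) (hMul : MulOK Mul mm)
  (hmono : Monotone mm) (hsq : ∀ m, (m + 1) ^ 2 ≤ mm m) (hdbl : ∀ m, 1 ≤ m → 2 * mm m ≤ mm (2 * m))

include hMul hmono hsq

/-- product of an operator with `k` columns; input `((h, k), ((x, (fr, fc)), V))`, where `h` is a
bound for the dimensions of the heavy blocks -/
theorem opMM_prog : ∃ F : (Ty.prod (.prod .nat .nat)
      (.prod (.prod OpT (.prod NArr NArr)) MatT)).den → MatT.den,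
    OC (.prod (.prod .nat .nat) (.prod (.prod OpT (.prod NArr NArr)) MatT)) MatT
      (fun x => opHeavy x.2.1.1 x.2.1.2.1 x.2.1.2.2 x.1.1) F
      (fun x => mm (max x.1.1 x.1.2) +
        (x.1.2 + 1) * (opRest x.2.1.1 x.2.1.2.1 x.2.1.2.2 + x.1.1 + 1) +
        opSize x.2.1.1) ∧
    ∀ h k x fr fc V, opHeavy x fr fc h → OpOK x →
      toM (opR x) k (F ((h, k), ((x, (fr, fc)), V))) =
        toM (opR x) (opC x) (opA x) * toM (opC x) k V := by
  obtain ⟨Fd, hFd, hFd2⟩ := dmul_prog Mul mm hMul hmono hsq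
  have hM := P14_ochMM mm hmono hsq hFd
  refine ⟨P14_F Fd, ?_, ?_⟩
  · show OC P14_S MatT (fun x => opHeavy x.2.1.1 x.2.1.2.1 x.2.1.2.2 x.1.1) (P14_F Fd)
      (P14_w mm)
    have c1 : OC P14_S MatT (fun x => opHeavy x.2.1.1 x.2.1.2.1 x.2.1.2.2 x.1.1)
        (fun x => P14_hMM Fd (P14_i1 x)) (P14_w mm) := by
      refine OC.comp (F := P14_i1) hM ?_ (fun _ _ => trivial) 2 fun x hx => ?_
      · exact OC.pair (OC.fst OC.id) (OC.pair (OC.fst (OC.fst (OC.fst (OC.snd OC.id))))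
          (OC.pair (OC.fst (OC.fst (OC.snd (OC.snd (OC.fst (OC.fst (OC.snd OC.id)))))))
          (OC.pair (OC.pair (OC.pair (OC.nlit 0) (OC.fst (OC.snd (OC.fst (OC.snd OC.id)))))
            (OC.pair (OC.nlit 0) (OC.snd (OC.snd (OC.fst (OC.snd OC.id))))))
            (OC.snd (OC.snd OC.id)))))
      · exact P14_br (m := mm (max x.1.1 x.1.2)) (k := x.1.2) (P14_q1 x) (P14_s1 x.2.1.1)
    have c2 : OC P14_S MatT (fun x => opHeavy x.2.1.1 x.2.1.2.1 x.2.1.2.2 x.1.1)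
        (fun x => P14_hMM Fd (P14_i2 x)) (P14_w mm) := by
      refine OC.comp (F := P14_i2) hM ?_ (fun _ _ => trivial) 2 fun x hx => ?_
      · exact OC.pair (OC.fst OC.id) (OC.pair (OC.pair
          (OC.snd (OC.fst (OC.snd (OC.fst (OC.fst (OC.snd OC.id))))))
          (OC.snd (OC.fst (OC.fst (OC.fst (OC.snd OC.id))))))
          (OC.pair (OC.fst (OC.snd (OC.snd (OC.snd (OC.fst (OC.fst (OC.snd OC.id)))))))
          (OC.pair (OC.pair (OC.pair (OC.nlit 1) (OC.dflt _))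
            (OC.pair (OC.nlit 0) (OC.snd (OC.snd (OC.fst (OC.snd OC.id))))))
            (OC.snd (OC.snd OC.id)))))
      · exact P14_br (m := mm (max x.1.1 x.1.2)) (k := x.1.2) (P14_q2 x hx.2.2.2)
          (P14_s2 x.2.1.1)
    have c3 : OC P14_S MatT (fun x => opHeavy x.2.1.1 x.2.1.2.1 x.2.1.2.2 x.1.1)
        (fun x => Fd (P14_i4 (x, P14_hMM Fd (P14_i2 x)))) (P14_w mm) := by
      refine OC.comp (F := fun x : P14_S.den => P14_i4 (x, P14_hMM Fd (P14_i2 x))) hFd ?_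
        (fun _ _ => trivial) 1 fun x hx => ?_
      · exact OC.pair (OC.pair (OC.fst (OC.fst (OC.snd (OC.fst (OC.fst (OC.snd OC.id))))))
          (OC.pair (OC.snd (OC.fst (OC.snd (OC.fst (OC.fst (OC.snd OC.id))))))
            (OC.snd (OC.fst OC.id))))
          (OC.pair (OC.snd (OC.snd (OC.snd (OC.snd (OC.fst (OC.fst (OC.snd OC.id)))))))  c2)
      · have h1 : x.2.1.1.2.1.1 ≤ x.1.1 := hx.2.2.1
        have h2 : x.2.1.1.2.1.2 ≤ x.1.1 := hx.2.2.2
        have h3 : mm (max x.2.1.1.2.1.1 (max x.2.1.1.2.1.2 x.1.2)) ≤ mm (max x.1.1 x.1.2) :=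
          hmono (max_le (h1.trans (le_max_left _ _)) (max_le_max_right _ h2))
        show mm (max x.2.1.1.2.1.1 (max x.2.1.1.2.1.2 x.1.2)) ≤ _
        unfold P14_w
        omega
    have c4 : OC P14_S MatT (fun x => opHeavy x.2.1.1 x.2.1.2.1 x.2.1.2.2 x.1.1)
        (fun x => P14_hMM Fd (P14_i3 (x, Fd (P14_i4 (x, P14_hMM Fd (P14_i2 x))))))
        (P14_w mm) := by
      refine OC.comp (F := fun x : P14_S.den =>
        P14_i3 (x, Fd (P14_i4 (x, P14_hMM Fd (P14_i2 x))))) hM ?_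
        (fun _ _ => trivial) 2 fun x hx => ?_
      · exact OC.pair (OC.fst OC.id) (OC.pair (OC.pair
          (OC.fst (OC.fst (OC.fst (OC.fst (OC.snd OC.id)))))
          (OC.fst (OC.fst (OC.snd (OC.fst (OC.fst (OC.snd OC.id)))))))
          (OC.pair (OC.snd (OC.fst (OC.snd (OC.snd (OC.fst (OC.fst (OC.snd OC.id)))))))
          (OC.pair (OC.pair (OC.pair (OC.nlit 0) (OC.fst (OC.snd (OC.fst (OC.snd OC.id)))))
            (OC.pair (OC.nlit 1) (OC.dflt _))) c3)))
      · exact P14_br (m := mm (max x.1.1 x.1.2)) (k := x.1.2)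
          (P14_q3 (x, Fd (P14_i4 (x, P14_hMM Fd (P14_i2 x)))) hx.2.2.1) (P14_s3 x.2.1.1)
    have c5 : OC (.prod P14_S (.prod MatT MatT)) MatT (fun _ => True) P14_sub
        (fun y => y.1.2.1.1.1.1 * (y.1.1.2 + 1)) := by
      refine P14_tab2 (OC.fst (OC.fst (OC.fst (OC.fst (OC.snd (OC.fst OC.id))))))
        (OC.snd (OC.fst (OC.fst OC.id))) ?_ 1 fun x _ => by omega
      exact OC.sub (OC.get (OC.get (OC.fst (OC.snd (OC.fst (OC.fst OC.id))))
        (OC.snd (OC.fst OC.id))) (OC.snd OC.id)) (OC.get (OC.get (OC.snd (OC.snd (OC.fst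
        (OC.fst OC.id)))) (OC.snd (OC.fst OC.id))) (OC.snd OC.id))
    refine OC.comp (F := fun x : P14_S.den => ((x, (P14_hMM Fd (P14_i1 x),
      P14_hMM Fd (P14_i3 (x, Fd (P14_i4 (x, P14_hMM Fd (P14_i2 x))))))) :
      (Ty.prod P14_S (.prod MatT MatT)).den)) c5 (OC.pair OC.id (OC.pair c1 c4))
      (fun _ _ => trivial) 1 fun x _ => ?_
    have h1 : opR x.2.1.1 * (x.1.2 + 1) ≤
        (x.1.2 + 1) * (opRest x.2.1.1 x.2.1.2.1 x.2.1.2.2 + x.1.1 + 1) := by
      rw [Nat.mul_comm]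
      refine Nat.mul_le_mul_left _ ?_
      unfold opRest
      omega
    show opR x.2.1.1 * (x.1.2 + 1) ≤ _
    unfold P14_w
    omega
  · intro h k x fr fc V hh hx
    set y : P14_S.den := ((h, k), ((x, (fr, fc)), V)) with hy
    have e1 := P14_hMM_val hFd2 (P14_i1 y) hx.1 (P14_rank0 hh.1) (P14_rank0 hh.2.1)
    have e2 := P14_hMM_val hFd2 (P14_i2 y) hx.2.2 (P14_rank1 hh.2.2.2) (P14_rank0 hh.2.1)
    set Z2 := Fd (P14_i4 (y, P14_hMM Fd (P14_i2 y))) with hZ2
    have e3 : toM x.2.1.1 k Z2 = toM x.2.1.1 x.2.1.2 x.2.2.2.2 *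
        toM x.2.1.2 k (P14_hMM Fd (P14_i2 y)) := hFd2 _ _ _ _ _
    have e4 := P14_hMM_val hFd2 (P14_i3 (y, Z2)) hx.2.1 (P14_rank0 hh.1) (P14_rank1 hh.2.2.1)
    have e5 := P14_sub_val (y, (P14_hMM Fd (P14_i1 y), P14_hMM Fd (P14_i3 (y, Z2))))
    have e1' : toM (opR x) k (P14_hMM Fd (P14_i1 y)) =
        toM (opR x) (opC x) (cooA x.2.2.1.1) * toM (opC x) k V := e1
    have e2' : toM x.2.1.2 k (P14_hMM Fd (P14_i2 y)) =
        toM x.2.1.2 (opC x) (cooA x.2.2.2.1) * toM (opC x) k V := e2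
    have e4' : toM (opR x) k (P14_hMM Fd (P14_i3 (y, Z2))) =
        toM (opR x) x.2.1.1 (cooA x.2.2.1.2) * toM x.2.1.1 k Z2 := e4
    have e5' : toM (opR x) k (P14_F Fd y) = toM (opR x) k (P14_hMM Fd (P14_i1 y)) -
        toM (opR x) k (P14_hMM Fd (P14_i3 (y, Z2))) := e5
    rw [e5', e1', e4', e3, e2', P14_opA, Matrix.sub_mul]
    simp only [Matrix.mul_assoc]

end dense

end A55
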