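import Pool.Agent.Lib_helper50.A55.Prog
import Pool.Agent.Lib_helper50.A55.B.P12
import Pool.Agent.Lib_helper50.A55.B.P14
import Pool.Agent.Lib_helper50.A55.Alg
/-!
# MP_a55cb8, block P15: the base data (helper73)

The statements of `ginv_prog`, `opMM_prog` and the definitions `opRest`, `opHeavy` are copied on
top.
-/

open Matrix Finset

namespace A55

section P15

/-! ### transposed operators -/

/-- the transposed operator -/
noncomputable def P15_T (x : OpT.den) : OpT.den :=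
  ((x.1.2, x.1.1), ((x.2.1.2, x.2.1.1), ((cooT x.2.2.1.1, cooT x.2.2.2.1),
    (cooT x.2.2.1.2, tabV VecT x.2.1.2 fun r => tabV .real x.2.1.1 fun p => x.2.2.2.2 p r))))

theorem P15_cooA_T (x : CooT.den) (i j : ℕ) : cooA (cooT x) i j = cooA x j i := by
  unfold cooA cooT
  exact sum_congr rfl fun e _ => by simp only [and_comm]

theorem P15_opA_T (x : OpT.den) (i j : ℕ) : opA (P15_T x) i j = opA x j i := by
  have h1 : opA (P15_T x) i j = cooA (cooT x.2.2.1.1) i j -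
      ∑ p ∈ range x.2.1.2, ∑ r ∈ range x.2.1.1, cooA (cooT x.2.2.2.1) i p *
        (tabV VecT x.2.1.2 fun r => tabV .real x.2.1.1 fun p => x.2.2.2.2 p r) p r *
          cooA (cooT x.2.2.1.2) r j := rfl
  rw [h1, P15_cooA_T, opA, sum_comm]
  congr 1
  refine sum_congr rfl fun r hr => sum_congr rfl fun p hp => ?_
  rw [P15_cooA_T, P15_cooA_T, tabV_lt (mem_range.1 hp), tabV_lt (mem_range.1 hr)]
  ring

theorem P15_opOK_T (x : OpT.den) (h : OpOK x) : OpOK (P15_T x) := by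
  obtain ⟨h1, h2, h3⟩ := h
  exact ⟨fun e he => ⟨(h1 e he).2, (h1 e he).1⟩, fun e he => ⟨(h3 e he).2, (h3 e he).1⟩,
    fun e he => ⟨(h2 e he).2, (h2 e he).1⟩⟩

theorem P15_heavy_T (x : OpT.den) (fr fc : ℕ → ℕ) (h : ℕ) (H : opHeavy x fr fc h) :
    opHeavy (P15_T x) fc fr h := ⟨H.2.1, H.1, H.2.2.2, H.2.2.1⟩

theorem P15_rest_T (x : OpT.den) (fr fc : ℕ → ℕ) : opRest (P15_T x) fc fr = opRest x fr fc := by
  have h1 : opRest (P15_T x) fc fr = x.1.2 + x.1.1 +
    ((range x.2.2.1.1.1).filter fun e => fc (x.2.2.1.1.2.2.1 e) = 0 ∨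
      fr (x.2.2.1.1.2.1 e) = 0).card +
    ((range x.2.2.2.1.1).filter fun e => fc (x.2.2.2.1.2.2.1 e) = 0).card +
    ((range x.2.2.1.2.1).filter fun e => fr (x.2.2.1.2.2.1 e) = 0).card := rfl
  have h2 : opRest x fr fc = x.1.1 + x.1.2 +
    ((range x.2.2.1.1.1).filter fun e => fr (x.2.2.1.1.2.1 e) = 0 ∨
      fc (x.2.2.1.1.2.2.1 e) = 0).card +
    ((range x.2.2.1.2.1).filter fun e => fr (x.2.2.1.2.2.1 e) = 0).card +
    ((range x.2.2.2.1.1).filter fun e => fc (x.2.2.2.1.2.2.1 e) = 0).card := rfl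
  rw [h1, h2]
  have h3 : ((range x.2.2.1.1.1).filter fun e => fc (x.2.2.1.1.2.2.1 e) = 0 ∨
      fr (x.2.2.1.1.2.1 e) = 0) = (range x.2.2.1.1.1).filter fun e =>
        fr (x.2.2.1.1.2.1 e) = 0 ∨ fc (x.2.2.1.1.2.2.1 e) = 0 :=
    filter_congr fun e _ => or_comm
  rw [h3]
  ring

theorem P15_size_T (x : OpT.den) : opSize (P15_T x) = opSize x := by
  have h1 : opSize (P15_T x) = x.1.2 + x.1.1 + x.2.2.1.1.1 + x.2.2.2.1.1 + x.2.2.1.2.1 +
    (x.2.1.2 + 1) * (x.2.1.1 + 1) := rfl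
  have h2 : opSize x = x.1.1 + x.1.2 + x.2.2.1.1.1 + x.2.2.1.2.1 + x.2.2.2.1.1 +
    (x.2.1.1 + 1) * (x.2.1.2 + 1) := rfl
  rw [h1, h2]
  ring

theorem P15_T_OC : OC OpT OpT (fun _ => True) P15_T opSize := by
  have hT : ∀ {F : OpT.den → CooT.den}, OC OpT CooT (fun _ => True) F opSize →
      OC OpT CooT (fun _ => True) (fun x => cooT (F x)) opSize := by
    intro F hF
    exact OC.pair (OC.fst hF) (OC.pair (OC.fst (OC.snd (OC.snd hF)))
      (OC.pair (OC.fst (OC.snd hF)) (OC.snd (OC.snd (OC.snd hF)))))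
  have hG : OC OpT MatT (fun _ => True)
      (fun x => tabV VecT x.2.1.2 fun r => tabV .real x.2.1.1 fun p => x.2.2.2.2 p r)
      opSize := by
    refine OC.tab (s := OpT) (t := VecT) (N := fun x => x.2.1.2)
      (F := fun x r => tabV .real x.2.1.1 fun p => x.2.2.2.2 p r)
      (w' := fun p => p.1.2.1.1) (OC.snd (OC.fst (OC.snd OC.id))) ?_ 1 ?_
    · refine OC.tab0 (s := .prod OpT .nat) (t := .real) (N := fun p => p.1.2.1.1)
        (F := fun p q => p.1.2.2.2.2 q p.2) (OC.fst (OC.fst (OC.snd (OC.fst OC.id)))) ?_ 1 ?_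
      · exact OC.get (t := .real) (OC.get (t := VecT)
          (OC.snd (OC.snd (OC.snd (OC.snd (OC.fst (OC.fst OC.id)))))) (OC.snd OC.id))
          (OC.snd (OC.fst OC.id))
      · intro x _
        rw [one_mul]
        exact Nat.le_succ _
    · intro x _
      have h1 : ∑ j ∈ range x.2.1.2, (x.2.1.1 + 1) ≤ 1 * (opSize x + 1) := by
        rw [sum_const, card_range, smul_eq_mul, opSize]
        have h2 : (x.2.1.1 + 1) * (x.2.1.2 + 1) =
            x.2.1.2 * (x.2.1.1 + 1) + (x.2.1.1 + 1) := by ring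
        rw [h2, one_mul]
        exact ((Nat.le_add_right _ _).trans (Nat.le_add_left _ _)).trans (Nat.le_succ _)
      exact h1
  exact OC.pair (OC.pair (OC.snd (OC.fst OC.id)) (OC.fst (OC.fst OC.id)))
    (OC.pair (OC.pair (OC.snd (OC.fst (OC.snd OC.id))) (OC.fst (OC.fst (OC.snd OC.id))))
      (OC.pair (OC.pair (hT (OC.fst (OC.fst (OC.snd (OC.snd OC.id)))))
        (hT (OC.fst (OC.snd (OC.snd (OC.snd OC.id))))))
        (OC.pair (hT (OC.snd (OC.fst (OC.snd (OC.snd OC.id))))) hG)))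

/-! ### dense form of a list -/

/-- the dense matrix of a list -/
noncomputable def P15_dense (x : CooT.den) : MatT.den :=
  iterV (fun e V => Function.update V (x.2.1 e) (Function.update (V (x.2.1 e)) (x.2.2.1 e)
    (V (x.2.1 e) (x.2.2.1 e) + x.2.2.2 e))) MatT.default x.1

theorem P15_dense_eq (x : CooT.den) (i j : ℕ) : P15_dense x i j = cooA x i j := by
  unfold P15_dense cooA
  induction x.1 with
  | zero => rfl
  | succ m ih =>
    rw [iterV_succ, sum_range_succ, ← ih]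
    generalize (iterV (fun e V => Function.update V (x.2.1 e) (Function.update (V (x.2.1 e))
      (x.2.2.1 e) (V (x.2.1 e) (x.2.2.1 e) + x.2.2.2 e))) MatT.default m : MatT.den) = V
    by_cases h1 : x.2.1 m = i
    · subst h1
      rw [Function.update_self]
      by_cases h2 : x.2.2.1 m = j
      · subst h2
        rw [Function.update_self, if_pos ⟨rfl, rfl⟩]
      · rw [Function.update_of_ne (Ne.symm h2), if_neg (fun h => h2 h.2), add_zero]
    · rw [Function.update_of_ne (Ne.symm h1), if_neg (fun h => h1 h.1), add_zero]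

theorem P15_dense_OC : OC CooT MatT (fun _ => True) P15_dense (fun x => x.1) := by
  refine OC.iter0 (s := CooT) (t := MatT) (N := fun x => x.1) (A := fun _ => MatT.default)
    (B := fun x e V => Function.update V (x.2.1 e) (Function.update (V (x.2.1 e)) (x.2.2.1 e)
      (V (x.2.1 e) (x.2.2.1 e) + x.2.2.2 e))) (OC.fst OC.id) (OC.dflt MatT) ?_ 1 ?_
  · have hr : OC (.prod CooT (.prod .nat MatT)) .nat (fun _ => True)
        (fun p => p.1.2.1 p.2.1) (fun _ => 0) :=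
      OC.get (t := .nat) (OC.fst (OC.snd (OC.fst OC.id))) (OC.fst (OC.snd OC.id))
    have hc : OC (.prod CooT (.prod .nat MatT)) .nat (fun _ => True)
        (fun p => p.1.2.2.1 p.2.1) (fun _ => 0) :=
      OC.get (t := .nat) (OC.fst (OC.snd (OC.snd (OC.fst OC.id)))) (OC.fst (OC.snd OC.id))
    have hv : OC (.prod CooT (.prod .nat MatT)) .real (fun _ => True)
        (fun p => p.1.2.2.2 p.2.1) (fun _ => 0) :=
      OC.get (t := .real) (OC.snd (OC.snd (OC.snd (OC.fst OC.id)))) (OC.fst (OC.snd OC.id))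
    have hV : OC (.prod CooT (.prod .nat MatT)) MatT (fun _ => True)
        (fun p => p.2.2) (fun _ => 0) := OC.snd (OC.snd OC.id)
    exact OC.upd (t := VecT) hV hr (OC.upd (t := .real) (OC.get (t := VecT) hV hr) hc
      (OC.add (OC.get (t := .real) (OC.get (t := VecT) hV hr) hc) hv))
  · intro x _
    rw [one_mul]
    exact Nat.le_succ _

/-! ### `Ωᵀ W` -/

/-- `Ωᵀ W`, input `(k, (Ω, W))` -/
noncomputable def P15_om (x : (Ty.prod .nat (.prod CooT MatT)).den) : MatT.den :=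
  iterV (fun e H => Function.update H (x.2.1.2.2.1 e) (tabV .real x.1 fun t =>
    H (x.2.1.2.2.1 e) t + x.2.1.2.2.2 e * x.2.2 (x.2.1.2.1 e) t)) MatT.default x.2.1.1

theorem P15_om_OC : OC (.prod .nat (.prod CooT MatT)) MatT (fun _ => True) P15_om
    (fun x => (x.1 + 1) * (x.2.1.1 + 1)) := by
  refine OC.iter (s := .prod .nat (.prod CooT MatT)) (t := MatT) (N := fun x => x.2.1.1)
    (A := fun _ => MatT.default)
    (B := fun x e H => Function.update H (x.2.1.2.2.1 e) (tabV .real x.1 fun t =>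
      H (x.2.1.2.2.1 e) t + x.2.1.2.2.2 e * x.2.2 (x.2.1.2.1 e) t))
    (w' := fun p => p.1.1) (OC.fst (OC.fst (OC.snd OC.id))) (OC.dflt MatT) ?_ 1 ?_
  · refine OC.weaken (V := fun _ => True) ?_ fun _ _ => trivial
    refine OC.upd (t := VecT) (OC.snd (OC.snd OC.id))
      (OC.get (t := .nat) (OC.fst (OC.snd (OC.snd (OC.fst (OC.snd (OC.fst OC.id))))))
        (OC.fst (OC.snd OC.id))) ?_
    refine OC.tab0 (s := .prod (.prod .nat (.prod CooT MatT)) (.prod .nat MatT)) (t := .real)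
      (N := fun p => p.1.1)
      (F := fun p t => p.2.2 (p.1.2.1.2.2.1 p.2.1) t +
        p.1.2.1.2.2.2 p.2.1 * p.1.2.2 (p.1.2.1.2.1 p.2.1) t) (OC.fst (OC.fst OC.id)) ?_ 1 ?_
    · have he : OC (.prod (.prod (.prod .nat (.prod CooT MatT)) (.prod .nat MatT)) .nat) .nat
          (fun _ => True) (fun p => p.1.2.1) (fun _ => 0) := OC.fst (OC.snd (OC.fst OC.id))
      have ht : OC (.prod (.prod (.prod .nat (.prod CooT MatT)) (.prod .nat MatT)) .nat) .nat
          (fun _ => True) (fun p => p.2) (fun _ => 0) := OC.snd OC.id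
      have hO : OC (.prod (.prod (.prod .nat (.prod CooT MatT)) (.prod .nat MatT)) .nat) CooT
          (fun _ => True) (fun p => p.1.1.2.1) (fun _ => 0) :=
        OC.fst (OC.snd (OC.fst (OC.fst OC.id)))
      have hW : OC (.prod (.prod (.prod .nat (.prod CooT MatT)) (.prod .nat MatT)) .nat) MatT
          (fun _ => True) (fun p => p.1.1.2.2) (fun _ => 0) :=
        OC.snd (OC.snd (OC.fst (OC.fst OC.id)))
      have hH : OC (.prod (.prod (.prod .nat (.prod CooT MatT)) (.prod .nat MatT)) .nat) MatT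
          (fun _ => True) (fun p => p.1.2.2) (fun _ => 0) := OC.snd (OC.snd (OC.fst OC.id))
      exact OC.add (OC.get (t := .real) (OC.get (t := VecT) hH
        (OC.get (t := .nat) (OC.fst (OC.snd (OC.snd hO))) he)) ht)
        (OC.mul (OC.get (t := .real) (OC.snd (OC.snd (OC.snd hO))) he)
          (OC.get (t := .real) (OC.get (t := VecT) hW
            (OC.get (t := .nat) (OC.fst (OC.snd hO)) he)) ht))
    · intro x _
      rw [one_mul]
      exact Nat.le_succ _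
  · intro x _
    have h1 : ∑ j ∈ range x.2.1.1, (x.1 + 1) ≤ 1 * ((x.1 + 1) * (x.2.1.1 + 1) + 1) := by
      rw [sum_const, card_range, smul_eq_mul, one_mul]
      have h2 : (x.1 + 1) * (x.2.1.1 + 1) = x.2.1.1 * (x.1 + 1) + (x.1 + 1) := by ring
      rw [h2]
      exact le_trans (Nat.le_add_right _ _) (Nat.le_add_right _ _)
    exact h1

theorem P15_om_eq (n k : ℕ) (Om : CooT.den) (W : MatT.den) (hO : CooOK n k Om) :
    toM k k (P15_om (k, (Om, W))) = (toM n k (cooA Om))ᵀ * toM n k W := by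
  have key : ∀ m : ℕ, ∀ j t : ℕ, t < k →
      (iterV (fun e H => Function.update H (Om.2.2.1 e) (tabV .real k fun t =>
        H (Om.2.2.1 e) t + Om.2.2.2 e * W (Om.2.1 e) t)) MatT.default m : MatT.den) j t =
      ∑ e ∈ range m, if Om.2.2.1 e = j then Om.2.2.2 e * W (Om.2.1 e) t else 0 := by
    intro m
    induction m with
    | zero => intro j t _; rfl
    | succ m ih =>
      intro j t ht
      rw [iterV_succ, sum_range_succ, ← ih j t ht]
      by_cases h : Om.2.2.1 m = j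
      · subst h
        rw [Function.update_self, tabV_lt ht, if_pos rfl]
      · rw [Function.update_of_ne (Ne.symm h), if_neg h, add_zero]
  ext ⟨j, hj⟩ ⟨t, ht⟩
  have h1 : toM k k (P15_om (k, (Om, W))) ⟨j, hj⟩ ⟨t, ht⟩ =
      (iterV (fun e H => Function.update H (Om.2.2.1 e) (tabV .real k fun t =>
        H (Om.2.2.1 e) t + Om.2.2.2 e * W (Om.2.1 e) t)) MatT.default Om.1 : MatT.den) j t := rfl
  rw [h1, key Om.1 j t ht, Matrix.mul_apply]
  have h2 : ∑ i : Fin n, (toM n k (cooA Om))ᵀ ⟨j, hj⟩ i * toM n k W i ⟨t, ht⟩ =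
      ∑ i ∈ range n, cooA Om i j * W i t :=
    (Finset.sum_range (fun i => cooA Om i j * W i t)).symm
  rw [h2]
  unfold cooA
  simp only [Finset.sum_mul]
  rw [Finset.sum_comm]
  refine sum_congr rfl fun e he => ?_
  have h3 := (hO e (mem_range.1 he)).1
  rw [Finset.sum_eq_single (Om.2.1 e)]
  · by_cases h : Om.2.2.1 e = j
    · rw [if_pos h, if_pos ⟨rfl, h⟩]
    · rw [if_neg h, if_neg (fun h' => h h'.2), zero_mul]
  · intro i _ hi
    rw [if_neg (fun h' => hi h'.1.symm), zero_mul]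
  · intro h
    exact absurd (mem_range.2 h3) h

/-! ### linear combinations -/

/-- `H2 + λ H1`, input `((k, λ), (H1, H2))` -/
noncomputable def P15_lin (x : (Ty.prod (.prod .nat .real) (.prod MatT MatT)).den) : MatT.den :=
  tabV VecT x.1.1 fun i => tabV .real x.1.1 fun j => x.2.2 i j + x.1.2 * x.2.1 i j

theorem P15_lin_OC : OC (.prod (.prod .nat .real) (.prod MatT MatT)) MatT (fun _ => True) P15_lin
    (fun x => (x.1.1 + 1) ^ 2) := by
  refine OC.tab (s := .prod (.prod .nat .real) (.prod MatT MatT)) (t := VecT)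
    (N := fun x => x.1.1)
    (F := fun x i => tabV .real x.1.1 fun j => x.2.2 i j + x.1.2 * x.2.1 i j)
    (w' := fun p => p.1.1.1) (OC.fst (OC.fst OC.id)) ?_ 1 ?_
  · refine OC.tab0 (s := .prod (.prod (.prod .nat .real) (.prod MatT MatT)) .nat) (t := .real)
      (N := fun p => p.1.1.1)
      (F := fun p j => p.1.2.2 p.2 j + p.1.1.2 * p.1.2.1 p.2 j)
      (OC.fst (OC.fst (OC.fst OC.id))) ?_ 1 ?_
    · have hi : OC (.prod (.prod (.prod (.prod .nat .real) (.prod MatT MatT)) .nat) .nat) .nat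
          (fun p => True) (fun p => p.1.2) (fun _ => 0) := OC.snd (OC.fst OC.id)
      have hj : OC (.prod (.prod (.prod (.prod .nat .real) (.prod MatT MatT)) .nat) .nat) .nat
          (fun p => True) (fun p => p.2) (fun _ => 0) := OC.snd OC.id
      refine OC.weaken (V := fun _ => True) ?_ fun _ _ => trivial
      exact OC.add (OC.get (t := .real) (OC.get (t := VecT)
          (OC.snd (OC.snd (OC.fst (OC.fst OC.id)))) hi) hj)
        (OC.mul (OC.snd (OC.fst (OC.fst (OC.fst OC.id))))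
          (OC.get (t := .real) (OC.get (t := VecT)
            (OC.fst (OC.snd (OC.fst (OC.fst OC.id)))) hi) hj))
    · intro x _
      rw [one_mul]
      exact Nat.le_succ _
  · intro x _
    have h1 : ∑ j ∈ range x.1.1, (x.1.1 + 1) ≤ 1 * ((x.1.1 + 1) ^ 2 + 1) := by
      rw [sum_const, card_range, smul_eq_mul, one_mul]
      have h2 : (x.1.1 + 1) ^ 2 = x.1.1 * (x.1.1 + 1) + (x.1.1 + 1) := by ring
      rw [h2]
      exact le_trans (Nat.le_add_right _ _) (Nat.le_add_right _ _)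
    exact h1

theorem P15_lin_eq (k : ℕ) (lam : ℝ) (H1 H2 : MatT.den) :
    toM k k (P15_lin ((k, lam), (H1, H2))) = toM k k H2 + lam • toM k k H1 := by
  ext ⟨i, hi⟩ ⟨j, hj⟩
  show tabV VecT k (fun i => tabV .real k fun j => H2 i j + lam * H1 i j) i j = _
  rw [tabV_lt hi, tabV_lt hj]
  rfl

/-! ### the steps -/

/-- input type -/
abbrev P15_I : Ty := Ty.prod (.prod (.prod .nat .nat) (.prod .nat .nat))
  (.prod .real (.prod (.prod OpT (.prod NArr NArr)) CooT))

/-- input type of the operator products -/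
abbrev P15_M : Ty := Ty.prod (.prod .nat .nat) (.prod (.prod OpT (.prod NArr NArr)) MatT)

/-- `W ↦ XᵀX W` -/
def P15_step (F1 : P15_M.den → MatT.den) (x : P15_I.den) (xT : OpT.den) (W : MatT.den) :
    MatT.den :=
  F1 ((x.1.1.1, x.1.2.1), ((xT, (x.2.2.1.2.2, x.2.2.1.2.1)),
    F1 ((x.1.1.1, x.1.2.1), ((x.2.2.1.1, (x.2.2.1.2.1, x.2.2.1.2.2)), W))))

/-- validity of the input -/
def P15_V (x : P15_I.den) : Prop :=
  opHeavy x.2.2.1.1 x.2.2.1.2.1 x.2.2.1.2.2 x.1.1.1 ∧ x.1.1.1 ≤ 2 ^ x.1.1.2 ∧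
    x.1.2.1 ≤ 2 ^ x.1.1.2

/-- cost of one step -/
def P15_wu (mm : ℕ → ℕ) (x : P15_I.den) : ℕ :=
  mm (2 ^ x.1.1.2) +
    (x.1.2.1 + 1) * (opRest x.2.2.1.1 x.2.2.1.2.1 x.2.2.1.2.2 + x.1.1.1 + 1) +
    opSize x.2.2.1.1

theorem P15_wu_pos (mm : ℕ → ℕ) (x : P15_I.den) : 1 ≤ P15_wu mm x := by
  unfold P15_wu
  have h1 : 1 ≤ (x.1.2.1 + 1) * (opRest x.2.2.1.1 x.2.2.1.2.1 x.2.2.1.2.2 + x.1.1.1 + 1) :=
    Nat.succ_le_of_lt (Nat.mul_pos (Nat.succ_pos _) (Nat.succ_pos _))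
  exact h1.trans ((Nat.le_add_left _ _).trans (Nat.le_add_right _ _))

theorem P15_step_OC (mm : ℕ → ℕ) (hmono : Monotone mm) (F1 : P15_M.den → MatT.den)
    (hF1 : OC P15_M MatT (fun x => opHeavy x.2.1.1 x.2.1.2.1 x.2.1.2.2 x.1.1) F1
      (fun x => mm (max x.1.1 x.1.2) +
        (x.1.2 + 1) * (opRest x.2.1.1 x.2.1.2.1 x.2.1.2.2 + x.1.1 + 1) +
        opSize x.2.1.1))
    {s : Ty} {V : s.den → Prop} {w : s.den → ℕ} {X : s.den → P15_I.den}
    {XT : s.den → OpT.den} {W : s.den → MatT.den} (hX : OC s P15_I V X w)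
    (hXT : OC s OpT V XT w) (hW : OC s MatT V W w)
    (hV : ∀ p, V p → P15_V (X p) ∧ XT p = P15_T (X p).2.2.1.1)
    (hw : ∀ p, V p → P15_wu mm (X p) ≤ w p) :
    OC s MatT V (fun p => P15_step F1 (X p) (XT p) (W p)) w := by
  have hcost : ∀ p, V p → mm (max (X p).1.1.1 (X p).1.2.1) ≤ mm (2 ^ (X p).1.1.2) :=
    fun p hp => hmono (max_le (hV p hp).1.2.1 (hV p hp).1.2.2)
  have h1 : OC s MatT V (fun p => F1 (((X p).1.1.1, (X p).1.2.1),
      (((X p).2.2.1.1, ((X p).2.2.1.2.1, (X p).2.2.1.2.2)), W p))) w := by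
    refine OC.comp (s := s) (u := P15_M) (t := MatT)
      (F := fun p => (((X p).1.1.1, (X p).1.2.1),
        (((X p).2.2.1.1, ((X p).2.2.1.2.1, (X p).2.2.1.2.2)), W p))) hF1 ?_ ?_ 1 ?_
    · exact OC.pair (OC.pair (OC.fst (OC.fst (OC.fst hX))) (OC.fst (OC.snd (OC.fst hX))))
        (OC.pair (OC.pair (OC.fst (OC.fst (OC.snd (OC.snd hX))))
          (OC.pair (OC.fst (OC.snd (OC.fst (OC.snd (OC.snd hX)))))
            (OC.snd (OC.snd (OC.fst (OC.snd (OC.snd hX))))))) hW)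
    · intro p hp
      exact (hV p hp).1.1
    · intro p hp
      have h2 := hw p hp
      have h3 := hcost p hp
      unfold P15_wu at h2
      show mm (max (X p).1.1.1 (X p).1.2.1) + ((X p).1.2.1 + 1) *
        (opRest (X p).2.2.1.1 (X p).2.2.1.2.1 (X p).2.2.1.2.2 + (X p).1.1.1 + 1) +
        opSize (X p).2.2.1.1 ≤ 1 * (w p + 1)
      rw [one_mul]
      omega
  refine OC.comp (s := s) (u := P15_M) (t := MatT)
    (F := fun p => (((X p).1.1.1, (X p).1.2.1),
      ((XT p, ((X p).2.2.1.2.2, (X p).2.2.1.2.1)), F1 (((X p).1.1.1, (X p).1.2.1),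
      (((X p).2.2.1.1, ((X p).2.2.1.2.1, (X p).2.2.1.2.2)), W p))))) hF1 ?_ ?_ 1 ?_
  · exact OC.pair (OC.pair (OC.fst (OC.fst (OC.fst hX))) (OC.fst (OC.snd (OC.fst hX))))
      (OC.pair (OC.pair hXT
        (OC.pair (OC.snd (OC.snd (OC.fst (OC.snd (OC.snd hX)))))
          (OC.fst (OC.snd (OC.fst (OC.snd (OC.snd hX))))))) h1)
  · intro p hp
    show opHeavy (XT p) (X p).2.2.1.2.2 (X p).2.2.1.2.1 (X p).1.1.1
    rw [(hV p hp).2]
    exact P15_heavy_T _ _ _ _ (hV p hp).1.1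
  · intro p hp
    have h2 := hw p hp
    have h3 := hcost p hp
    unfold P15_wu at h2
    show mm (max (X p).1.1.1 (X p).1.2.1) + ((X p).1.2.1 + 1) *
      (opRest (XT p) (X p).2.2.1.2.2 (X p).2.2.1.2.1 + (X p).1.1.1 + 1) +
      opSize (XT p) ≤ 1 * (w p + 1)
    rw [(hV p hp).2, P15_rest_T, P15_size_T, one_mul]
    omega

/-- the main function -/
noncomputable def P15_F (F1 : P15_M.den → MatT.den)
    (F2 : (Ty.prod (.prod .nat .nat) MatT).den → MatT.den) (x : P15_I.den) : BaseT.den :=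
  letV (P15_T x.2.2.1.1) fun xT =>
    letV (iterV (fun _ W => P15_step F1 x xT W) (P15_dense x.2.2.2) (2 * x.1.2.2)) fun W =>
      letV (P15_om (x.1.2.1, (x.2.2.2, W))) fun H1 =>
        ((x.1.2.2, x.1.2.1), (x.2.2.2, (F2 ((x.1.1.2, x.1.2.1), H1),
          F2 ((x.1.1.2, x.1.2.1), P15_lin ((x.1.2.1, x.2.1),
            (H1, P15_om (x.1.2.1, (x.2.2.2, P15_step F1 x xT W))))))))

/-- the cost -/
def P15_w (mm : ℕ → ℕ) (x : P15_I.den) : ℕ :=
  (x.1.2.2 + 1) * P15_wu mm x + (x.1.1.2 + 1) * mm (2 ^ x.1.1.2) +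
    (x.1.2.1 + 1) * (x.2.2.2.1 + 1)

theorem P15_F_OC (mm : ℕ → ℕ) (hmono : Monotone mm) (hsq : ∀ m, (m + 1) ^ 2 ≤ mm m)
    (F1 : P15_M.den → MatT.den)
    (hF1 : OC P15_M MatT (fun x => opHeavy x.2.1.1 x.2.1.2.1 x.2.1.2.2 x.1.1) F1
      (fun x => mm (max x.1.1 x.1.2) +
        (x.1.2 + 1) * (opRest x.2.1.1 x.2.1.2.1 x.2.1.2.2 + x.1.1 + 1) +
        opSize x.2.1.1))
    (F2 : (Ty.prod (.prod .nat .nat) MatT).den → MatT.den)
    (hF2 : OC (.prod (.prod .nat .nat) MatT) MatT (fun _ => True) F2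
      (fun x => (x.1.1 + 1) * mm (2 ^ x.1.1))) :
    OC P15_I BaseT P15_V (P15_F F1 F2) (P15_w mm) := by
  have hu : ∀ x, P15_wu mm x ≤ P15_w mm x := by
    intro x
    unfold P15_w
    have h1 : P15_wu mm x ≤ (x.1.2.2 + 1) * P15_wu mm x :=
      Nat.le_mul_of_pos_left _ (Nat.succ_pos _)
    omega
  have hsz : ∀ x : P15_I.den, opSize x.2.2.1.1 ≤ P15_w mm x := by
    intro x
    have h1 := hu x
    unfold P15_wu at h1
    omega
  have hom : ∀ x : P15_I.den, (x.1.2.1 + 1) * (x.2.2.2.1 + 1) ≤ P15_w mm x := by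
    intro x
    unfold P15_w
    exact Nat.le_add_left _ _
  have hlen : ∀ x : P15_I.den, x.2.2.2.1 ≤ P15_w mm x := by
    intro x
    have h1 := hom x
    have h2 : x.2.2.2.1 + 1 ≤ (x.1.2.1 + 1) * (x.2.2.2.1 + 1) :=
      Nat.le_mul_of_pos_left _ (Nat.succ_pos _)
    exact le_trans (Nat.le_succ _) (le_trans h2 h1)
  have hginv : ∀ x : P15_I.den, (x.1.1.2 + 1) * mm (2 ^ x.1.1.2) ≤ P15_w mm x := by
    intro x
    unfold P15_w
    exact (Nat.le_add_left _ _).trans (Nat.le_add_right _ _)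
  have hk2 : ∀ x : P15_I.den, P15_V x → (x.1.2.1 + 1) ^ 2 ≤ P15_w mm x := by
    intro x hx
    have h1 : (x.1.2.1 + 1) ^ 2 ≤ mm x.1.2.1 := hsq _
    have h2 : mm x.1.2.1 ≤ mm (2 ^ x.1.1.2) := hmono hx.2.2
    have h3 := hu x
    unfold P15_wu at h3
    omega
  refine OC.let_ (s := P15_I) (u := OpT) (t := BaseT) (A := fun x => P15_T x.2.2.1.1)
    (B := fun x xT => letV (iterV (fun _ W => P15_step F1 x xT W) (P15_dense x.2.2.2)
      (2 * x.1.2.2)) fun W =>
      letV (P15_om (x.1.2.1, (x.2.2.2, W))) fun H1 =>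
        ((x.1.2.2, x.1.2.1), (x.2.2.2, (F2 ((x.1.1.2, x.1.2.1), H1),
          F2 ((x.1.1.2, x.1.2.1), P15_lin ((x.1.2.1, x.2.1),
            (H1, P15_om (x.1.2.1, (x.2.2.2, P15_step F1 x xT W)))))))))
    (w' := fun p => P15_w mm p.1) ?_ ?_ 1 ?_
  · exact OC.comp (s := P15_I) (u := OpT) (t := OpT) (F := fun x => x.2.2.1.1) P15_T_OC
      (OC.fst (OC.fst (OC.snd (OC.snd OC.id)))) (fun _ _ => trivial) 1
      fun x _ => by
        rw [one_mul]
        exact (hsz x).trans (Nat.le_succ _)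
  · refine OC.let_ (s := .prod P15_I OpT) (u := MatT) (t := BaseT)
      (A := fun p => iterV (fun _ W => P15_step F1 p.1 p.2 W) (P15_dense p.1.2.2.2)
        (2 * p.1.1.2.2))
      (B := fun p W =>
        letV (P15_om (p.1.1.2.1, (p.1.2.2.2, W))) fun H1 =>
          ((p.1.1.2.2, p.1.1.2.1), (p.1.2.2.2, (F2 ((p.1.1.1.2, p.1.1.2.1), H1),
            F2 ((p.1.1.1.2, p.1.1.2.1), P15_lin ((p.1.1.2.1, p.1.2.1),
              (H1, P15_om (p.1.1.2.1, (p.1.2.2.2, P15_step F1 p.1 p.2 W)))))))))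
      (w' := fun p => P15_w mm p.1.1) ?_ ?_ 1 ?_
    · refine OC.iter (s := .prod P15_I OpT) (t := MatT) (N := fun p => 2 * p.1.1.2.2)
        (A := fun p => P15_dense p.1.2.2.2) (B := fun p _ W => P15_step F1 p.1 p.2 W)
        (w' := fun q => P15_wu mm q.1.1) ?_ ?_ ?_ 4 ?_
      · exact OC.nmul (OC.nlit 2) (OC.snd (OC.snd (OC.fst (OC.fst OC.id))))
      · exact OC.comp (s := .prod P15_I OpT) (u := CooT) (t := MatT)
          (F := fun p => p.1.2.2.2) P15_dense_OC (OC.snd (OC.snd (OC.snd (OC.fst OC.id))))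
          (fun _ _ => trivial) 1 fun p _ => by
            rw [one_mul]
            exact (hlen p.1).trans (Nat.le_succ _)
      · exact P15_step_OC mm hmono F1 hF1 (s := .prod (.prod P15_I OpT) (.prod .nat MatT))
          (X := fun q => q.1.1) (XT := fun q => q.1.2) (W := fun q => q.2.2)
          (OC.fst (OC.fst OC.id)) (OC.snd (OC.fst OC.id)) (OC.snd (OC.snd OC.id))
          (fun q hq => hq.1) (fun q _ => le_rfl)
      · intro p _
        have h1 : ∑ j ∈ range (2 * p.1.1.2.2), (P15_wu mm p.1 + 1) ≤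
            4 * (P15_w mm p.1 + 1) := by
          rw [sum_const, card_range, smul_eq_mul]
          have h2 := P15_wu_pos mm p.1
          unfold P15_w
          nlinarith [Nat.zero_le ((p.1.1.1.2 + 1) * mm (2 ^ p.1.1.1.2)),
            Nat.zero_le ((p.1.1.2.1 + 1) * (p.1.2.2.2.1 + 1)),
            Nat.zero_le (p.1.1.2.2 * P15_wu mm p.1),
            Nat.mul_le_mul_left (p.1.1.2.2) h2]
        exact h1
    · refine OC.let_ (s := .prod (.prod P15_I OpT) MatT) (u := MatT) (t := BaseT)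
        (A := fun p => P15_om (p.1.1.1.2.1, (p.1.1.2.2.2, p.2)))
        (B := fun p H1 =>
          ((p.1.1.1.2.2, p.1.1.1.2.1), (p.1.1.2.2.2, (F2 ((p.1.1.1.1.2, p.1.1.1.2.1), H1),
            F2 ((p.1.1.1.1.2, p.1.1.1.2.1), P15_lin ((p.1.1.1.2.1, p.1.1.2.1),
              (H1, P15_om (p.1.1.1.2.1, (p.1.1.2.2.2, P15_step F1 p.1.1 p.1.2 p.2)))))))))
        (w' := fun p => P15_w mm p.1.1.1) ?_ ?_ 1 ?_
      · exact OC.comp (s := .prod (.prod P15_I OpT) MatT) (u := .prod .nat (.prod CooT MatT))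
          (t := MatT) (F := fun p => (p.1.1.1.2.1, (p.1.1.2.2.2, p.2))) P15_om_OC
          (OC.pair (OC.fst (OC.snd (OC.fst (OC.fst (OC.fst OC.id)))))
            (OC.pair (OC.snd (OC.snd (OC.snd (OC.fst (OC.fst OC.id))))) (OC.snd OC.id)))
          (fun _ _ => trivial) 1 fun p _ => by
            rw [one_mul]
            exact (hom p.1.1).trans (Nat.le_succ _)
      · -- the result
        have hx : OC (.prod (.prod (.prod P15_I OpT) MatT) MatT) P15_I
            (fun q => ((P15_V q.1.1.1 ∧ q.1.1.2 = P15_T q.1.1.1.2.2.1.1) ∧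
              q.1.2 = iterV (fun _ W => P15_step F1 q.1.1.1 q.1.1.2 W)
                (P15_dense q.1.1.1.2.2.2) (2 * q.1.1.1.1.2.2)) ∧
              q.2 = P15_om (q.1.1.1.1.2.1, (q.1.1.1.2.2.2, q.1.2)))
            (fun q => q.1.1.1) (fun q => P15_w mm q.1.1.1) :=
          OC.fst (OC.fst (OC.fst OC.id))
        have hst : OC (.prod (.prod (.prod P15_I OpT) MatT) MatT) MatT
            (fun q => ((P15_V q.1.1.1 ∧ q.1.1.2 = P15_T q.1.1.1.2.2.1.1) ∧
              q.1.2 = iterV (fun _ W => P15_step F1 q.1.1.1 q.1.1.2 W)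
                (P15_dense q.1.1.1.2.2.2) (2 * q.1.1.1.1.2.2)) ∧
              q.2 = P15_om (q.1.1.1.1.2.1, (q.1.1.1.2.2.2, q.1.2)))
            (fun q => P15_step F1 q.1.1.1 q.1.1.2 q.1.2) (fun q => P15_w mm q.1.1.1) :=
          P15_step_OC mm hmono F1 hF1 (s := .prod (.prod (.prod P15_I OpT) MatT) MatT)
            (X := fun q => q.1.1.1) (XT := fun q => q.1.1.2) (W := fun q => q.1.2)
            hx (OC.snd (OC.fst (OC.fst OC.id))) (OC.snd (OC.fst OC.id))
            (fun q hq => hq.1.1) (fun q _ => hu q.1.1.1)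
        have hW2 := OC.comp (s := .prod (.prod (.prod P15_I OpT) MatT) MatT)
          (u := .prod .nat (.prod CooT MatT)) (t := MatT)
          (F := fun q => (q.1.1.1.1.2.1, (q.1.1.1.2.2.2, P15_step F1 q.1.1.1 q.1.1.2 q.1.2)))
          P15_om_OC (OC.pair (OC.fst (OC.snd (OC.fst hx)))
            (OC.pair (OC.snd (OC.snd (OC.snd hx))) hst)) (fun _ _ => trivial) 1 fun q _ => by
            rw [one_mul]
            exact (hom q.1.1.1).trans (Nat.le_succ _)
        have hlin := OC.comp (s := .prod (.prod (.prod P15_I OpT) MatT) MatT)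
          (u := .prod (.prod .nat .real) (.prod MatT MatT)) (t := MatT)
          (F := fun q => ((q.1.1.1.1.2.1, q.1.1.1.2.1), (q.2,
            P15_om (q.1.1.1.1.2.1, (q.1.1.1.2.2.2, P15_step F1 q.1.1.1 q.1.1.2 q.1.2)))))
          P15_lin_OC (OC.pair (OC.pair (OC.fst (OC.snd (OC.fst hx))) (OC.fst (OC.snd hx)))
            (OC.pair (OC.snd OC.id) hW2)) (fun _ _ => trivial) 1 fun q hq => by
            rw [one_mul]
            exact (hk2 q.1.1.1 hq.1.1.1).trans (Nat.le_succ _)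
        have hZ1 := OC.comp (s := .prod (.prod (.prod P15_I OpT) MatT) MatT)
          (u := .prod (.prod .nat .nat) MatT) (t := MatT)
          (F := fun q => ((q.1.1.1.1.1.2, q.1.1.1.1.2.1), q.2)) hF2
          (OC.pair (OC.pair (OC.snd (OC.fst (OC.fst hx))) (OC.fst (OC.snd (OC.fst hx))))
            (OC.snd OC.id)) (fun _ _ => trivial) 1 fun q hq => by
            rw [one_mul]
            exact (hginv q.1.1.1).trans (Nat.le_succ _)
        have hZ2 := OC.comp (s := .prod (.prod (.prod P15_I OpT) MatT) MatT)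
          (u := .prod (.prod .nat .nat) MatT) (t := MatT)
          (F := fun q => ((q.1.1.1.1.1.2, q.1.1.1.1.2.1), P15_lin ((q.1.1.1.1.2.1, q.1.1.1.2.1),
            (q.2, P15_om (q.1.1.1.1.2.1, (q.1.1.1.2.2.2,
              P15_step F1 q.1.1.1 q.1.1.2 q.1.2)))))) hF2
          (OC.pair (OC.pair (OC.snd (OC.fst (OC.fst hx))) (OC.fst (OC.snd (OC.fst hx))))
            hlin) (fun _ _ => trivial) 1 fun q hq => by
            rw [one_mul]
            exact (hginv q.1.1.1).trans (Nat.le_succ _)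
        exact OC.pair (OC.pair (OC.snd (OC.snd (OC.fst hx))) (OC.fst (OC.snd (OC.fst hx))))
          (OC.pair (OC.snd (OC.snd (OC.snd hx))) (OC.pair hZ1 hZ2))
      · intro p _
        rw [one_mul]
        exact Nat.le_succ _
    · intro p _
      rw [one_mul]
      exact Nat.le_succ _
  · intro p _
    rw [one_mul]
    exact Nat.le_succ _

end P15

section dense

variable (Mul : Tm MatT) (mm : ℕ → ℕ) (hMul : MulOK Mul mm)
  (hmono : Monotone mm) (hsq : ∀ m, (m + 1) ^ 2 ≤ mm m) (hdbl : ∀ m, 1 ≤ m → 2 * mm m ≤ mm (2 * m))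

include hMul hmono hsq hdbl

/-- base data; input `(((h, s), (k, q)), (λ, ((x, (fr, fc)), Ω)))`: the operator is `X = x` (flag
`0`), `Ω` has `k ≤ 2^s` columns.  Output: `((q, k), (Ω, (Z1, Z2)))` -/
theorem base_prog : ∃ F : (Ty.prod (.prod (.prod .nat .nat) (.prod .nat .nat))
      (.prod .real (.prod (.prod OpT (.prod NArr NArr)) CooT))).den → BaseT.den,
    OC (.prod (.prod (.prod .nat .nat) (.prod .nat .nat))
      (.prod .real (.prod (.prod OpT (.prod NArr NArr)) CooT))) BaseT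
      (fun x => opHeavy x.2.2.1.1 x.2.2.1.2.1 x.2.2.1.2.2 x.1.1.1 ∧ x.1.1.1 ≤ 2 ^ x.1.1.2 ∧
        x.1.2.1 ≤ 2 ^ x.1.1.2) F
      (fun x => (x.1.2.2 + 1) * (mm (2 ^ x.1.1.2) +
          (x.1.2.1 + 1) * (opRest x.2.2.1.1 x.2.2.1.2.1 x.2.2.1.2.2 + x.1.1.1 + 1) +
          opSize x.2.2.1.1) +
        (x.1.1.2 + 1) * mm (2 ^ x.1.1.2) + (x.1.2.1 + 1) * (x.2.2.2.1 + 1)) ∧
    ∀ h s k q lam x fr fc Om, opHeavy x fr fc h → h ≤ 2 ^ s → k ≤ 2 ^ s → OpOK x →
      CooOK (opC x) k Om → 0 ≤ lam →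
      ∀ (X : Matrix (Fin (opR x)) (Fin (opC x)) ℝ) (Y : Matrix (Fin (opC x)) (Fin k) ℝ)
        (y : BaseT.den), X = toM _ _ (opA x) →
        Y = (Xᵀ * X) ^ q * toM (opC x) k (cooA Om) →
        y = F (((h, s), (k, q)), (lam, ((x, (fr, fc)), Om))) →
        y.1 = (q, k) ∧ y.2.1 = Om ∧
        (toM k k y.2.2.1)ᵀ = toM k k y.2.2.1 ∧ (toM k k y.2.2.2)ᵀ = toM k k y.2.2.2 ∧
        (Yᵀ * Y) * toM k k y.2.2.1 * (Yᵀ * Y) = Yᵀ * Y ∧
        (Yᵀ * gram X lam * Y) * toM k k y.2.2.2 * (Yᵀ * gram X lam * Y) =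
          Yᵀ * gram X lam * Y := by
  obtain ⟨F1, hF1, hF1v⟩ := opMM_prog Mul mm hMul hmono hsq
  obtain ⟨F2, hF2, hF2v⟩ := ginv_prog Mul mm hMul hmono hsq hdbl
  refine ⟨P15_F F1 F2, P15_F_OC mm hmono hsq F1 hF1 F2 hF2, ?_⟩
  intro h s k q lam x fr fc Om hh hs hk hOK hOm hlam X Y y hX hY hy
  obtain ⟨I, hI⟩ : ∃ I : P15_I.den, I = (((h, s), (k, q)), (lam, ((x, (fr, fc)), Om))) :=
    ⟨_, rfl⟩
  -- one step
  have hstep : ∀ W : MatT.den, toM (opC x) k (P15_step F1 I (P15_T x) W) =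
      (Xᵀ * X) * toM (opC x) k W := by
    intro W
    have e1 := hF1v h k x fr fc W hh hOK
    have e2 := hF1v h k (P15_T x) fc fr (F1 ((h, k), ((x, (fr, fc)), W)))
      (P15_heavy_T x fr fc h hh) (P15_opOK_T x hOK)
    have e3 : toM (opC x) k (P15_step F1 I (P15_T x) W) =
        toM (opR (P15_T x)) k (F1 ((h, k), ((P15_T x, (fc, fr)),
          F1 ((h, k), ((x, (fr, fc)), W))))) := by
      rw [hI]; rfl
    rw [e3, e2]
    have e4 : toM (opC (P15_T x)) k (F1 ((h, k), ((x, (fr, fc)), W))) =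
        toM (opR x) k (F1 ((h, k), ((x, (fr, fc)), W))) := rfl
    have e5 : toM (opR (P15_T x)) (opC (P15_T x)) (opA (P15_T x)) = Xᵀ := by
      ext i j
      rw [hX]
      exact P15_opA_T x i j
    rw [e4, e1, e5, ← hX]
    exact (Matrix.mul_assoc _ _ _).symm
  have hiter : ∀ m : ℕ, toM (opC x) k
      (iterV (fun _ W => P15_step F1 I (P15_T x) W) (P15_dense Om) m) =
      (Xᵀ * X) ^ m * toM (opC x) k (cooA Om) := by
    intro m
    induction m with
    | zero =>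
      rw [iterV_zero, pow_zero, Matrix.one_mul]
      ext i j
      exact P15_dense_eq Om i j
    | succ m ih =>
      rw [iterV_succ, hstep, ih, ← Matrix.mul_assoc, pow_succ']
  obtain ⟨W, hW⟩ : ∃ W : MatT.den, W = iterV (fun _ W => P15_step F1 I (P15_T x) W)
    (P15_dense Om) (2 * q) := ⟨_, rfl⟩
  obtain ⟨H1, hH1⟩ : ∃ H1 : MatT.den, H1 = P15_om (k, (Om, W)) := ⟨_, rfl⟩
  obtain ⟨H2, hH2⟩ : ∃ H2 : MatT.den, H2 = P15_lin ((k, lam),
    (H1, P15_om (k, (Om, P15_step F1 I (P15_T x) W)))) := ⟨_, rfl⟩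
  have hyv : y = ((q, k), (Om, (F2 ((s, k), H1), F2 ((s, k), H2)))) := by
    rw [hy, hH2, hH1, hW, hI]; rfl
  have hsymm : (Xᵀ * X)ᵀ = Xᵀ * X := by rw [transpose_mul, transpose_transpose]
  have hWv : toM (opC x) k W = (Xᵀ * X) ^ q * Y := by
    rw [hW, hiter, hY, two_mul, pow_add, Matrix.mul_assoc]
  have hOY : ∀ B : Matrix (Fin (opC x)) (Fin k) ℝ,
      (toM (opC x) k (cooA Om))ᵀ * ((Xᵀ * X) ^ q * B) = Yᵀ * B := by
    intro B
    rw [hY, transpose_mul, transpose_pow, hsymm, Matrix.mul_assoc]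
  have hH1v : toM k k H1 = Yᵀ * Y := by
    rw [hH1, P15_om_eq (opC x) k Om W hOm, hWv, hOY]
  have hH2v : toM k k H2 = Yᵀ * gram X lam * Y := by
    rw [hH2, P15_lin_eq, P15_om_eq (opC x) k Om _ hOm, hstep, hWv, hH1v, gram]
    have e1 : Xᵀ * X * ((Xᵀ * X) ^ q * Y) = (Xᵀ * X) ^ q * (Xᵀ * X * Y) := by
      rw [← Matrix.mul_assoc, ← Matrix.mul_assoc, ← pow_succ', ← pow_succ]
    rw [e1, hOY, Matrix.mul_add, Matrix.add_mul, Matrix.mul_smul, Matrix.mul_one,
      Matrix.smul_mul]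
    simp only [Matrix.mul_assoc]
  have hps1 : (toM k k H1).PosSemidef := by
    rw [hH1v]
    have := posSemidef_conjTranspose_mul_self Y
    rwa [conjTranspose_eq_transpose_of_trivial] at this
  have hps2 : (toM k k H2).PosSemidef := by
    have e1 : toM k k H2 = (X * Y)ᵀ * (X * Y) + lam • (Yᵀ * Y) := by
      rw [hH2v, gram, Matrix.mul_add, Matrix.add_mul, Matrix.mul_smul, Matrix.mul_one,
        Matrix.smul_mul, transpose_mul]
      simp only [Matrix.mul_assoc]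
    rw [e1]
    have h1 := posSemidef_conjTranspose_mul_self (X * Y)
    have h2 := posSemidef_conjTranspose_mul_self Y
    rw [conjTranspose_eq_transpose_of_trivial] at h1 h2
    exact h1.add (h2.smul hlam)
  obtain ⟨a1, a2⟩ := hF2v s k H1 hk hps1
  obtain ⟨b1, b2⟩ := hF2v s k H2 hk hps2
  rw [hyv]
  refine ⟨rfl, rfl, a1, b1, ?_, ?_⟩
  · rw [← hH1v]; exact a2
  · rw [← hH2v]; exact b2

end dense

end A55
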