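import Pool.Agent.Lib_helper50.A55.Prog
import Pool.Agent.Lib_helper50.A55.B.P1
/-!
# Block P2 of the program layer of MP_a55cb8 (helper35)
-/

open Matrix Finset

namespace A55




theorem P2_toM (a c m1 m2 : ℕ) (x : OpT.den) (h2 : x.2.1 = (m1, m2)) :
    toM a c (opA x) = toM a c (cooA x.2.2.1.1) -
      toM a m1 (cooA x.2.2.1.2) * (toM m1 m2 x.2.2.2.2 * toM m2 c (cooA x.2.2.2.1)) := by
  ext i j
  have e1 : x.2.1.1 = m1 := by rw [h2]
  have e2 : x.2.1.2 = m2 := by rw [h2]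
  simp only [toM, opA, Matrix.sub_apply, Matrix.mul_apply, e1, e2]
  rw [Finset.sum_range]
  congr 1
  apply Finset.sum_congr rfl
  intro p _
  rw [Finset.sum_range, Finset.mul_sum]
  apply Finset.sum_congr rfl
  intro r _
  ring

/-- application of an operator -/
theorem P2_op : ∃ F : (Ty.prod OpT VecT).den → VecT.den,
    OC (.prod OpT VecT) VecT (fun _ => True) F (fun x => opSize x.1) ∧
    ∀ x v, OpOK x → toV (opR x) (F (x, v)) = toM (opR x) (opC x) (opA x) *ᵥ toV (opC x) v := by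
  obtain ⟨L, hL, hL'⟩ := lin_prog
  obtain ⟨S, hS, hS'⟩ := mvCoo_prog
  obtain ⟨D, hD, hD'⟩ := mvDense_prog
  have pOp : OC (.prod OpT VecT) OpT (fun _ => True) (fun x => x.1) (fun x => opSize x.1) :=
    OC.fst OC.id
  have pV : OC (.prod OpT VecT) VecT (fun _ => True) (fun x => x.2) (fun x => opSize x.1) :=
    OC.snd OC.id
  have p3 : OC (.prod OpT VecT) VecT (fun _ => True)
      (fun x => S (x.1.2.1.2, (x.1.2.2.2.1, x.2))) (fun x => opSize x.1) :=
    OC.comp hS (OC.pair (OC.snd (OC.fst (OC.snd pOp)))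
      (OC.pair (OC.fst (OC.snd (OC.snd (OC.snd pOp)))) pV)) (fun _ _ => trivial) 1 (by
        intro x _
        simp only [opSize]
        nlinarith [Nat.zero_le (x.1.2.1.1 * x.1.2.1.2)])
  have pD : OC (.prod OpT VecT) VecT (fun _ => True)
      (fun x => D ((x.1.2.1.1, x.1.2.1.2), (x.1.2.2.2.2, S (x.1.2.1.2, (x.1.2.2.2.1, x.2)))))
      (fun x => opSize x.1) :=
    OC.comp hD (OC.pair (OC.pair (OC.fst (OC.fst (OC.snd pOp))) (OC.snd (OC.fst (OC.snd pOp))))
      (OC.pair (OC.snd (OC.snd (OC.snd (OC.snd pOp)))) p3)) (fun _ _ => trivial) 1 (by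
        intro x _
        simp only [opSize]
        omega)
  have p2 : OC (.prod OpT VecT) VecT (fun _ => True)
      (fun x => S (x.1.1.1, (x.1.2.2.1.2,
        D ((x.1.2.1.1, x.1.2.1.2), (x.1.2.2.2.2, S (x.1.2.1.2, (x.1.2.2.2.1, x.2)))))))
      (fun x => opSize x.1) :=
    OC.comp hS (OC.pair (OC.fst (OC.fst pOp))
      (OC.pair (OC.snd (OC.fst (OC.snd (OC.snd pOp)))) pD)) (fun _ _ => trivial) 1 (by
        intro x _
        simp only [opSize]
        omega)
  have p1 : OC (.prod OpT VecT) VecT (fun _ => True)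
      (fun x => S (x.1.1.1, (x.1.2.2.1.1, x.2))) (fun x => opSize x.1) :=
    OC.comp hS (OC.pair (OC.fst (OC.fst pOp))
      (OC.pair (OC.fst (OC.fst (OC.snd (OC.snd pOp)))) pV)) (fun _ _ => trivial) 1 (by
        intro x _
        simp only [opSize]
        omega)
  refine ⟨fun x => L (x.1.1.1, ((1, S (x.1.1.1, (x.1.2.2.1.1, x.2))),
    (-1, S (x.1.1.1, (x.1.2.2.1.2,
      D ((x.1.2.1.1, x.1.2.1.2), (x.1.2.2.2.2, S (x.1.2.1.2, (x.1.2.2.2.1, x.2))))))))), ?_, ?_⟩
  · exact OC.comp hL (OC.pair (OC.fst (OC.fst pOp)) (OC.pair (OC.pair OC.r1 p1)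
      (OC.pair (OC.neg OC.r1) p2))) (fun _ _ => trivial) 1 (by
        intro x _
        simp only [opSize]
        omega)
  · rintro x v ⟨h1, h2, h3⟩
    rw [P2_toM (opR x) (opC x) x.2.1.1 x.2.1.2 x rfl]
    show toV x.1.1 (L _) = _
    rw [hL', hS' _ _ _ _ h1, hS' _ _ _ _ h2, hD', hS' _ _ _ _ h3]
    rw [Matrix.sub_mulVec, one_smul, neg_one_smul, ← sub_eq_add_neg, ← Matrix.mulVec_mulVec,
      ← Matrix.mulVec_mulVec]
    rfl

/-- the transposed operator -/
def P2_tr (x : OpT.den) : OpT.den :=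
  ((x.1.2, x.1.1), ((x.2.1.2, x.2.1.1), ((cooT x.2.2.1.1, cooT x.2.2.2.1),
    (cooT x.2.2.1.2, tabV VecT x.2.1.2 fun j => tabV .real x.2.1.1 fun i => x.2.2.2.2 i j))))

theorem P2_cooA (x : CooT.den) (i j : ℕ) : cooA (cooT x) i j = cooA x j i := by
  unfold cooA cooT
  apply Finset.sum_congr rfl
  intro e _
  exact if_congr and_comm rfl rfl

theorem P2_cooOK {a c : ℕ} {x : CooT.den} (h : CooOK a c x) : CooOK c a (cooT x) :=
  fun e he => ⟨(h e he).2, (h e he).1⟩

theorem P2_opA (x : OpT.den) (i j : ℕ) : opA (P2_tr x) i j = opA x j i := by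
  unfold opA
  simp only [P2_tr, P2_cooA]
  congr 1
  rw [Finset.sum_comm]
  apply Finset.sum_congr rfl
  intro p hp
  apply Finset.sum_congr rfl
  intro r hr
  rw [tabV_lt (Finset.mem_range.1 hr), tabV_lt (Finset.mem_range.1 hp)]
  ring

theorem P2_OpOK {x : OpT.den} (h : OpOK x) : OpOK (P2_tr x) :=
  ⟨P2_cooOK h.1, P2_cooOK h.2.2, P2_cooOK h.2.1⟩

theorem P2_cooT_prog {s : Ty} {V : s.den → Prop} {w : s.den → ℕ} {F : s.den → CooT.den}
    (h : OC s CooT V F w) : OC s CooT V (fun x => cooT (F x)) w :=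
  OC.pair (OC.fst h) (OC.pair (OC.fst (OC.snd (OC.snd h))) (OC.pair (OC.fst (OC.snd h))
    (OC.snd (OC.snd (OC.snd h)))))

theorem P2_tr_prog : OC OpT OpT (fun _ => True) P2_tr opSize := by
  have q : OC OpT OpT (fun _ => True) (fun x => x) opSize := OC.id
  have hin : OC (.prod OpT .nat) VecT (fun p => True ∧ p.2 < p.1.2.1.2)
      (fun p => tabV .real p.1.2.1.1 fun i => p.1.2.2.2.2 i p.2) (fun p => p.1.2.1.1) := by
    refine OC.tab0 (F := fun (p : (Ty.prod OpT .nat).den) (i : ℕ) => p.1.2.2.2.2 i p.2)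
      (OC.fst (OC.fst (OC.snd (OC.fst OC.id)))) ?_ 1 (fun p _ => by omega)
    exact OC.get (OC.get (OC.snd (OC.snd (OC.snd (OC.snd (OC.fst (OC.fst OC.id)))))) (OC.snd OC.id))
      (OC.snd (OC.fst OC.id))
  refine OC.pair (OC.pair (OC.snd (OC.fst q)) (OC.fst (OC.fst q)))
    (OC.pair (OC.pair (OC.snd (OC.fst (OC.snd q))) (OC.fst (OC.fst (OC.snd q))))
      (OC.pair (OC.pair (P2_cooT_prog (OC.fst (OC.fst (OC.snd (OC.snd q)))))
        (P2_cooT_prog (OC.fst (OC.snd (OC.snd (OC.snd q))))))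
        (OC.pair (P2_cooT_prog (OC.snd (OC.fst (OC.snd (OC.snd q))))) ?_)))
  refine OC.tab (F := fun (x : OpT.den) (j : ℕ) => tabV .real x.2.1.1 fun i => x.2.2.2.2 i j)
    (OC.snd (OC.fst (OC.snd q))) hin 1 ?_
  intro x _
  show ∑ _j ∈ range x.2.1.2, (x.2.1.1 + 1) ≤ 1 * (opSize x + 1)
  rw [Finset.sum_const, Finset.card_range, smul_eq_mul]
  have key : ∀ a b s : ℕ, b * (a + 1) ≤ 1 * (s + (a + 1) * (b + 1) + 1) := by
    intro a b s
    nlinarith
  exact key _ _ _

/-- application of a flagged operator -/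
theorem mvOp_prog : ∃ F : (Ty.prod FOpT VecT).den → VecT.den,
    OC (.prod FOpT VecT) VecT (fun _ => True) F (fun x => opSize x.1.2) ∧
    ∀ x v, OpOK x.2 → toV (fopR x) (F (x, v)) = fopM x *ᵥ toV (fopC x) v := by
  obtain ⟨F, hF, hF'⟩ := P2_op
  have pOp : OC (.prod FOpT VecT) OpT (fun _ => True) (fun x => x.1.2)
      (fun x => opSize x.1.2) := OC.snd (OC.fst OC.id)
  have pV : OC (.prod FOpT VecT) VecT (fun _ => True) (fun x => x.2)
      (fun x => opSize x.1.2) := OC.snd OC.id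
  have pT : OC (.prod FOpT VecT) OpT (fun _ => True) (fun x => P2_tr x.1.2)
      (fun x => opSize x.1.2) :=
    OC.comp P2_tr_prog pOp (fun _ _ => trivial) 1 (fun x _ => by omega)
  refine ⟨fun x => if x.1.1 = 0 then F (x.1.2, x.2) else F (P2_tr x.1.2, x.2), ?_, ?_⟩
  · refine OC.ifEq (OC.fst (OC.fst OC.id)) (OC.nlit 0) ?_ ?_
    · exact OC.comp hF (OC.pair pOp pV) (fun _ _ => trivial) 1 (fun x _ => by simp only; omega)
    · exact OC.comp hF (OC.pair pT pV) (fun _ _ => trivial) 2 (by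
        intro x _
        simp only [opSize, P2_tr, cooT]
        nlinarith [Nat.zero_le (x.1.2.2.1.1 * x.1.2.2.1.2)])
  · intro x v hx
    obtain ⟨f, x⟩ := x
    by_cases hf : f = 0
    · subst hf
      exact hF' x v hx
    · have e1 : fopR (f, x) = opR (P2_tr x) := by
        unfold fopR
        rw [if_neg hf]
        rfl
      have e2 : fopC (f, x) = opC (P2_tr x) := by
        unfold fopC
        rw [if_neg hf]
        rfl
      have h1 := hF' (P2_tr x) v (P2_OpOK hx)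
      have e3 : fopA (f, x) = opA (P2_tr x) := by
        funext i j
        unfold fopA
        rw [if_neg hf]
        exact (P2_opA x i j).symm
      show toV (fopR (f, x)) (if f = 0 then _ else _) = _
      rw [if_neg hf]
      unfold fopM
      rw [e3]
      have key : ∀ (r c : ℕ), r = opR (P2_tr x) → c = opC (P2_tr x) →
          toV r (F (P2_tr x, v)) = toM r c (opA (P2_tr x)) *ᵥ toV c v := by
        rintro r c rfl rfl
        exact h1
      exact key _ _ e1 e2

end A55
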