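import Pool.Agent.Lib_helper50.A55.Prog
import Pool.Agent.Lib_helper50.A55.ProbIface
import Pool.Agent.Lib_helper50.A55.Alg
/-!
# MP_a55cb8: block P3 (sketches), helper5
-/

open Matrix Finset

namespace A55

/-! ### nested loops -/

theorem P3_inner {α : Type} (c : ℕ) (g : ℕ → α) (r : ℕ → α) (m : ℕ) (e : ℕ) :
    iterV (fun i r' => Function.update r' (c + i) (g i)) r m e =
      if c ≤ e ∧ e < c + m then g (e - c) else r e := by
  induction m with
  | zero =>
    rw [iterV_zero, if_neg (by omega)]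
  | succ m ih =>
    rw [iterV_succ]
    by_cases h : e = c + m
    · rw [h, Function.update_self, if_pos (by omega)]
      congr 1
      omega
    · rw [Function.update_of_ne h, ih]
      by_cases h2 : c ≤ e ∧ e < c + m
      · rw [if_pos h2, if_pos (by omega)]
      · rw [if_neg h2, if_neg (by omega)]

theorem P3_outer {α : Type} (n : ℕ) (g : ℕ → ℕ → α) (r : ℕ → α) (T t i : ℕ) (ht : t < T)
    (hi : i < n) :
    iterV (fun t r => iterV (fun i r' => Function.update r' (t * n + i) (g t i)) r n) r T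
      (t * n + i) = g t i := by
  induction T with
  | zero => omega
  | succ T ih =>
    rw [iterV_succ, P3_inner (T * n) (g T)]
    rcases Nat.lt_or_ge t T with h | h
    · have h1 : t * n + n ≤ T * n := by nlinarith
      rw [if_neg (by omega)]
      exact ih h
    · have h1 : t = T := by omega
      subst h1
      rw [if_pos (by omega)]
      congr 1
      omega

/-- the type of the inputs -/
abbrev P3_S : Ty := .prod .nat (.prod .nat (.prod .nat NArr))

theorem P3_c0 (a : ℕ) : a ≤ 1 * (a + 1) := by omega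

theorem P3_c1 (n b : ℕ) : ∑ _j ∈ range n, (b + 1) ≤ 1 * ((n + 1) * (b + 1) + 1) := by
  rw [sum_const, card_range, smul_eq_mul]
  nlinarith

theorem P3_c2 (J n b : ℕ) : ∑ _j ∈ range J, ((n + 1) * (b + 1) + 1) ≤
    2 * ((J + 1) * (n + 1) * (b + 1) + 2 ^ b + 1) := by
  rw [sum_const, card_range, smul_eq_mul]
  have h4 : 1 ≤ (n + 1) * (b + 1) := Nat.succ_le_of_lt (by positivity)
  have h5 : J * 1 ≤ J * ((n + 1) * (b + 1)) := Nat.mul_le_mul_left _ h4
  have h6 : (J + 1) * (n + 1) * (b + 1) = J * ((n + 1) * (b + 1)) + (n + 1) * (b + 1) := by ring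
  have h7 : J * ((n + 1) * (b + 1) + 1) = J * ((n + 1) * (b + 1)) + J * 1 := by ring
  rw [h6, h7]
  linarith [Nat.zero_le (2 ^ b)]

theorem P3_nest {u : Ty} (g : P3_S.den → ℕ → ℕ → u.den)
    (hg : OC (.prod P3_S (.prod .nat .nat)) u (fun _ => True)
      (fun p => g p.1 p.2.1 p.2.2) (fun p => p.1.2.2.1)) :
    OC P3_S (.arr u) (fun _ => True)
      (fun x => iterV (fun t r => iterV (fun i r' => Function.update r' (t * x.1 + i) (g x t i))
        r x.1) (Ty.arr u).default x.2.1)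
      (fun x => (x.2.1 + 1) * (x.1 + 1) * (x.2.2.1 + 1) + 2 ^ x.2.2.1) := by
  have h1 : OC (.prod (.prod P3_S (.prod .nat (.arr u))) (.prod .nat (.arr u))) (.arr u)
      (fun _ => True)
      (fun q => Function.update q.2.2 (q.1.2.1 * q.1.1.1 + q.2.1) (g q.1.1 q.1.2.1 q.2.1))
      (fun q => q.1.1.2.2.1) := by
    refine OC.upd (OC.snd (OC.snd OC.id)) ?_ ?_
    · exact OC.nadd (OC.nmul (OC.fst (OC.snd (OC.fst OC.id))) (OC.fst (OC.fst (OC.fst OC.id))))
        (OC.fst (OC.snd OC.id))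
    · refine OC.comp (s := .prod (.prod P3_S (.prod .nat (.arr u))) (.prod .nat (.arr u)))
        (V := fun _ => True) (w := fun q => q.1.1.2.2.1)
        (F := fun q => (q.1.1, (q.1.2.1, q.2.1))) hg
        (OC.pair (OC.fst (OC.fst OC.id)) (OC.pair (OC.fst (OC.snd (OC.fst OC.id)))
          (OC.fst (OC.snd OC.id)))) (fun _ _ => trivial) 1 (fun q _ => ?_)
      exact P3_c0 q.1.1.2.2.1
  have h2 : OC (.prod P3_S (.prod .nat (.arr u))) (.arr u) (fun _ => True)
      (fun p => iterV (fun i r' => Function.update r' (p.2.1 * p.1.1 + i) (g p.1 p.2.1 i))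
        p.2.2 p.1.1)
      (fun p => (p.1.1 + 1) * (p.1.2.2.1 + 1)) := by
    refine OC.iter (s := .prod P3_S (.prod .nat (.arr u))) (t := .arr u)
      (N := fun p => p.1.1) (A := fun p => p.2.2)
      (B := fun p i r' => Function.update r' (p.2.1 * p.1.1 + i) (g p.1 p.2.1 i))
      (OC.fst (OC.fst OC.id)) (OC.snd (OC.snd OC.id)) (h1.weaken fun _ _ => trivial) 1
      fun p _ => ?_
    exact P3_c1 p.1.1 p.1.2.2.1
  refine OC.iter (s := P3_S) (t := .arr u)
    (N := fun x => x.2.1) (A := fun _ => (Ty.arr u).default)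
    (B := fun x t r => iterV (fun i r' => Function.update r' (t * x.1 + i) (g x t i)) r x.1)
    (OC.fst (OC.snd OC.id)) (OC.dflt _) (h2.weaken fun _ _ => trivial) 2 fun x _ => ?_
  exact P3_c2 x.2.1 x.1 x.2.2.1

/-! ### the hash as a number -/

/-- the number with the binary digits `f 0, ..., f (b-1)` -/
def P3_hash (f : ℕ → Bool) (b : ℕ) : ℕ :=
  iterV (fun s acc => 2 * acc + (if f s = true then 1 else 0)) 0 b

theorem P3_hash_lt (f : ℕ → Bool) (b : ℕ) : P3_hash f b < 2 ^ b := by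
  unfold P3_hash
  induction b with
  | zero => simp
  | succ b ih =>
    rw [iterV_succ, pow_succ]
    split_ifs <;> omega

theorem P3_hash_inj (f g : ℕ → Bool) (b : ℕ) :
    P3_hash f b = P3_hash g b ↔ ∀ s < b, f s = g s := by
  unfold P3_hash
  induction b with
  | zero => simp
  | succ b ih =>
    rw [iterV_succ, iterV_succ]
    constructor
    · intro h s hs
      have h1 : iterV (fun s acc => 2 * acc + (if f s = true then 1 else 0)) 0 b =
          iterV (fun s acc => 2 * acc + (if g s = true then 1 else 0)) 0 b := by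
        split_ifs at h <;> omega
      rcases Nat.lt_or_ge s b with h2 | h2
      · exact ih.mp h1 s h2
      · have h3 : s = b := by omega
        subst h3
        rw [h1] at h
        cases hf : f s <;> cases hg : g s <;> simp [hf, hg] at h ⊢
    · intro h
      rw [ih.mpr fun s hs => h s (by omega), h b (by omega)]

/-- the extension of a finite word -/
def P3_ext {b : ℕ} (β : Fin b → Bool) (s : ℕ) : Bool := if h : s < b then β ⟨s, h⟩ else false

/-- the index of a bucket -/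
def P3_ix {b : ℕ} (β : Fin b → Bool) : Fin (2 ^ b) := ⟨P3_hash (P3_ext β) b, P3_hash_lt _ _⟩

theorem P3_ix_bij (b : ℕ) : Function.Bijective (P3_ix (b := b)) := by
  rw [Fintype.bijective_iff_injective_and_card]
  refine ⟨fun β γ h => ?_, by simp⟩
  have h1 := (P3_hash_inj (P3_ext β) (P3_ext γ) b).mp (congrArg Fin.val h)
  funext s
  have h2 := h1 s.1 s.2
  simpa [P3_ext] using h2

/-! ### double ranges -/

theorem P3_range_mul (f : ℕ → ℝ) (J n : ℕ) :
    ∑ e ∈ range (J * n), f e = ∑ t ∈ range J, ∑ i ∈ range n, f (t * n + i) := by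
  induction J with
  | zero => simp
  | succ J ih => rw [Nat.succ_mul, sum_range_add, ih, sum_range_succ]

/-! ### the program -/

theorem P3_pow : OC .nat .nat (fun _ => True) (fun b => 2 ^ b) (fun b => b) := by
  refine (OC.iter0 (s := .nat) (t := .nat) (N := fun b => b) (A := fun _ => 1)
    (B := fun _ _ v => v + v) OC.id (OC.nlit 1)
    (OC.nadd (OC.snd (OC.snd OC.id)) (OC.snd (OC.snd OC.id))) 1 fun x _ => by omega).congr
    fun b _ => ?_
  have : ∀ m, iterV (fun (_ : ℕ) (v : ℕ) => v + v) 1 m = 2 ^ m := by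
    intro m
    induction m with
    | zero => rfl
    | succ m ih => rw [iterV_succ, ih, pow_succ]; ring
  exact this b

/-- the hash read off the array of bits, input `(c, (b, bits))` -/
theorem P3_hashOC : OC (.prod .nat (.prod .nat NArr)) .nat (fun _ => True)
    (fun y => P3_hash (fun s => decide (y.2.2 (y.1 + s) = 1)) y.2.1) (fun y => y.2.1) := by
  refine (OC.iter0 (s := .prod .nat (.prod .nat NArr)) (t := .nat) (N := fun y => y.2.1)
    (A := fun _ => 0)
    (B := fun y s acc => 2 * acc + (if y.2.2 (y.1 + s) = 1 then 1 else 0))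
    (OC.fst (OC.snd OC.id)) (OC.nlit 0) ?_ 1 fun x _ => by omega).congr fun y _ => ?_
  · refine OC.nadd (OC.nmul (OC.nlit 2) (OC.snd (OC.snd OC.id))) ?_
    exact OC.ifEq (OC.get (OC.snd (OC.snd (OC.fst OC.id)))
      (OC.nadd (OC.fst (OC.fst OC.id)) (OC.fst (OC.snd OC.id)))) (OC.nlit 1) (OC.nlit 1)
      (OC.nlit 0)
  · unfold P3_hash
    congr 1
    funext s acc
    simp only [decide_eq_true_eq]

/-- entry rows -/
def P3_row (x : P3_S.den) (t i : ℕ) : ℕ :=
  t * 2 ^ x.2.2.1 +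
    P3_hash (fun s => decide (x.2.2.2 ((t * x.1 + i) * (x.2.2.1 + 1) + 1 + s) = 1)) x.2.2.1

/-- entry values -/
noncomputable def P3_val (x : P3_S.den) (t i : ℕ) : ℝ :=
  if x.2.2.2 ((t * x.1 + i) * (x.2.2.1 + 1)) = 1 then 1 else -1

theorem P3_rowOC : OC (.prod P3_S (.prod .nat .nat)) .nat (fun _ => True)
    (fun p => P3_row p.1 p.2.1 p.2.2) (fun p => p.1.2.2.1) := by
  have hx : OC (.prod P3_S (.prod .nat .nat)) P3_S (fun _ => True) (fun p => p.1)
    (fun p => p.1.2.2.1) := OC.fst OC.id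
  have hb : OC (.prod P3_S (.prod .nat .nat)) .nat (fun _ => True) (fun p => p.1.2.2.1)
    (fun p => p.1.2.2.1) := OC.fst (OC.snd (OC.snd hx))
  have ht : OC (.prod P3_S (.prod .nat .nat)) .nat (fun _ => True) (fun p => p.2.1)
    (fun p => p.1.2.2.1) := OC.fst (OC.snd OC.id)
  have hi : OC (.prod P3_S (.prod .nat .nat)) .nat (fun _ => True) (fun p => p.2.2)
    (fun p => p.1.2.2.1) := OC.snd (OC.snd OC.id)
  have hbits : OC (.prod P3_S (.prod .nat .nat)) NArr (fun _ => True) (fun p => p.1.2.2.2)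
    (fun p => p.1.2.2.1) := OC.snd (OC.snd (OC.snd hx))
  have hn : OC (.prod P3_S (.prod .nat .nat)) .nat (fun _ => True) (fun p => p.1.1)
    (fun p => p.1.2.2.1) := OC.fst hx
  refine OC.nadd (OC.nmul ht ?_) ?_
  · exact OC.comp (s := .prod P3_S (.prod .nat .nat)) (V := fun _ => True)
      (w := fun p => p.1.2.2.1) (F := fun p => p.1.2.2.1) P3_pow hb (fun _ _ => trivial) 1
      (fun q _ => P3_c0 q.1.2.2.1)
  · exact OC.comp (s := .prod P3_S (.prod .nat .nat)) (V := fun _ => True)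
      (w := fun p => p.1.2.2.1)
      (F := fun p => ((p.2.1 * p.1.1 + p.2.2) * (p.1.2.2.1 + 1) + 1, (p.1.2.2.1, p.1.2.2.2)))
      P3_hashOC (OC.pair (OC.nadd (OC.nmul (OC.nadd (OC.nmul ht hn) hi)
        (OC.nadd hb (OC.nlit 1))) (OC.nlit 1)) (OC.pair hb hbits)) (fun _ _ => trivial) 1
      (fun q _ => P3_c0 q.1.2.2.1)

theorem P3_valOC : OC (.prod P3_S (.prod .nat .nat)) .real (fun _ => True)
    (fun p => P3_val p.1 p.2.1 p.2.2) (fun p => p.1.2.2.1) := by
  have hx : OC (.prod P3_S (.prod .nat .nat)) P3_S (fun _ => True) (fun p => p.1)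
    (fun p => p.1.2.2.1) := OC.fst OC.id
  have hb : OC (.prod P3_S (.prod .nat .nat)) .nat (fun _ => True) (fun p => p.1.2.2.1)
    (fun p => p.1.2.2.1) := OC.fst (OC.snd (OC.snd hx))
  have ht : OC (.prod P3_S (.prod .nat .nat)) .nat (fun _ => True) (fun p => p.2.1)
    (fun p => p.1.2.2.1) := OC.fst (OC.snd OC.id)
  have hi : OC (.prod P3_S (.prod .nat .nat)) .nat (fun _ => True) (fun p => p.2.2)
    (fun p => p.1.2.2.1) := OC.snd (OC.snd OC.id)
  have hbits : OC (.prod P3_S (.prod .nat .nat)) NArr (fun _ => True) (fun p => p.1.2.2.2)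
    (fun p => p.1.2.2.1) := OC.snd (OC.snd (OC.snd hx))
  have hn : OC (.prod P3_S (.prod .nat .nat)) .nat (fun _ => True) (fun p => p.1.1)
    (fun p => p.1.2.2.1) := OC.fst hx
  exact OC.ifEq (OC.get hbits (OC.nmul (OC.nadd (OC.nmul ht hn) hi) (OC.nadd hb (OC.nlit 1))))
    (OC.nlit 1) OC.r1 (OC.neg OC.r1)

theorem P3_colOC : OC (.prod P3_S (.prod .nat .nat)) .nat (fun _ => True)
    (fun p => p.2.2) (fun p => p.1.2.2.1) := OC.snd (OC.snd OC.id)

/-- the nested loop -/
noncomputable def P3_arr {u : Ty} (g : ℕ → ℕ → u.den) (n J : ℕ) : (Ty.arr u).den :=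
  iterV (fun t r => iterV (fun i r' => Function.update r' (t * n + i) (g t i)) r n)
    (Ty.arr u).default J

theorem P3_arr_eq {u : Ty} (g : ℕ → ℕ → u.den) (n J t i : ℕ) (ht : t < J) (hi : i < n) :
    P3_arr g n J (t * n + i) = g t i := P3_outer n g _ J t i ht hi

/-- the sketch as a list -/
noncomputable def P3_F (x : P3_S.den) : CooT.den :=
  (x.2.1 * x.1, (P3_arr (u := .nat) (P3_row x) x.1 x.2.1,
    (P3_arr (u := .nat) (fun _ i => i) x.1 x.2.1, P3_arr (u := .real) (P3_val x) x.1 x.2.1)))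

theorem P3_FOC : OC P3_S CooT (fun _ => True) P3_F
    (fun x => (x.2.1 + 1) * (x.1 + 1) * (x.2.2.1 + 1) + 2 ^ x.2.2.1) :=
  OC.pair (OC.nmul (OC.fst (OC.snd OC.id)) (OC.fst OC.id))
    (OC.pair (P3_nest (u := .nat) P3_row P3_rowOC)
      (OC.pair (P3_nest (u := .nat) (fun _ _ i => i) P3_colOC)
        (P3_nest (u := .real) P3_val P3_valOC)))

theorem P3_uniq {q a b x y : ℕ} (hx : x < q) (hy : y < q) (h : a * q + x = b * q + y) :
    a = b ∧ x = y := by
  have h1 : a = b := by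
    rcases lt_trichotomy a b with h2 | h2 | h2
    · have h3 : (a + 1) * q ≤ b * q := Nat.mul_le_mul_right _ h2
      rw [Nat.succ_mul] at h3
      omega
    · exact h2
    · have h3 : (b + 1) * q ≤ a * q := Nat.mul_le_mul_right _ h2
      rw [Nat.succ_mul] at h3
      omega
  subst h1
  exact ⟨rfl, by omega⟩

theorem P3_ok (n J b : ℕ) (bits : ℕ → ℕ) : SkOK n J (J * 2 ^ b) (P3_F (n, (J, (b, bits)))) := by
  refine ⟨rfl, fun t ht i hi => ⟨P3_arr_eq (u := .nat) (fun _ i => i) n J t i ht hi, ?_⟩⟩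
  have h1 : (P3_F (n, (J, (b, bits)))).2.1 (t * n + i) = t * 2 ^ b +
      P3_hash (fun s => decide (bits ((t * n + i) * (b + 1) + 1 + s) = 1)) b :=
    P3_arr_eq (u := .nat) (P3_row (n, (J, (b, bits)))) n J t i ht hi
  rw [h1]
  have h2 := P3_hash_lt (fun s => decide (bits ((t * n + i) * (b + 1) + 1 + s) = 1)) b
  have h3 : (t + 1) * 2 ^ b ≤ J * 2 ^ b := Nat.mul_le_mul_right _ ht
  rw [Nat.succ_mul] at h3
  exact lt_of_lt_of_le (Nat.add_lt_add_left h2 _) h3

/-- the index of the hash of an entry -/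
theorem P3_ixw (n J b : ℕ) (bits : ℕ → ℕ) (t : Fin J) (i : Fin n) :
    P3_hash (fun s => decide (bits ((t * n + i) * (b + 1) + 1 + s) = 1)) b =
      (P3_ix (skBits n J b bits t i).2 : ℕ) := by
  refine (P3_hash_inj _ _ b).mpr fun s hs => ?_
  simp only [P3_ext, dif_pos hs, skBits]

/-- the entries of the list -/
theorem P3_entry (n J b : ℕ) (bits : ℕ → ℕ) (t : Fin J) (β : Fin b → Bool) (i : Fin n) :
    cooA (P3_F (n, (J, (b, bits)))) (t * 2 ^ b + (P3_ix β : ℕ)) i =
      sk (skBits n J b bits) (t, β) i := by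
  unfold cooA
  have e0 : (P3_F (n, (J, (b, bits)))).1 = J * n := rfl
  rw [e0, P3_range_mul]
  have e1 : ∀ t' ∈ range J, ∀ i' ∈ range n,
      (if (P3_F (n, (J, (b, bits)))).2.1 (t' * n + i') = t * 2 ^ b + (P3_ix β : ℕ) ∧
        (P3_F (n, (J, (b, bits)))).2.2.1 (t' * n + i') = i then
        (P3_F (n, (J, (b, bits)))).2.2.2 (t' * n + i') else 0) =
      if t' = t then (if i' = i then sk (skBits n J b bits) (t, β) i else 0) else 0 := by
    intro t' ht' i' hi'
    rw [mem_range] at ht' hi'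
    have f1 : (P3_F (n, (J, (b, bits)))).2.1 (t' * n + i') = t' * 2 ^ b +
        P3_hash (fun s => decide (bits ((t' * n + i') * (b + 1) + 1 + s) = 1)) b :=
      P3_arr_eq (u := .nat) (P3_row (n, (J, (b, bits)))) n J t' i' ht' hi'
    have f2 : (P3_F (n, (J, (b, bits)))).2.2.1 (t' * n + i') = i' :=
      P3_arr_eq (u := .nat) (fun _ i => i) n J t' i' ht' hi'
    have f3 : (P3_F (n, (J, (b, bits)))).2.2.2 (t' * n + i') =
        if bits ((t' * n + i') * (b + 1)) = 1 then 1 else -1 :=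
      P3_arr_eq (u := .real) (P3_val (n, (J, (b, bits)))) n J t' i' ht' hi'
    rw [f1, f2, f3]
    have g2 := P3_hash_lt (fun s => decide (bits ((t' * n + i') * (b + 1) + 1 + s) = 1)) b
    have g3 := (P3_ix β).2
    by_cases h1 : t' = t
    · rw [if_pos h1]
      by_cases h2 : i' = i
      · rw [if_pos h2, h1, h2, P3_ixw]
        unfold sk
        by_cases h3 : (skBits n J b bits t i).2 = β
        · rw [h3, if_pos ⟨rfl, rfl⟩, if_pos rfl]
          unfold skBits sgn
          simp only [decide_eq_true_eq]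
        · rw [if_neg h3, if_neg]
          rintro ⟨h4, -⟩
          exact h3 ((P3_ix_bij b).1 (Fin.ext (Nat.add_left_cancel h4)))
      · rw [if_neg h2, if_neg (fun h => h2 h.2)]
    · rw [if_neg h1, if_neg]
      rintro ⟨h, -⟩
      exact h1 (P3_uniq g2 g3 h).1
  rw [sum_congr rfl fun t' ht' => sum_congr rfl (e1 t' ht'),
    sum_eq_single_of_mem (t : ℕ) (mem_range.mpr t.2)
      (fun t' _ h => by rw [sum_congr rfl fun i' _ => if_neg h, sum_const_zero]),
    sum_eq_single_of_mem (i : ℕ) (mem_range.mpr i.2)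
      (fun i' _ h => by rw [if_pos rfl, if_neg h]), if_pos rfl, if_pos rfl]

/-- input `(n, (J, (b, bits)))` -/
theorem sk_prog : ∃ F : (Ty.prod .nat (.prod .nat (.prod .nat NArr))).den → CooT.den,
    OC _ CooT (fun _ => True) F (fun x => (x.2.1 + 1) * (x.1 + 1) * (x.2.2.1 + 1) + 2 ^ x.2.2.1) ∧
    ∀ n J b bits, SkOK n J (J * 2 ^ b) (F (n, (J, (b, bits)))) ∧
      ∀ x : Fin n → ℝ, sq (toM (J * 2 ^ b) n (cooA (F (n, (J, (b, bits))))) *ᵥ x) =
        sq (sk (skBits n J b bits) *ᵥ x) := by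
  refine ⟨P3_F, P3_FOC, fun n J b bits => ⟨P3_ok n J b bits, fun x => ?_⟩⟩
  unfold sq
  have e1 : ∑ p : Fin (J * 2 ^ b), (toM (J * 2 ^ b) n (cooA (P3_F (n, (J, (b, bits))))) *ᵥ x) p ^ 2
      = ∑ p ∈ range (J * 2 ^ b),
        (∑ i : Fin n, cooA (P3_F (n, (J, (b, bits)))) p i * x i) ^ 2 := by
    rw [← Fin.sum_univ_eq_sum_range
      (fun p => (∑ i : Fin n, cooA (P3_F (n, (J, (b, bits)))) p i * x i) ^ 2)]
    rfl
  rw [e1, P3_range_mul, Fintype.sum_prod_type,
    ← Fin.sum_univ_eq_sum_range (fun t => ∑ i ∈ range (2 ^ b),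
      (∑ i_1 : Fin n, cooA (P3_F (n, (J, (b, bits)))) (t * 2 ^ b + i) i_1 * x i_1) ^ 2)]
  refine sum_congr rfl fun t _ => ?_
  rw [← Fin.sum_univ_eq_sum_range (fun q =>
    (∑ i_1 : Fin n, cooA (P3_F (n, (J, (b, bits)))) (t * 2 ^ b + q) i_1 * x i_1) ^ 2),
    ← (P3_ix_bij b).sum_comp]
  refine sum_congr rfl fun β _ => ?_
  congr 1
  refine sum_congr rfl fun i _ => ?_
  rw [P3_entry]

end A55
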