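import Pool.Agent.Lib_helper50.A55.Prog
/-!
# MP_a55cb8, block P6: the rates and the bad flags (helper89)
-/

open Matrix Finset

namespace A55

/-- one step of the search for the rate: the state is `(e, 4^(-e-1))` -/
noncomputable def p6step (y : ℝ) (p : ℕ × ℝ) : ℕ × ℝ :=
  letI := Classical.propDecidable
  if p.2 < y then p else (p.1 + 1, p.2 * (1 / 4))

theorem p6step_pos {y : ℝ} {p : ℕ × ℝ} (h : p.2 < y) : p6step y p = p := by
  unfold p6step
  rw [if_pos h]

theorem p6step_neg {y : ℝ} {p : ℕ × ℝ} (h : ¬ p.2 < y) :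
    p6step y p = (p.1 + 1, p.2 * (1 / 4)) := by
  unfold p6step
  rw [if_neg h]

/-- the invariant of the search -/
theorem p6inv (y : ℝ) (N : ℕ) :
    (iterV (fun _ p => p6step y p) (((0 : ℕ), ((1 : ℝ) / 4)) : ℕ × ℝ) N).2 =
      (1 / 4) ^ ((iterV (fun _ p => p6step y p) (((0 : ℕ), ((1 : ℝ) / 4)) : ℕ × ℝ) N).1 + 1) ∧
    (iterV (fun _ p => p6step y p) (((0 : ℕ), ((1 : ℝ) / 4)) : ℕ × ℝ) N).1 ≤ N ∧
    ((iterV (fun _ p => p6step y p) (((0 : ℕ), ((1 : ℝ) / 4)) : ℕ × ℝ) N).1 = 0 ∨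
      y ≤ (1 / 4) ^ (iterV (fun _ p => p6step y p) (((0 : ℕ), ((1 : ℝ) / 4)) : ℕ × ℝ) N).1) ∧
    ((iterV (fun _ p => p6step y p) (((0 : ℕ), ((1 : ℝ) / 4)) : ℕ × ℝ) N).1 = N ∨
      (1 / 4) ^ ((iterV (fun _ p => p6step y p) (((0 : ℕ), ((1 : ℝ) / 4)) : ℕ × ℝ) N).1 + 1)
        < y) := by
  induction N with
  | zero => simp
  | succ N ih =>
    rw [iterV_succ]
    generalize iterV (fun _ p => p6step y p) (((0 : ℕ), ((1 : ℝ) / 4)) : ℕ × ℝ) N = p at ih ⊢
    obtain ⟨e, q⟩ := p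
    simp only at ih ⊢
    obtain ⟨h1, h2, h3, h4⟩ := ih
    by_cases hq : q < y
    · rw [p6step_pos hq]
      refine ⟨h1, by simpa using Nat.le_succ_of_le h2, h3, Or.inr ?_⟩
      simp only
      rw [← h1]
      exact hq
    · rw [p6step_neg hq]
      simp only
      have h5 : e = N := by
        rcases h4 with h | h
        · exact h
        · exact absurd (h1 ▸ h) hq
      refine ⟨by rw [h1, pow_succ (1 / 4 : ℝ) (e + 1)], by omega, Or.inr ?_, Or.inl (by omega)⟩
      rw [← h1]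
      exact not_lt.1 hq

open Classical in
theorem p6step_eq (y : ℝ) (p : ℕ × ℝ) :
    (if p.2 < y then p else (p.1 + 1, p.2 * (1 / 4))) = p6step y p := by
  by_cases h : p.2 < y
  · rw [p6step_pos h, if_pos h]
  · rw [p6step_neg h, if_neg h]

/-- rates: input `((n, emax), (L, est))` -/
theorem rates_prog : ∃ F : (Ty.prod (.prod .nat .nat) (.prod .real VecT)).den → NArr.den,
    OC _ NArr (fun _ => True) F (fun x => (x.1.1 + 1) * (x.1.2 + 1)) ∧
    ∀ n emax L est, ∀ i < n, F ((n, emax), (L, est)) i ≤ emax ∧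
      (F ((n, emax), (L, est)) i = 0 ∨
        L * est i ≤ (1 / 4) ^ (F ((n, emax), (L, est)) i)) ∧
      (F ((n, emax), (L, est)) i = emax ∨
        (1 / 4) ^ (F ((n, emax), (L, est)) i + 1) < L * est i) := by
  refine ⟨fun x => tabV .nat x.1.1 (fun i =>
    (iterV (fun _ p => p6step (x.2.1 * x.2.2 i) p) (((0 : ℕ), ((1 : ℝ) / 4)) : ℕ × ℝ)
      x.1.2).1), ?_, ?_⟩
  · -- the body of the loop
    have hb : OC (.prod (.prod (Ty.prod (.prod .nat .nat) (.prod .real VecT)) .nat)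
        (.prod .nat (.prod .nat .real))) (.prod .nat .real) (fun _ => True)
        (fun q => p6step (q.1.1.2.1 * q.1.1.2.2 q.1.2) q.2.2) (fun _ => 0) := by
      refine (OC.ifLt (s := .prod (.prod (Ty.prod (.prod .nat .nat) (.prod .real VecT)) .nat)
        (.prod .nat (.prod .nat .real))) (t := .prod .nat .real) (F := fun q => q.2.2) (G := fun q => (q.2.2.1 + 1, q.2.2.2 * (1 / 4)))
        (OC.snd (OC.snd (OC.snd OC.id)))
        (OC.mul (OC.fst (OC.snd (OC.fst (OC.fst OC.id))))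
          (OC.get (OC.snd (OC.snd (OC.fst (OC.fst OC.id)))) (OC.snd (OC.fst OC.id))))
        (OC.snd (OC.snd OC.id))
        (OC.pair (OC.nadd (OC.fst (OC.snd (OC.snd OC.id))) (OC.nlit 1))
          (OC.mul (OC.snd (OC.snd (OC.snd OC.id))) (OC.div OC.r1 (OC.rofNat 4))))).congr
        fun q _ => ?_
      exact p6step_eq (q.1.1.2.1 * q.1.1.2.2 q.1.2) q.2.2
    have hi : OC (.prod (Ty.prod (.prod .nat .nat) (.prod .real VecT)) .nat) .nat
        (fun _ => True)
        (fun p => (iterV (fun _ q => p6step (p.1.2.1 * p.1.2.2 p.2) q)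
          (((0 : ℕ), ((1 : ℝ) / 4)) : ℕ × ℝ) p.1.1.2).1) (fun p => p.1.1.2) :=
      OC.fst (OC.iter0 (s := .prod (Ty.prod (.prod .nat .nat) (.prod .real VecT)) .nat)
        (t := .prod .nat .real) (B := fun p _ q => p6step (p.1.2.1 * p.1.2.2 p.2) q)
        (OC.snd (OC.fst (OC.fst OC.id)))
        (OC.pair (OC.nlit 0) (OC.div OC.r1 (OC.rofNat 4))) hb 1 fun x _ => by omega)
    refine OC.tab (s := Ty.prod (.prod .nat .nat) (.prod .real VecT)) (t := .nat)
      (F := fun x i =>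
      (iterV (fun _ p => p6step (x.2.1 * x.2.2 i) p) (((0 : ℕ), ((1 : ℝ) / 4)) : ℕ × ℝ)
      x.1.2).1) (OC.fst (OC.fst OC.id)) (hi.weaken fun _ _ => trivial) 1 fun x _ => ?_
    simp only [sum_const, card_range, smul_eq_mul]
    nlinarith
  · intro n emax L est i hi
    simp only
    rw [tabV_lt hi]
    obtain ⟨h1, h2, h3, h4⟩ := p6inv (L * est i) emax
    exact ⟨h2, h3, h4⟩

theorem p6pow (N : ℕ) : iterV (fun _ p => p * (1 / 4)) (1 : ℝ) N = (1 / 4) ^ N := by
  induction N with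
  | zero => simp
  | succ N ih => rw [iterV_succ, ih, pow_succ]

open Classical in
/-- bad flags: input `((n, thr), (e, est))`: bad iff `e i ≠ 0` and `thr * 4^(-e i) < est i` -/
theorem p6bad : ∃ F : (Ty.prod (.prod .nat .real) (.prod NArr VecT)).den → NArr.den,
    OC _ NArr (fun _ => True) F (fun x => ∑ i ∈ range x.1.1, (x.2.1 i + 1)) ∧
    ∀ n thr e est, ∀ i < n, (F ((n, thr), (e, est)) i =
      if 0 < e i then (if thr * (1 / 4) ^ e i < est i then 1 else 0) else 0) := by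
  refine ⟨fun x => tabV .nat x.1.1 (fun i => if 0 < x.2.1 i then
    (if x.1.2 * (iterV (fun _ p => p * (1 / 4)) (1 : ℝ) (x.2.1 i)) < x.2.2 i then 1 else 0)
    else 0), ?_, ?_⟩
  · have hp : OC (.prod (Ty.prod (.prod .nat .real) (.prod NArr VecT)) .nat) .real
        (fun _ => True)
        (fun p => iterV (fun _ q => q * (1 / 4)) (1 : ℝ) (p.1.2.1 p.2))
        (fun p => p.1.2.1 p.2) :=
      OC.iter0 (s := .prod (Ty.prod (.prod .nat .real) (.prod NArr VecT)) .nat) (t := .real)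
        (B := fun _ _ q => q * (1 / 4))
        (OC.get (OC.fst (OC.snd (OC.fst OC.id))) (OC.snd OC.id)) OC.r1
        (OC.mul (OC.snd (OC.snd OC.id)) (OC.div OC.r1 (OC.rofNat 4))) 1 fun x _ => by omega
    have hi : OC (.prod (Ty.prod (.prod .nat .real) (.prod NArr VecT)) .nat) .nat
        (fun _ => True)
        (fun p => if 0 < p.1.2.1 p.2 then
          (if p.1.1.2 * (iterV (fun _ p => p * (1 / 4)) (1 : ℝ) (p.1.2.1 p.2)) <
            p.1.2.2 p.2 then 1 else 0) else 0) (fun p => p.1.2.1 p.2) :=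
      OC.ifN (s := .prod (Ty.prod (.prod .nat .real) (.prod NArr VecT)) .nat) (t := .nat)
        (A := fun _ => 0) (B := fun p => p.1.2.1 p.2)
        (F := fun p => (if p.1.1.2 * (iterV (fun _ p => p * (1 / 4)) (1 : ℝ) (p.1.2.1 p.2)) <
            p.1.2.2 p.2 then 1 else 0)) (G := fun _ => 0)
        (OC.nlit 0) (OC.get (OC.fst (OC.snd (OC.fst OC.id))) (OC.snd OC.id))
        ((OC.ifLt (F := fun _ => 1) (G := fun _ => 0)
          (OC.mul (OC.snd (OC.fst (OC.fst OC.id))) hp)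
          (OC.get (OC.snd (OC.snd (OC.fst OC.id))) (OC.snd OC.id)) (OC.nlit 1)
          (OC.nlit 0)).weaken fun _ _ => trivial) (OC.nlit 0)
    exact OC.tab (s := Ty.prod (.prod .nat .real) (.prod NArr VecT)) (t := .nat)
      (F := fun x i => if 0 < x.2.1 i then
      (if x.1.2 * (iterV (fun _ p => p * (1 / 4)) (1 : ℝ) (x.2.1 i)) < x.2.2 i then 1 else 0)
      else 0) (OC.fst (OC.fst OC.id)) (hi.weaken fun _ _ => trivial) 1 fun x _ => by
        rw [one_mul]
        exact Nat.le_succ _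
  · intro n thr e est i hi
    simp only
    rw [tabV_lt hi, p6pow]

/-- bad flags: input `((n, thr), (e, est))`: bad iff `e i ≠ 0` and `thr * 4^(-e i) < est i` -/
theorem bad_prog : ∃ F : (Ty.prod (.prod .nat .real) (.prod NArr VecT)).den → NArr.den,
    OC _ NArr (fun _ => True) F (fun x => ∑ i ∈ range x.1.1, (x.2.1 i + 1)) ∧
    ∀ n thr e est, ∀ i < n, (F ((n, thr), (e, est)) i = 1 ↔
        (e i ≠ 0 ∧ thr * (1 / 4) ^ e i < est i)) ∧
      (F ((n, thr), (e, est)) i = 0 ∨ F ((n, thr), (e, est)) i = 1) := by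
  obtain ⟨F, h1, h2⟩ := p6bad
  refine ⟨F, h1, fun n thr e est i hi => ?_⟩
  rw [h2 n thr e est i hi]
  by_cases h3 : 0 < e i
  · rw [if_pos h3]
    by_cases h4 : thr * (1 / 4) ^ e i < est i
    · rw [if_pos h4]
      exact ⟨⟨fun _ => ⟨h3.ne', h4⟩, fun _ => rfl⟩, Or.inr rfl⟩
    · rw [if_neg h4]
      exact ⟨⟨fun h => absurd h (by norm_num), fun h => absurd h.2 h4⟩, Or.inl rfl⟩
  · rw [if_neg h3]
    exact ⟨⟨fun h => absurd h (by norm_num), fun h => absurd (Nat.pos_of_ne_zero h.1) h3⟩,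
      Or.inl rfl⟩

end A55
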