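import Pool.Agent.Lib_helper50.A55.Prog
import Pool.Agent.Lib_helper50.A55.ProbIface
import Pool.Agent.Lib_helper50.A55.B.P1
import Pool.Agent.Lib_helper50.A55.B.P2
/-!
# MP_a55cb8, program block P8: the chain solver (helper99)
-/

open Matrix Finset

namespace A55




/-! ## uniform families of programs -/

/-- a family of domains and weights, one constant -/
def P8UC (ι : Type) (s t : Ty) (V : ι → FnE → s.den → Prop) (F : s.den → t.den)
    (w : ι → s.den → ℕ) : Prop :=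
  ∃ C : ℕ, ∀ i, Cp s t (V i) F (fun x => C * (w i x + 1))

section uc

variable {ι : Type} {s t u v : Ty} {V : ι → FnE → s.den → Prop} {w : ι → s.den → ℕ}

theorem P8_of_Cp {F : s.den → t.den} {c : ι → s.den → ℕ} (K : ℕ)
    (h : ∀ i, Cp s t (V i) F (c i)) (hc : ∀ i φ x, V i φ x → c i x ≤ K * (w i x + 1)) :
    P8UC ι s t V F w :=
  ⟨K, fun i => (h i).cost _ fun φ x hx => hc i φ x hx⟩

theorem P8_le {F : s.den → t.den} {w' : ι → s.den → ℕ} (h : P8UC ι s t V F w') (K : ℕ)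
    (hw : ∀ i φ x, V i φ x → w' i x ≤ K * (w i x + 1)) : P8UC ι s t V F w := by
  obtain ⟨C, h⟩ := h
  refine P8_of_Cp (C * (K + 1)) h fun i φ x hx => ?_
  have h1 := hw i φ x hx
  calc C * (w' i x + 1) ≤ C * (K * (w i x + 1) + (w i x + 1)) := by gcongr; omega
    _ = _ := by ring

theorem P8_of_OC {V0 : s.den → Prop} {w0 : s.den → ℕ} {F : s.den → t.den}
    (h : OC s t V0 F w0) (hV : ∀ i φ x, V i φ x → V0 x) (K : ℕ)
    (hw : ∀ i φ x, V i φ x → w0 x ≤ K * (w i x + 1)) : P8UC ι s t V F w := by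
  obtain ⟨C, h⟩ := h
  refine P8_of_Cp (C * (K + 1)) (c := fun _ x => C * (w0 x + 1))
    (fun i => h.weaken fun φ x hx => hV i φ x hx) fun i φ x hx => ?_
  have h1 := hw i φ x hx
  calc C * (w0 x + 1) ≤ C * (K * (w i x + 1) + (w i x + 1)) := by gcongr; omega
    _ = _ := by ring

theorem P8_O1 {F : s.den → t.den} (h : OC s t (fun _ => True) F (fun _ => 0)) :
    P8UC ι s t V F w :=
  P8_of_OC h (fun _ _ _ _ => trivial) 0 fun _ _ _ _ => by simp

theorem P8_weaken {V' : ι → FnE → s.den → Prop} {F : s.den → t.den} (h : P8UC ι s t V F w)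
    (hV : ∀ i φ x, V' i φ x → V i φ x) : P8UC ι s t V' F w := by
  obtain ⟨C, h⟩ := h
  exact ⟨C, fun i => (h i).weaken fun φ x hx => hV i φ x hx⟩

theorem P8_comp {W : ι → FnE → u.den → Prop} {w' : ι → u.den → ℕ} {F : s.den → u.den}
    {G : u.den → t.den} (hG : P8UC ι u t W G w') (hF : P8UC ι s u V F w)
    (hW : ∀ i φ x, V i φ x → W i φ (F x)) (K : ℕ)
    (hw : ∀ i φ x, V i φ x → w' i (F x) ≤ K * (w i x + 1)) :
    P8UC ι s t V (fun x => G (F x)) w := by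
  obtain ⟨C, hC⟩ := hG
  obtain ⟨D, hD⟩ := hF
  refine P8_of_Cp (1 + D + C * (K + 1)) (fun i => Cp.comp (hC i) (hD i) (hW i))
    fun i φ x hx => ?_
  have h3 := hw i φ x hx
  have h4 : C * (w' i (F x) + 1) ≤ C * (K + 1) * (w i x + 1) := by
    calc C * (w' i (F x) + 1) ≤ C * (K * (w i x + 1) + (w i x + 1)) := by gcongr; omega
      _ = _ := by ring
  have h5 : (1 + D + C * (K + 1)) * (w i x + 1) =
    (w i x + 1) + D * (w i x + 1) + C * (K + 1) * (w i x + 1) := by ring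
  rw [h5]
  omega

/-- composition with a program given by `OC` on all inputs -/
theorem P8_compO {w' : u.den → ℕ} {F : s.den → u.den}
    {G : u.den → t.den} (hG : OC u t (fun _ => True) G w') (hF : P8UC ι s u V F w) (K : ℕ)
    (hw : ∀ i φ x, V i φ x → w' (F x) ≤ K * (w i x + 1)) :
    P8UC ι s t V (fun x => G (F x)) w :=
  P8_comp (W := fun _ _ _ => True) (w' := fun _ => w')
    (P8_of_OC hG (fun _ _ _ _ => trivial) 1 fun _ _ x _ => by omega) hF
    (fun _ _ _ _ => trivial) K hw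

theorem P8_pair {F : s.den → t.den} {G : s.den → u.den} (hF : P8UC ι s t V F w)
    (hG : P8UC ι s u V G w) : P8UC ι s (.prod t u) V (fun x => (F x, G x)) w := by
  obtain ⟨C, hC⟩ := hF
  obtain ⟨D, hD⟩ := hG
  refine P8_of_Cp (1 + C + D) (fun i => Cp.pair (hC i) (hD i)) fun i φ x hx => ?_
  nlinarith

theorem P8_iter {N : s.den → ℕ} {A : s.den → t.den} {B : s.den → ℕ → t.den → t.den}
    (hN : P8UC ι s .nat V N w) (hA : P8UC ι s t V A w)
    (hB : P8UC ι (.prod s (.prod .nat t)) t (fun i φ p => V i φ p.1)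
      (fun p => B p.1 p.2.1 p.2.2) (fun i p => w i p.1)) :
    P8UC ι s t V (fun x => iterV (B x) (A x) (N x)) (fun i x => (N x + 2) * (w i x + 1)) := by
  obtain ⟨C, h1⟩ := hN
  obtain ⟨D, h2⟩ := hA
  obtain ⟨E, h3⟩ := hB
  refine P8_of_Cp (1 + C + D + 7 + E) (fun i => Cp.iter (B := B) (h1 i) (h2 i)
    ((h3 i).weaken fun φ x hx => hx.1)) fun i φ x hx => ?_
  have hs : ∑ j ∈ range (N x), (7 + E * ((fun i p => w i p.1) i
      ((x, j, iterV (B x) (A x) j) : (Ty.prod s (.prod .nat t)).den) + 1)) =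
      N x * (7 + E * (w i x + 1)) := by simp
  rw [hs]
  set W := w i x + 1 with hW
  have hW1 : 1 ≤ W := by omega
  have e1 : N x * (7 + E * W) ≤ (7 + E) * (N x * W) := by
    have : N x * 7 ≤ 7 * (N x * W) := by nlinarith
    nlinarith
  have e2 : (1 + C + D + 7 + E) * ((N x + 2) * W + 1) =
    (1 + C + D) * ((N x + 2) * W + 1) + (7 + E) * ((N x + 2) * W + 1) := by ring
  have e3 : (7 + E) * (N x * W) ≤ (7 + E) * ((N x + 2) * W + 1) := by
    apply Nat.mul_le_mul_left; nlinarith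
  have e4 : 1 + C * W + D * W ≤ (1 + C + D) * ((N x + 2) * W + 1) := by
    have : W ≤ (N x + 2) * W + 1 := by nlinarith
    nlinarith
  show 1 + C * W + D * W + N x * (7 + E * W) ≤ _
  rw [e2]
  omega

end uc

/-! ## the Chebyshev loop on vectors -/

/-- the state of the loop -/
abbrev P8St : Ty := .prod VecT (.prod VecT (.prod .real .real))

/-- one step; `L` is the program for linear combinations -/
noncomputable def P8step (L : (Ty.prod .nat (.prod (.prod .real VecT) (.prod .real VecT))).den → VecT.den)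
    (n : ℕ) (a b : ℝ) (QF MF : VecT.den → VecT.den) (v : VecT.den) (st : P8St.den) : P8St.den :=
  (st.2.1, (L (n, ((1, L (n, ((2 * ((b + a) / (b - a)), st.2.1), (-1, st.1)))),
      (4 / (b - a), QF (L (n, ((st.2.2.2, v), (-1, MF st.2.1))))))),
    (st.2.2.2, 2 * ((b + a) / (b - a)) * st.2.2.2 - st.2.2.1)))

/-- the initial state -/
noncomputable def P8init (L : (Ty.prod .nat (.prod (.prod .real VecT) (.prod .real VecT))).den → VecT.den)
    (n : ℕ) (a b : ℝ) (QF : VecT.den → VecT.den) (v : VecT.den) : P8St.den :=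
  (L (n, ((0, v), (0, v))), (L (n, ((2 / (b - a), QF v), (0, v))), (1, (b + a) / (b - a))))

/-- the loop -/
noncomputable def P8loop (L : (Ty.prod .nat (.prod (.prod .real VecT) (.prod .real VecT))).den → VecT.den)
    (n k : ℕ) (a b : ℝ) (QF MF : VecT.den → VecT.den) (v : VecT.den) : VecT.den :=
  let st := iterV (fun _ st => P8step L n a b QF MF v st) (P8init L n a b QF v) k
  L (n, ((st.2.2.1⁻¹, st.1), (0, v)))

section sem

variable {L : (Ty.prod .nat (.prod (.prod .real VecT) (.prod .real VecT))).den → VecT.den}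
  (hL : ∀ n r x r' y, toV n (L (n, ((r, x), (r', y)))) = r • toV n x + r' • toV n y)

include hL

theorem P8_state {n : ℕ} (a b : ℝ) {QF MF : VecT.den → VecT.den}
    {Q M : Matrix (Fin n) (Fin n) ℝ} (hQ : ∀ w, toV n (QF w) = Q *ᵥ toV n w)
    (hM : ∀ w, toV n (MF w) = M *ᵥ toV n w) (v : VecT.den) (k : ℕ) :
    toV n (iterV (fun _ st => P8step L n a b QF MF v st) (P8init L n a b QF v) k).1 =
        chebY M Q a b k *ᵥ toV n v ∧
      toV n (iterV (fun _ st => P8step L n a b QF MF v st) (P8init L n a b QF v) k).2.1 =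
        chebY M Q a b (k + 1) *ᵥ toV n v ∧
      (iterV (fun _ st => P8step L n a b QF MF v st) (P8init L n a b QF v) k).2.2 =
        (chebT a b k, chebT a b (k + 1)) := by
  induction k with
  | zero =>
    refine ⟨?_, ?_, ?_⟩
    · simp [P8init, hL, chebY]
    · simp [P8init, hL, chebY, hQ, Matrix.smul_mulVec]
    · simp [P8init, chebT]
  | succ k ih =>
    obtain ⟨h1, h2, h3⟩ := ih
    set st := iterV (fun _ st => P8step L n a b QF MF v st) (P8init L n a b QF v) k with hst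
    rw [iterV_succ, ← hst]
    have h4 : st.2.2.1 = chebT a b k := by rw [h3]
    have h5 : st.2.2.2 = chebT a b (k + 1) := by rw [h3]
    refine ⟨h2, ?_, ?_⟩
    · simp only [P8step, hL, hQ, hM, h1, h2, h5]
      rw [chebY, Matrix.add_mulVec, Matrix.sub_mulVec, Matrix.smul_mulVec, Matrix.smul_mulVec,
        ← Matrix.mulVec_mulVec, Matrix.sub_mulVec, Matrix.smul_mulVec, Matrix.one_mulVec,
        ← Matrix.mulVec_mulVec]
      simp only [one_smul, neg_smul, sub_eq_add_neg]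
    · simp only [P8step, h4, h5]
      rw [chebT]

theorem P8_loop_spec {n : ℕ} (a b : ℝ) {QF MF : VecT.den → VecT.den}
    {Q M : Matrix (Fin n) (Fin n) ℝ} (hQ : ∀ w, toV n (QF w) = Q *ᵥ toV n w)
    (hM : ∀ w, toV n (MF w) = M *ᵥ toV n w) (v : VecT.den) (k : ℕ) :
    toV n (P8loop L n k a b QF MF v) = cheb M Q a b k *ᵥ toV n v := by
  obtain ⟨h1, h2, h3⟩ := P8_state hL a b hQ hM v k
  unfold P8loop
  simp only
  rw [hL, h1, h3, cheb, Matrix.smul_mulVec, zero_smul, add_zero]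

end sem

section prog

variable {ι : Type} {s : Ty} {V : ι → FnE → s.den → Prop} {w : ι → s.den → ℕ}
  {L : (Ty.prod .nat (.prod (.prod .real VecT) (.prod .real VecT))).den → VecT.den}
  (hLp : OC (.prod .nat (.prod (.prod .real VecT) (.prod .real VecT))) VecT (fun _ => True) L
    (fun x => x.1))

/-- constant cost -/
abbrev P8K (s t : Ty) (F : s.den → t.den) : Prop := OC s t (fun _ => True) F (fun _ => 0)

theorem P8K_lift {u t : Ty} {F : s.den → t.den} (h : P8K s t F) :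
    P8K (.prod s u) t (fun p => F p.1) :=
  OC.comp (W := fun _ => True) (w' := fun _ => 0) h (OC.fst OC.id) (fun _ _ => trivial) 0
    (fun _ _ => by simp)

include hLp

/-- a linear combination -/
theorem P8_lin {N : s.den → ℕ} {r r' : s.den → ℝ} {x x' : s.den → VecT.den}
    (hN : P8K s .nat N) (hr : P8K s .real r) (hr' : P8K s .real r')
    (hx : P8UC ι s VecT V x w) (hx' : P8UC ι s VecT V x' w) (K : ℕ)
    (hw : ∀ i φ y, V i φ y → N y ≤ K * (w i y + 1)) :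
    P8UC ι s VecT V (fun y => L (N y, ((r y, x y), (r' y, x' y)))) w :=
  P8_compO (F := fun y => (N y, ((r y, x y), (r' y, x' y)))) hLp
    (P8_pair (P8_O1 hN) (P8_pair (P8_pair (P8_O1 hr) hx) (P8_pair (P8_O1 hr') hx'))) K hw

theorem P8_loop_UC {N k : s.den → ℕ} {a b : s.den → ℝ} {v : s.den → VecT.den}
    {QF MF : s.den → VecT.den → VecT.den}
    (hN : P8K s .nat N) (hk : P8K s .nat k) (ha : P8K s .real a) (hb : P8K s .real b)
    (hv : P8K s VecT v)
    (hQ : P8UC ι (.prod s VecT) VecT (fun i φ p => V i φ p.1) (fun p => QF p.1 p.2)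
      (fun i p => w i p.1))
    (hM : P8UC ι (.prod s VecT) VecT (fun i φ p => V i φ p.1) (fun p => MF p.1 p.2)
      (fun i p => w i p.1))
    (hw : ∀ i φ x, V i φ x → N x ≤ 1 * (w i x + 1)) :
    P8UC ι s VecT V (fun x => P8loop L (N x) (k x) (a x) (b x) (QF x) (MF x) (v x))
      (fun i x => (k x + 2) * (w i x + 1)) := by
  have hc : P8K s .real (fun x => (b x + a x) / (b x - a x)) :=
    (hb.add ha).div (hb.sub ha)
  have h2c : P8K s .real (fun x => 2 * ((b x + a x) / (b x - a x))) := (OC.rofNat 2).mul hc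
  have h4c : P8K s .real (fun x => 4 / (b x - a x)) := (OC.rofNat 4).div (hb.sub ha)
  have h2d : P8K s .real (fun x => 2 / (b x - a x)) := (OC.rofNat 2).div (hb.sub ha)
  have h0 : P8K s .real (fun _ => (0:ℝ)) := OC.r0
  have h1 : P8K s .real (fun _ => (1:ℝ)) := OC.r1
  -- initial state
  have hQv : P8UC ι s VecT V (fun x => QF x (v x)) w :=
    P8_comp (F := fun x => (x, v x)) hQ (P8_pair (P8_O1 OC.id) (P8_O1 hv))
      (fun i φ x hx => hx) 1 (fun i φ x hx => by simp)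
  have hinit : P8UC ι s P8St V (fun x => P8init L (N x) (a x) (b x) (QF x) (v x)) w :=
    P8_pair (P8_lin hLp hN h0 h0 (P8_O1 hv) (P8_O1 hv) 1 hw)
      (P8_pair (P8_lin hLp hN h2d h0 hQv (P8_O1 hv) 1 hw) (P8_pair (P8_O1 h1) (P8_O1 hc)))
  -- the step
  have e1 : P8K (.prod s (.prod .nat P8St)) VecT (fun p => p.2.2.2.1) :=
    OC.fst (OC.snd (OC.snd (OC.snd OC.id)))
  have e0 : P8K (.prod s (.prod .nat P8St)) VecT (fun p => p.2.2.1) :=
    OC.fst (OC.snd (OC.snd OC.id))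
  have f0 : P8K (.prod s (.prod .nat P8St)) .real (fun p => p.2.2.2.2.1) :=
    OC.fst (OC.snd (OC.snd (OC.snd (OC.snd OC.id))))
  have f1 : P8K (.prod s (.prod .nat P8St)) .real (fun p => p.2.2.2.2.2) :=
    OC.snd (OC.snd (OC.snd (OC.snd (OC.snd OC.id))))
  have g1 : P8K (.prod s (.prod .nat P8St)) .real (fun _ => (1:ℝ)) := OC.r1
  have gm : P8K (.prod s (.prod .nat P8St)) .real (fun _ => (-1:ℝ)) := OC.neg OC.r1
  have hMs : P8UC ι (.prod s (.prod .nat P8St)) VecT (fun i φ p => V i φ p.1)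
      (fun p => MF p.1 p.2.2.2.1) (fun i p => w i p.1) :=
    P8_comp (F := fun p : (Ty.prod s (.prod .nat P8St)).den => (p.1, p.2.2.2.1)) hM
      (P8_pair (P8_O1 (OC.fst OC.id)) (P8_O1 e1)) (fun i φ x hx => hx) 1
      (fun i φ x hx => by simp)
  have hz : P8UC ι (.prod s (.prod .nat P8St)) VecT (fun i φ p => V i φ p.1)
      (fun p => L (N p.1, ((p.2.2.2.2.2, v p.1), (-1, MF p.1 p.2.2.2.1))))
      (fun i p => w i p.1) :=
    P8_lin hLp (P8K_lift hN) f1 gm (P8_O1 (P8K_lift hv)) hMs 1 (fun i φ p hp => hw i φ _ hp)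
  have hQs : P8UC ι (.prod s (.prod .nat P8St)) VecT (fun i φ p => V i φ p.1)
      (fun p => QF p.1 (L (N p.1, ((p.2.2.2.2.2, v p.1), (-1, MF p.1 p.2.2.2.1)))))
      (fun i p => w i p.1) :=
    P8_comp (F := fun p : (Ty.prod s (.prod .nat P8St)).den =>
      (p.1, L (N p.1, ((p.2.2.2.2.2, v p.1), (-1, MF p.1 p.2.2.2.1))))) hQ
      (P8_pair (P8_O1 (OC.fst OC.id)) hz) (fun i φ x hx => hx) 1
      (fun i φ x hx => by simp)
  have hl : P8UC ι (.prod s (.prod .nat P8St)) VecT (fun i φ p => V i φ p.1)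
      (fun p => L (N p.1, ((2 * ((b p.1 + a p.1) / (b p.1 - a p.1)), p.2.2.2.1),
        (-1, p.2.2.1)))) (fun i p => w i p.1) :=
    P8_lin hLp (P8K_lift hN) (P8K_lift h2c) gm (P8_O1 e1) (P8_O1 e0) 1
      (fun i φ p hp => hw i φ _ hp)
  have hstep : P8UC ι (.prod s (.prod .nat P8St)) P8St (fun i φ p => V i φ p.1)
      (fun p => P8step L (N p.1) (a p.1) (b p.1) (QF p.1) (MF p.1) (v p.1) p.2.2)
      (fun i p => w i p.1) :=
    P8_pair (P8_O1 e1) (P8_pair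
      (P8_lin hLp (P8K_lift hN) g1 (P8K_lift h4c) hl hQs 1 (fun i φ p hp => hw i φ _ hp))
      (P8_pair (P8_O1 f1) (P8_O1 (((P8K_lift h2c).mul f1).sub f0))))
  have hloop := P8_iter (B := fun x _ st => P8step L (N x) (a x) (b x) (QF x) (MF x) (v x) st)
    (P8_O1 hk) hinit hstep
  -- the result
  have hfin : P8UC ι (.prod s P8St) VecT (fun i φ p => V i φ p.1)
      (fun p => L (N p.1, ((p.2.2.2.1⁻¹, p.2.1), (0, v p.1)))) (fun i p => w i p.1) :=
    P8_lin hLp (P8K_lift hN) (OC.inv (OC.fst (OC.snd (OC.snd (OC.snd OC.id))))) OC.r0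
      (P8_O1 (OC.fst (OC.snd OC.id))) (P8_O1 (P8K_lift hv)) 1 (fun i φ p hp => hw i φ _ hp)
  exact P8_comp (F := fun x => (x, iterV (fun _ st =>
    P8step L (N x) (a x) (b x) (QF x) (MF x) (v x) st)
    (P8init L (N x) (a x) (b x) (QF x) (v x)) (k x))) hfin
    (P8_pair (P8_O1 OC.id) hloop) (fun i φ x hx => hx) 1
    (fun i φ x hx => by simp only; nlinarith [Nat.zero_le (k x * (w i x + 1))])

end prog

/-! ## operators on arrays -/

section ops

variable {Fm : (Ty.prod FOpT VecT).den → VecT.den}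
  (hFm : ∀ x v, OpOK x.2 → toV (fopR x) (Fm (x, v)) = fopM x *ᵥ toV (fopC x) v)
  {Fc : (Ty.prod .nat (.prod CooT VecT)).den → VecT.den}
  (hFc : ∀ a c x v, CooOK a c x → toV a (Fc (a, (x, v))) = toM a c (cooA x) *ᵥ toV c v)
  {Fd : (Ty.prod (.prod .nat .nat) (.prod MatT VecT)).den → VecT.den}
  (hFd : ∀ a c X v, toV a (Fd ((a, c), (X, v))) = toM a c X *ᵥ toV c v)
  {L : (Ty.prod .nat (.prod (.prod .real VecT) (.prod .real VecT))).den → VecT.den}
  (hL : ∀ n r x r' y, toV n (L (n, ((r, x), (r', y)))) = r • toV n x + r' • toV n y)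

theorem P8_flag (k : ℕ) (o : OpT.den) :
    fopR ((1 - k, o) : FOpT.den) = fopC ((k, o) : FOpT.den) ∧
    fopC ((1 - k, o) : FOpT.den) = fopR ((k, o) : FOpT.den) ∧
    ∀ i j, fopA ((1 - k, o) : FOpT.den) i j = fopA ((k, o) : FOpT.den) j i := by
  rcases k with _ | k
  · refine ⟨?_, ?_, fun i j => ?_⟩ <;> simp [fopR, fopC, fopA]
  · have h1 : 1 - (k + 1) = 0 := by omega
    rw [h1]
    refine ⟨?_, ?_, fun i j => ?_⟩ <;> simp [fopR, fopC, fopA]

theorem P8_fopR_T (x : FOpT.den) : fopR (fopT x) = fopC x := (P8_flag x.1 x.2).1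

theorem P8_fopC_T (x : FOpT.den) : fopC (fopT x) = fopR x := (P8_flag x.1 x.2).2.1

theorem P8_fopA_T (x : FOpT.den) (i j : ℕ) : fopA (fopT x) i j = fopA x j i :=
  (P8_flag x.1 x.2).2.2 i j

include hFm in
theorem P8_mv {m n : ℕ} (x : FOpT.den) (hx : OpOK x.2) (hm : m = fopR x) (hn : n = fopC x)
    (v : VecT.den) : toV m (Fm (x, v)) = toM m n (fopA x) *ᵥ toV n v := by
  subst hm hn
  exact hFm x v hx

include hFm in
theorem P8_mvT {m n : ℕ} (x : FOpT.den) (hx : OpOK x.2) (hm : m = fopR x) (hn : n = fopC x)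
    (v : VecT.den) : toV n (Fm (fopT x, v)) = (toM m n (fopA x))ᵀ *ᵥ toV m v := by
  have h := P8_mv hFm (m := n) (n := m) (fopT x) hx (by rw [P8_fopR_T, hn])
    (by rw [P8_fopC_T, hm]) v
  rw [h]
  congr 1
  ext i j
  simp only [toM, Matrix.transpose_apply]
  exact P8_fopA_T x _ _

/-- product with the gram matrix -/
noncomputable def P8gram (Fm : (Ty.prod FOpT VecT).den → VecT.den)
    (L : (Ty.prod .nat (.prod (.prod .real VecT) (.prod .real VecT))).den → VecT.den)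
    (n : ℕ) (x : FOpT.den) (l : ℝ) (y : VecT.den) : VecT.den :=
  L (n, ((1, Fm (fopT x, Fm (x, y))), (l, y)))

include hFm hL in
theorem P8_gram {m n : ℕ} (x : FOpT.den) (hx : OpOK x.2) (hm : m = fopR x) (hn : n = fopC x)
    (l : ℝ) (y : VecT.den) :
    toV n (P8gram Fm L n x l y) = gram (toM m n (fopA x)) l *ᵥ toV n y := by
  unfold P8gram gram
  rw [hL, P8_mvT hFm x hx hm hn, P8_mv hFm x hx hm hn, Matrix.add_mulVec, Matrix.smul_mulVec,
    Matrix.one_mulVec, Matrix.mulVec_mulVec, one_smul]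

/-- product with the Woodbury transfer -/
noncomputable def P8wood (Fm : (Ty.prod FOpT VecT).den → VecT.den)
    (L : (Ty.prod .nat (.prod (.prod .real VecT) (.prod .real VecT))).den → VecT.den)
    (n : ℕ) (x : FOpT.den) (l : ℝ) (g : VecT.den → VecT.den) (y : VecT.den) : VecT.den :=
  L (n, ((l⁻¹, y), (-l⁻¹, Fm (x, g (Fm (fopT x, y))))))

include hFm hL in
theorem P8_wood {m n : ℕ} (x : FOpT.den) (hx : OpOK x.2) (hm : m = fopR x) (hn : n = fopC x)
    (l : ℝ) (g : VecT.den → VecT.den) (Q : Matrix (Fin n) (Fin n) ℝ)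
    (hg : ∀ y, toV n (g y) = Q *ᵥ toV n y) (y : VecT.den) :
    toV m (P8wood Fm L m x l g y) = wood (toM m n (fopA x)) l Q *ᵥ toV m y := by
  unfold P8wood wood
  rw [hL, P8_mv hFm x hx hm hn, hg, P8_mvT hFm x hx hm hn, Matrix.smul_mulVec,
    Matrix.sub_mulVec, Matrix.one_mulVec, Matrix.mulVec_mulVec, Matrix.mulVec_mulVec,
    smul_sub, neg_smul, sub_eq_add_neg]

/-- powers of `XᵀX` -/
def P8pow (Fm : (Ty.prod FOpT VecT).den → VecT.den) (x : FOpT.den) (q : ℕ) (y : VecT.den) :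
    VecT.den := iterV (fun _ y => Fm (fopT x, Fm (x, y))) y q

include hFm in
theorem P8_pow {m n : ℕ} (x : FOpT.den) (hx : OpOK x.2) (hm : m = fopR x) (hn : n = fopC x)
    (q : ℕ) (y : VecT.den) :
    toV n (P8pow Fm x q y) = ((toM m n (fopA x))ᵀ * toM m n (fopA x)) ^ q *ᵥ toV n y := by
  unfold P8pow
  induction q with
  | zero => simp
  | succ q ih =>
    rw [iterV_succ, P8_mvT hFm x hx hm hn, P8_mv hFm x hx hm hn, ih, pow_succ',
      Matrix.mulVec_mulVec, Matrix.mulVec_mulVec]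

theorem P8_cooT (x : CooT.den) (a c : ℕ) : toM c a (cooA (cooT x)) = (toM a c (cooA x))ᵀ := by
  ext i j
  simp only [toM, Matrix.transpose_apply, cooA, cooT]
  exact Finset.sum_congr rfl fun e _ => if_congr and_comm rfl rfl

theorem P8_cooOK {x : CooT.den} {a c : ℕ} (h : CooOK a c x) : CooOK c a (cooT x) :=
  fun e he => ⟨(h e he).2, (h e he).1⟩

/-- the base preconditioner -/
noncomputable def P8base (Fm : (Ty.prod FOpT VecT).den → VecT.den)
    (Fc : (Ty.prod .nat (.prod CooT VecT)).den → VecT.den)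
    (Fd : (Ty.prod (.prod .nat .nat) (.prod MatT VecT)).den → VecT.den)
    (L : (Ty.prod .nat (.prod (.prod .real VecT) (.prod .real VecT))).den → VecT.den)
    (n : ℕ) (x : FOpT.den) (l : ℝ) (B : BaseT.den) (y : VecT.den) : VecT.den :=
  letV (Fc (B.1.2, (cooT B.2.1, P8pow Fm x B.1.1 y))) fun p =>
    L (n, ((l⁻¹, y), (1, P8pow Fm x B.1.1 (Fc (n, (B.2.1,
      L (B.1.2, ((1, Fd ((B.1.2, B.1.2), (B.2.2.2, p))),
        (-l⁻¹, Fd ((B.1.2, B.1.2), (B.2.2.1, p)))))))))))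

include hFm hFc hFd hL in
theorem P8_base {m n : ℕ} (x : FOpT.den) (hx : OpOK x.2) (hm : m = fopR x) (hn : n = fopC x)
    (l : ℝ) (B : BaseT.den) (hB : CooOK n B.1.2 B.2.1) (y : VecT.den) :
    toV n (P8base Fm Fc Fd L n x l B y) =
      basePre (toM m n (fopA x)) l B.1.1 (toM n B.1.2 (cooA B.2.1))
        (toM B.1.2 B.1.2 B.2.2.1) (toM B.1.2 B.1.2 B.2.2.2) *ᵥ toV n y := by
  unfold P8base letV basePre
  simp only
  rw [hL, P8_pow hFm x hx hm hn, hFc n B.1.2 _ _ hB, hL, hFd, hFd,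
    hFc B.1.2 n _ _ (P8_cooOK hB), P8_cooT, P8_pow hFm x hx hm hn]
  set X := toM m n (fopA x)
  set O := toM n B.1.2 (cooA B.2.1)
  set Z1 := toM B.1.2 B.1.2 B.2.2.1
  set Z2 := toM B.1.2 B.1.2 B.2.2.2
  set W := (Xᵀ * X) ^ B.1.1 with hW
  have hWt : Wᵀ = W := by
    rw [hW, Matrix.transpose_pow, Matrix.transpose_mul, Matrix.transpose_transpose]
  rw [Matrix.transpose_mul, hWt, Matrix.add_mulVec, Matrix.smul_mulVec, Matrix.sub_mulVec,
    Matrix.one_mulVec]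
  simp only [Matrix.mulVec_mulVec, Matrix.mulVec_add, neg_smul, Matrix.mulVec_neg,
    Matrix.mulVec_smul, one_smul, smul_sub, Matrix.mul_assoc]
  abel

theorem P8_fopR_le (x : FOpT.den) : fopR x ≤ opSize x.2 := by
  unfold fopR opSize opR opC
  split_ifs <;> omega

theorem P8_fopC_le (x : FOpT.den) : fopC x ≤ opSize x.2 := by
  unfold fopC opSize opR opC
  split_ifs <;> omega

/-- the solvers on arrays -/
noncomputable def P8G (Fm : (Ty.prod FOpT VecT).den → VecT.den)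
    (Fc : (Ty.prod .nat (.prod CooT VecT)).den → VecT.den)
    (Fd : (Ty.prod (.prod .nat .nat) (.prod MatT VecT)).den → VecT.den)
    (L : (Ty.prod .nat (.prod (.prod .real VecT) (.prod .real VecT))).den → VecT.den) :
    ℕ → (Ty.prod ChT VecT).den → VecT.den
  | 0, x => P8loop L (fopC (x.1.1 0)) (x.1.2.2.1 0) (x.1.2.1.2 0) x.1.2.2.2.1
      (fun y => P8base Fm Fc Fd L (fopC (x.1.1 0)) (x.1.1 0) (x.1.2.1.1 0) x.1.2.2.2.2 y)
      (fun y => P8gram Fm L (fopC (x.1.1 0)) (x.1.1 0) (x.1.2.1.1 0) y) x.2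
  | r + 1, x => P8loop L (fopR (x.1.1 r)) (x.1.2.2.1 (r + 1)) (x.1.2.1.2 (r + 1)) x.1.2.2.2.1
      (fun y => P8wood Fm L (fopR (x.1.1 r)) (x.1.1 r) (x.1.2.1.1 r)
        (fun z => P8G Fm Fc Fd L r (x.1, z)) y)
      (fun y => P8gram Fm L (fopR (x.1.1 r)) (x.1.1 (r + 1)) (x.1.2.1.1 (r + 1)) y) x.2

theorem P8_chD {Θ : ChT.den} {R : ℕ} (h : ChOK Θ R) : ∀ r ≤ R, chD Θ r = fopC (Θ.1 r)
  | 0, _ => rfl
  | r + 1, hr => (h.2.1 r (by omega)).symm

include hFm hFc hFd hL in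
theorem P8_G_spec (Θ : ChT.den) : ∀ (R : ℕ), ChOK Θ R → ∀ v : VecT.den,
    toV (chD Θ R) (P8G Fm Fc Fd L R (Θ, v)) = (chainOf Θ).g R *ᵥ toV (chD Θ R) v := by
  intro R
  induction R with
  | zero =>
    intro h v
    exact P8_loop_spec hL _ _
      (P8_base hFm hFc hFd hL (m := fopR (Θ.1 0)) (n := fopC (Θ.1 0)) (Θ.1 0)
        (h.1 0 le_rfl) rfl rfl (Θ.2.1.1 0) Θ.2.2.2.2 h.2.2)
      (P8_gram hFm hL (m := fopR (Θ.1 0)) (n := fopC (Θ.1 0)) (Θ.1 0)
        (h.1 0 le_rfl) rfl rfl (Θ.2.1.1 0)) v _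
  | succ r ih =>
    intro h v
    have h' : ChOK Θ r := ⟨fun i hi => h.1 i (by omega), fun i hi => h.2.1 i (by omega), h.2.2⟩
    have hg := ih h'
    exact P8_loop_spec hL _ _
      (P8_wood hFm hL (m := chD Θ (r + 1)) (n := chD Θ r) (Θ.1 r) (h.1 r (by omega)) rfl
        (P8_chD h r (by omega)) (Θ.2.1.1 r) (fun z => P8G Fm Fc Fd L r (Θ, z))
        ((chainOf Θ).g r) (fun y => hg y))
      (P8_gram hFm hL (m := chD Θ (r + 2)) (n := chD Θ (r + 1)) (Θ.1 (r + 1))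
        (h.1 (r + 1) le_rfl) rfl (P8_chD h (r + 1) le_rfl) (Θ.2.1.1 (r + 1))) v _

end ops

/-! ## the programs -/

section progs

variable {ι : Type} {s : Ty} {V : ι → FnE → s.den → Prop} {w : ι → s.den → ℕ}

theorem P8_sum (q o : ℕ) : ∑ _j ∈ range q, (o + 1) ≤ 1 * ((q + 2) * (o + 1) + 1) := by
  rw [sum_const, card_range, smul_eq_mul]
  nlinarith

theorem P8_kk {k W : ℕ} (h : (k + 1) * (k + 1) ≤ 1 * W) : k ≤ 1 * W := by nlinarith

theorem P8_add2 {a b W : ℕ} (h1 : a ≤ 1 * W) (h2 : b ≤ 1 * W) : a + b ≤ 2 * W := by omega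

theorem P8K_comp {u t : Ty} {F : s.den → u.den} {G : u.den → t.den} (hG : P8K u t G)
    (hF : P8K s u F) : P8K s t (fun x => G (F x)) :=
  OC.comp (W := fun _ => True) (w' := fun _ => 0) hG hF (fun _ _ => trivial) 0
    (fun _ _ => by simp)

theorem P8K_fopT {X : s.den → FOpT.den} (h : P8K s FOpT X) : P8K s FOpT (fun x => fopT (X x)) :=
  OC.pair (OC.nsub (OC.nlit 1) (OC.fst h)) (OC.snd h)

theorem P8K_fopR {X : s.den → FOpT.den} (h : P8K s FOpT X) : P8K s .nat (fun x => fopR (X x)) :=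
  OC.ifEq (OC.fst h) (OC.nlit 0) (OC.fst (OC.fst (OC.snd h))) (OC.snd (OC.fst (OC.snd h)))

theorem P8K_fopC {X : s.den → FOpT.den} (h : P8K s FOpT X) : P8K s .nat (fun x => fopC (X x)) :=
  OC.ifEq (OC.fst h) (OC.nlit 0) (OC.snd (OC.fst (OC.snd h))) (OC.fst (OC.fst (OC.snd h)))

theorem P8K_cooT {X : s.den → CooT.den} (h : P8K s CooT X) : P8K s CooT (fun x => cooT (X x)) :=
  OC.pair (OC.fst h) (OC.pair (OC.fst (OC.snd (OC.snd h)))
    (OC.pair (OC.fst (OC.snd h)) (OC.snd (OC.snd (OC.snd h)))))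

variable {Fm : (Ty.prod FOpT VecT).den → VecT.den}
  (pFm : OC (.prod FOpT VecT) VecT (fun _ => True) Fm (fun x => opSize x.1.2))
  {Fc : (Ty.prod .nat (.prod CooT VecT)).den → VecT.den}
  (pFc : OC (.prod .nat (.prod CooT VecT)) VecT (fun _ => True) Fc (fun x => x.1 + x.2.1.1))
  {Fd : (Ty.prod (.prod .nat .nat) (.prod MatT VecT)).den → VecT.den}
  (pFd : OC (.prod (.prod .nat .nat) (.prod MatT VecT)) VecT (fun _ => True) Fd
    (fun x => (x.1.1 + 1) * (x.1.2 + 1)))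
  {L : (Ty.prod .nat (.prod (.prod .real VecT) (.prod .real VecT))).den → VecT.den}
  (hLp : OC (.prod .nat (.prod (.prod .real VecT) (.prod .real VecT))) VecT (fun _ => True) L
    (fun x => x.1))

include pFm in
theorem P8_mv_UC {X : s.den → FOpT.den} {y : s.den → VecT.den} (hX : P8K s FOpT X)
    (hy : P8UC ι s VecT V y w) (hw : ∀ i φ x, V i φ x → opSize (X x).2 ≤ 1 * (w i x + 1)) :
    P8UC ι s VecT V (fun x => Fm (X x, y x)) w :=
  P8_compO (F := fun x => (X x, y x)) pFm (P8_pair (P8_O1 hX) hy) 1 hw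

include pFm hLp in
theorem P8_gram_UC {N : s.den → ℕ} {X : s.den → FOpT.den} {l : s.den → ℝ} {y : s.den → VecT.den}
    (hN : P8K s .nat N) (hX : P8K s FOpT X) (hl : P8K s .real l) (hy : P8UC ι s VecT V y w)
    (hw1 : ∀ i φ x, V i φ x → N x ≤ 1 * (w i x + 1))
    (hw2 : ∀ i φ x, V i φ x → opSize (X x).2 ≤ 1 * (w i x + 1)) :
    P8UC ι s VecT V (fun x => P8gram Fm L (N x) (X x) (l x) (y x)) w :=
  P8_lin hLp (r := fun _ => 1) hN OC.r1 hl
    (P8_mv_UC pFm (P8K_fopT hX) (P8_mv_UC pFm hX hy hw2) hw2) hy 1 hw1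

include pFm in
theorem P8_pow_OC : OC (.prod FOpT (.prod .nat VecT)) VecT (fun _ => True)
    (fun z => P8pow Fm z.1 z.2.1 z.2.2) (fun z => (z.2.1 + 2) * (opSize z.1.2 + 1)) := by
  have h1 : OC (.prod (.prod FOpT (.prod .nat VecT)) (.prod .nat VecT)) VecT (fun _ => True)
      (fun p => Fm (p.1.1, p.2.2)) (fun p => opSize p.1.1.2) :=
    OC.comp (F := fun p : (Ty.prod (.prod FOpT (.prod .nat VecT)) (.prod .nat VecT)).den =>
      (p.1.1, p.2.2)) pFm (OC.pair (OC.fst (OC.fst OC.id)) (OC.snd (OC.snd OC.id)))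
      (fun _ _ => trivial) 1 (fun p _ => by
        show opSize p.1.1.2 ≤ 1 * (opSize p.1.1.2 + 1)
        omega)
  have h2 : OC (.prod (.prod FOpT (.prod .nat VecT)) (.prod .nat VecT)) VecT (fun _ => True)
      (fun p => Fm (fopT p.1.1, Fm (p.1.1, p.2.2))) (fun p => opSize p.1.1.2) :=
    OC.comp (F := fun p : (Ty.prod (.prod FOpT (.prod .nat VecT)) (.prod .nat VecT)).den =>
      (fopT p.1.1, Fm (p.1.1, p.2.2))) pFm
      (OC.pair (OC.pair (OC.nsub (OC.nlit 1) (OC.fst (OC.fst (OC.fst OC.id))))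
        (OC.snd (OC.fst (OC.fst OC.id)))) h1)
      (fun _ _ => trivial) 1 (fun p _ => by
        show opSize p.1.1.2 ≤ 1 * (opSize p.1.1.2 + 1)
        omega)
  exact OC.iter (s := .prod FOpT (.prod .nat VecT)) (B := fun z _ y =>
      Fm (fopT z.1, Fm (z.1, y))) (A := fun z => z.2.2) (N := fun z => z.2.1)
    (OC.fst (OC.snd OC.id)) (OC.snd (OC.snd OC.id)) (h2.weaken fun _ _ => trivial) 1
    (fun z _ => P8_sum z.2.1 (opSize z.1.2))

include pFm pFc pFd hLp in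
theorem P8_base_UC {N : s.den → ℕ} {X : s.den → FOpT.den} {l : s.den → ℝ}
    {B : s.den → BaseT.den} {y : s.den → VecT.den}
    (hN : P8K s .nat N) (hX : P8K s FOpT X) (hl : P8K s .real l) (hB : P8K s BaseT B)
    (hy : P8UC ι s VecT V y w)
    (hw1 : ∀ i φ x, V i φ x → N x ≤ 1 * (w i x + 1))
    (hw2 : ∀ i φ x, V i φ x → ((B x).1.1 + 2) * (opSize (X x).2 + 1) ≤ 2 * (w i x + 1))
    (hw3 : ∀ i φ x, V i φ x → (B x).2.1.1 ≤ 1 * (w i x + 1))
    (hw4 : ∀ i φ x, V i φ x → ((B x).1.2 + 1) * ((B x).1.2 + 1) ≤ 1 * (w i x + 1)) :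
    P8UC ι s VecT V (fun x => P8base Fm Fc Fd L (N x) (X x) (l x) (B x) (y x)) w := by
  have hw5 : ∀ i φ x, V i φ x → (B x).1.2 ≤ 1 * (w i x + 1) :=
    fun i φ x hx => P8_kk (hw4 i φ x hx)
  have bk : P8K s .nat (fun x => (B x).1.2) := OC.snd (OC.fst hB)
  have bq : P8K s .nat (fun x => (B x).1.1) := OC.fst (OC.fst hB)
  have bO : P8K s CooT (fun x => (B x).2.1) := OC.fst (OC.snd hB)
  have bZ1 : P8K s MatT (fun x => (B x).2.2.1) := OC.fst (OC.snd (OC.snd hB))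
  have bZ2 : P8K s MatT (fun x => (B x).2.2.2) := OC.snd (OC.snd (OC.snd hB))
  -- the first power
  have hp1 : P8UC ι s VecT V (fun x => P8pow Fm (X x) (B x).1.1 (y x)) w :=
    P8_compO (F := fun x => (X x, ((B x).1.1, y x))) (P8_pow_OC pFm)
      (P8_pair (P8_O1 hX) (P8_pair (P8_O1 bq) hy)) 2 hw2
  have hp2 : P8UC ι s VecT V
      (fun x => Fc ((B x).1.2, (cooT (B x).2.1, P8pow Fm (X x) (B x).1.1 (y x)))) w :=
    P8_compO (F := fun x => ((B x).1.2, (cooT (B x).2.1, P8pow Fm (X x) (B x).1.1 (y x)))) pFc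
      (P8_pair (P8_O1 bk) (P8_pair (P8_O1 (P8K_cooT bO)) hp1)) 2
      (fun i φ x hx => P8_add2 (hw5 i φ x hx) (hw3 i φ x hx))
  -- the body
  have gl : P8K (.prod s VecT) .real (fun p => (l p.1)⁻¹) := OC.inv (P8K_lift hl)
  have gl' : P8K (.prod s VecT) .real (fun p => -(l p.1)⁻¹) := OC.neg gl
  have g1 : P8K (.prod s VecT) .real (fun _ => (1:ℝ)) := OC.r1
  have gp : P8UC ι (.prod s VecT) VecT (fun i φ p => V i φ p.1) (fun p => p.2)
      (fun i p => w i p.1) := P8_O1 (OC.snd OC.id)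
  have gd : ∀ Z : s.den → MatT.den, P8K s MatT Z →
      P8UC ι (.prod s VecT) VecT (fun i φ p => V i φ p.1)
        (fun p => Fd (((B p.1).1.2, (B p.1).1.2), (Z p.1, p.2))) (fun i p => w i p.1) := by
    intro Z hZ
    exact P8_compO (F := fun p : (Ty.prod s VecT).den =>
        (((B p.1).1.2, (B p.1).1.2), (Z p.1, p.2))) pFd
      (P8_pair (P8_pair (P8_O1 (P8K_lift bk)) (P8_O1 (P8K_lift bk)))
        (P8_pair (P8_O1 (P8K_lift hZ)) gp)) 1 (fun i φ p hp => hw4 i φ _ hp)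
  have gc : P8UC ι (.prod s VecT) VecT (fun i φ p => V i φ p.1)
      (fun p => L ((B p.1).1.2, ((1, Fd (((B p.1).1.2, (B p.1).1.2), ((B p.1).2.2.2, p.2))),
        (-(l p.1)⁻¹, Fd (((B p.1).1.2, (B p.1).1.2), ((B p.1).2.2.1, p.2))))))
      (fun i p => w i p.1) :=
    P8_lin hLp (P8K_lift bk) g1 gl' (gd _ bZ2) (gd _ bZ1) 1 (fun i φ p hp => hw5 i φ _ hp)
  have gu := P8_compO (F := fun p : (Ty.prod s VecT).den => (N p.1, ((B p.1).2.1,
      L ((B p.1).1.2, ((1, Fd (((B p.1).1.2, (B p.1).1.2), ((B p.1).2.2.2, p.2))),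
        (-(l p.1)⁻¹, Fd (((B p.1).1.2, (B p.1).1.2), ((B p.1).2.2.1, p.2)))))))) pFc
    (P8_pair (P8_O1 (P8K_lift hN)) (P8_pair (P8_O1 (P8K_lift bO)) gc)) 2
    (fun i φ p hp => P8_add2 (hw1 i φ _ hp) (hw3 i φ _ hp))
  have gv := P8_compO (F := fun p : (Ty.prod s VecT).den => (X p.1, ((B p.1).1.1,
      Fc (N p.1, ((B p.1).2.1,
      L ((B p.1).1.2, ((1, Fd (((B p.1).1.2, (B p.1).1.2), ((B p.1).2.2.2, p.2))),
        (-(l p.1)⁻¹, Fd (((B p.1).1.2, (B p.1).1.2), ((B p.1).2.2.1, p.2))))))))))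
    (P8_pow_OC pFm)
    (P8_pair (P8_O1 (P8K_lift hX)) (P8_pair (P8_O1 (P8K_lift bq)) gu)) 2
    (fun i φ p hp => hw2 i φ _ hp)
  -- everything
  have ga : P8UC ι (.prod s (.prod VecT VecT)) VecT (fun i φ p => V i φ p.1)
      (fun p => L (N p.1, (((l p.1)⁻¹, p.2.1), (1, P8pow Fm (X p.1) (B p.1).1.1
        (Fc (N p.1, ((B p.1).2.1,
      L ((B p.1).1.2, ((1, Fd (((B p.1).1.2, (B p.1).1.2), ((B p.1).2.2.2, p.2.2))),
        (-(l p.1)⁻¹, Fd (((B p.1).1.2, (B p.1).1.2), ((B p.1).2.2.1, p.2.2)))))))))))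
      ) (fun i p => w i p.1) :=
    P8_lin hLp (P8K_lift hN) (OC.inv (P8K_lift hl)) OC.r1 (P8_O1 (OC.fst (OC.snd OC.id)))
      (P8_comp (F := fun p : (Ty.prod s (.prod VecT VecT)).den => (p.1, p.2.2)) gv
        (P8_O1 (OC.pair (OC.fst OC.id) (OC.snd (OC.snd OC.id)))) (fun i φ p hp => hp) 1
        (fun i φ p hp => by
          show w i p.1 ≤ 1 * (w i p.1 + 1)
          omega)) 1 (fun i φ p hp => hw1 i φ _ hp)
  exact P8_comp (F := fun x => (x, (y x,
      Fc ((B x).1.2, (cooT (B x).2.1, P8pow Fm (X x) (B x).1.1 (y x)))))) ga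
    (P8_pair (P8_O1 OC.id) (P8_pair hy hp2)) (fun i φ x hx => hx) 1
    (fun i φ x hx => by
      show w i x ≤ 1 * (w i x + 1)
      omega)

theorem P8_call {u t : Ty} {X : s.den → u.den} {G : s.den → u.den → t.den}
    (hX : P8UC ι s u V X w) (h : ∀ i φ x, V i φ x → (φ u t 0 (X x)).1 = G x (X x) ∧
      (φ u t 0 (X x)).2 ≤ w i x + 1) : P8UC ι s t V (fun x => G x (X x)) w := by
  obtain ⟨C, hC⟩ := hX
  refine P8_of_Cp (2 + C) (fun i => Cp.call (G := G) (γ := fun x _ => w i x + 1) (hC i)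
    fun φ x hx => h i φ x hx) fun i φ x hx => ?_
  nlinarith

include pFm hLp in
theorem P8_wood_UC {N : s.den → ℕ} {X : s.den → FOpT.den} {l : s.den → ℝ} {y : s.den → VecT.den}
    {g : s.den → VecT.den → VecT.den}
    (hN : P8K s .nat N) (hX : P8K s FOpT X) (hl : P8K s .real l) (hy : P8UC ι s VecT V y w)
    (hg : P8UC ι (.prod s VecT) VecT (fun i φ p => V i φ p.1) (fun p => g p.1 p.2)
      (fun i p => w i p.1))
    (hw1 : ∀ i φ x, V i φ x → N x ≤ 1 * (w i x + 1))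
    (hw2 : ∀ i φ x, V i φ x → opSize (X x).2 ≤ 1 * (w i x + 1)) :
    P8UC ι s VecT V (fun x => P8wood Fm L (N x) (X x) (l x) (g x) (y x)) w :=
  P8_lin hLp hN (OC.inv hl) (OC.neg (OC.inv hl)) hy
    (P8_mv_UC pFm hX (P8_comp (F := fun x => (x, Fm (fopT (X x), y x))) hg
      (P8_pair (P8_O1 OC.id) (P8_mv_UC pFm (P8K_fopT hX) hy hw2)) (fun i φ x hx => hx) 1
      (fun i φ x hx => by
        show w i x ≤ 1 * (w i x + 1)
        omega)) hw2) 1 hw1

/-- the base solver -/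
theorem P8_zero_UC (pFm : OC (.prod FOpT VecT) VecT (fun _ => True) Fm (fun x => opSize x.1.2))
    (pFc : OC (.prod .nat (.prod CooT VecT)) VecT (fun _ => True) Fc (fun x => x.1 + x.2.1.1))
    (pFd : OC (.prod (.prod .nat .nat) (.prod MatT VecT)) VecT (fun _ => True) Fd
      (fun x => (x.1.1 + 1) * (x.1.2 + 1)))
    (hLp : OC (.prod .nat (.prod (.prod .real VecT) (.prod .real VecT))) VecT (fun _ => True) L
      (fun x => x.1)) :
    P8UC Unit (.prod ChT VecT) VecT (fun _ _ _ => True) (P8G Fm Fc Fd L 0)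
      (fun _ x => (x.1.2.2.1 0 + 2) * (((x.1.2.2.2.2.1.1 + 1) * (opSize (x.1.1 0).2 + 1) +
        x.1.2.2.2.2.2.1.1 + (x.1.2.2.2.2.1.2 + 1) ^ 2) + 1)) := by
  have kX : P8K (.prod ChT VecT) FOpT (fun x => x.1.1 0) :=
    OC.get (OC.fst (OC.fst OC.id)) (OC.nlit 0)
  have kl : P8K (.prod ChT VecT) .real (fun x => x.1.2.1.1 0) :=
    OC.get (OC.fst (OC.fst (OC.snd (OC.fst OC.id)))) (OC.nlit 0)
  have ka : P8K (.prod ChT VecT) .real (fun x => x.1.2.1.2 0) :=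
    OC.get (OC.snd (OC.fst (OC.snd (OC.fst OC.id)))) (OC.nlit 0)
  have kd : P8K (.prod ChT VecT) .nat (fun x => x.1.2.2.1 0) :=
    OC.get (OC.fst (OC.snd (OC.snd (OC.fst OC.id)))) (OC.nlit 0)
  have kb : P8K (.prod ChT VecT) .real (fun x => x.1.2.2.2.1) :=
    OC.fst (OC.snd (OC.snd (OC.snd (OC.fst OC.id))))
  have kB : P8K (.prod ChT VecT) BaseT (fun x => x.1.2.2.2.2) :=
    OC.snd (OC.snd (OC.snd (OC.snd (OC.fst OC.id))))
  have kv : P8K (.prod ChT VecT) VecT (fun x => x.2) := OC.snd OC.id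
  have kn : P8K (.prod ChT VecT) .nat (fun x => fopC (x.1.1 0)) := P8K_fopC kX
  have a1 : ∀ (q o l k : ℕ), o ≤ 1 * (((q + 1) * (o + 1) + l + (k + 1) ^ 2) + 1) := by
    intro q o l k; nlinarith [Nat.zero_le (q * o), Nat.zero_le q]
  have a2 : ∀ (q o l k : ℕ), (q + 2) * (o + 1) ≤
      2 * (((q + 1) * (o + 1) + l + (k + 1) ^ 2) + 1) := by
    intro q o l k; nlinarith [Nat.zero_le (q * o), Nat.zero_le q]
  have a3 : ∀ (q o l k : ℕ), l ≤ 1 * (((q + 1) * (o + 1) + l + (k + 1) ^ 2) + 1) := by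
    intro q o l k; nlinarith [Nat.zero_le (q * o), Nat.zero_le q]
  have a4 : ∀ (q o l k : ℕ), (k + 1) * (k + 1) ≤
      1 * (((q + 1) * (o + 1) + l + (k + 1) ^ 2) + 1) := by
    intro q o l k; nlinarith [Nat.zero_le (q * o), Nat.zero_le q]
  have h1 : ∀ (i : Unit) (φ : FnE) (x : (Ty.prod ChT VecT).den), True →
      opSize (x.1.1 0).2 ≤ 1 * (((x.1.2.2.2.2.1.1 + 1) * (opSize (x.1.1 0).2 + 1) +
        x.1.2.2.2.2.2.1.1 + (x.1.2.2.2.2.1.2 + 1) ^ 2) + 1) := fun _ _ x _ => a1 _ _ _ _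
  have h2 : ∀ (i : Unit) (φ : FnE) (x : (Ty.prod ChT VecT).den), True →
      fopC (x.1.1 0) ≤ 1 * (((x.1.2.2.2.2.1.1 + 1) * (opSize (x.1.1 0).2 + 1) +
        x.1.2.2.2.2.2.1.1 + (x.1.2.2.2.2.1.2 + 1) ^ 2) + 1) :=
    fun i φ x hx => (P8_fopC_le _).trans (h1 i φ x hx)
  exact P8_loop_UC (s := .prod ChT VecT) (V := fun _ _ _ => True)
    (QF := fun x y => P8base Fm Fc Fd L (fopC (x.1.1 0)) (x.1.1 0) (x.1.2.1.1 0) x.1.2.2.2.2 y)
    (MF := fun x y => P8gram Fm L (fopC (x.1.1 0)) (x.1.1 0) (x.1.2.1.1 0) y)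
    hLp kn kd ka kb kv
    (P8_base_UC pFm pFc pFd hLp (P8K_lift kn) (P8K_lift kX) (P8K_lift kl) (P8K_lift kB)
      (P8_O1 (OC.snd OC.id)) (fun i φ x hx => h2 i φ _ trivial) (fun i φ x hx => a2 _ _ _ _)
      (fun i φ x hx => a3 _ _ _ _) (fun i φ x hx => a4 _ _ _ _))
    (P8_gram_UC pFm hLp (P8K_lift kn) (P8K_lift kX) (P8K_lift kl)
      (P8_O1 (OC.snd OC.id)) (fun i φ x hx => h2 i φ _ trivial)
      (fun i φ x hx => h1 i φ _ trivial)) h2

/-- one level -/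
theorem P8_succ_UC (pFm : OC (.prod FOpT VecT) VecT (fun _ => True) Fm (fun x => opSize x.1.2))
    (hLp : OC (.prod .nat (.prod (.prod .real VecT) (.prod .real VecT))) VecT (fun _ => True) L
      (fun x => x.1)) :
    P8UC (ℕ → ChT.den → ℕ) (.prod .nat (.prod ChT VecT)) VecT
      (fun c φ p => ∀ y, (φ (.prod ChT VecT) VecT 0 y).1 = P8G Fm Fc Fd L p.1 y ∧
        (φ (.prod ChT VecT) VecT 0 y).2 ≤ c p.1 y.1)
      (fun p => P8G Fm Fc Fd L (p.1 + 1) p.2)
      (fun c p => (p.2.1.2.2.1 (p.1 + 1) + 2) *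
        ((c p.1 p.2.1 + opSize (p.2.1.1 p.1).2 + opSize (p.2.1.1 (p.1 + 1)).2) + 1)) := by
  have kj : P8K (.prod .nat (.prod ChT VecT)) .nat (fun p => p.1) := OC.fst OC.id
  have kj1 : P8K (.prod .nat (.prod ChT VecT)) .nat (fun p => p.1 + 1) := OC.nadd kj (OC.nlit 1)
  have kT : P8K (.prod .nat (.prod ChT VecT)) ChT (fun p => p.2.1) := OC.fst (OC.snd OC.id)
  have kX : P8K (.prod .nat (.prod ChT VecT)) FOpT (fun p => p.2.1.1 p.1) :=
    OC.get (OC.fst kT) kj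
  have kX1 : P8K (.prod .nat (.prod ChT VecT)) FOpT (fun p => p.2.1.1 (p.1 + 1)) :=
    OC.get (OC.fst kT) kj1
  have kl : P8K (.prod .nat (.prod ChT VecT)) .real (fun p => p.2.1.2.1.1 p.1) :=
    OC.get (OC.fst (OC.fst (OC.snd kT))) kj
  have kl1 : P8K (.prod .nat (.prod ChT VecT)) .real (fun p => p.2.1.2.1.1 (p.1 + 1)) :=
    OC.get (OC.fst (OC.fst (OC.snd kT))) kj1
  have ka : P8K (.prod .nat (.prod ChT VecT)) .real (fun p => p.2.1.2.1.2 (p.1 + 1)) :=
    OC.get (OC.snd (OC.fst (OC.snd kT))) kj1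
  have kd : P8K (.prod .nat (.prod ChT VecT)) .nat (fun p => p.2.1.2.2.1 (p.1 + 1)) :=
    OC.get (OC.fst (OC.snd (OC.snd kT))) kj1
  have kb : P8K (.prod .nat (.prod ChT VecT)) .real (fun p => p.2.1.2.2.2.1) :=
    OC.fst (OC.snd (OC.snd (OC.snd kT)))
  have kv : P8K (.prod .nat (.prod ChT VecT)) VecT (fun p => p.2.2) := OC.snd (OC.snd OC.id)
  have kn : P8K (.prod .nat (.prod ChT VecT)) .nat (fun p => fopR (p.2.1.1 p.1)) := P8K_fopR kX
  have a1 : ∀ (c o o' n : ℕ), n ≤ o → n ≤ 1 * ((c + o + o') + 1) := by intros; omega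
  have a2 : ∀ (c o o' : ℕ), o' ≤ 1 * ((c + o + o') + 1) := by intros; omega
  exact P8_loop_UC (s := .prod .nat (.prod ChT VecT)) (ι := ℕ → ChT.den → ℕ)
    (w := fun c p => c p.1 p.2.1 + opSize (p.2.1.1 p.1).2 + opSize (p.2.1.1 (p.1 + 1)).2)
    (QF := fun p y => P8wood Fm L (fopR (p.2.1.1 p.1)) (p.2.1.1 p.1) (p.2.1.2.1.1 p.1)
        (fun z => P8G Fm Fc Fd L p.1 (p.2.1, z)) y)
    (MF := fun p y => P8gram Fm L (fopR (p.2.1.1 p.1)) (p.2.1.1 (p.1 + 1))
      (p.2.1.2.1.1 (p.1 + 1)) y)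
    hLp kn kd ka kb kv
    (P8_wood_UC (s := .prod (.prod .nat (.prod ChT VecT)) VecT) (g := fun p z => P8G Fm Fc Fd L p.1.1 (p.1.2.1, z)) pFm hLp (P8K_lift kn)
      (P8K_lift kX) (P8K_lift kl) (P8_O1 (OC.snd OC.id))
      (P8_call (s := .prod (.prod (.prod .nat (.prod ChT VecT)) VecT) VecT)
        (u := .prod ChT VecT) (X := fun q => (q.1.1.2.1, q.2)) (G := fun q y => P8G Fm Fc Fd L q.1.1.1 y)
        (P8_O1 (OC.pair (OC.fst (OC.snd (OC.fst (OC.fst OC.id)))) (OC.snd OC.id)))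
        (fun c φ q hq => ⟨(hq _).1, (hq _).2.trans (by
          show c q.1.1.1 q.1.1.2.1 ≤ c q.1.1.1 q.1.1.2.1 + _ + _ + 1
          omega)⟩))
      (fun c φ q hq => a1 _ _ _ _ (P8_fopR_le _)) (fun c φ q hq => a1 _ _ _ _ le_rfl))
    (P8_gram_UC pFm hLp (P8K_lift kn) (P8K_lift kX1) (P8K_lift kl1)
      (P8_O1 (OC.snd OC.id)) (fun c φ q hq => a1 _ _ _ _ (P8_fopR_le _))
      (fun c φ q hq => a2 _ _ _))
    (fun c φ q hq => a1 _ _ _ _ (P8_fopR_le _))

end progs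

/-! ## costs and the theorem -/

/-- the cost of the solver is at least one and monotone in the constant -/
theorem chCost_pos (C : ℕ) (hC : 1 ≤ C) (Θ : ChT.den) (R : ℕ) : 1 ≤ chCost C Θ R := by
  induction R with
  | zero =>
    unfold chCost
    exact Nat.one_le_iff_ne_zero.2 (Nat.mul_ne_zero (Nat.mul_ne_zero (by omega) (by omega))
      (by positivity))
  | succ r ih =>
    unfold chCost
    exact Nat.one_le_iff_ne_zero.2 (Nat.mul_ne_zero (Nat.mul_ne_zero (by omega) (by omega))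
      (by omega))

theorem chCost_mono {C C' : ℕ} (h : C ≤ C') (Θ : ChT.den) (R : ℕ) :
    chCost C Θ R ≤ chCost C' Θ R := by
  induction R with
  | zero =>
    unfold chCost
    exact Nat.mul_le_mul_right _ (Nat.mul_le_mul_right _ h)
  | succ r ih =>
    unfold chCost
    exact Nat.mul_le_mul (Nat.mul_le_mul_right _ h) (by omega)

theorem P8_mulAdd (C a d w w' : ℕ) (hw : w ≤ w') (hw' : 1 ≤ w') :
    C * (d + 2) * w + a ≤ (C + a) * (d + 2) * w' := by
  have h1 : C * (d + 2) * w ≤ C * (d + 2) * w' := Nat.mul_le_mul_left _ hw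
  have h2 : a ≤ a * ((d + 2) * w') := Nat.le_mul_of_pos_right _ (by positivity)
  calc C * (d + 2) * w + a ≤ C * (d + 2) * w' + a * ((d + 2) * w') := Nat.add_le_add h1 h2
    _ = _ := by ring

theorem P8_cost_add (C a : ℕ) (hC : 1 ≤ C) (Θ : ChT.den) (R : ℕ) :
    chCost C Θ R + a ≤ chCost (C + a) Θ R := by
  cases R with
  | zero =>
    unfold chCost
    exact P8_mulAdd _ _ _ _ _ le_rfl (Nat.one_le_iff_ne_zero.2 (by positivity))
  | succ r =>
    unfold chCost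
    refine P8_mulAdd _ _ _ _ _ ?_ ?_
    · have := chCost_mono (Nat.le_add_right C a) Θ r
      omega
    · have := chCost_pos (C + a) (by omega) Θ r
      omega

theorem P8_arith (K C a d w : ℕ) (hw : 1 ≤ w) (hC : 3 * K + a ≤ C) :
    K * ((d + 2) * (w + 1) + 1) + a ≤ C * (d + 2) * w := by
  have h1 : (d + 2) * (w + 1) + 1 ≤ 3 * ((d + 2) * w) := by nlinarith
  have h2 : a ≤ a * ((d + 2) * w) := Nat.le_mul_of_pos_right _ (by positivity)
  calc K * ((d + 2) * (w + 1) + 1) + a ≤ K * (3 * ((d + 2) * w)) + a * ((d + 2) * w) :=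
        Nat.add_le_add (Nat.mul_le_mul_left _ h1) h2
    _ = (3 * K + a) * ((d + 2) * w) := by ring
    _ ≤ C * ((d + 2) * w) := Nat.mul_le_mul_right _ hC
    _ = _ := by ring

/-- input `(R, (Θ, v))` -/
theorem solve_prog : ∃ (C : ℕ) (F : (Ty.prod .nat (.prod ChT VecT)).den → VecT.den),
    Cp (.prod .nat (.prod ChT VecT)) VecT (fun _ _ => True) F
      (fun x => chCost C x.2.1 x.1) ∧
    ∀ R Θ v, ChOK Θ R →
      toV (chD Θ R) (F (R, (Θ, v))) = (chainOf Θ).g R *ᵥ toV (chD Θ R) v := by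
  obtain ⟨Fm, pFm, sFm⟩ := mvOp_prog
  obtain ⟨Fc, pFc, sFc⟩ := mvCoo_prog
  obtain ⟨Fd, pFd, sFd⟩ := mvDense_prog
  obtain ⟨L, pL, sL⟩ := lin_prog
  obtain ⟨K0, h0⟩ := P8_zero_UC pFm pFc pFd pL
  obtain ⟨K1, h1⟩ := P8_succ_UC (Fc := Fc) (Fd := Fd) pFm pL
  set C := 3 * K0 + 3 * K1 + 4 with hC
  refine ⟨C + 5, fun x => P8G Fm Fc Fd L x.1 x.2, ?_, fun R Θ v h =>
    P8_G_spec sFm sFc sFd sL Θ R h v⟩
  have hb : Cp (.prod ChT VecT) VecT (fun _ _ => True) (P8G Fm Fc Fd L 0)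
      (fun x => chCost C x.1 0) := by
    refine (h0 ()).cost _ fun φ x _ => ?_
    exact P8_arith K0 C 0 _ _ (Nat.one_le_iff_ne_zero.2 (by positivity)) (by omega)
  have hs : Cp (.prod .nat (.prod ChT VecT)) VecT
      (fun φ p => True ∧ ∀ y : (Ty.prod ChT VecT).den, True →
        (φ (.prod ChT VecT) VecT 0 y).1 = P8G Fm Fc Fd L p.1 y ∧
        (φ (.prod ChT VecT) VecT 0 y).2 ≤ chCost C y.1 p.1)
      (fun p => P8G Fm Fc Fd L (p.1 + 1) p.2) (fun p => chCost C p.2.1 (p.1 + 1) - 4) := by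
    refine (h1 (fun j Θ => chCost C Θ j)).mono (fun φ p hp y => hp.2 y trivial)
      fun φ p _ => Nat.le_sub_of_add_le ?_
    exact P8_arith K1 C 4 _ _ (by
      have := chCost_pos C (by omega) p.2.1 p.1
      show 1 ≤ chCost C p.2.1 p.1 + _ + _
      omega) (by omega)
  have h4 : ∀ (j : ℕ) (x : (Ty.prod ChT VecT).den), 4 ≤ chCost C x.1 (j + 1) := by
    intro j x
    have h5 := P8_cost_add 1 (C - 1) le_rfl x.1 (j + 1)
    have h6 := chCost_pos 1 le_rfl x.1 (j + 1)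
    have h7 : 1 + (C - 1) = C := by omega
    rw [h7] at h5
    omega
  refine (Cp.rec (V := fun _ _ => True) (G := P8G Fm Fc Fd L) (U := fun _ _ => True)
    (γ := fun j x => chCost C x.1 j) (Cp.fst Cp.id) (Cp.snd Cp.id) hb hs h4
    (fun _ _ _ => trivial)).cost _ fun φ x _ => ?_
  have h5 := P8_cost_add C 5 (by omega) x.2.1 x.1
  show 1 + (1 + 1) + (1 + 1) + chCost C x.2.1 x.1 ≤ chCost (C + 5) x.2.1 x.1
  omega

end A55
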