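import Pool.Agent.Lib_helper50.A55.TDefs
import Pool.Agent.Lib_helper50.A55.B.D1a
import Pool.Agent.Lib_helper50.A55.B.D2
import Pool.Agent.Lib_helper50.A55.B.D3
import Pool.Agent.Lib_helper50.A55.B.D4
/-!
# MP_a55cb8: block T2 (helper37): the links of the chain
-/

open Matrix Finset

namespace A55

/-! BEGIN STUBS (statements of D1a, D2, D3, D4) -/
section stubs

variable {m n a b c : Type*} [Fintype m] [Fintype n] [Fintype a] [Fintype b] [Fintype c]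
  [DecidableEq m] [DecidableEq n] [DecidableEq a] [DecidableEq b] [DecidableEq c]

end stubs
/-! END STUBS -/

section links

/-- monotonicity in the constant -/
theorem T2_mono {m n a c : Type*} [Fintype m] [Fintype n] [Fintype a] [Fintype c]
    [DecidableEq m] [DecidableEq n] [DecidableEq a] [DecidableEq c]
    {S : Matrix a m ℝ} {A : Matrix m n ℝ} {T : Matrix n c ℝ} {l C C' : ℝ}
    (hl : 0 < l) (hC : C ≤ C') (h : Noise S A T l C) : Noise S A T l C' := fun x =>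
  (h x).trans (mul_le_mul_of_nonneg_right (mul_le_mul_of_nonneg_right hC hl.le) (sq_nonneg' x))

/-- the numbers -/
theorem T2_num {β U V q : ℝ} (hβ : 300 ≤ β) (hq : q ≤ 150) (hV : 0 ≤ V) (h : U ≤ q * V) :
    2 * β⁻¹ * U ≤ V := by
  have hβ0 : 0 < β := by linarith
  have h1 : 2 * U ≤ β * V := by nlinarith
  calc 2 * β⁻¹ * U = β⁻¹ * (2 * U) := by ring
    _ ≤ β⁻¹ * (β * V) := mul_le_mul_of_nonneg_left h1 (inv_pos.2 hβ0).le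
    _ = V := by field_simp

variable {a a2 n c c2 : ℕ} {S : Matrix (Fin a) (Fin n) ℝ} {S2 : Matrix (Fin a2) (Fin n) ℝ}
  {E : Matrix (Fin n) (Fin n) ℝ} {T : Matrix (Fin n) (Fin c) ℝ} {T2 : Matrix (Fin n) (Fin c2) ℝ}
  {l K β : ℝ}

/-- `D_i → F_(i+1)ᵀ` -/
theorem link_a (hl : 0 < l) (hβ : 300 ≤ β) (hS : Valid S E l) (hT : Valid Tᵀ Eᵀ l)
    (hT2 : Valid T2ᵀ Eᵀ l) (hN : Noise S E T l 2) (hN2 : Noise S E T2 l 2) (y : Fin a → ℝ) :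
    2 * β⁻¹ * (sq ((S * E * T)ᵀ *ᵥ y) + l * sq y) ≤ sq ((S * E * T2)ᵀ *ᵥ y) + l * sq y ∧
      3 / 2 * (sq ((S * E * T2)ᵀ *ᵥ y) + l * sq y) ≤ β * (sq ((S * E * T)ᵀ *ᵥ y) + l * sq y) := by
  have h1 := lemR hl one_le_two hS hT hT2 hN hN2 y
  have h2 := lemR hl one_le_two hS hT2 hT hN2 hN y
  have h3 : 0 ≤ l * sq y := mul_nonneg hl.le (sq_nonneg' y)
  have h4 := sq_nonneg' ((S * E * T)ᵀ *ᵥ y)
  have h5 := sq_nonneg' ((S * E * T2)ᵀ *ᵥ y)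
  refine ⟨T2_num hβ (q := 7 + 9 * 2) (by norm_num) (by linarith) h1, ?_⟩
  nlinarith

/-- `F_(i+1)ᵀ → D_(i+1)`: `F = S E T`, `D = S2 E T`, ridge `l` and `l / K` -/
theorem link_b (hl : 0 < l) (hK : 1 ≤ K) (hβ : 300 ≤ β) (hS : Valid S E l)
    (hS2 : Valid S2 E (l / K)) (hT : Valid Tᵀ Eᵀ (l / K)) (hN : Noise S E T l 2)
    (hN2 : Noise S2 E T (l / K) 2) (y : Fin c → ℝ) :
    2 * (β * K)⁻¹ * (sq ((S * E * T) *ᵥ y) + l * sq y) ≤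
        sq ((S2 * E * T) *ᵥ y) + l / K * sq y ∧
      3 / 2 * (sq ((S2 * E * T) *ᵥ y) + l / K * sq y) ≤
        β * (sq ((S * E * T) *ᵥ y) + l * sq y) := by
  have hK0 : 0 < K := by linarith
  have hlK : 0 < l / K := div_pos hl hK0
  have hlK2 : l / K ≤ l := div_le_self hl.le hK
  have hN' : Noise S2 E T l 7 := by
    have := noise_up hlK hlK2 one_le_two hS2 hT hN2
    norm_num at this
    exact this
  have hN'' : Noise S E T l 7 := T2_mono hl (by norm_num) hN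
  have h1 := lemR' hl (by norm_num : (1 : ℝ) ≤ 7) (hT.mono hlK2) hS (hS2.mono hlK2) hN'' hN' y
  have h2 := lemR' hl (by norm_num : (1 : ℝ) ≤ 7) (hT.mono hlK2) (hS2.mono hlK2) hS hN' hN'' y
  have h3 : 0 ≤ l * sq y := mul_nonneg hl.le (sq_nonneg' y)
  have h4 := sq_nonneg' ((S * E * T) *ᵥ y)
  have h5 := sq_nonneg' ((S2 * E * T) *ᵥ y)
  have h6 : l / K * sq y ≤ l * sq y := mul_le_mul_of_nonneg_right hlK2 (sq_nonneg' y)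
  have h7 : K⁻¹ * (sq ((S2 * E * T) *ᵥ y) + l * sq y) ≤
      sq ((S2 * E * T) *ᵥ y) + l / K * sq y := by
    have h8 : K⁻¹ * sq ((S2 * E * T) *ᵥ y) ≤ sq ((S2 * E * T) *ᵥ y) :=
      mul_le_of_le_one_left h5 (inv_le_one_of_one_le₀ hK)
    have h9 : K⁻¹ * (l * sq y) = l / K * sq y := by ring
    rw [mul_add, h9]
    linarith
  refine ⟨?_, by nlinarith⟩
  refine le_trans ?_ h7
  have h8 : 2 * β⁻¹ * (sq ((S * E * T) *ᵥ y) + l * sq y) ≤ sq ((S2 * E * T) *ᵥ y) + l * sq y :=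
    T2_num hβ (q := 7 + 9 * 7) (by norm_num) (by linarith) h1
  have h9 : 2 * (β * K)⁻¹ * (sq ((S * E * T) *ᵥ y) + l * sq y) =
      K⁻¹ * (2 * β⁻¹ * (sq ((S * E * T) *ᵥ y) + l * sq y)) := by
    rw [mul_inv]
    ring
  rw [h9]
  exact mul_le_mul_of_nonneg_left h8 (inv_pos.2 hK0).le

/-- `D_j → (S_j E)ᵀ` -/
theorem link_c (hl : 0 < l) (hβ : 300 ≤ β) (hS : Valid S E l) (hT : Valid Tᵀ Eᵀ l)
    (hN : Noise S E T l 2) (y : Fin a → ℝ) :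
    2 * β⁻¹ * (sq ((S * E * T)ᵀ *ᵥ y) + l * sq y) ≤ sq ((S * E)ᵀ *ᵥ y) + l * sq y ∧
      3 / 2 * (sq ((S * E)ᵀ *ᵥ y) + l * sq y) ≤ β * (sq ((S * E * T)ᵀ *ᵥ y) + l * sq y) := by
  have h1 : Valid (1 : Matrix (Fin n) (Fin n) ℝ)ᵀ Eᵀ l := by
    rw [transpose_one]
    exact Valid.one _ hl.le
  have h2 := link_a hl hβ hS hT h1 hN (T2_mono hl one_le_two (noise_one_right hS hl)) y
  rw [Matrix.mul_one] at h2
  exact h2

/-- `(S_j E)ᵀ → E` -/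
theorem link_d (hl : 0 < l) (hβ : 300 ≤ β) (hS : Valid S E l) (y : Fin n → ℝ) :
    2 * β⁻¹ * (sq ((S * E) *ᵥ y) + l * sq y) ≤ sq (E *ᵥ y) + l * sq y ∧
      3 / 2 * (sq (E *ᵥ y) + l * sq y) ≤ β * (sq ((S * E) *ᵥ y) + l * sq y) := by
  have h1 := abs_le.1 (hS y)
  rw [mulVec_mulVec] at h1
  have h3 : 0 ≤ l * sq y := mul_nonneg hl.le (sq_nonneg' y)
  have h4 := sq_nonneg' (E *ᵥ y)
  have h5 := sq_nonneg' ((S * E) *ᵥ y)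
  refine ⟨T2_num hβ (q := 5 / 4) (by norm_num) (by linarith) (by linarith [h1.2]), ?_⟩
  nlinarith [h1.1]

/-- `E → Eᵀ`, ridge `l → l / K` -/
theorem link_e (hl : 0 < l) (hK : 1 ≤ K) (hβ : 300 ≤ β) (y : Fin n → ℝ) :
    2 * (β * K)⁻¹ * (sq (Eᵀ *ᵥ y) + l * sq y) ≤ sq (Eᵀ *ᵥ y) + l / K * sq y ∧
      3 / 2 * (sq (Eᵀ *ᵥ y) + l / K * sq y) ≤ β * (sq (Eᵀ *ᵥ y) + l * sq y) := by
  have hK0 : 0 < K := by linarith
  have hlK2 : l / K ≤ l := div_le_self hl.le hK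
  have h3 : 0 ≤ l * sq y := mul_nonneg hl.le (sq_nonneg' y)
  have h4 := sq_nonneg' (Eᵀ *ᵥ y)
  have h6 : l / K * sq y ≤ l * sq y := mul_le_mul_of_nonneg_right hlK2 (sq_nonneg' y)
  have h7 : K⁻¹ * (sq (Eᵀ *ᵥ y) + l * sq y) ≤ sq (Eᵀ *ᵥ y) + l / K * sq y := by
    have h8 : K⁻¹ * sq (Eᵀ *ᵥ y) ≤ sq (Eᵀ *ᵥ y) :=
      mul_le_of_le_one_left h4 (inv_le_one_of_one_le₀ hK)
    have h9 : K⁻¹ * (l * sq y) = l / K * sq y := by ring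
    rw [mul_add, h9]
    linarith
  refine ⟨le_trans ?_ h7, by nlinarith⟩
  have h8 : 2 * β⁻¹ * (sq (Eᵀ *ᵥ y) + l * sq y) ≤ sq (Eᵀ *ᵥ y) + l * sq y :=
    T2_num hβ (q := 1) (by norm_num) (by linarith) (by linarith)
  have h9 : 2 * (β * K)⁻¹ * (sq (Eᵀ *ᵥ y) + l * sq y) =
      K⁻¹ * (2 * β⁻¹ * (sq (Eᵀ *ᵥ y) + l * sq y)) := by
    rw [mul_inv]
    ring
  rw [h9]
  exact mul_le_mul_of_nonneg_left h8 (inv_pos.2 hK0).le

/-- a crude bound for the norms -/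
theorem norm_D {Λ : ℝ} (hl : 0 < l) (hS : Valid S E l) (hΛ : 0 ≤ Λ)
    (hE : ∀ v, sq (E *ᵥ v) ≤ Λ * l * sq v) {θ : ℝ} (hT : ∀ v, sq (T *ᵥ v) ≤ θ * sq v)
    (v : Fin c → ℝ) : sq ((S * E * T) *ᵥ v) ≤ (2 * Λ + 1) * θ * l * sq v := by
  have h0 : (S * E * T) *ᵥ v = S *ᵥ (E *ᵥ (T *ᵥ v)) := by
    rw [mulVec_mulVec, mulVec_mulVec]
  have h1 := abs_le.1 (hS (T *ᵥ v))
  have h2 := hE (T *ᵥ v)
  have h3 := hT v
  have h4 := sq_nonneg' (T *ᵥ v)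
  have h5 : 0 ≤ Λ * l * sq (T *ᵥ v) := mul_nonneg (mul_nonneg hΛ hl.le) h4
  have h6 : 0 ≤ l * sq (T *ᵥ v) := mul_nonneg hl.le h4
  rw [h0]
  calc sq (S *ᵥ (E *ᵥ (T *ᵥ v)))
      ≤ sq (E *ᵥ (T *ᵥ v)) + 1 / 4 * (sq (E *ᵥ (T *ᵥ v)) + l * sq (T *ᵥ v)) := by linarith [h1.2]
    _ ≤ (2 * Λ + 1) * l * sq (T *ᵥ v) := by linarith
    _ ≤ (2 * Λ + 1) * l * (θ * sq v) :=
        mul_le_mul_of_nonneg_left h3 (mul_nonneg (by linarith) hl.le)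
    _ = (2 * Λ + 1) * θ * l * sq v := by ring

end links

end A55
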