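import Pool.Agent.Lib_helper50.A55.TDefs
import Pool.Agent.Lib_helper50.A55.B.D10
import Pool.Agent.Lib_helper50.A55.B.D1b
import Pool.Agent.Lib_helper50.A55.B.D8
import Pool.Agent.Lib_helper50.A55.B.T3
/-!
# MP_a55cb8: block T7 (cert_pass; helper44)
-/

open Matrix Finset

namespace A55

namespace Stub_T7

section forms

variable {m n a b c : Type*} [Fintype m] [Fintype n] [Fintype a] [Fintype b] [Fintype c]
  [DecidableEq m] [DecidableEq n] [DecidableEq a] [DecidableEq b] [DecidableEq c]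

end forms

section

variable {mm : ℕ → ℕ} (Φ : Lib mm) (c : Cst) (x : InT.den) (A0 : CooT.den) (g : GT.den)
  (A : Matrix (Fin x.1.1) (Fin x.1.1) ℝ) (xs : Fin x.1.1 → ℝ) (sg sn : ℝ) (cs : ℕ)

end

end Stub_T7

open Stub_T7

/-- transport along equalities of the dimensions -/
theorem T7_cast {p q n : ℕ} (hp : p = n) (hq : q = n) (f : ℕ → ℕ → ℝ) (o b : ℕ → ℝ) (α : ℝ)
    (m : ℕ) (Q : Matrix (Fin p) (Fin p) ℝ)
    (h : toV p o = Q *ᵥ ((toM q p f)ᵀ *ᵥ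
      (cheb (toM q p f * Q * (toM q p f)ᵀ) 1 α 2 m *ᵥ toV q b))) :
    ∀ Q' : Matrix (Fin n) (Fin n) ℝ, Q' = (fun a b : Fin n =>
      if h : (a : ℕ) < p ∧ (b : ℕ) < p then Q ⟨a, h.1⟩ ⟨b, h.2⟩ else 0) →
    toV n o = Q' *ᵥ ((toM n n f)ᵀ *ᵥ
      (cheb (toM n n f * Q' * (toM n n f)ᵀ) 1 α 2 m *ᵥ toV n b)) := by
  subst hp
  subst hq
  intro Q' hQ'
  have e : Q' = Q := by
    rw [hQ']
    funext a b
    rw [dif_pos ⟨a.2, b.2⟩]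
  rw [e]
  exact h

theorem T7_mv {mm : ℕ → ℕ} (Φ : Lib mm) (n : ℕ) (E : OpT.den) (hE : OpOK E) (h : E.1 = (n, n))
    (v : VecT.den) : toV n (Φ.mv ((0, E), v)) = toM n n (opA E) *ᵥ toV n v := by
  obtain ⟨⟨a, b⟩, E2⟩ := E
  simp only [Prod.mk.injEq] at h
  obtain ⟨rfl, rfl⟩ := h
  exact Φ.mv_eq (0, ((b, b), E2)) v hE

theorem T7_dot (n : ℕ) (u : Fin n → ℝ) : u ⬝ᵥ u = sq u := by
  simp only [dotProduct, sq, pow_two]

theorem T7_kappa (n k κ c1 : ℕ) (h2 : κ < k) (h3 : k < n) (hc : 1 ≤ c1) :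
    κ ≤ 2 ^ (Nat.log2 n + c1) := by
  have h : n < 2 ^ (Nat.log2 n + 1) := Nat.lt_log2_self
  have : 2 ^ (Nat.log2 n + 1) ≤ 2 ^ (Nat.log2 n + c1) := Nat.pow_le_pow_right (by norm_num)
    (by omega)
  omega

theorem T7_num1 {L κ sn sg lam K : ℝ} (hL : 1 ≤ L) (hκ : 1 ≤ κ) (hK : 1 ≤ K) (hsn : 0 < sn)
    (hsg : sg ≤ κ ^ 2 * sn) (hl : lam ≤ L * K * sg) :
    (4 * L * K * κ ^ 2)⁻¹ * (2 * (sn + lam)) ≤ sn := by
  have hLK : 1 ≤ L * K := one_le_mul_of_one_le_of_one_le hL hK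
  have hκ2 : 1 ≤ κ ^ 2 := one_le_pow₀ hκ
  have hp : 1 ≤ L * K * κ ^ 2 := one_le_mul_of_one_le_of_one_le hLK hκ2
  have h1 : lam ≤ L * K * κ ^ 2 * sn := by
    refine hl.trans ?_
    calc L * K * sg ≤ L * K * (κ ^ 2 * sn) := by gcongr
      _ = L * K * κ ^ 2 * sn := by ring
  have h4 : (0 : ℝ) < 4 * L * K * κ ^ 2 := by nlinarith
  rw [inv_mul_le_iff₀ h4]
  nlinarith

theorem T7_num2 {L κ : ℝ} (τ : ℕ) (hL : 1 ≤ L) (hκ : 1 ≤ κ) :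
    2 ≤ (3 * L * 2 ^ τ * κ) ^ 2 * (4 * L * 4 ^ τ * κ ^ 2)⁻¹ := by
  have hL0 : (0 : ℝ) < L := by linarith
  have hκ0 : (0 : ℝ) < κ := by linarith
  have e : (4 : ℝ) ^ τ = 2 ^ τ * 2 ^ τ := by rw [← mul_pow]; norm_num
  have h2 : (0 : ℝ) < 2 ^ τ := by positivity
  have : (3 * L * 2 ^ τ * κ) ^ 2 * (4 * L * 4 ^ τ * κ ^ 2)⁻¹ = 9 / 4 * L := by
    rw [e]; field_simp; norm_num
  rw [this]
  linarith

theorem T7_num3 {κ : ℝ} (q a l : ℕ) (hκ : 1 ≤ κ) (h : κ ≤ 2 ^ l) :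
    (2 * (1 / 2 : ℝ) ^ (q + a + l + 1)) ^ 2 ≤ ((2 : ℝ) ^ (q + a) * κ)⁻¹ ^ 2 := by
  have hκ0 : (0 : ℝ) < κ := by linarith
  have : 2 * (1 / 2 : ℝ) ^ (q + a + l + 1) ≤ ((2 : ℝ) ^ (q + a) * κ)⁻¹ := by
    have e : 2 * (1 / 2 : ℝ) ^ (q + a + l + 1) = ((2 : ℝ) ^ (q + a) * 2 ^ l)⁻¹ := by
      rw [one_div, inv_pow, pow_succ, ← pow_add]
      field_simp
    rw [e]
    gcongr
  gcongr

section

variable {mm : ℕ → ℕ} (Φ : Lib mm) (c : Cst) (x : InT.den) (A0 : CooT.den) (g : GT.den)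
  (A : Matrix (Fin x.1.1) (Fin x.1.1) ℝ) (xs : Fin x.1.1 → ℝ) (sg sn : ℝ) (cs : ℕ)

theorem T7_cand (Θ : ChT.den) (R m n : ℕ) (α : ℝ) (b : VecT.den) (E : OpT.den)
    (hok : ChOK Θ R) (hd : chD Θ R = n) (hd1 : chD Θ (R + 1) = n) (hE : Θ.1 R = (0, E)) :
    toV n (Φ.outer ((R, m), ((Θ, α), b))) = Qm n Θ R *ᵥ ((toM n n (opA E))ᵀ *ᵥ
      (cheb (toM n n (opA E) * Qm n Θ R * (toM n n (opA E))ᵀ) 1 α 2 m *ᵥ toV n b)) := by
  have h := Φ.outer_eq R m Θ α b hok _ _ rfl rfl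
  have h2 := T7_cast (n := n) hd hd1 (fopA (Θ.1 R)) _ b α m ((chainOf Θ).g R) h (Qm n Θ R) rfl
  have f0 : fopA (Θ.1 R) = opA E := by
    rw [hE]
    rfl
  rw [f0] at h2
  exact h2

theorem cert_pass (hc : Big c) (hs : Setup Φ c x A0 g A xs sg sn) (j : ℕ) (st : StT.den)
    (w : ℕ → ℕ) (hL : Lev Φ g j st) (hj : j ≤ pl c x ^ 3)
    (hl : lamM c x g j ≤ pl c x * pK c x * sg)
    (hQ : IsSol (gram (En x g) (lamM c x g j)) (Qm x.1.1 (theta Φ g j st w) (topIx g j))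
      (dst c x)) :
    ∀ z, z = resid Φ g (cand Φ g j (theta Φ g j st w)) →
      ¬ gQ g 6 * Φ.dot (gP g 0, (g.2.2.2, g.2.2.2)) < Φ.dot (gP g 0, (z, z)) := by
  intro z hz
  obtain ⟨hok, d0, d1, -, e0, -, -, -, -, -, -⟩ :=
    chain_shape Φ c x A0 g hc hs.gok j st w hL hj
  generalize hΘ : theta Φ g j st w = Θ at *
  have hP0 : gP g 0 = x.1.1 := by
    have := hs.gok.hP
    simp only [gP, this]; rfl
  have hP19 : gP g 19 = pmout c x := by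
    have := hs.gok.hP
    simp only [gP, this]; rfl
  have hQ6 : gQ g 6 = ((2 : ℝ) ^ (x.2.2.2 + pl c x ^ 3) * (x.2.2.1 : ℝ))⁻¹ ^ 2 := by
    have := hs.gok.hQ
    simp only [gQ, this]; rfl
  have hQ5 : gQ g 5 = (4 * (pl c x : ℝ) * (pK c x : ℝ) * (x.2.2.1 : ℝ) ^ 2)⁻¹ := by
    have := hs.gok.hQ
    simp only [gQ, this]; rfl
  have hzV : toV x.1.1 z =
      En x g *ᵥ toV x.1.1 (cand Φ g j Θ) - toV x.1.1 g.2.2.2 := by
    rw [hz, resid, hP0, Φ.lin_eq, T7_mv Φ x.1.1 (gE g) hs.gok.ok hs.gok.dim]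
    simp [sub_eq_add_neg]
  have hokR : ChOK Θ (topIx g j) := by
    refine ⟨fun r hr => hok.1 r (by omega), fun r hr => hok.2.1 r (by omega), hok.2.2⟩
  have hcd : toV x.1.1 (cand Φ g j Θ) = Qm x.1.1 Θ (topIx g j) *ᵥ ((En x g)ᵀ *ᵥ
      (cheb (En x g * Qm x.1.1 Θ (topIx g j) * (En x g)ᵀ) 1 (gQ g 5) 2 (gP g 19) *ᵥ
        toV x.1.1 g.2.2.2)) := by
    rw [cand]
    exact T7_cand Φ Θ (topIx g j) (gP g 19) x.1.1 (gQ g 5) g.2.2.2 (gE g) hokR d0 d1 e0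
  have hl1 : 1 ≤ pl c x := by
    have := hc.c1
    unfold pl
    omega
  have hl1' : (1 : ℝ) ≤ (pl c x : ℝ) := by exact_mod_cast hl1
  have hκ : (1 : ℝ) ≤ (x.2.2.1 : ℝ) := by exact_mod_cast hs.h1
  have hK1 : (1 : ℝ) ≤ (pK c x : ℝ) := by
    have : 1 ≤ pK c x := Nat.one_le_pow _ _ (by norm_num)
    exact_mod_cast this
  have hlam : 0 < lamM c x g j := by
    have h0 := hs.lam_pos
    have h1 : (0 : ℝ) < ((pK c x : ℝ)⁻¹) ^ j := by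
      have : (0 : ℝ) < (pK c x : ℝ) := by linarith
      positivity
    exact mul_pos h0 h1
  have hdst : dst c x ≤ 1 / 2 := by
    unfold dst
    have h5 : pl c x ^ 5 ≠ 0 := pow_ne_zero _ (by omega)
    calc ((1 / 4 : ℝ)) ^ (pl c x ^ 5) ≤ 1 / 4 := pow_le_of_le_one (by norm_num) (by norm_num) h5
      _ ≤ 1 / 2 := by norm_num
  have hpre := IsSol.pre hQ (gram_posDef (En x g) hlam) hdst
  have hα : 0 < gQ g 5 := by
    rw [hQ5]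
    have : (0 : ℝ) < 4 * (pl c x : ℝ) * (pK c x : ℝ) * (x.2.2.1 : ℝ) ^ 2 := by
      have h1 : (0 : ℝ) < (pl c x : ℝ) := by linarith
      have h2 : (0 : ℝ) < (pK c x : ℝ) := by linarith
      have h3 : (0 : ℝ) < (x.2.2.1 : ℝ) := by linarith
      positivity
    exact inv_pos.mpr this
  have hα2 : gQ g 5 * (2 * (sn + lamM c x g j)) ≤ sn := by
    rw [hQ5]
    exact T7_num1 hl1' hκ hK1 hs.sn_pos hs.sg_le hl
  have hs1 : 1 ≤ 3 * pl c x * 2 ^ ptau c x * x.2.2.1 := by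
    have h1 : 0 < 2 ^ ptau c x := by positivity
    have h2 : 0 < x.2.2.1 := hs.h1
    have h3 : 0 < 3 * pl c x := by omega
    exact Nat.mul_pos (Nat.mul_pos h3 h1) h2
  have hs2 : (2 : ℝ) ≤ ((3 * pl c x * 2 ^ ptau c x * x.2.2.1 : ℕ) : ℝ) ^ 2 * gQ g 5 := by
    rw [hQ5]
    have := T7_num2 (ptau c x) hl1' hκ
    have hK : (pK c x : ℝ) = 4 ^ ptau c x := by
      unfold pK
      push_cast
      ring
    rw [hK]
    push_cast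
    exact this
  have hk : (3 * pl c x * 2 ^ ptau c x * x.2.2.1) * (x.2.2.2 + pl c x ^ 3 + pl c x + 1) ≤
      gP g 19 := by
    rw [hP19, pmout]
  have hmain := outer_res hlam hs.sn_pos hpre hs.low hα hα2 _ _ _ hs1 hs2 hk xs
  have hκ2 : (x.2.2.1 : ℝ) ≤ 2 ^ pl c x := by
    have h1 := hc.c1
    have := T7_kappa x.1.1 x.1.2 x.2.2.1 c.c1 hs.h2 hs.h3 (by omega)
    unfold pl
    exact_mod_cast this
  have hz2 : sq (toV x.1.1 z) ≤ gQ g 6 * sq (toV x.1.1 g.2.2.2) := by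
    have e1 : toV x.1.1 z = -(En x g *ᵥ xs - (En x g * Qm x.1.1 Θ (topIx g j) * (En x g)ᵀ) *ᵥ
        (cheb (En x g * Qm x.1.1 Θ (topIx g j) * (En x g)ᵀ) 1 (gQ g 5) 2 (gP g 19) *ᵥ
          (En x g *ᵥ xs))) := by
      rw [hzV, hcd, hs.bp]
      simp only [Matrix.mulVec_mulVec, Matrix.mul_assoc, neg_sub]
    have e2 : ∀ u : Fin x.1.1 → ℝ, sq (-u) = sq u := by
      intro u
      simp [sq]
    rw [e1, e2, hQ6, hs.bp]
    refine hmain.trans ?_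
    have h0 : 0 ≤ sq (En x g *ᵥ xs) := Finset.sum_nonneg fun i _ => sq_nonneg _
    exact mul_le_mul_of_nonneg_right (T7_num3 _ _ _ hκ hκ2) h0
  rw [hP0, Φ.dot_eq, Φ.dot_eq, T7_dot, T7_dot, not_lt]
  exact hz2

end

end A55
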