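import Pool.Agent.Lib_helper50.A55.TDefs
/-!
# MP_a55cb8: block T8 (cert_ok; helper99)
-/

open Matrix Finset

namespace A55

variable {mm : ℕ → ℕ} (Φ : Lib mm) (c : Cst) (x : InT.den) (A0 : CooT.den) (g : GT.den)
  (A : Matrix (Fin x.1.1) (Fin x.1.1) ℝ) (xs : Fin x.1.1 → ℝ) (sg sn : ℝ)

/-- the product with a square operator -/
theorem T8_mv {mm : ℕ → ℕ} (Φ : Lib mm) (n : ℕ) (E : OpT.den) (hE : OpOK E) (h : E.1 = (n, n))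
    (v : VecT.den) : toV n (Φ.mv ((0, E), v)) = toM n n (opA E) *ᵥ toV n v := by
  obtain ⟨⟨a, b⟩, E2⟩ := E
  simp only [Prod.mk.injEq] at h
  obtain ⟨rfl, rfl⟩ := h
  exact Φ.mv_eq (0, ((b, b), E2)) v hE

theorem T8_dot (n : ℕ) (u : Fin n → ℝ) : u ⬝ᵥ u = sq u := by
  simp only [dotProduct, sq, pow_two]

theorem cert_ok (hc : Big c) (hs : Setup1 Φ c x A0 g A xs sg sn) (v : VecT.den) :
    ∀ z, z = resid Φ g v →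
      ¬ gQ g 6 * Φ.dot (gP g 0, (g.2.2.2, g.2.2.2)) < Φ.dot (gP g 0, (z, z)) →
      OutOK x xs (elimX Φ (gE g) g.2.1.2.1 g.2.1.2.2 g.2.2.1 v) := by
  intro z hz hlt
  have hP0 : gP g 0 = x.1.1 := by
    have := hs.gok.hP
    simp only [gP, this]; rfl
  have hQ6 : gQ g 6 = ((2 : ℝ) ^ (x.2.2.2 + pl c x ^ 3) * (x.2.2.1 : ℝ))⁻¹ ^ 2 := by
    have := hs.gok.hQ
    simp only [gQ, this]; rfl
  have hzV : toV x.1.1 z = En x g *ᵥ toV x.1.1 v - toV x.1.1 g.2.2.2 := by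
    rw [hz, resid, hP0, Φ.lin_eq, T8_mv Φ x.1.1 (gE g) hs.gok.ok hs.gok.dim]
    simp [sub_eq_add_neg]
  rw [hP0, hQ6, Φ.dot_eq, Φ.dot_eq, T8_dot, T8_dot, not_lt] at hlt
  have hκ : (1 : ℝ) ≤ (x.2.2.1 : ℝ) := by exact_mod_cast hs.h1
  have hκ0 : (0 : ℝ) < (x.2.2.1 : ℝ) := by linarith
  have hb : sq (toV x.1.1 g.2.2.2) ≤ 4 ^ (pl c x ^ 3) * ((x.2.2.1 : ℝ) ^ 2 * sn) * sq xs := by
    rw [hs.bp]
    refine (hs.up xs).trans ?_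
    have h0 : (0 : ℝ) ≤ sq xs := Finset.sum_nonneg fun i _ => sq_nonneg _
    gcongr
    exact hs.sg_le
  have hA := hs.lowA (toV x.1.1 (elimX Φ (gE g) g.2.1.2.1 g.2.1.2.2 g.2.2.1 v) - xs)
  rw [hs.outx v, ← hzV] at hA
  have h1 : sn * sq (toV x.1.1 (elimX Φ (gE g) g.2.1.2.1 g.2.1.2.2 g.2.2.1 v) - xs) ≤
      sn * ((1 / 4) ^ x.2.2.2 * sq xs) := by
    refine hA.trans (hlt.trans ?_)
    calc ((2 : ℝ) ^ (x.2.2.2 + pl c x ^ 3) * (x.2.2.1 : ℝ))⁻¹ ^ 2 * sq (toV x.1.1 g.2.2.2)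
        ≤ ((2 : ℝ) ^ (x.2.2.2 + pl c x ^ 3) * (x.2.2.1 : ℝ))⁻¹ ^ 2 *
          (4 ^ (pl c x ^ 3) * ((x.2.2.1 : ℝ) ^ 2 * sn) * sq xs) := by gcongr
      _ = sn * ((1 / 4) ^ x.2.2.2 * sq xs) := by
        have e4 : ∀ m : ℕ, (4 : ℝ) ^ m = 2 ^ m * 2 ^ m := fun m => by
          rw [← mul_pow]; norm_num
        rw [one_div, inv_pow, inv_pow, e4, e4, pow_add]
        field_simp
  exact le_of_mul_le_mul_left h1 hs.sn_pos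

end A55
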