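import Pool.Agent.Lib_helper50.A55.TDefs
import Pool.Agent.Lib_helper50.A55.B.D1a
import Pool.Agent.Lib_helper50.A55.B.D2
import Pool.Agent.Lib_helper50.A55.B.D9
import Pool.Agent.Lib_helper50.A55.B.T1
/-!
# MP_a55cb8: block T13 (helper94): the initial state, the end
-/

open Matrix Finset

namespace A55

/-! ## stubs (D1, D2, D9, T-A) -/

section forms

variable {m n a b c : Type*} [Fintype m] [Fintype n] [Fintype a] [Fintype b] [Fintype c]
  [DecidableEq m] [DecidableEq n] [DecidableEq a] [DecidableEq b] [DecidableEq c]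

end forms

/-! ## end of the stubs -/

/-- `2^(log2 m + 1) ≤ 2 m` -/
theorem T13_log {m : ℕ} (hm : m ≠ 0) : 2 ^ (Nat.log2 m + 1) ≤ 2 * m := by
  have h := Nat.log2_self_le hm
  rw [pow_succ]
  omega

theorem T13_pl {c : Cst} (hc : Big c) (x : InT.den) : 10 ^ 6 ≤ pl c x :=
  hc.c1.trans (Nat.le_add_left _ _)

theorem T13_m1 {c : Cst} (hc : Big c) (x : InT.den) :
    pm1 c x ≤ 32 * (x.1.2 + 1) * pl c x ^ 7 := by
  have hl : 0 < pl c x := lt_of_lt_of_le (by norm_num) (T13_pl hc x)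
  have h1 : 2 ^ pb1 c x ≤ 2 * (16 * (x.1.2 + 1) * pl c x ^ 6) := T13_log (by positivity)
  calc pm1 c x = pl c x * 2 ^ pb1 c x := rfl
    _ ≤ pl c x * (2 * (16 * (x.1.2 + 1) * pl c x ^ 6)) := Nat.mul_le_mul_left _ h1
    _ = 32 * (x.1.2 + 1) * pl c x ^ 7 := by ring

theorem T13_m2 {c : Cst} (hc : Big c) (x : InT.den) :
    pm2 c x ≤ 1056 * (x.1.2 + 1) * pl c x ^ 14 := by
  have hl : 0 < pl c x := lt_of_lt_of_le (by norm_num) (T13_pl hc x)
  have h1 : 2 ^ pb2 c x ≤ 2 * (16 * (pm1 c x + 1) * pl c x ^ 6) := T13_log (by positivity)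
  have h2 : pm1 c x + 1 ≤ 33 * (x.1.2 + 1) * pl c x ^ 7 := by
    have h3 := T13_m1 hc x
    have h4 : 1 ≤ (x.1.2 + 1) * pl c x ^ 7 := Nat.one_le_iff_ne_zero.2 (by positivity)
    calc pm1 c x + 1 ≤ 32 * (x.1.2 + 1) * pl c x ^ 7 + (x.1.2 + 1) * pl c x ^ 7 :=
          add_le_add h3 h4
      _ = 33 * (x.1.2 + 1) * pl c x ^ 7 := by ring
  calc pm2 c x = pl c x * 2 ^ pb2 c x := rfl
    _ ≤ pl c x * (2 * (16 * (pm1 c x + 1) * pl c x ^ 6)) := Nat.mul_le_mul_left _ h1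
    _ = 32 * pl c x ^ 7 * (pm1 c x + 1) := by ring
    _ ≤ 32 * pl c x ^ 7 * (33 * (x.1.2 + 1) * pl c x ^ 7) := Nat.mul_le_mul_left _ h2
    _ = 1056 * (x.1.2 + 1) * pl c x ^ 14 := by ring

theorem T13_m1hcap {c : Cst} (hc : Big c) (x : InT.den) :
    pm1 c x ≤ phcap c x ∧ pm2 c x ≤ phcap c x := by
  have hp := T13_pl hc x
  have hl : 0 < pl c x := lt_of_lt_of_le (by norm_num) hp
  have hcB : 15 ≤ c.cB := le_trans (by omega) hc.cB
  have key : pl c x ^ 15 * (x.1.2 + 1) ≤ phcap c x :=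
    Nat.mul_le_mul_right _ (Nat.pow_le_pow_right hl hcB)
  constructor
  · refine (T13_m1 hc x).trans (le_trans ?_ key)
    calc 32 * (x.1.2 + 1) * pl c x ^ 7 ≤ pl c x * (x.1.2 + 1) * pl c x ^ 7 := by
          gcongr
          exact le_trans (by norm_num) hp
      _ = pl c x ^ 8 * (x.1.2 + 1) := by ring
      _ ≤ pl c x ^ 15 * (x.1.2 + 1) :=
          Nat.mul_le_mul_right _ (Nat.pow_le_pow_right hl (by norm_num))
  · refine (T13_m2 hc x).trans (le_trans ?_ key)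
    calc 1056 * (x.1.2 + 1) * pl c x ^ 14 ≤ pl c x * (x.1.2 + 1) * pl c x ^ 14 := by
          gcongr
          exact le_trans (by norm_num) hp
      _ = pl c x ^ 15 * (x.1.2 + 1) := by ring

/-- the size of the empty operator -/
theorem T13_mid {c : Cst} (hc : Big c) (x : InT.den) (hk : 1 ≤ x.1.2) :
    (pm1 c x + 1) * (pm2 c x + 1) ≤ pl c x ^ 22 * x.1.2 ^ 2 := by
  have hp := T13_pl hc x
  have hl : 0 < pl c x := lt_of_lt_of_le (by norm_num) hp
  have h1 : pm1 c x + 1 ≤ 33 * (x.1.2 + 1) * pl c x ^ 7 := by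
    have h3 := T13_m1 hc x
    have h4 : 1 ≤ (x.1.2 + 1) * pl c x ^ 7 := Nat.one_le_iff_ne_zero.2 (by positivity)
    calc pm1 c x + 1 ≤ 32 * (x.1.2 + 1) * pl c x ^ 7 + (x.1.2 + 1) * pl c x ^ 7 :=
          add_le_add h3 h4
      _ = 33 * (x.1.2 + 1) * pl c x ^ 7 := by ring
  have h2 : pm2 c x + 1 ≤ 1057 * (x.1.2 + 1) * pl c x ^ 14 := by
    have h3 := T13_m2 hc x
    have h4 : 1 ≤ (x.1.2 + 1) * pl c x ^ 14 := Nat.one_le_iff_ne_zero.2 (by positivity)
    calc pm2 c x + 1 ≤ 1056 * (x.1.2 + 1) * pl c x ^ 14 + (x.1.2 + 1) * pl c x ^ 14 :=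
          add_le_add h3 h4
      _ = 1057 * (x.1.2 + 1) * pl c x ^ 14 := by ring
  have h5 : x.1.2 + 1 ≤ 2 * x.1.2 := by
    rw [two_mul]
    exact Nat.add_le_add_left hk _
  calc (pm1 c x + 1) * (pm2 c x + 1)
      ≤ (33 * (x.1.2 + 1) * pl c x ^ 7) * (1057 * (x.1.2 + 1) * pl c x ^ 14) :=
        Nat.mul_le_mul h1 h2
    _ = 34881 * (x.1.2 + 1) ^ 2 * pl c x ^ 21 := by ring
    _ ≤ 34881 * (2 * x.1.2) ^ 2 * pl c x ^ 21 := by gcongr
    _ = 139524 * (pl c x ^ 21 * x.1.2 ^ 2) := by ring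
    _ ≤ pl c x * (pl c x ^ 21 * x.1.2 ^ 2) := by
        gcongr
        exact le_trans (by norm_num) hp
    _ = pl c x ^ 22 * x.1.2 ^ 2 := by ring

section

variable {mm : ℕ → ℕ} (Φ : Lib mm) (c : Cst) (x : InT.den) (A0 : CooT.den) (g : GT.den)
  (A : Matrix (Fin x.1.1) (Fin x.1.1) ℝ) (xs : Fin x.1.1 → ℝ) (sg sn : ℝ) (cs : ℕ)

/-- the initial state is good -/
theorem start_good (hc : Big c) (hs : Setup Φ c x A0 g A xs sg sn) (hcs : 400 ≤ cs) :
    Good0 Φ c x A0 g xs sg cs 0 (start Φ g) := by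
  have hg := hs.gok
  have hp := T13_pl hc x
  have hl : 0 < pl c x := lt_of_lt_of_le (by norm_num) hp
  have hlr : (1 : ℝ) ≤ pl c x := by exact_mod_cast hl
  have hn : gP g 0 = x.1.1 := by
    change g.1.1 0 = x.1.1
    rw [hg.hP]
    rfl
  have hk : 1 ≤ x.1.2 := hs.h1.trans hs.h2.le
  obtain ⟨hsd, hsw⟩ := sdEmpty_ok x.1.1
  obtain ⟨m1, m2, m3, m4, -⟩ := Φ.mkOp_eq (gE g) sdEmpty sdEmpty x.1.1 hg.ok hg.dim hsd hsd
  obtain ⟨D, hD⟩ : ∃ D, D = Φ.mkOp (gE g, (sdEmpty, sdEmpty)) := ⟨_, rfl⟩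
  have hD0 : (start Φ g).2.2.1.1 0 = D := by
    rw [hD]
    exact tabV_lt (t := OpT) Nat.zero_lt_one
  rw [← hD] at m1 m2 m3
  have hS0 : (start Φ g).2.1.1 0 = sdEmpty := rfl
  have hT0 : (start Φ g).2.1.2 0 = sdEmpty := rfl
  -- the lists are empty
  have hR : opR D = 0 := by
    change D.1.1 = 0
    rw [m2]
    rfl
  have hC : opC D = 0 := by
    change D.1.2 = 0
    rw [m2]
    rfl
  have hR' : D.1.1 = 0 := hR
  have hC' : D.1.2 = 0 := hC
  obtain ⟨l1, l2, l3⟩ := m1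
  have e1 : D.2.2.1.1.1 = 0 := by
    by_contra h
    have := (l1 0 (Nat.pos_of_ne_zero h)).1
    rw [hR'] at this
    exact absurd this (Nat.not_lt_zero _)
  have e2 : D.2.2.1.2.1 = 0 := by
    by_contra h
    have := (l2 0 (Nat.pos_of_ne_zero h)).1
    rw [hR'] at this
    exact absurd this (Nat.not_lt_zero _)
  have e3 : D.2.2.2.1.1 = 0 := by
    by_contra h
    have := (l3 0 (Nat.pos_of_ne_zero h)).2
    rw [hC'] at this
    exact absurd this (Nat.not_lt_zero _)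
  have hmid : D.2.1 = (pm1 c x, pm2 c x) := m3.trans hg.mid
  have hmid1 : D.2.1.1 = pm1 c x := by rw [hmid]
  have hmid2 : D.2.1.2 = pm2 c x := by rw [hmid]
  have hsize : opSize D = (pm1 c x + 1) * (pm2 c x + 1) := by
    have hR'' : D.1.1 = 0 := hR
    unfold opSize
    rw [hR'', hC', e1, e2, e3, hmid1, hmid2]
    ring
  have hlam0 : lamM c x g 0 = gLam g 0 := by
    unfold lamM
    rw [pow_zero, mul_one]
  have hlam : 0 < lamM c x g 0 := by
    rw [hlam0]
    exact hs.lam_pos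
  have hKpos : (0 : ℝ) < pK c x := by
    unfold pK
    exact_mod_cast Nat.pos_of_ne_zero (by positivity)
  have hlami : ∀ i, 0 < lamM c x g i := by
    intro i
    unfold lamM
    have := hs.lam_pos
    positivity
  have heta : ∀ i, 0 ≤ eta sg (lamM c x g i) := by
    intro i
    unfold eta
    exact le_min zero_le_one (div_nonneg hs.sg_pos.le (hlami i).le)
  have hsM : sM x (start Φ g) 0 = 0 := by
    funext p
    exact hsw p
  have htM : tM x (start Φ g) 0 = 0 := by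
    funext p
    exact hsw p
  have hE : ∀ v, sq (En x g *ᵥ v) ≤ lamM c x g 0 / 3 * sq v := by
    intro v
    have h1 := hs.lam_lo v
    rw [hlam0]
    have h2 := sq_nonneg' v
    have h3 : 0 ≤ gLam g 0 * sq v := mul_nonneg hs.lam_pos.le h2
    linarith
  have hE' : ∀ v, sq ((En x g)ᵀ *ᵥ v) ≤ lamM c x g 0 / 3 * sq v :=
    sq_transpose_le (div_nonneg hlam.le (by norm_num)) hE
  have hdiag : (diagonal (0 : Fin x.1.1 → ℝ)) = (0 : Matrix (Fin x.1.1) (Fin x.1.1) ℝ) :=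
    diagonal_zero
  refine ⟨fun h => absurd rfl h, fun _ => ⟨⟨?_, ?_, ?_, ?_, ?_⟩, Or.inl rfl⟩⟩
  · refine ⟨hS0, hT0, fun i hi => ?_, fun i hi => absurd hi (Nat.not_lt_zero i)⟩
    have hi0 : i = 0 := Nat.le_zero.1 hi
    subst hi0
    rw [hn, hD0, hS0, hT0]
    exact ⟨hsd, hsd, hD⟩
  · refine ⟨?_, ?_, ?_, ?_, ?_, ?_⟩
    · intro i hi
      have hi0 : i = 0 := Nat.le_zero.1 hi
      subst hi0
      rw [hsM, hdiag]
      exact Valid.zero _ hE
    · intro i hi
      have hi0 : i = 0 := Nat.le_zero.1 hi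
      subst hi0
      rw [htM, hdiag]
      exact Valid.zero _ hE'
    · intro i hi
      have hi0 : i = 0 := Nat.le_zero.1 hi
      subst hi0
      rw [hsM, hdiag]
      exact noise_zero_left _ _ hlam.le (by norm_num)
    · exact fun i hi => absurd hi (Nat.not_lt_zero i)
    · intro i hi p
      have hi0 : i = 0 := Nat.le_zero.1 hi
      subst hi0
      rw [hsM]
      exact ⟨le_rfl, by positivity⟩
    · intro i hi p
      have hi0 : i = 0 := Nat.le_zero.1 hi
      subst hi0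
      rw [htM]
      exact ⟨le_rfl, by positivity⟩
  · rw [hsM, hdiag]
    intro B hB v
    have hempty : B = ∅ := by
      by_contra hne
      obtain ⟨q, hq⟩ := Finset.nonempty_iff_ne_empty.2 hne
      have h1 := (hB q hq).2
      rw [Matrix.zero_mulVec] at h1
      have h2 : sq (0 : Fin x.1.1 → ℝ) = 0 := by
        unfold sq
        simp
      rw [h2] at h1
      have h3 : 0 ≤ rho (En x g)ᵀ (lamM c x g (0 + 1)) q := rho_nonneg _ (hlami _) q
      have h4 : 0 ≤ ((pl c x : ℝ) ^ 10)⁻¹ ^ 5 * lamM c x g 0 *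
          (((pl c x : ℝ) ^ 10) ^ 10 / 4 * rho (En x g)ᵀ (lamM c x g (0 + 1)) q) := by
        have := hlam.le
        positivity
      exact absurd h1 (not_lt.2 h4)
    rw [hempty, Finset.sum_empty]
    have h1 := sq_nonneg' ((En x g)ᵀ *ᵥ v)
    have h2 := sq_nonneg' v
    have h3 := (hlami (0 + 1)).le
    positivity
  · have h0 : ∀ p, sM x (start Φ g) 0 p = 0 := fun p => by rw [hsM]; rfl
    have hpos : ∀ p : Fin x.1.1, ((start Φ g).2.1.1 0).2.1 p = 0 := fun _ => rfl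
    unfold NextOK
    simp only [h0, if_true, Finset.sum_const_zero]
    have := heta (0 + 1)
    refine ⟨fun p hp => absurd (hpos p) hp, ?_, ?_, ?_⟩ <;> positivity
  · intro i hi
    have hi0 : i = 0 := Nat.le_zero.1 hi
    subst hi0
    have hη := heta 0
    have hpow : (1 : ℝ) ≤ (pl c x : ℝ) ^ cs := one_le_pow₀ hlr
    refine ⟨?_, fun h => absurd h (by norm_num), ?_, ?_⟩
    · rw [hD0, hsize]
      have h1 := T13_mid hc x hk
      have h2 : pl c x ^ 22 * x.1.2 ^ 2 ≤ pl c x ^ cs * x.1.2 ^ 2 :=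
        Nat.mul_le_mul_right _ (Nat.pow_le_pow_right hl (le_trans (by norm_num) hcs))
      have h3 : (((pm1 c x + 1) * (pm2 c x + 1) : ℕ) : ℝ) ≤
          (pl c x : ℝ) ^ cs * (x.1.2 : ℝ) ^ 2 := by exact_mod_cast h1.trans h2
      refine h3.trans ?_
      have h4 : 0 ≤ eta sg (lamM c x g 0) * (x.2.1 : ℝ) := by positivity
      gcongr
      linarith
    · intro _
      rw [hD0]
      refine ⟨?_, ?_, ?_, ?_⟩
      · rw [hR]
        simp
      · rw [hC]
        simp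
      · rw [hmid1]
        exact (T13_m1hcap hc x).1
      · rw [hmid2]
        exact (T13_m1hcap hc x).2
    · rw [hD0]
      have h1 : opRest D ((start Φ g).2.1.1 0).2.2.2 ((start Φ g).2.1.2 0).2.2.2 = 0 := by
        unfold opRest
        rw [hR, hC, e1, e2, e3]
        simp
      rw [h1]
      push_cast
      positivity

/-- after the last stage the algorithm has finished -/
theorem last_done (hc : Big c) (hs : Setup Φ c x A0 g A xs sg sn) (st : StT.den)
    (h : Good0 Φ c x A0 g xs sg cs (pl c x ^ 3 + 1) st) : OutOK x xs st.1.2 := by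
  by_cases h0 : st.1.1 = 0
  · exfalso
    obtain ⟨-, h1⟩ := h.main h0
    rcases h1 with h1 | h1
    · omega
    have hp := T13_pl hc x
    have hl : 0 < pl c x := lt_of_lt_of_le (by norm_num) hp
    have hlr : (1 : ℝ) ≤ pl c x := by exact_mod_cast hl
    have hlog : 19 ≤ Nat.log2 (pl c x) := by
      rw [Nat.le_log2 hl.ne']
      exact le_trans (by norm_num) hp
    have htau : 380 ≤ ptau c x := by
      unfold ptau
      calc 380 = 20 * 19 := by norm_num
        _ ≤ c.ct * Nat.log2 (pl c x) := Nat.mul_le_mul hc.ct hlog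
    -- `16 l^17 2^l 4^(l^3) ≤ K^(l^3+1)`
    have key : 16 * pl c x ^ 17 * 2 ^ pl c x * 4 ^ (pl c x ^ 3) ≤ pK c x ^ (pl c x ^ 3 + 1) := by
      have a1 : pl c x ≤ 2 ^ pl c x := Nat.lt_two_pow_self.le
      have a2 : pl c x ≤ pl c x ^ 3 := Nat.le_self_pow (by norm_num) _
      calc 16 * pl c x ^ 17 * 2 ^ pl c x * 4 ^ (pl c x ^ 3)
          ≤ 16 * (2 ^ pl c x) ^ 17 * 2 ^ pl c x * 4 ^ (pl c x ^ 3) := by gcongr
        _ = 4 ^ 2 * (2 ^ 2) ^ (9 * pl c x) * 4 ^ (pl c x ^ 3) := by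
            rw [← pow_mul, ← pow_mul]
            have : 2 ^ (pl c x * 17) * 2 ^ pl c x = 2 ^ (2 * (9 * pl c x)) := by
              rw [← pow_add]
              congr 1
              ring
            calc 16 * 2 ^ (pl c x * 17) * 2 ^ pl c x * 4 ^ (pl c x ^ 3)
                = 16 * (2 ^ (pl c x * 17) * 2 ^ pl c x) * 4 ^ (pl c x ^ 3) := by ring
              _ = _ := by rw [this]; norm_num
        _ = 4 ^ (2 + 9 * pl c x + pl c x ^ 3) := by
            rw [show (2 : ℕ) ^ 2 = 4 by norm_num, ← pow_add, ← pow_add]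
        _ ≤ 4 ^ (ptau c x * (pl c x ^ 3 + 1)) := by
            refine Nat.pow_le_pow_right (by norm_num) ?_
            calc 2 + 9 * pl c x + pl c x ^ 3 ≤ 380 * (pl c x ^ 3 + 1) := by omega
              _ ≤ ptau c x * (pl c x ^ 3 + 1) := Nat.mul_le_mul_right _ htau
        _ = pK c x ^ (pl c x ^ 3 + 1) := by
            unfold pK
            rw [← pow_mul]
    have keyr : 16 * (pl c x : ℝ) ^ 17 * 2 ^ pl c x * 4 ^ (pl c x ^ 3) ≤
        (pK c x : ℝ) ^ (pl c x ^ 3 + 1) := by exact_mod_cast key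
    have hKpos : (0 : ℝ) < (pK c x : ℝ) ^ (pl c x ^ 3 + 1) := lt_of_lt_of_le (by positivity) keyr
    have h2 : lamM c x g (pl c x ^ 3 + 1) ≤ pl c x * sg := by
      unfold lamM
      rw [inv_pow, ← div_eq_mul_inv, div_le_iff₀ hKpos]
      refine hs.lam_hi.trans ?_
      have := hs.sg_pos
      calc 16 * (pl c x : ℝ) ^ 18 * 2 ^ pl c x * 4 ^ (pl c x ^ 3) * sg
          = (pl c x * sg) * (16 * (pl c x : ℝ) ^ 17 * 2 ^ pl c x * 4 ^ (pl c x ^ 3)) := by ring
        _ ≤ (pl c x * sg) * (pK c x : ℝ) ^ (pl c x ^ 3 + 1) := by gcongr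
    exact absurd h1 (not_lt.2 h2)
  · exact h.out h0

end

end A55
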