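import Pool.Agent.Lib_helper50.A55.TDefs
import Pool.Agent.Lib_helper50.A55.B.C5
import Pool.Agent.Lib_helper50.A55.B.C6
import Pool.Agent.Lib_helper50.A55.B.F3
import Pool.Agent.Lib_helper50.A55.IDefs
import Pool.Agent.Lib_helper78.A55.P_E5
import Pool.Agent.Lib_helper78.A55.P_L4
/-!
# MP_a55cb8: block T14, the first two steps (helper93)
-/

open Matrix Finset

namespace A55

/-! ## stubs of other blocks -/

section

variable {mm : ℕ → ℕ} (Φ : Lib mm)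

end

section elim

variable {n k m1 m2 : ℕ} {A E P : Matrix (Fin n) (Fin n) ℝ} {T U : Matrix (Fin n) (Fin m1) ℝ}
  {S : Matrix (Fin m2) (Fin n) ℝ} {Z : Matrix (Fin m2) (Fin m1) ℝ}
  {Hm : Matrix (Fin m1) (Fin m1) ℝ} {V : Submodule ℝ (Fin n → ℝ)} {sg sn ΛT ΛS νT νS : ℝ}

end elim

/-! ## definitions of TStmt (copied verbatim) -/

section

variable (c : Cst) (x : InT.den) (A0 : CooT.den) (b : VecT.den)
  (A : Matrix (Fin x.1.1) (Fin x.1.1) ℝ) (xs : Fin x.1.1 → ℝ) (sg sn : ℝ)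

end

/-! ## bits -/

theorem T14_bw {W : ℕ} (w : Fin W → Bool) (t : ℕ) (h : t < W) :
    decide (bw w t = 1) = w ⟨t, h⟩ := by
  unfold bw
  rw [dif_pos h]
  cases w ⟨t, h⟩ <;> simp

/-- bits of a sketch -/
def T14_equiv (J n b : ℕ) :
    (Fin J × Fin n × Fin (b + 1) → Bool) ≃ (Fin J → Fin n → Bool × (Fin b → Bool)) where
  toFun f := fun t i => (f (t, i, 0), fun s => f (t, i, s.succ))
  invFun g := fun y => Fin.cons (α := fun _ => Bool) (g y.1 y.2.1).1 (g y.1 y.2.1).2 y.2.2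
  left_inv f := by
    funext y
    obtain ⟨t, i, s⟩ := y
    refine Fin.cases ?_ (fun s => ?_) s
    · simp
    · simp
  right_inv g := by
    funext t i
    simp

theorem T14_pos {J n b t i s : ℕ} (ht : t < J) (hi : i < n) (hs : s < b + 1) :
    (t * n + i) * (b + 1) + s < J * n * (b + 1) := by
  have h1 : t * n + i + 1 ≤ J * n := by
    have : (t + 1) * n ≤ J * n := Nat.mul_le_mul_right n ht
    nlinarith
  have h2 : (t * n + i + 1) * (b + 1) ≤ J * n * (b + 1) := Nat.mul_le_mul_right (b + 1) h1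
  nlinarith

theorem T14_inj {a b n i j : ℕ} (hi : i < n) (hj : j < n) (h : a * n + i = b * n + j) :
    a = b ∧ i = j := by
  have h1 : (a * n + i) / n = a := by
    rw [mul_comm, Nat.mul_add_div (by omega), Nat.div_eq_of_lt hi, add_zero]
  have h2 : (b * n + j) / n = b := by
    rw [mul_comm, Nat.mul_add_div (by omega), Nat.div_eq_of_lt hj, add_zero]
  have h3 : a = b := by rw [← h1, ← h2, h]
  subst h3
  exact ⟨rfl, by omega⟩

/-- the bits of a sketch read off a window are uniform -/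
theorem T14_frac {W n J b : ℕ} (h : J * n * (b + 1) ≤ W)
    (p : (Fin J → Fin n → Bool × (Fin b → Bool)) → Prop) :
    frac (fun w : Fin W → Bool => p (skBits n J b (bw w))) = frac p := by
  let σ : Fin J × Fin n × Fin (b + 1) → Fin W := fun y =>
    ⟨((y.1 : ℕ) * n + (y.2.1 : ℕ)) * (b + 1) + (y.2.2 : ℕ),
      lt_of_lt_of_le (T14_pos y.1.2 y.2.1.2 y.2.2.2) h⟩
  have hσ : Function.Injective σ := by
    intro y z hyz
    have h1 : ((y.1 : ℕ) * n + (y.2.1 : ℕ)) * (b + 1) + (y.2.2 : ℕ) =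
        ((z.1 : ℕ) * n + (z.2.1 : ℕ)) * (b + 1) + (z.2.2 : ℕ) := congrArg Fin.val hyz
    obtain ⟨h2, h3⟩ := T14_inj y.2.2.2 z.2.2.2 h1
    obtain ⟨h4, h5⟩ := T14_inj y.2.1.2 z.2.1.2 h2
    exact Prod.ext (Fin.ext h4) (Prod.ext (Fin.ext h5) (Fin.ext h3))
  have h1 : ∀ w : Fin W → Bool, skBits n J b (bw w) =
      T14_equiv J n b (fun i => w (σ i)) := by
    intro w
    funext t i
    have e0 : ((t : ℕ) * n + (i : ℕ)) * (b + 1) < W := by
      have := T14_pos (b := b) (s := 0) t.2 i.2 (by omega)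
      omega
    have es : ∀ s : Fin b, ((t : ℕ) * n + (i : ℕ)) * (b + 1) + 1 + (s : ℕ) < W := by
      intro s
      have := T14_pos (b := b) (s := 1 + s) t.2 i.2 (by omega)
      omega
    have h2 : (skBits n J b (bw w)) t i =
        (w ⟨((t : ℕ) * n + (i : ℕ)) * (b + 1), e0⟩,
          fun s : Fin b => w ⟨((t : ℕ) * n + (i : ℕ)) * (b + 1) + 1 + (s : ℕ), es s⟩) := by
      unfold skBits
      rw [T14_bw w _ e0]
      refine Prod.ext rfl ?_
      funext s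
      exact T14_bw w _ (es s)
    rw [h2]
    refine Prod.ext ?_ ?_
    · show w _ = w (σ (t, i, 0))
      congr 1
    · funext s
      show w _ = w (σ (t, i, s.succ))
      congr 1
      apply Fin.ext
      show ((t : ℕ) * n + (i : ℕ)) * (b + 1) + 1 + (s : ℕ) =
        ((t : ℕ) * n + (i : ℕ)) * (b + 1) + ((s.succ : Fin (b + 1)) : ℕ)
      rw [Fin.val_succ]
      omega
  have h2 : (fun w : Fin W → Bool => p (skBits n J b (bw w))) =
      fun w : Fin W → Bool => (fun v => p (T14_equiv J n b v)) (fun i => w (σ i)) := by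
    funext w
    rw [h1 w]
  rw [h2, frac_inj σ hσ (fun v => p (T14_equiv J n b v))]
  exact frac_equiv (T14_equiv J n b) p

/-! ## norms -/

theorem T14_sq_nonneg {ι : Type*} [Fintype ι] (y : ι → ℝ) : 0 ≤ sq y :=
  Finset.sum_nonneg fun _ _ => sq_nonneg _

theorem T14_sgn_sq (a : Bool) : sgn a ^ 2 = 1 := by
  cases a <;> simp [sgn]

theorem T14_norm {n J b : ℕ} (w : Fin J → Fin n → Bool × (Fin b → Bool)) (y : Fin n → ℝ) :
    sq (sk w *ᵥ y) ≤ (n * J : ℝ) * sq y := by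
  have h1 : ∀ (t : Fin J) (β : Fin b → Bool), ((sk w *ᵥ y) (t, β)) ^ 2 ≤
      n * ∑ i, (if (w t i).2 = β then y i ^ 2 else 0) := by
    intro t β
    have h2 : (sk w *ᵥ y) (t, β) =
        ∑ i, (1 : ℝ) * (if (w t i).2 = β then sgn (w t i).1 * y i else 0) := by
      unfold Matrix.mulVec dotProduct sk
      refine Finset.sum_congr rfl fun i _ => ?_
      by_cases h : (w t i).2 = β
      · simp [h]
      · simp [h]
    rw [h2]
    refine (Finset.sum_mul_sq_le_sq_mul_sq _ _ _).trans ?_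
    rw [show (∑ i : Fin n, (1 : ℝ) ^ 2) = n by simp]
    refine mul_le_mul_of_nonneg_left ?_ (Nat.cast_nonneg n)
    refine Finset.sum_le_sum fun i _ => ?_
    by_cases h : (w t i).2 = β
    · simp [h, mul_pow, T14_sgn_sq]
    · simp [h]
  calc sq (sk w *ᵥ y) = ∑ t : Fin J, ∑ β : Fin b → Bool, ((sk w *ᵥ y) (t, β)) ^ 2 := by
        unfold sq
        rw [Fintype.sum_prod_type]
    _ ≤ ∑ t : Fin J, ∑ β : Fin b → Bool, (n * ∑ i, (if (w t i).2 = β then y i ^ 2 else 0)) :=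
        Finset.sum_le_sum fun t _ => Finset.sum_le_sum fun β _ => h1 t β
    _ = ∑ t : Fin J, (n * sq y : ℝ) := by
        refine Finset.sum_congr rfl fun t _ => ?_
        rw [← Finset.mul_sum, Finset.sum_comm]
        congr 1
        unfold sq
        refine Finset.sum_congr rfl fun _ _ => ?_
        simp
    _ = (n * J : ℝ) * sq y := by
        rw [Finset.sum_const, Finset.card_univ, Fintype.card_fin, nsmul_eq_mul]
        ring

/-! ## numbers -/

section num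

variable (c : Cst) (x : InT.den)

theorem T14_lt (hc : 1 ≤ c.c1) : x.1.1 < 2 ^ pl c x := by
  have h : x.1.1 < 2 ^ (Nat.log2 x.1.1 + 1) := Nat.lt_log2_self
  refine lt_of_lt_of_le h (Nat.pow_le_pow_right (by norm_num) ?_)
  unfold pl
  omega

theorem T14_log {m E : ℕ} (h : m < 2 ^ E) (hE : 0 < E) : Nat.log2 m < E := by
  by_cases hm : m = 0
  · subst hm; simpa using hE
  · exact (Nat.log2_lt hm).2 h

theorem T14_l6 (e : ℕ) : pl c x ^ e ≤ 2 ^ (e * pl c x) := by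
  calc pl c x ^ e ≤ (2 ^ pl c x) ^ e := Nat.pow_le_pow_left (Nat.lt_two_pow_self).le e
    _ = 2 ^ (e * pl c x) := by rw [← pow_mul, mul_comm]

theorem T14_pb1 (hc : 1 ≤ c.c1) (h3 : x.1.2 < x.1.1) : pb1 c x ≤ 7 * pl c x + 4 := by
  have h1 : 16 * (x.1.2 + 1) * pl c x ^ 6 < 2 ^ (7 * pl c x + 4) := by
    calc 16 * (x.1.2 + 1) * pl c x ^ 6 ≤ 16 * x.1.1 * pl c x ^ 6 := by
          gcongr
          exact Nat.succ_le_of_lt h3
      _ < 16 * 2 ^ pl c x * 2 ^ (6 * pl c x) := by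
          refine lt_of_le_of_lt (Nat.mul_le_mul_left _ (T14_l6 c x 6)) ?_
          refine Nat.mul_lt_mul_of_pos_right ?_ (by positivity)
          exact Nat.mul_lt_mul_of_pos_left (T14_lt c x hc) (by norm_num)
      _ = 2 ^ (7 * pl c x + 4) := by
          rw [show (16 : ℕ) = 2 ^ 4 by norm_num, ← pow_add, ← pow_add]
          congr 1
          ring
  have := T14_log h1 (by omega)
  unfold pb1
  omega

theorem T14_pb2 (hc : 1 ≤ c.c1) (h3 : x.1.2 < x.1.1) : pb2 c x ≤ 14 * pl c x + 10 := by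
  have h0 : pm1 c x ≤ 2 ^ (8 * pl c x + 4) := by
    unfold pm1
    calc pl c x * 2 ^ pb1 c x ≤ 2 ^ pl c x * 2 ^ (7 * pl c x + 4) :=
          Nat.mul_le_mul (Nat.lt_two_pow_self).le
            (Nat.pow_le_pow_right (by norm_num) (T14_pb1 c x hc h3))
      _ = 2 ^ (8 * pl c x + 4) := by
          rw [← pow_add]; congr 1; ring
  have h1 : 16 * (pm1 c x + 1) * pl c x ^ 6 < 2 ^ (14 * pl c x + 10) := by
    calc 16 * (pm1 c x + 1) * pl c x ^ 6 ≤
          16 * (2 ^ (8 * pl c x + 4) + 2 ^ (8 * pl c x + 4)) * 2 ^ (6 * pl c x) := by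
          have := T14_l6 c x 6
          have h2 : 1 ≤ 2 ^ (8 * pl c x + 4) := Nat.one_le_two_pow
          gcongr
      _ = 2 ^ (14 * pl c x + 9) := by
          rw [show (16 : ℕ) = 2 ^ 4 by norm_num, ← two_mul, ← pow_succ', ← pow_add, ← pow_add]
          congr 1
          ring
      _ < 2 ^ (14 * pl c x + 10) := Nat.pow_lt_pow_right (by norm_num) (by omega)
  have := T14_log h1 (by omega)
  unfold pb2
  omega

theorem T14_win {b : ℕ} (hc : 100 ≤ c.c1) (hb : b ≤ 14 * pl c x + 10) :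
    pl c x * x.1.1 * (b + 1) ≤ pW c x := by
  have hl : 100 ≤ pl c x := by unfold pl; omega
  unfold pW
  calc pl c x * x.1.1 * (b + 1) ≤ pl c x * x.1.1 * (pl c x * pl c x) := by
        gcongr
        nlinarith
    _ = x.1.1 * pl c x ^ 3 := by ring
    _ ≤ x.1.1 * pl c x ^ 8 := by
        refine Nat.mul_le_mul_left _ (Nat.pow_le_pow_right (by omega) (by norm_num))

theorem T14_delta {d m b : ℕ} (hl : 1 ≤ pl c x) (hd : d ≤ m)
    (hb : b = Nat.log2 (16 * (m + 1) * pl c x ^ 6) + 1) :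
    (16 * (d + 1) * (pl c x : ℕ) / (1 / (pl c x : ℝ) ^ 5) : ℝ) ≤ 2 ^ b := by
  have h1 : 16 * (m + 1) * pl c x ^ 6 < 2 ^ b := by
    rw [hb]; exact Nat.lt_log2_self
  have h2 : (16 * (m + 1) * pl c x ^ 6 : ℝ) ≤ 2 ^ b := by exact_mod_cast h1.le
  have h3 : (0 : ℝ) < pl c x := by exact_mod_cast hl
  have h4 : (d : ℝ) ≤ m := by exact_mod_cast hd
  refine le_trans ?_ h2
  rw [div_div_eq_mul_div, div_one]
  have : (16 * (d + 1) * (pl c x : ℝ) * (pl c x : ℝ) ^ 5 : ℝ) = 16 * (d + 1) * pl c x ^ 6 := by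
    ring
  rw [this]
  gcongr

theorem T14_two (a b : ℕ) : 2 * 2 ^ a * 2 ^ b = 2 ^ (a + b + 1) := by
  rw [pow_succ, pow_add]; ring

theorem T14_big (hc : 10 ≤ c.c1) :
    2 + 2 * (16 * (x.1.1 + 1 : ℝ)) ^ (pl c x + 1) * (x.1.1 * pl c x : ℝ) ≤
      2 ^ (pl c x ^ 3) := by
  have hl : 10 ≤ pl c x := by unfold pl; omega
  have h1 : x.1.1 + 1 ≤ 2 ^ pl c x := T14_lt c x (by omega)
  have h2 : pl c x ≤ 2 ^ pl c x := (Nat.lt_two_pow_self).le
  have h3 : 2 + 2 * (16 * (x.1.1 + 1)) ^ (pl c x + 1) * (x.1.1 * pl c x) ≤ 2 ^ (pl c x ^ 3) := by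
    calc 2 + 2 * (16 * (x.1.1 + 1)) ^ (pl c x + 1) * (x.1.1 * pl c x) ≤
        2 + 2 * (16 * 2 ^ pl c x) ^ (pl c x + 1) * (2 ^ pl c x * 2 ^ pl c x) := by
          have h4 : x.1.1 ≤ 2 ^ pl c x := (Nat.le_succ _).trans h1
          gcongr
      _ = 2 + 2 ^ ((pl c x + 4) * (pl c x + 1) + 2 * pl c x + 1) := by
          rw [show (16 : ℕ) = 2 ^ 4 by norm_num, ← pow_add, ← pow_add, ← pow_mul]
          rw [T14_two]
          congr 2
          ring
      _ ≤ 2 ^ ((pl c x + 4) * (pl c x + 1) + 2 * pl c x + 1) +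
            2 ^ ((pl c x + 4) * (pl c x + 1) + 2 * pl c x + 1) := by
          refine Nat.add_le_add_right ?_ _
          calc 2 = 2 ^ 1 := by norm_num
            _ ≤ _ := Nat.pow_le_pow_right (by norm_num) (by omega)
      _ = 2 ^ ((pl c x + 4) * (pl c x + 1) + 2 * pl c x + 2) := by
          rw [← two_mul, ← pow_succ']
      _ ≤ 2 ^ (pl c x ^ 3) := by
          refine Nat.pow_le_pow_right (by norm_num) ?_
          have h5 : 10 * (pl c x * pl c x) ≤ pl c x ^ 3 := by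
            calc 10 * (pl c x * pl c x) ≤ pl c x * (pl c x * pl c x) :=
                  Nat.mul_le_mul_right _ hl
              _ = pl c x ^ 3 := by ring
          nlinarith
  exact_mod_cast h3

end num

/-! ## the theorems -/

section

variable {mm : ℕ → ℕ} (Φ : Lib mm) (c : Cst) (x : InT.den) (A0 : CooT.den) (b : VecT.den)
  (A : Matrix (Fin x.1.1) (Fin x.1.1) ℝ) (xs : Fin x.1.1 → ℝ) (sg sn : ℝ)

theorem t0_frac (hc : Big c) (hI : InOK x A0 b A xs sg sn) :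
    frac (fun w : Fin (pW c x) → Bool =>
      ¬ GoodT0 c x A sg (Φ.sk (x.1.1, (pl c x, (pb1 c x, bw w))))) ≤ 1 / (pl c x : ℝ) ^ 5 := by
  have hc1 := hc.c1
  have hl : 100 ≤ pl c x := by unfold pl; omega
  have hlR : (100 : ℝ) ≤ pl c x := by exact_mod_cast hl
  have hl5 : (1 : ℝ) ≤ (pl c x : ℝ) ^ 5 := one_le_pow₀ (by linarith)
  obtain ⟨V, hV1, hV2⟩ := hI.headA
  have hwin : pl c x * x.1.1 * (pb1 c x + 1) ≤ pW c x :=
    T14_win c x (by omega) (by have := T14_pb1 c x (by omega) hI.h3; omega)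
  have hemb := embed x.1.1 (pl c x) (pb1 c x) x.1.2 V (1 / (pl c x : ℝ) ^ 5) (by positivity)
    (by rw [div_le_one (by positivity)]; exact hl5) hV1
    (lt_trans hI.h3 (T14_lt c x (by omega)))
    (T14_delta c x (by omega) le_rfl rfl)
  rw [← T14_frac hwin] at hemb
  refine (frac_mono ?_).trans hemb
  intro w hw h
  apply hw
  clear hw hemb
  obtain ⟨hs1, hs2⟩ := Φ.sk_eq x.1.1 (pl c x) (pb1 c x) (bw w)
  refine ⟨hs1, fun y => ?_, V, hV1, hV2, fun v hv => ?_⟩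
  · exact (hs2 y).le.trans (T14_norm _ y)
  · refine (h v hv).trans (le_of_eq ?_)
    congr 1
    exact (hs2 v).symm

theorem s0_frac (hc : Big c) (hI : InOK x A0 b A xs sg sn) (g : GT.den)
    (hP : g.1 = (gl0 c x b).1) (hb : g.2.2.1 = b) (hT : GoodT0 c x A sg g.2.1.2.1) :
    frac (fun w : Fin (pW c x) → Bool =>
      ¬ Setup1 Φ c x A0 (gl2 Φ c x A0 g (bw w)) A xs sg sn) ≤ 1 / (pl c x : ℝ) ^ 5 := by
  have hc1 := hc.c1
  have hl : 100 ≤ pl c x := by unfold pl; omega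
  have hlR : (100 : ℝ) ≤ pl c x := by exact_mod_cast hl
  have hl5 : (1 : ℝ) ≤ (pl c x : ℝ) ^ 5 := one_le_pow₀ (by linarith)
  obtain ⟨hT1, hT2, V, hV1, hV2, hV3⟩ := hT
  have hwin : pl c x * x.1.1 * (pb2 c x + 1) ≤ pW c x :=
    T14_win c x (by omega) (T14_pb2 c x (by omega) hI.h3)
  obtain ⟨T, hTdef⟩ : ∃ T : Matrix (Fin x.1.1) (Fin (pm1 c x)) ℝ,
    T = (toM (pm1 c x) x.1.1 (cooA g.2.1.2.1))ᵀ := ⟨_, rfl⟩
  obtain ⟨U, hU⟩ : ∃ U : Matrix (Fin x.1.1) (Fin (pm1 c x)) ℝ, U = A * T := ⟨_, rfl⟩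
  have hR1 : Module.finrank ℝ (LinearMap.range U.mulVecLin) ≤ pm1 c x := by
    refine (LinearMap.finrank_range_le _).trans (le_of_eq ?_)
    simp
  have hR2 : Module.finrank ℝ (LinearMap.range U.mulVecLin) ≤ x.1.1 := by
    refine (Submodule.finrank_le _).trans (le_of_eq ?_)
    simp
  have hemb := embed x.1.1 (pl c x) (pb2 c x) _ (LinearMap.range U.mulVecLin)
    (1 / (pl c x : ℝ) ^ 5) (by positivity)
    (by rw [div_le_one (by positivity)]; exact hl5) le_rfl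
    (lt_of_le_of_lt hR2 (T14_lt c x (by omega)))
    (T14_delta c x (by omega) hR1 rfl)
  rw [← T14_frac hwin] at hemb
  refine (frac_mono ?_).trans hemb
  intro w hw h
  apply hw
  clear hw hemb
  obtain ⟨hs1, hs2⟩ := Φ.sk_eq x.1.1 (pl c x) (pb2 c x) (bw w)
  obtain ⟨S0, hS0⟩ : ∃ S0, S0 = Φ.sk (x.1.1, (pl c x, (pb2 c x, bw w))) := ⟨_, rfl⟩
  rw [← hS0] at hs1 hs2
  have hSk : SkOK x.1.1 (pl c x) (pm2 c x) S0 := hs1
  have hps : pm2 c x ≤ 2 ^ ps c x := by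
    unfold ps
    refine le_trans ?_ (Nat.lt_log2_self (n := phcap c x + pm2 c x + pk3 c x)).le
    omega
  have hps1 : pm1 c x ≤ 2 ^ ps c x := by
    refine le_trans ?_ hps
    have h1 : 16 * (pm1 c x + 1) * pl c x ^ 6 < 2 ^ pb2 c x := by
      unfold pb2; exact Nat.lt_log2_self
    have h2 : 1 ≤ pl c x ^ 6 := Nat.one_le_pow _ _ (by omega)
    have h3 : 16 * (pm1 c x + 1) * 1 ≤ 16 * (pm1 c x + 1) * pl c x ^ 6 :=
      Nat.mul_le_mul_left _ h2
    have h4 : 1 * 2 ^ pb2 c x ≤ pl c x * 2 ^ pb2 c x := Nat.mul_le_mul_right _ (by omega)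
    unfold pm2
    omega
  obtain ⟨Hm, hval⟩ := elimE_val Φ x.1.1 (pl c x) (ps c x) (pm1 c x) (pm2 c x) A0 g.2.1.2.1 S0
    hI.Aok hT1 hSk hps1 hps
  obtain ⟨S, hSdef⟩ : ∃ S : Matrix (Fin (pm2 c x)) (Fin x.1.1) ℝ,
    S = toM (pm2 c x) x.1.1 (cooA S0) := ⟨_, rfl⟩
  obtain ⟨Z, hZ⟩ : ∃ Z : Matrix (Fin (pm2 c x)) (Fin (pm1 c x)) ℝ, Z = S * U := ⟨_, rfl⟩
  obtain ⟨hH, hg, hG, hUv, hSv, hEv⟩ := hval A U S Z hI.matA.symm (by rw [hU, hTdef]) hSdef hZ
  obtain ⟨e1, e2, e3, e4, e5, e6⟩ := elimE_ok Φ x.1.1 (pl c x) (ps c x) (pm1 c x) (pm2 c x) A0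
    g.2.1.2.1 S0 hI.Aok hT1 hSk
  have hBv := elimB_val Φ x.1.1 (pl c x) (ps c x) (pm1 c x) (pm2 c x) A0 g.2.1.2.1 S0 b hI.Aok
    hT1 hSk _ rfl
  have hXv := fun v => elimX_val Φ x.1.1 (pl c x) (ps c x) (pm1 c x) (pm2 c x) A0 g.2.1.2.1 S0
    b v hI.Aok hT1 hSk _ rfl
  obtain ⟨E, hE⟩ : ∃ E, E = elimE Φ x.1.1 (pl c x) (ps c x) (pm1 c x) (pm2 c x) A0
    g.2.1.2.1 S0 := ⟨_, rfl⟩
  rw [← hE] at hG hUv hSv hEv e1 e2 e3 e4 e5 e6 hBv hXv
  have hgl : gl2 Φ c x A0 g (bw w) = (g.1, ((E, (g.2.1.2.1, S0)), (g.2.2.1,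
      elimB Φ E S0 g.2.2.1))) := by
    unfold gl2
    rw [hE, hS0]
  have hEn : En x (gl2 Φ c x A0 g (bw w)) = A - U * (Hm * Zᵀ) * (S * A) := by
    rw [hgl]
    exact hEv
  have hSS : ∀ v, sq (S *ᵥ v) = sq (sk (skBits x.1.1 (pl c x) (pb2 c x) (bw w)) *ᵥ v) := by
    intro v
    rw [hSdef]
    exact hs2 v
  have hΛ : (0 : ℝ) ≤ (16 * (x.1.1 + 1 : ℝ)) ^ (pl c x + 1) := by positivity
  have hSU : ∀ y, sq (U *ᵥ y) ≤ (16 * (x.1.1 + 1 : ℝ)) ^ (pl c x + 1) *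
      sq (S *ᵥ (U *ᵥ y)) := by
    intro y
    rw [hSS]
    exact h (U *ᵥ y) ⟨y, rfl⟩
  have hνS : ∀ v, sq (S *ᵥ v) ≤ (x.1.1 * pl c x : ℝ) * sq v := by
    intro v
    rw [hSS]
    exact T14_norm _ v
  have hνT : ∀ v, sq (Tᵀ *ᵥ v) ≤ (x.1.1 * pl c x : ℝ) * sq v := by
    intro v
    rw [hTdef, Matrix.transpose_transpose]
    exact hT2 v
  have hTV : ∀ v ∈ V, sq v ≤ (16 * (x.1.1 + 1 : ℝ)) ^ (pl c x + 1) * sq (Tᵀ *ᵥ v) := by
    intro v hv
    rw [hTdef, Matrix.transpose_transpose]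
    exact hV3 v hv
  have hup := fun v => elim1 hU hZ hEn hH hg hV2 hI.sg_pos.le hΛ hTV hνT hΛ hSU hνS v
  have hlow := fun v => elim2 hU hZ hEn hH hg hSU hI.sn_pos.le hI.lowA v
  have hhead := elim3 (k := x.1.2) hEn hV2 hV1
  have hz := fun v => elim0 (P := U * (Hm * Zᵀ) * S) hU rfl hEn xs (toV x.1.1 b) v hI.sol
  have hbp : toV x.1.1 (gl2 Φ c x A0 g (bw w)).2.2.2 =
      toV x.1.1 b - (U * (Hm * Zᵀ) * S) *ᵥ toV x.1.1 b := by
    rw [hgl]
    show toV x.1.1 (elimB Φ E S0 g.2.2.1) = _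
    rw [hb, hBv, hUv, hG, ← hSdef, Matrix.mulVec_mulVec, Matrix.mulVec_mulVec, Matrix.mul_assoc,
      Matrix.mul_assoc]
  refine
    { gok := ?_
      simple := hI.simple
      matA := hI.matA
      lowA := hI.lowA
      sn_pos := hI.sn_pos
      sg_pos := hI.sg_pos
      sg_le := hI.sg_le
      h1 := hI.h1
      h2 := hI.h2
      h3 := hI.h3
      h4 := hI.h4
      h5 := hI.h5
      h6 := hI.h6
      head := hhead
      up := ?_
      low := hlow
      bp := hbp.trans (hz 0).2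
      outx := ?_ }
  · rw [hgl]
    refine
      { hP := ?_
        hQ := ?_
        dim := e2
        ok := e1
        mid := e3
        lst := e4
        Aok := hI.Aok
        len := hI.len
        row := e5
        col := e6
        hT := hT1
        hS := hSk
        lam := ?_
        lamE := ?_ }
    · show g.1.1 = parN c x
      rw [hP]
      rfl
    · show g.1.2.1 = parQ c x
      rw [hP]
      rfl
    · intro i
      show (0 : ℝ) ≤ g.1.2.2 i
      rw [hP]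
      exact le_refl (0 : ℝ)
    · intro i _
      show g.1.2.2 i = g.1.2.2 0 * ((pK c x : ℝ)⁻¹) ^ i
      rw [hP]
      show (0 : ℝ) = 0 * ((pK c x : ℝ)⁻¹) ^ i
      rw [zero_mul]
  · intro v
    refine (hup v).trans ?_
    have h1 := T14_big c x (by omega)
    have h2 : (0 : ℝ) ≤ 2 + 2 * (16 * (x.1.1 + 1 : ℝ)) ^ (pl c x + 1) * (x.1.1 * pl c x : ℝ) := by
      positivity
    have h3 : (4 : ℝ) ^ (pl c x ^ 3) = 2 ^ (pl c x ^ 3) * 2 ^ (pl c x ^ 3) := by
      rw [← mul_pow]; norm_num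
    rw [h3]
    have h4 := hI.sg_pos.le
    have h5 := T14_sq_nonneg v
    gcongr
  · intro v
    rw [hbp, ← (hz (toV x.1.1 v)).1, hgl]
    show A *ᵥ (toV x.1.1 (elimX Φ E g.2.1.2.1 S0 g.2.2.1 v) - xs) = _
    rw [hb, hXv v, hG, ← hSdef, ← hTdef, hI.matA]

end

end A55
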