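import Pool.Agent.Lib_helper50.A55.TDefs
import Pool.Agent.Lib_helper50.A55.B.T11
import Pool.Agent.Lib_helper50.A55.B.T13
import Pool.Agent.Lib_helper50.A55.B.T14
import Pool.Agent.Lib_helper50.A55.B.T15
import Pool.Agent.Lib_helper50.A55.IDefs
import Pool.Agent.Lib_helper78.A55.P_Q
import Pool.Agent.Lib_helper78.A55T.F12
open Matrix Finset

namespace A55

section

variable {mm : ℕ → ℕ} (Φ : Lib mm) (c : Cst) (x : InT.den) (A0 : CooT.den) (g : GT.den)
  (A : Matrix (Fin x.1.1) (Fin x.1.1) ℝ) (xs : Fin x.1.1 → ℝ) (sg sn : ℝ) (cs : ℕ)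

end

section

variable {mm : ℕ → ℕ} (Φ : Lib mm) (c : Cst) (x : InT.den) (A0 : CooT.den) (b : VecT.den)
  (A : Matrix (Fin x.1.1) (Fin x.1.1) ℝ) (xs : Fin x.1.1 → ℝ) (sg sn : ℝ)

/-! ## block T16 -/

theorem T16_stage (r : ℕ → ℕ) (g : GT.den) (st : StT.den) (hg : gP g 23 = pW c x) (j : ℕ) :
    mstep Φ c x A0 (2 * j + 3 + 1) (mstep Φ c x A0 (2 * j + 3) (g, st) (win (pW c x) r (2 * j + 3)))
      (win (pW c x) r (2 * j + 3 + 1)) = (g, stage Φ g r j st) := by
  have e1 : (2 * j + 3 - 3) = 2 * j := by omega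
  have e2 : (2 * j + 3 + 1 - 3) = 2 * j + 1 := by omega
  have e3 : (2 * j) % 2 = 0 := by omega
  have e4 : ¬ (2 * j + 1) % 2 = 0 := by omega
  have e5 : (2 * j) / 2 = j := by omega
  have e6 : (2 * j + 1) / 2 = j := by omega
  unfold mstep
  rw [if_neg (by omega), if_neg (by omega), if_neg (by omega), if_neg (by omega),
    if_neg (by omega), if_neg (by omega)]
  simp only
  unfold step stage
  rw [e1, e2, if_pos e3, if_neg e4, e5, e6, hg]

theorem T16_loop (r : ℕ → ℕ) (J : ℕ) :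
    mrun Φ c x A0 b r (2 * J + 3) =
      (glob Φ c x A0 b r, iterV (stage Φ (glob Φ c x A0 b r) r) (start Φ (glob Φ c x A0 b r)) J) := by
  induction J with
  | zero => rfl
  | succ J ih =>
    have e : mrun Φ c x A0 b r (2 * (J + 1) + 3) =
        mstep Φ c x A0 (2 * J + 3 + 1) (mstep Φ c x A0 (2 * J + 3) (mrun Φ c x A0 b r (2 * J + 3))
          (win (pW c x) r (2 * J + 3))) (win (pW c x) r (2 * J + 3 + 1)) := rfl
    rw [e, ih, T16_stage Φ c x A0 r _ _ rfl, iterV_succ]

/-- the state after the steps describes the algorithm -/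
theorem mrun_eq (r : ℕ → ℕ) :
    mrun Φ c x A0 b r (2 * (pl c x ^ 3 + 1) + 3) =
      (glob Φ c x A0 b r, loop Φ (glob Φ c x A0 b r) r) := by
  rw [T16_loop]
  rfl

/-- a window of bits as an array -/
def T16_fw (W : ℕ) (w : ℕ → Bool) : ℕ → ℕ := fun t => if t < W then (w t).toNat else 0

/-- the good states -/
def T16_Good (i : ℕ) (X : GT.den × StT.den) : Prop :=
  if i = 0 then X = (gl0 c x b, StT.default)
  else if i = 1 then X.1.1 = (gl0 c x b).1 ∧ X.1.2.2.1 = b ∧ GoodT0 c x A sg X.1.2.1.2.1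
  else if i = 2 then Setup1 Φ c x A0 X.1 A xs sg sn ∧ X.1.2.2.1 = b
  else (toV x.1.1 X.1.2.2.2 = 0 ∧
      OutOK x xs (elimX Φ (gE X.1) X.1.2.1.2.1 X.1.2.1.2.2 b (fun _ => 0))) ∨
    (toV x.1.1 X.1.2.2.2 ≠ 0 ∧ Setup Φ c x A0 X.1 A xs sg sn ∧
      (if (i - 3) % 2 = 0 then Good0 Φ c x A0 X.1 xs sg 400 ((i - 3) / 2) X.2
        else Good1 Φ c x A0 X.1 xs sg 400 ((i - 3) / 2) X.2))

theorem T16_frac_mono {Ω : Type*} [Fintype Ω] {p q : Ω → Prop} (h : ∀ w, p w → q w) :
    frac p ≤ frac q := by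
  classical
  unfold frac
  apply div_le_div_of_nonneg_right _ (Nat.cast_nonneg _)
  have : (Finset.univ.filter p).card ≤ (Finset.univ.filter q).card :=
    Finset.card_le_card (fun w hw => by
      simp only [Finset.mem_filter, Finset.mem_univ, true_and] at hw ⊢
      exact h w hw)
  exact_mod_cast this

theorem T16_frac_false {Ω : Type*} [Fintype Ω] {p : Ω → Prop} (h : ∀ w, ¬ p w) :
    frac p = 0 := by
  classical
  unfold frac
  have : (Finset.univ.filter p) = ∅ := by
    ext w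
    simp [h w]
  rw [this]
  simp

theorem T16_pl (hc : Big c) : (10 : ℝ) ^ 6 ≤ pl c x := by
  have h1 := hc.c1
  have : 10 ^ 6 ≤ pl c x := by
    unfold pl
    omega
  exact_mod_cast this

theorem T16_fw_bw {W : ℕ} (w : Fin W → Bool) :
    T16_fw W (fun t => if h : t < W then w ⟨t, h⟩ else false) = bw w := by
  funext t
  unfold T16_fw bw
  by_cases h : t < W
  · simp [h]
  · simp [h]

theorem T16_out0 (g : GT.den) (hs : Setup1 Φ c x A0 g A xs sg sn) (hb : g.2.2.1 = b)
    (h0 : toV x.1.1 g.2.2.2 = 0) :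
    OutOK x xs (elimX Φ (gE g) g.2.1.2.1 g.2.1.2.2 b (fun _ => 0)) := by
  have h1 := hs.outx (fun _ => 0)
  have h2 : toV x.1.1 (fun _ => (0 : ℝ)) = 0 := rfl
  rw [hb, h0, h2, Matrix.mulVec_zero, sub_zero] at h1
  have h3 := hs.lowA (toV x.1.1 (elimX Φ (gE g) g.2.1.2.1 g.2.1.2.2 b (fun _ => 0)) - xs)
  rw [h1] at h3
  have h4 : sq (0 : Fin x.1.1 → ℝ) = 0 := by simp [sq]
  rw [h4] at h3
  have h5 : sq (toV x.1.1 (elimX Φ (gE g) g.2.1.2.1 g.2.1.2.2 b (fun _ => 0)) - xs) ≤ 0 := by
    by_contra hlt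
    have := mul_pos hs.sn_pos (not_le.mp hlt)
    linarith
  have h6 : 0 ≤ sq xs := Finset.sum_nonneg (fun i _ => sq_nonneg _)
  unfold OutOK
  have : (0 : ℝ) ≤ (1 / 4) ^ x.2.2.2 * sq xs := by positivity
  linarith

theorem T16_step (hc : Big c) (hI : InOK x A0 b A xs sg sn) (hcB : 600 + 2 * c.ch ≤ c.cB)
    (i : ℕ) (hi : i < 2 * (pl c x ^ 3 + 1) + 3) (X : GT.den × StT.den)
    (hX : T16_Good Φ c x A0 b A xs sg sn i X) :
    frac (fun w : Fin (pW c x) → Bool =>
      ¬ T16_Good Φ c x A0 b A xs sg sn (i + 1) (mstep Φ c x A0 i X (bw w))) ≤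
      50 / (pl c x : ℝ) ^ 5 := by
  have hl : (0 : ℝ) < pl c x := lt_of_lt_of_le (by norm_num) (T16_pl c x hc)
  have h50 : 1 / (pl c x : ℝ) ^ 5 ≤ 50 / (pl c x : ℝ) ^ 5 :=
    div_le_div_of_nonneg_right (by norm_num) (by positivity)
  obtain ⟨g, st⟩ := X
  unfold T16_Good at hX
  by_cases h0 : i = 0
  · subst h0
    rw [if_pos rfl] at hX
    obtain ⟨rfl, rfl⟩ := Prod.mk.injEq _ _ _ _ ▸ hX
    refine le_trans (T16_frac_mono ?_) (le_trans (t0_frac Φ c x A0 b A xs sg sn hc hI) h50)
    intro w hw hg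
    apply hw
    unfold T16_Good
    rw [if_neg (by omega), if_pos rfl]
    exact ⟨rfl, rfl, hg⟩
  rw [if_neg h0] at hX
  by_cases h1 : i = 1
  · subst h1
    rw [if_pos rfl] at hX
    obtain ⟨hP, hb, hT⟩ := hX
    refine le_trans (T16_frac_mono ?_)
      (le_trans (s0_frac Φ c x A0 b A xs sg sn hc hI g hP hb hT) h50)
    intro w hw hg
    apply hw
    unfold T16_Good
    rw [if_neg (by omega), if_neg (by omega), if_pos rfl]
    exact ⟨hg, hb⟩
  rw [if_neg h1] at hX
  by_cases h2 : i = 2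
  · subst h2
    rw [if_pos rfl] at hX
    obtain ⟨hs, hb⟩ := hX
    by_cases hb0 : toV x.1.1 g.2.2.2 = 0
    · rw [T16_frac_false]
      · positivity
      · intro w hw
        apply hw
        unfold T16_Good
        rw [if_neg (by omega), if_neg (by omega), if_neg (by omega)]
        exact Or.inl ⟨hb0, T16_out0 Φ c x A0 b A xs sg sn g hs hb hb0⟩
    · refine le_trans (T16_frac_mono ?_)
        (le_trans (top_frac Φ c x A0 A xs sg sn hc g hs hb0) h50)
      intro w hw hg
      apply hw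
      unfold T16_Good
      rw [if_neg (by omega), if_neg (by omega), if_neg (by omega)]
      refine Or.inr ⟨hb0, hg, ?_⟩
      rw [if_pos (by omega)]
      exact start_good Φ c x A0 _ A xs sg sn 400 hc hg le_rfl
  rw [if_neg h2] at hX
  have hm : ∀ w, mstep Φ c x A0 i (g, st) w = (g, step Φ g (i - 3) st w) := by
    intro w
    unfold mstep
    rw [if_neg h0, if_neg h1, if_neg h2]
  rcases hX with hX | ⟨hb0, hs, hG⟩
  · rw [T16_frac_false]
    · positivity
    · intro w hw
      apply hw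
      rw [hm]
      unfold T16_Good
      rw [if_neg (by omega), if_neg (by omega), if_neg (by omega)]
      exact Or.inl hX
  · by_cases hpar : (i - 3) % 2 = 0
    · rw [if_pos hpar] at hG
      refine le_trans (T16_frac_mono ?_) (step0_frac Φ c x A0 g A xs sg sn 400 hc hs (by omega)
        ((i - 3) / 2) (by omega) st hG)
      intro w hw hg
      apply hw
      rw [hm]
      unfold T16_Good
      rw [if_neg (by omega), if_neg (by omega), if_neg (by omega)]
      refine Or.inr ⟨hb0, hs, ?_⟩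
      rw [if_neg (by omega)]
      have e1 : (i + 1 - 3) / 2 = (i - 3) / 2 := by omega
      rw [e1]
      unfold step
      rw [if_pos hpar]
      exact hg
    · rw [if_neg hpar] at hG
      refine le_trans (T16_frac_mono ?_) (step1_frac Φ c x A0 g A xs sg sn 400 hc hs le_rfl
        ((i - 3) / 2) (by omega) st hG)
      intro w hw hg
      apply hw
      rw [hm]
      unfold T16_Good
      rw [if_neg (by omega), if_neg (by omega), if_neg (by omega)]
      refine Or.inr ⟨hb0, hs, ?_⟩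
      rw [if_pos (by omega)]
      have e1 : (i + 1 - 3) / 2 = (i - 3) / 2 + 1 := by omega
      rw [e1]
      unfold step
      rw [if_neg hpar]
      exact hg

theorem T16_rec (m : ℕ) (r : Fin m → Bool) (I : ℕ) (len : ℕ → ℕ) (hlen : ∀ i, len i = pW c x) :
    (Nat.rec (gl0 c x b, StT.default) (fun i X => mstep Φ c x A0 i X
      (T16_fw (pW c x) fun t => if h : (∑ i' ∈ range i, len i') + t < m then r ⟨_, h⟩ else false))
      I : GT.den × StT.den) = mrun Φ c x A0 b (bw r) I := by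
  have hw : ∀ i, (T16_fw (pW c x) fun t =>
      if h : (∑ i' ∈ range i, len i') + t < m then r ⟨_, h⟩ else false) =
      win (pW c x) (bw r) i := by
    intro i
    have hs : ∑ i' ∈ range i, len i' = i * pW c x := by
      rw [Finset.sum_congr rfl (fun j _ => hlen j)]
      simp
    funext t
    unfold T16_fw win tabV bw
    by_cases ht : t < pW c x
    · rw [if_pos ht, if_pos ht]
      beta_reduce
      by_cases h : i * pW c x + t < m
      · have h' : (∑ i' ∈ range i, len i') + t < m := by rw [hs]; exact h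
        rw [dif_pos h', dif_pos h]
        congr 3
        rw [hs]
      · have h' : ¬ (∑ i' ∈ range i, len i') + t < m := by rw [hs]; exact h
        rw [dif_neg h', dif_neg h]
        rfl
    · rw [if_neg ht, if_neg ht]
      rfl
  unfold mrun
  induction I with
  | zero => rfl
  | succ I ih =>
    simp only
    rw [ih, hw I]

theorem T16_const (hc : Big c) :
    ((2 * (pl c x ^ 3 + 1) + 3 : ℕ) : ℝ) * (50 / (pl c x : ℝ) ^ 5) ≤ 1 / 3 := by
  have hl := T16_pl c x hc
  push_cast
  generalize (pl c x : ℝ) = l at hl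
  have hl0 : (0 : ℝ) < l := lt_of_lt_of_le (by norm_num) hl
  rw [mul_div_assoc', div_le_div_iff₀ (by positivity) (by norm_num)]
  have h1 : (1 : ℝ) ≤ l ^ 3 := one_le_pow₀ (by linarith)
  have h2 : (10 : ℝ) ^ 12 ≤ l ^ 2 := by nlinarith
  nlinarith [mul_le_mul_of_nonneg_left h2 (by positivity : (0 : ℝ) ≤ l ^ 3)]

/-- THE PROBABILITY OF SUCCESS -/
theorem alg_frac (hc : Big c) (hI : InOK x A0 b A xs sg sn) (hcB : 600 + 2 * c.ch ≤ c.cB)
    (m : ℕ) (hm : (2 * (pl c x ^ 3 + 1) + 3) * pW c x ≤ m) :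
    frac (fun r : Fin m → Bool => ¬ OutOK x xs (algC Φ c x A0 b (bw r))) ≤ 1 / 3 := by
  have h := seq (GT.den × StT.den) (2 * (pl c x ^ 3 + 1) + 3) m (fun _ => pW c x)
    (fun i X w => mstep Φ c x A0 i X (T16_fw (pW c x) w))
    (T16_Good Φ c x A0 b A xs sg sn) (gl0 c x b, StT.default) (50 / (pl c x : ℝ) ^ 5)
    (by unfold T16_Good; rw [if_pos rfl])
    (by
      intro i X w w' hw
      have : T16_fw (pW c x) w = T16_fw (pW c x) w' := by
        funext t
        unfold T16_fw
        by_cases ht : t < pW c x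
        · rw [if_pos ht, if_pos ht, hw t ht]
        · rw [if_neg ht, if_neg ht]
      simp only [this])
    (by
      intro i hi X hX
      simp only [T16_fw_bw]
      exact T16_step Φ c x A0 b A xs sg sn hc hI hcB i hi X hX)
    (by simpa using hm)
  refine le_trans (T16_frac_mono ?_) (le_trans h (T16_const c x hc))
  intro r hr hG
  apply hr
  have hrec := T16_rec Φ c x A0 b m r (2 * (pl c x ^ 3 + 1) + 3) (fun _ => pW c x)
    (fun _ => rfl)
  rw [hrec, mrun_eq] at hG
  unfold T16_Good at hG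
  rw [if_neg (by omega), if_neg (by omega), if_neg (by omega)] at hG
  unfold algC
  simp only
  rcases hG with ⟨hb0, hout⟩ | ⟨hb0, hs, hG⟩
  · rw [if_neg]
    · exact hout
    · rw [Φ.dot_eq]
      have : toV x.1.1 (glob Φ c x A0 b (bw r)).2.2.2 = 0 := hb0
      rw [this]
      simp
  · rw [if_pos]
    · rw [if_pos (by omega)] at hG
      have e1 : (2 * (pl c x ^ 3 + 1) + 3 - 3) / 2 = pl c x ^ 3 + 1 := by omega
      rw [e1] at hG
      exact last_done Φ c x A0 _ A xs sg sn 400 hc hs _ hG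
    · rw [Φ.dot_eq]
      have hne : toV x.1.1 (glob Φ c x A0 b (bw r)).2.2.2 ≠ 0 := hb0
      generalize toV x.1.1 (glob Φ c x A0 b (bw r)).2.2.2 = v at hne
      have h1 : 0 ≤ v ⬝ᵥ v := by
        unfold dotProduct
        exact Finset.sum_nonneg (fun i _ => mul_self_nonneg _)
      refine lt_of_le_of_ne h1 ?_
      intro h2
      exact hne (dotProduct_self_eq_zero.mp h2.symm)

end

end A55
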